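import Mathlib

/-!
# The set of limit points of a slowly moving sequence
-/

set_option autoImplicit false

namespace Pool.Agent.R956

open Filter Topology Set

variable {P : Type*} [TopologicalSpace P]

/-- limits of subsequences -/
def Lim (u : ℕ → P) : Set P := {x | ∃ ψ : ℕ → ℕ, StrictMono ψ ∧ Tendsto (u ∘ ψ) atTop (𝓝 x)}

theorem lim_eq [FirstCountableTopology P] (u : ℕ → P) :
    Lim u = {x | MapClusterPt x atTop u} := by
  ext x
  constructor
  · rintro ⟨ψ, h1, h2⟩
    exact (h2.mapClusterPt).of_comp h1.tendsto_atTop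
  · intro h
    exact TopologicalSpace.FirstCountableTopology.tendsto_subseq h

theorem lim_closed [FirstCountableTopology P] (u : ℕ → P) : IsClosed (Lim u) := by
  rw [lim_eq]
  exact isClosed_setOf_clusterPt

theorem lim_subset (u : ℕ → P) : Lim u ⊆ closure (range u) := by
  rintro x ⟨ψ, _, h2⟩
  exact mem_closure_of_tendsto h2 (Eventually.of_forall fun j => mem_range_self _)

/-- every subsequence has a further subsequence with a limit -/
theorem exists_lim [FirstCountableTopology P] {u : ℕ → P} (hc : IsCompact (closure (range u)))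
    {φ : ℕ → ℕ} (hφ : StrictMono φ) : ∃ x ∈ Lim u, ∃ ψ : ℕ → ℕ, StrictMono ψ ∧
      Tendsto (u ∘ φ ∘ ψ) atTop (𝓝 x) := by
  obtain ⟨x, _, ψ, h1, h2⟩ := hc.tendsto_subseq (x := u ∘ φ)
    (fun n => subset_closure (mem_range_self _))
  exact ⟨x, ⟨φ ∘ ψ, hφ.comp h1, h2⟩, ψ, h1, h2⟩

/-- from infinitely many indices to a subsequence with a limit -/
theorem exists_lim_of_frequently [FirstCountableTopology P] {u : ℕ → P}
    (hc : IsCompact (closure (range u))) {p : ℕ → Prop} (hp : ∃ᶠ n in atTop, p n) :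
    ∃ x ∈ Lim u, ∃ ψ : ℕ → ℕ, StrictMono ψ ∧ (∀ n, p (ψ n)) ∧
      Tendsto (u ∘ ψ) atTop (𝓝 x) := by
  obtain ⟨φ, h1, h2⟩ := extraction_of_frequently_atTop hp
  obtain ⟨x, hx, ψ, h3, h4⟩ := exists_lim hc h1
  exact ⟨x, hx, φ ∘ ψ, h1.comp h3, fun n => h2 _, h4⟩

theorem eventually_of_lim_subset [FirstCountableTopology P] {u : ℕ → P}
    (hc : IsCompact (closure (range u))) {O : Set P} (hO : IsOpen O) (h : Lim u ⊆ O) :
    ∀ᶠ n in atTop, u n ∈ O := by
  by_contra hcon
  rw [not_eventually] at hcon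
  obtain ⟨x, hx, ψ, -, h2, h3⟩ := exists_lim_of_frequently hc hcon
  have h4 : x ∈ Oᶜ := hO.isClosed_compl.mem_of_tendsto h3 (Eventually.of_forall h2)
  exact h4 (h hx)

theorem lim_preconnected [FirstCountableTopology P] [T2Space P] {u : ℕ → P}
    (hc : IsCompact (closure (range u)))
    (hm : ∀ (ψ : ℕ → ℕ) (x : P), StrictMono ψ → Tendsto (u ∘ ψ) atTop (𝓝 x) →
      Tendsto (fun n => u (ψ n + 1)) atTop (𝓝 x)) : IsPreconnected (Lim u) := by
  have hcomp : IsCompact (Lim u) := hc.of_isClosed_subset (lim_closed u) (lim_subset u)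
  rw [isPreconnected_closed_iff]
  intro t t' ht ht' hsub hne hne'
  by_contra hcon
  rw [not_nonempty_iff_eq_empty] at hcon
  have hA : IsCompact (Lim u ∩ t) := hcomp.inter_right ht
  have hB : IsCompact (Lim u ∩ t') := hcomp.inter_right ht'
  have hdisj : Disjoint (Lim u ∩ t) (Lim u ∩ t') := by
    rw [Set.disjoint_iff_inter_eq_empty]
    rw [← hcon]
    ext x
    simp only [mem_inter_iff]
    tauto
  obtain ⟨U, V, hU, hV, hAU, hBV, hUV⟩ := SeparatedNhds.of_isCompact_isCompact hA hB hdisj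
  have hUV' : ∀ x, x ∈ U → x ∈ V → False := fun x h1 h2 => Set.disjoint_left.mp hUV h1 h2
  have hev : ∀ᶠ n in atTop, u n ∈ U ∪ V := by
    apply eventually_of_lim_subset hc (hU.union hV)
    intro x hx
    rcases hsub hx with h | h
    · exact Or.inl (hAU ⟨hx, h⟩)
    · exact Or.inr (hBV ⟨hx, h⟩)
  have hfU : ∃ᶠ n in atTop, u n ∈ U := by
    obtain ⟨x, ⟨ψ, h1, h2⟩, hxt⟩ := hne
    have h3 : ∀ᶠ n in atTop, u (ψ n) ∈ U := h2 (hU.mem_nhds (hAU ⟨⟨ψ, h1, h2⟩, hxt⟩))
    exact h1.tendsto_atTop.frequently h3.frequently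
  have hfV : ∃ᶠ n in atTop, u n ∈ V := by
    obtain ⟨x, ⟨ψ, h1, h2⟩, hxt⟩ := hne'
    have h3 : ∀ᶠ n in atTop, u (ψ n) ∈ V := h2 (hV.mem_nhds (hBV ⟨⟨ψ, h1, h2⟩, hxt⟩))
    exact h1.tendsto_atTop.frequently h3.frequently
  -- infinitely many passages from `U` to `V`
  have hfr : ∃ᶠ n in atTop, u n ∈ U ∧ u (n + 1) ∈ V := by
    by_contra hno
    rw [not_frequently] at hno
    obtain ⟨N, hN⟩ := eventually_atTop.mp (hno.and hev)
    obtain ⟨a, haN, ha⟩ := frequently_atTop.mp hfU N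
    have hall : ∀ k, u (a + k) ∈ U := by
      intro k
      induction k with
      | zero => exact ha
      | succ k ih =>
        have h1 := (hN (a + k) (by omega)).1
        have h2 := (hN (a + k + 1) (by omega)).2
        rcases h2 with h2 | h2
        · exact h2
        · exact absurd ⟨ih, h2⟩ h1
    obtain ⟨b, hbN, hb⟩ := frequently_atTop.mp hfV a
    obtain ⟨k, rfl⟩ : ∃ k, b = a + k := ⟨b - a, by omega⟩
    exact hUV' _ (hall k) hb
  obtain ⟨x, hx, ψ, h1, h2, h3⟩ := exists_lim_of_frequently hc hfr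
  have h4 := hm ψ x h1 h3
  rcases hsub hx with h | h
  · have h5 : x ∈ U := hAU ⟨hx, h⟩
    have h6 : ∀ᶠ n in atTop, u (ψ n + 1) ∈ U := h4 (hU.mem_nhds h5)
    obtain ⟨n, hn⟩ := h6.exists
    exact hUV' _ hn (h2 n).2
  · have h5 : x ∈ V := hBV ⟨hx, h⟩
    have h6 : ∀ᶠ n in atTop, (u ∘ ψ) n ∈ V := h3 (hV.mem_nhds h5)
    obtain ⟨n, hn⟩ := h6.exists
    exact hUV' _ (h2 n).1 hn

theorem tendsto_of_lim_subsingleton [FirstCountableTopology P] {u : ℕ → P}
    (hc : IsCompact (closure (range u))) {x : P} (h : Lim u ⊆ {x}) :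
    Tendsto u atTop (𝓝 x) := by
  rw [tendsto_def]
  intro s hs
  obtain ⟨O, hO, hOo, hx⟩ := mem_nhds_iff.mp hs
  have h1 := eventually_of_lim_subset hc hOo (h.trans (by simpa using hx))
  exact h1.mono fun n hn => hO hn

/-- a connected set with two points is uncountable -/
theorem uncountable_of_connected {X : Type*} [MetricSpace X] {s : Set X} (hs : IsPreconnected s)
    {x y : X} (hx : x ∈ s) (hy : y ∈ s) (hxy : x ≠ y) : ¬ s.Countable := by
  intro hcount
  have h1 : IsPreconnected ((fun z => dist x z) '' s) :=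
    hs.image _ (by fun_prop)
  have h2 : Set.Icc 0 (dist x y) ⊆ (fun z => dist x z) '' s :=
    h1.Icc_subset ⟨x, hx, dist_self x⟩ ⟨y, hy, rfl⟩
  have h3 : (Set.Icc 0 (dist x y)).Countable := (hcount.image _).mono h2
  have h4 : 0 < dist x y := dist_pos.mpr hxy
  have h5 := Cardinal.mk_Icc_real h4
  rw [← Cardinal.le_aleph0_iff_set_countable, h5] at h3
  exact absurd h3 (not_le.mpr Cardinal.aleph0_lt_continuum)

end Pool.Agent.R956
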