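import Pool.Agent.R956.T1

/-!
# Sequences of laws on the line with slowly varying integrals
-/

set_option autoImplicit false
set_option linter.unusedVariables false

namespace Pool.Agent.R956.A1

open MeasureTheory Filter Topology Set
open scoped ENNReal NNReal BoundedContinuousFunction

noncomputable section

/-- laws on `[0, ∞)` with mean at most `1`, consecutive ones are close -/
structure Sq (P : ℕ → ProbabilityMeasure ℝ) : Prop where
  nonneg : ∀ n, (P n : Measure ℝ) (Iio 0) = 0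
  mean : ∀ n, ∫⁻ x, ENNReal.ofReal (max x 0) ∂(P n : Measure ℝ) ≤ 1
  merge : ∀ g : ℝ → ℝ, (∀ x y, |g x - g y| ≤ |x - y|) → (∀ x, |g x| ≤ 1) →
    Tendsto (fun n => ∫ x, g x ∂(P (n + 1) : Measure ℝ) - ∫ x, g x ∂(P n : Measure ℝ)) atTop (𝓝 0)

variable {P : ℕ → ProbabilityMeasure ℝ}

lemma tail (h : Sq P) (n : ℕ) {R : ℝ} (hR : 0 < R) :
    (P n : Measure ℝ) (Icc 0 R)ᶜ ≤ ENNReal.ofReal (1 / R) := by
  have h1 : (Icc (0 : ℝ) R)ᶜ ⊆ Iio 0 ∪ {x | ENNReal.ofReal R ≤ ENNReal.ofReal (max x 0)} := by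
    intro x hx
    rw [mem_compl_iff, mem_Icc, not_and_or, not_le, not_le] at hx
    rcases hx with hx | hx
    · exact Or.inl hx
    · right
      exact ENNReal.ofReal_le_ofReal (hx.le.trans (le_max_left _ _))
  have h2 : (P n : Measure ℝ) {x | ENNReal.ofReal R ≤ ENNReal.ofReal (max x 0)} ≤
      (∫⁻ x, ENNReal.ofReal (max x 0) ∂(P n : Measure ℝ)) / ENNReal.ofReal R :=
    meas_ge_le_lintegral_div (by fun_prop) (by simpa using hR) ENNReal.ofReal_ne_top
  calc (P n : Measure ℝ) (Icc 0 R)ᶜ ≤ (P n : Measure ℝ) (Iio 0 ∪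
        {x | ENNReal.ofReal R ≤ ENNReal.ofReal (max x 0)}) := measure_mono h1
    _ ≤ (P n : Measure ℝ) (Iio 0) +
        (P n : Measure ℝ) {x | ENNReal.ofReal R ≤ ENNReal.ofReal (max x 0)} := measure_union_le _ _
    _ ≤ 0 + 1 / ENNReal.ofReal R := by
        gcongr
        · exact (h.nonneg n).le
        · exact h2.trans (ENNReal.div_le_div_right (h.mean n) _)
    _ = ENNReal.ofReal (1 / R) := by
        rw [zero_add, ENNReal.ofReal_div_of_pos hR, ENNReal.ofReal_one]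

theorem tight (h : Sq P) : IsCompact (closure (range P)) := by
  apply isCompact_closure_of_isTightMeasureSet
  rw [isTightMeasureSet_iff_exists_isCompact_measure_compl_le]
  intro ε hε
  obtain ⟨δ, hδ0, hδ⟩ := ENNReal.lt_iff_exists_nnreal_btwn.mp hε
  have hδ0' : (0 : ℝ) < δ := by exact_mod_cast hδ0
  refine ⟨Icc 0 (1 / δ), isCompact_Icc, ?_⟩
  rintro μ ⟨ν, ⟨j, rfl⟩, rfl⟩
  refine (tail h j (R := 1 / δ) (by positivity)).trans ?_
  rw [one_div_one_div]
  have : ENNReal.ofReal (δ : ℝ) = (δ : ℝ≥0∞) := by simp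
  rw [this]
  exact hδ.le

theorem merge_law (h : Sq P) (ψ : ℕ → ℕ) (ν : ProbabilityMeasure ℝ) (hψ : StrictMono ψ)
    (h1 : Tendsto (P ∘ ψ) atTop (𝓝 ν)) : Tendsto (fun n => P (ψ n + 1)) atTop (𝓝 ν) := by
  rw [tendsto_iff_forall_lipschitz_integral_tendsto] at h1 ⊢
  rintro f ⟨B, hB⟩ ⟨L, hL⟩
  have h2 := h1 f ⟨B, hB⟩ ⟨L, hL⟩
  obtain ⟨M, hM⟩ : ∃ M : ℝ, M = |f 0| + |B| + (L : ℝ) + 1 := ⟨_, rfl⟩
  have hL0 : (0 : ℝ) ≤ L := L.2
  have hMp : 0 < M := by rw [hM]; positivity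
  have hfM : ∀ x, |f x| ≤ M := by
    intro x
    have h2 := hB x 0
    rw [Real.dist_eq] at h2
    have h3 : |f x| ≤ |f x - f 0| + |f 0| := by
      have := abs_add_le (f x - f 0) (f 0)
      simpa using this
    have h4 := le_abs_self B
    rw [hM]; linarith
  have hfl : ∀ x y, |f x - f y| ≤ M * |x - y| := by
    intro x y
    have h2 := hL.dist_le_mul x y
    rw [Real.dist_eq, Real.dist_eq] at h2
    have h3 : (L : ℝ) ≤ M := by
      rw [hM]; have := abs_nonneg B; have := abs_nonneg (f 0); linarith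
    exact h2.trans (mul_le_mul_of_nonneg_right h3 (abs_nonneg _))
  have hg := h.merge (fun x => f x / M) (fun x y => by
      rw [← sub_div, abs_div, abs_of_pos hMp, div_le_iff₀ hMp]
      linarith [hfl x y]) (fun x => by
      rw [abs_div, abs_of_pos hMp, div_le_one hMp]
      exact hfM x)
  simp only [integral_div, ← sub_div] at hg
  have hg2 := hg.mul_const M
  simp only [div_mul_cancel₀ _ hMp.ne', zero_mul] at hg2
  have hg3 := hg2.comp hψ.tendsto_atTop
  have hsum := hg3.add h2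
  rw [zero_add] at hsum
  refine hsum.congr fun n => ?_
  simp only [Function.comp_apply]
  ring

/-- the structure of the set of limit laws -/
theorem limits (h : Sq P) :
    (Lim P).Nonempty ∧ IsCompact (Lim P) ∧ IsPreconnected (Lim P) ∧
    (∀ φ : ℕ → ℕ, StrictMono φ → ∃ ν ∈ Lim P, ∃ ψ : ℕ → ℕ,
      StrictMono ψ ∧ Tendsto (fun j => P (φ (ψ j))) atTop (𝓝 ν)) ∧
    ((∃ ν, Tendsto P atTop (𝓝 ν)) ∨ ¬ (Lim P).Countable) := by
  have hcomp := tight h
  obtain ⟨x, hx, -⟩ := exists_lim hcomp (φ := id) strictMono_id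
  have hpre := lim_preconnected hcomp (fun ψ ν h1 h2 => merge_law h ψ ν h1 h2)
  refine ⟨⟨x, hx⟩, hcomp.of_isClosed_subset (lim_closed _) (lim_subset _), hpre, ?_, ?_⟩
  · intro φ hφ
    obtain ⟨ν, h1, ψ, h2, h3⟩ := exists_lim hcomp hφ
    exact ⟨ν, h1, ψ, h2, h3⟩
  · by_cases hy : ∀ y ∈ Lim P, y = x
    · left
      have h1 : Lim P ⊆ {x} := fun y hy' => by
        rw [mem_singleton_iff]; exact hy y hy'
      exact ⟨x, tendsto_of_lim_subsingleton hcomp h1⟩
    · right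
      push Not at hy
      obtain ⟨y, hy, hne⟩ := hy
      let _ : MetricSpace (ProbabilityMeasure ℝ) :=
        TopologicalSpace.metrizableSpaceMetric (ProbabilityMeasure ℝ)
      exact uncountable_of_connected hpre hx hy hne.symm

/-- Fatou's lemma for weak limits -/
lemma fatou {ν : ProbabilityMeasure ℝ} {Q : ℕ → ProbabilityMeasure ℝ} (hQ : Tendsto Q atTop (𝓝 ν))
    {f : ℝ → ℝ} (hf : Continuous f) (h0 : 0 ≤ f) {B : ℝ≥0∞}
    (hB : ∀ᶠ n in atTop, ∫⁻ x, ENNReal.ofReal (f x) ∂(Q n : Measure ℝ) ≤ B) :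
    ∫⁻ x, ENNReal.ofReal (f x) ∂(ν : Measure ℝ) ≤ B := by
  refine (lintegral_le_liminf_lintegral_of_forall_isOpen_measure_le_liminf_measure hf h0
    (fun G hG => ProbabilityMeasure.le_liminf_measure_open_of_tendsto hQ hG)).trans ?_
  refine liminf_le_of_le (by isBoundedDefault) fun b hb => ?_
  obtain ⟨n, h1, h2⟩ := (hb.and hB).exists
  exact h1.trans h2

lemma limit_nonneg (h : Sq P) {ν : ProbabilityMeasure ℝ} {ψ : ℕ → ℕ}
    (h1 : Tendsto (P ∘ ψ) atTop (𝓝 ν)) : (ν : Measure ℝ) (Iio 0) = 0 := by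
  have h2 := ProbabilityMeasure.le_liminf_measure_open_of_tendsto h1 (G := Iio 0) isOpen_Iio
  have h3 : (fun i => ((P ∘ ψ) i : Measure ℝ) (Iio 0)) = fun _ => 0 := by
    funext i
    exact h.nonneg (ψ i)
  rw [h3] at h2
  simpa using h2

lemma limit_mean (h : Sq P) {ν : ProbabilityMeasure ℝ} {ψ : ℕ → ℕ}
    (h1 : Tendsto (P ∘ ψ) atTop (𝓝 ν)) : ∫⁻ x, ENNReal.ofReal (max x 0) ∂(ν : Measure ℝ) ≤ 1 :=
  fatou h1 (f := fun x => max x 0) (by fun_prop) (fun x => le_max_right _ _)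
    (Eventually.of_forall fun n => h.mean (ψ n))

lemma ae_nonneg {Q : ProbabilityMeasure ℝ} (h0 : (Q : Measure ℝ) (Iio 0) = 0) :
    ∀ᵐ x ∂(Q : Measure ℝ), 0 ≤ x := by
  rw [ae_iff]
  have e : {x : ℝ | ¬ 0 ≤ x} = Iio 0 := by
    ext x
    simp
  rw [e]
  exact h0

/-- the truncated power -/
def tr (k : ℕ) (R x : ℝ) : ℝ := (max 0 (min x R)) ^ k

lemma tr_cont (k : ℕ) (R : ℝ) : Continuous (tr k R) := by
  unfold tr
  fun_prop

lemma tr_nonneg (k : ℕ) (R x : ℝ) : 0 ≤ tr k R x := by unfold tr; positivity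

lemma tr_le (k : ℕ) {R : ℝ} (hR : 0 ≤ R) (x : ℝ) : tr k R x ≤ R ^ k := by
  unfold tr
  exact pow_le_pow_left₀ (le_max_left _ _) (max_le hR (min_le_right _ _)) k

lemma tr_close (k : ℕ) {R x : ℝ} (hR : 0 < R) (hx : 0 ≤ x) :
    tr k R x ≤ x ^ k ∧ x ^ k ≤ tr k R x + x ^ (k + 1) / R := by
  unfold tr
  have h1 : 0 ≤ min x R := le_min hx hR.le
  rw [max_eq_right h1]
  refine ⟨pow_le_pow_left₀ h1 (min_le_left _ _) k, ?_⟩
  rcases le_total x R with h | h
  · rw [min_eq_left h]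
    have : 0 ≤ x ^ (k + 1) / R := by positivity
    linarith
  · rw [min_eq_right h]
    have h2 : x ^ k ≤ x ^ (k + 1) / R := by
      rw [le_div_iff₀ hR, pow_succ]
      gcongr
    have h3 : 0 ≤ R ^ k := by positivity
    linarith

/-- the integral of a truncated power -/
lemma tr_integral {Q : ProbabilityMeasure ℝ} (h0 : (Q : Measure ℝ) (Iio 0) = 0) {k : ℕ} {B R : ℝ}
    (hR : 0 < R) (h1 : Integrable (fun x => x ^ k) (Q : Measure ℝ))
    (h2 : Integrable (fun x => x ^ (k + 1)) (Q : Measure ℝ))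
    (hB : ∫ x, x ^ (k + 1) ∂(Q : Measure ℝ) ≤ B) :
    |∫ x, x ^ k ∂(Q : Measure ℝ) - ∫ x, tr k R x ∂(Q : Measure ℝ)| ≤ B / R := by
  have hae : ∀ᵐ x ∂(Q : Measure ℝ), 0 ≤ x := ae_nonneg h0
  have ht : Integrable (tr k R) (Q : Measure ℝ) := by
    refine Integrable.of_bound (tr_cont k R).aestronglyMeasurable (R ^ k)
      (Eventually.of_forall fun x => ?_)
    rw [Real.norm_eq_abs, abs_of_nonneg (tr_nonneg _ _ _)]
    exact tr_le k hR.le x
  rw [← integral_sub h1 ht, abs_le]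
  have hBR : ∫ x, x ^ (k + 1) / R ∂(Q : Measure ℝ) ≤ B / R := by
    rw [integral_div]
    gcongr
  constructor
  · have h3 : 0 ≤ ∫ x, (x ^ k - tr k R x) ∂(Q : Measure ℝ) := by
      refine integral_nonneg_of_ae ?_
      filter_upwards [hae] with x hx
      have := (tr_close k hR hx).1
      simp only [Pi.zero_apply]
      linarith
    have h4 : 0 ≤ ∫ x, x ^ (k + 1) / R ∂(Q : Measure ℝ) := by
      refine integral_nonneg_of_ae ?_
      filter_upwards [hae] with x hx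
      simp only [Pi.zero_apply]
      positivity
    linarith
  · refine le_trans (integral_mono_ae (h1.sub ht) (h2.div_const R) ?_) hBR
    filter_upwards [hae] with x hx
    have := (tr_close k hR hx).2
    linarith

/-- powers are integrable under the limit laws -/
lemma limit_moment (h : Sq P) {ν : ProbabilityMeasure ℝ} {ψ : ℕ → ℕ}
    (h1 : Tendsto (P ∘ ψ) atTop (𝓝 ν)) {k : ℕ} {B : ℝ}
    (hi : ∀ n, Integrable (fun x => x ^ k) (P n : Measure ℝ))
    (hB : ∀ n, ∫ x, x ^ k ∂(P n : Measure ℝ) ≤ B) :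
    Integrable (fun x => x ^ k) (ν : Measure ℝ) ∧ ∫ x, x ^ k ∂(ν : Measure ℝ) ≤ B := by
  have hnae : ∀ n, ∀ᵐ x ∂(P n : Measure ℝ), 0 ≤ x := fun n => ae_nonneg (h.nonneg n)
  have hae : ∀ᵐ x ∂(ν : Measure ℝ), 0 ≤ x := ae_nonneg (limit_nonneg h h1)
  have hB0 : 0 ≤ B := by
    refine le_trans (integral_nonneg_of_ae ?_) (hB 0)
    filter_upwards [hnae 0] with x hx
    simp only [Pi.zero_apply]
    positivity
  have e1 : ∀ n, ∫⁻ x, ENNReal.ofReal ((max x 0) ^ k) ∂(P n : Measure ℝ) ≤ ENNReal.ofReal B := by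
    intro n
    have e2 : ∫⁻ x, ENNReal.ofReal ((max x 0) ^ k) ∂(P n : Measure ℝ) =
        ENNReal.ofReal (∫ x, x ^ k ∂(P n : Measure ℝ)) := by
      rw [ofReal_integral_eq_lintegral_ofReal (hi n) (by
        filter_upwards [hnae n] with x hx
        simp only [Pi.zero_apply]
        positivity)]
      refine lintegral_congr_ae ?_
      filter_upwards [hnae n] with x hx
      rw [max_eq_left hx]
    rw [e2]
    exact ENNReal.ofReal_le_ofReal (hB n)
  have e3 := fatou h1 (f := fun x => (max x 0) ^ k) (by fun_prop)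
    (fun x => by simp only [Pi.zero_apply]; positivity) (Eventually.of_forall fun n => e1 (ψ n))
  have e4 : ∫⁻ x, ENNReal.ofReal (x ^ k) ∂(ν : Measure ℝ) ≤ ENNReal.ofReal B := by
    refine le_trans (le_of_eq (lintegral_congr_ae ?_)) e3
    filter_upwards [hae] with x hx
    rw [max_eq_left hx]
  have hint : Integrable (fun x : ℝ => x ^ k) (ν : Measure ℝ) := by
    refine ⟨by fun_prop, ?_⟩
    rw [hasFiniteIntegral_iff_ofReal (by
      filter_upwards [hae] with x hx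
      simp only [Pi.zero_apply]
      positivity)]
    exact e4.trans_lt ENNReal.ofReal_lt_top
  refine ⟨hint, ?_⟩
  rw [← ENNReal.ofReal_le_ofReal_iff hB0, ofReal_integral_eq_lintegral_ofReal hint (by
    filter_upwards [hae] with x hx
    simp only [Pi.zero_apply]
    positivity)]
  exact e4

/-- **the method of moments** -/
theorem moments (h : Sq P) (hi : ∀ k n, Integrable (fun x => x ^ k) (P n : Measure ℝ))
    {m : ℕ → ℝ} (hm : ∀ k, Tendsto (fun n => ∫ x, x ^ k ∂(P n : Measure ℝ)) atTop (𝓝 (m k)))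
    {ν : ProbabilityMeasure ℝ} (hν : ∀ ρ : ProbabilityMeasure ℝ,
      (∀ k, Integrable (fun x => x ^ k) (ρ : Measure ℝ) ∧ ∫ x, x ^ k ∂(ρ : Measure ℝ) = m k) →
      ρ = ν) : Tendsto P atTop (𝓝 ν) := by
  refine tendsto_of_lim_subsingleton (tight h) ?_
  rintro ρ ⟨ψ, hψ, h1⟩
  rw [mem_singleton_iff]
  apply hν
  -- bounds for the moments
  have hb : ∀ k, ∃ B : ℝ, ∀ n, ∫ x, x ^ k ∂(P n : Measure ℝ) ≤ B := by
    intro k
    obtain ⟨B, hB⟩ := (hm k).bddAbove_range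
    exact ⟨B, fun n => hB ⟨n, rfl⟩⟩
  intro k
  obtain ⟨B, hB⟩ := hb k
  obtain ⟨B', hB'⟩ := hb (k + 1)
  obtain ⟨i1, -⟩ := limit_moment h h1 (hi k) hB
  obtain ⟨i2, b2⟩ := limit_moment h h1 (hi (k + 1)) hB'
  refine ⟨i1, ?_⟩
  have key : ∀ R : ℝ, 0 < R → |∫ x, x ^ k ∂(ρ : Measure ℝ) - m k| ≤ 2 * B' / R := by
    intro R hR
    have g1 := tr_integral (limit_nonneg h h1) hR i1 i2 b2
    have g2 : ∀ n, |∫ x, x ^ k ∂(P (ψ n) : Measure ℝ) - ∫ x, tr k R x ∂(P (ψ n) : Measure ℝ)| ≤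
        B' / R := fun n => tr_integral (h.nonneg _) hR (hi k _) (hi (k + 1) _) (hB' _)
    obtain ⟨f, hf⟩ : ∃ f : ℝ →ᵇ ℝ, ∀ x, f x = tr k R x :=
      ⟨BoundedContinuousFunction.ofNormedAddCommGroup (tr k R) (tr_cont k R) (R ^ k) (fun x => by
        rw [Real.norm_eq_abs, abs_of_nonneg (tr_nonneg _ _ _)]
        exact tr_le k hR.le x), fun x => rfl⟩
    have g3 := (ProbabilityMeasure.tendsto_iff_forall_integral_tendsto.mp h1) f
    simp only [hf, Function.comp_apply] at g3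
    have g4 := ((hm k).comp hψ.tendsto_atTop).sub g3
    have g5 : |m k - ∫ x, tr k R x ∂(ρ : Measure ℝ)| ≤ B' / R :=
      le_of_tendsto' g4.abs fun n => by
        simp only [Function.comp_apply]
        exact g2 n
    have g6 := abs_le.mp g1
    have g7 := abs_le.mp g5
    have e : 2 * B' / R = B' / R + B' / R := by ring
    rw [e, abs_le]
    constructor <;> linarith [g6.1, g6.2, g7.1, g7.2]
  have hB0 : 0 ≤ 2 * B' := by
    have := (abs_nonneg _).trans (key 1 one_pos)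
    simpa using this
  by_contra hne
  have hpos : 0 < |∫ x, x ^ k ∂(ρ : Measure ℝ) - m k| := abs_pos.mpr (sub_ne_zero.mpr hne)
  have h5 := key ((2 * B' + 1) / |∫ x, x ^ k ∂(ρ : Measure ℝ) - m k|) (by positivity)
  rw [div_div_eq_mul_div, le_div_iff₀ (by positivity)] at h5
  nlinarith

end

end Pool.Agent.R956.A1
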