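import Mathlib

/-!
# Sequences with slow variation along each parity and bounded consecutive ratios
-/

set_option autoImplicit false
set_option linter.unusedVariables false

namespace Pool.Agent.R956.D2

open Filter Topology

/-- `log n / √n` -/
noncomputable def f (n : ℕ) : ℝ := Real.log n / Real.sqrt n

lemma f_nonneg (n : ℕ) : 0 ≤ f n := div_nonneg (Real.log_natCast_nonneg n) (Real.sqrt_nonneg _)

lemma f_tendsto : Tendsto f atTop (𝓝 0) := by
  have h := (isLittleO_log_rpow_atTop (show (0 : ℝ) < 1 / 2 by norm_num)).tendsto_div_nhds_zero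
  have h2 := h.comp tendsto_natCast_atTop_atTop
  refine h2.congr fun n => ?_
  simp only [Function.comp_apply]
  unfold f
  rw [Real.sqrt_eq_rpow]

lemma f_window {m x : ℕ} (hm : 2 ≤ m) (h1 : m ≤ x) (h2 : x ≤ 2 * m) : f x ≤ 2 * f m := by
  have hm' : (2 : ℝ) ≤ m := by exact_mod_cast hm
  have hx : (m : ℝ) ≤ x := by exact_mod_cast h1
  have hx2 : (x : ℝ) ≤ 2 * m := by exact_mod_cast h2
  have e1 : Real.log x ≤ 2 * Real.log m := by
    have : Real.log x ≤ Real.log (m * m) :=
      Real.log_le_log (by linarith) (by nlinarith)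
    rw [Real.log_mul (by positivity) (by positivity)] at this
    linarith
  have hlm : 0 ≤ Real.log m := Real.log_nonneg (by linarith)
  unfold f
  calc Real.log x / Real.sqrt x ≤ (2 * Real.log m) / Real.sqrt m := by
        apply div_le_div₀ (by positivity) e1 (Real.sqrt_pos.mpr (by linarith))
          (Real.sqrt_le_sqrt hx)
    _ = _ := by ring

/-- bounds for the consecutive ratios -/
theorem step_bounds {u a e : ℕ → ℝ} {L : ℝ} (hL : 0 < L) (hu : ∀ n, 2 ≤ n → 0 < u n)
    (h2 : Tendsto (fun n => u (n + 2) / u n) atTop (𝓝 1)) (ha : ∀ᶠ n in atTop, 1 ≤ a n)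
    (haa : Tendsto (fun n => a n * a (n + 1)) atTop (𝓝 L)) (he : Tendsto e atTop (𝓝 0))
    (h1 : ∀ᶠ n in atTop, u (n + 1) ≤ a n * (1 + e n) * u n) {ε : ℝ} (hε : 0 < ε) :
    ∀ᶠ n in atTop, u (n + 1) ≤ (L + ε) * u n ∧ u n ≤ (L + ε) * u (n + 1) := by
  have t1 : Tendsto (fun n => a n * a (n + 1) * (1 + e n)) atTop (𝓝 L) := by
    have := haa.mul (he.const_add 1)
    simpa using this
  have t2 : Tendsto (fun n => a (n + 1) * a (n + 2) * (1 + e (n + 1)) / (u (n + 2) / u n)) atTop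
      (𝓝 L) := by
    have := (t1.comp (tendsto_add_atTop_nat 1)).div h2 one_ne_zero
    rw [div_one] at this
    exact this
  have ha1 : ∀ᶠ n in atTop, 1 ≤ a (n + 1) := (tendsto_add_atTop_nat 1).eventually ha
  have ha2 : ∀ᶠ n in atTop, 1 ≤ a (n + 2) := (tendsto_add_atTop_nat 2).eventually ha
  have he0 : ∀ᶠ n in atTop, 0 < 1 + e n := by
    filter_upwards [he.eventually_const_lt (show (-1 : ℝ) < 0 by norm_num)] with n hn
    linarith
  have he1 : ∀ᶠ n in atTop, 0 < 1 + e (n + 1) := (tendsto_add_atTop_nat 1).eventually he0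
  have h1' : ∀ᶠ n in atTop, u (n + 1 + 1) ≤ a (n + 1) * (1 + e (n + 1)) * u (n + 1) :=
    (tendsto_add_atTop_nat 1).eventually h1
  filter_upwards [t1.eventually_lt_const (show L < L + ε by linarith),
    t2.eventually_lt_const (show L < L + ε by linarith), ha, ha1, ha2, he0, he1, h1, h1',
    eventually_ge_atTop 2] with n b1 b2 c0 c1 c2 d0 d1 g0 g1 hn
  have u0 := hu n hn
  have u1 := hu (n + 1) (by omega)
  have u2 := hu (n + 2) (by omega)
  constructor
  · calc u (n + 1) ≤ a n * (1 + e n) * u n := g0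
      _ ≤ a n * a (n + 1) * (1 + e n) * u n := by
          have : 0 ≤ a n * (1 + e n) * u n := by positivity
          nlinarith
      _ ≤ (L + ε) * u n := by gcongr
  · have e1 : u n = u (n + 2) / (u (n + 2) / u n) := by field_simp
    have h3 : u (n + 2) ≤ a (n + 1) * a (n + 2) * (1 + e (n + 1)) * u (n + 1) := by
      have e2 : u (n + 1 + 1) = u (n + 2) := rfl
      rw [e2] at g1
      refine g1.trans ?_
      have : 0 ≤ a (n + 1) * (1 + e (n + 1)) * u (n + 1) := by positivity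
      nlinarith
    have hr : 0 < u (n + 2) / u n := by positivity
    calc u n = u (n + 2) / (u (n + 2) / u n) := e1
      _ ≤ a (n + 1) * a (n + 2) * (1 + e (n + 1)) * u (n + 1) / (u (n + 2) / u n) := by gcongr
      _ = a (n + 1) * a (n + 2) * (1 + e (n + 1)) / (u (n + 2) / u n) * u (n + 1) := by ring
      _ ≤ (L + ε) * u (n + 1) := by gcongr

lemma log_step {x y δ : ℝ} (hx : 0 < x) (hy : 0 < y) (h : |y / x - 1| ≤ δ) (hδ : δ ≤ 1 / 2) :
    |Real.log y - Real.log x| ≤ 2 * δ := by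
  have hr : 0 < y / x := by positivity
  obtain ⟨h1, h2⟩ := abs_le.mp h
  rw [← Real.log_div hy.ne' hx.ne']
  have hδ0 : 0 ≤ δ := (abs_nonneg _).trans h
  rw [abs_le]
  constructor
  · have h3 := Real.one_sub_inv_le_log_of_pos hr
    have h4 : (y / x)⁻¹ ≤ 1 + 2 * δ := by
      rw [inv_le_comm₀ hr (by positivity)]
      have : (1 + 2 * δ)⁻¹ ≤ 1 - δ := by
        rw [inv_le_iff_one_le_mul₀ (by positivity)]
        nlinarith
      linarith
    linarith
  · have := Real.log_le_sub_one_of_pos hr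
    linarith

/-- the comparison of the values on a window -/
theorem window {u : ℕ → ℝ} (hu : ∀ n, 2 ≤ n → 0 < u n) {K : ℝ} (hK : 0 ≤ K)
    (hr : ∀ n, 2 ≤ n → |u (n + 2) / u n - 1| ≤ K * f n) {M : ℝ} (hM : 1 ≤ M)
    (hone : ∀ᶠ n in atTop, u (n + 1) ≤ M * u n ∧ u n ≤ M * u (n + 1)) :
    ∀ᶠ m : ℕ in atTop, ∀ n, m ≤ n → n ≤ 2 * m →
      |Real.log (u n) - Real.log (u m)| ≤ Real.log M + 2 * K * (((n : ℝ) - m) * f m) := by
  have h0 : ∀ᶠ m in atTop, 2 * K * f m ≤ 1 / 2 := by
    have : Tendsto (fun m => 2 * K * f m) atTop (𝓝 0) := by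
      have := f_tendsto.const_mul (2 * K)
      simpa using this
    filter_upwards [this.eventually_lt_const (show (0 : ℝ) < 1 / 2 by norm_num)] with m hm
    exact hm.le
  filter_upwards [h0, hone, eventually_ge_atTop 2] with m hm1 hm2 hm3
  have hlM : 0 ≤ Real.log M := Real.log_nonneg hM
  have hf0 := f_nonneg m
  have two : ∀ j a : ℕ, m ≤ a → a + 2 * j ≤ 2 * m →
      |Real.log (u (a + 2 * j)) - Real.log (u a)| ≤ 2 * K * ((2 * j : ℝ) * f m) := by
    intro j
    induction j with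
    | zero => intro a _ _; simp
    | succ j ih =>
      intro a h1 h2
      have h3 := ih a h1 (by omega)
      have h4 := hr (a + 2 * j) (by omega)
      have h5 := f_window hm3 (show m ≤ a + 2 * j by omega) (by omega)
      have h6 : K * f (a + 2 * j) ≤ 2 * K * f m := by
        calc K * f (a + 2 * j) ≤ K * (2 * f m) := by gcongr
          _ = _ := by ring
      have h7 := log_step (hu (a + 2 * j) (by omega)) (hu (a + 2 * j + 2) (by omega)) h4
        (h6.trans hm1)
      rw [show a + 2 * (j + 1) = a + 2 * j + 2 by ring]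
      have h8 := abs_sub_le (Real.log (u (a + 2 * j + 2))) (Real.log (u (a + 2 * j)))
        (Real.log (u a))
      push_cast
      nlinarith
  intro n h1 h2
  have hnm : (m : ℝ) ≤ n := by exact_mod_cast h1
  rcases Nat.even_or_odd' (n - m) with ⟨j, hj | hj⟩
  · have hn : n = m + 2 * j := by omega
    have h3 := two j m le_rfl (by omega)
    have e : (n : ℝ) - m = 2 * j := by rw [hn]; push_cast; ring
    rw [e, hn]
    linarith
  · have hn : n = m + 1 + 2 * j := by omega
    have h3 := two j (m + 1) (by omega) (by omega)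
    have e : (n : ℝ) - m = 2 * j + 1 := by rw [hn]; push_cast; ring
    have p0 := hu m hm3
    have p1 := hu (m + 1) (by omega)
    have h4 : |Real.log (u (m + 1)) - Real.log (u m)| ≤ Real.log M := by
      have g1 : Real.log (u (m + 1)) ≤ Real.log M + Real.log (u m) := by
        rw [← Real.log_mul (by positivity) (by positivity)]
        exact Real.log_le_log p1 hm2.1
      have g2 : Real.log (u m) ≤ Real.log M + Real.log (u (m + 1)) := by
        rw [← Real.log_mul (by positivity) (by positivity)]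
        exact Real.log_le_log p0 hm2.2
      rw [abs_le]
      constructor <;> linarith
    have h5 := abs_sub_le (Real.log (u (m + 1 + 2 * j))) (Real.log (u (m + 1))) (Real.log (u m))
    rw [e, hn]
    have h6 : 0 ≤ 2 * K * f m := by positivity
    nlinarith

/-- the last term of the sequence before a late value -/
lemma exists_index {s : ℕ → ℕ} (hs : Tendsto s atTop atTop) (k0 : ℕ) :
    ∃ N0 : ℕ, ∀ n, N0 ≤ n → ∃ k, k0 ≤ k ∧ s k ≤ n ∧ n < s (k + 1) := by
  obtain ⟨B, hB⟩ : ∃ B : ℕ, ∀ k ≤ k0, s k ≤ B :=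
    ⟨(Finset.range (k0 + 1)).sup s, fun k hk => Finset.le_sup (Finset.mem_range.mpr (by omega))⟩
  refine ⟨B, fun n hn => ?_⟩
  have hex : ∃ k, n < s k := (hs.eventually_gt_atTop n).exists
  classical
  have h1 := Nat.find_spec hex
  have h2 : ∀ k, k < Nat.find hex → ¬ n < s k := fun k hk => Nat.find_min hex hk
  have h3 : k0 < Nat.find hex := by
    by_contra hcon
    have := hB (Nat.find hex) (by omega)
    omega
  obtain ⟨k, hk⟩ : ∃ k, Nat.find hex = k + 1 := ⟨Nat.find hex - 1, by omega⟩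
  refine ⟨k, by omega, ?_, by rw [← hk]; exact h1⟩
  have := h2 k (by omega)
  omega

/-- facts at the last index `k` with `s k ≤ n` -/
lemma at_index {s : ℕ → ℕ} {g : ℕ → ℝ} (hg : ∀ᶠ n : ℕ in atTop, 1 / (n : ℝ) ≤ g n)
    (hs : Tendsto s atTop atTop)
    (hgap : Tendsto (fun k => ((s (k + 1) : ℝ) - s k) * g (s k)) atTop (𝓝 0)) {P : ℕ → Prop}
    (hP : ∀ᶠ k in atTop, P k) {δ : ℝ} (hδ : 0 < δ) :
    ∀ᶠ n : ℕ in atTop, ∃ k, P k ∧ s k ≤ n ∧ n ≤ 2 * s k ∧ 1 ≤ s k ∧
      ((n : ℝ) - s k) * g (s k) < δ ∧ (n : ℝ) - s k < δ * s k := by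
  have h1 := hgap.eventually_lt_const (show (0 : ℝ) < min δ 1 by positivity)
  obtain ⟨k0, hk0⟩ := eventually_atTop.mp (hP.and (h1.and ((hs.eventually hg).and
    (hs.eventually_ge_atTop 1))))
  obtain ⟨N0, hN0⟩ := exists_index hs k0
  filter_upwards [eventually_ge_atTop N0] with n hn
  obtain ⟨k, hk, hk1, hk2⟩ := hN0 n hn
  obtain ⟨a1, a2, a3, a4⟩ := hk0 k hk
  have hsk : (1 : ℝ) ≤ s k := by exact_mod_cast a4
  have hsn : (s k : ℝ) ≤ n := by exact_mod_cast hk1
  have hns : (n : ℝ) < s (k + 1) := by exact_mod_cast hk2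
  have hg0 : 0 < g (s k) := lt_of_lt_of_le (by positivity) a3
  have a5 : ((n : ℝ) - s k) * g (s k) < min δ 1 := by
    refine lt_of_le_of_lt ?_ a2
    gcongr
  have a6 : ((n : ℝ) - s k) * (1 / s k) < min δ 1 := by
    refine lt_of_le_of_lt ?_ a5
    have : 0 ≤ (n : ℝ) - s k := by linarith
    gcongr
  rw [mul_one_div, div_lt_iff₀ (by linarith)] at a6
  have a7 : (n : ℝ) - s k < δ * s k := lt_of_lt_of_le a6 (by gcongr; exact min_le_left _ _)
  have a8 : (n : ℝ) - s k < 1 * s k := lt_of_lt_of_le a6 (by gcongr; exact min_le_right _ _)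
  refine ⟨k, a1, hk1, ?_, a4, lt_of_lt_of_le a5 (min_le_left _ _), a7⟩
  have : (n : ℝ) < 2 * s k := by linarith
  have : n < 2 * s k := by exact_mod_cast this
  omega

lemma log_close {n m : ℕ} (hm : 1 ≤ m) (h : m ≤ n) {δ : ℝ} (h2 : (n : ℝ) - m < δ * m) :
    |Real.log n - Real.log m| ≤ δ := by
  have hm' : (1 : ℝ) ≤ m := by exact_mod_cast hm
  have hn : (m : ℝ) ≤ n := by exact_mod_cast h
  have h3 : Real.log m ≤ Real.log n := Real.log_le_log (by linarith) hn
  rw [abs_of_nonneg (by linarith), ← Real.log_div (by linarith) (by linarith)]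
  have hn0 : (0 : ℝ) < n := by linarith
  have h4 := Real.log_le_sub_one_of_pos (show (0 : ℝ) < (n : ℝ) / m by positivity)
  have h5 : (n : ℝ) / m - 1 < δ := by
    rw [sub_lt_iff_lt_add, div_lt_iff₀ (by linarith)]
    linarith
  linarith

/-- **two-sided bounds from an asymptotic form along a sparse sequence** -/
theorem amplitude {u : ℕ → ℝ} (hu : ∀ n, 2 ≤ n → 0 < u n) {K : ℝ} (hK : 0 ≤ K)
    (hr : ∀ n, 2 ≤ n → |u (n + 2) / u n - 1| ≤ K * f n) {L : ℝ} (hL : 1 ≤ L)
    (hone : ∀ ε : ℝ, 0 < ε → ∀ᶠ n in atTop, u (n + 1) ≤ (L + ε) * u n ∧ u n ≤ (L + ε) * u (n + 1))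
    {s : ℕ → ℕ} (hs : Tendsto s atTop atTop)
    (hgap : Tendsto (fun k => ((s (k + 1) : ℝ) - s k) * f (s k)) atTop (𝓝 0)) {θ D : ℝ}
    (hD : 0 < D) (hc : Tendsto (fun k => u (s k) / (s k : ℝ) ^ θ) atTop (𝓝 D)) {ε : ℝ}
    (hε : 0 < ε) :
    ∀ᶠ n : ℕ in atTop, D / (L + ε) ≤ u n / (n : ℝ) ^ θ ∧ u n / (n : ℝ) ^ θ ≤ (L + ε) * D := by
  obtain ⟨M, hM⟩ : ∃ M, M = L + ε / 2 := ⟨_, rfl⟩
  have hM1 : 1 ≤ M := by rw [hM]; linarith
  obtain ⟨η, hη⟩ : ∃ η, η = Real.log (L + ε) - Real.log M := ⟨_, rfl⟩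
  have hη0 : 0 < η := by
    rw [hη]
    have := Real.log_lt_log (show 0 < M by linarith) (show M < L + ε by rw [hM]; linarith)
    linarith
  have h1 := window hu hK hr hM1 (by rw [hM]; exact hone _ (by positivity))
  have hlogc : Tendsto (fun k => Real.log (u (s k) / (s k : ℝ) ^ θ)) atTop (𝓝 (Real.log D)) :=
    (Real.continuousAt_log hD.ne').tendsto.comp hc
  have h2 := Metric.tendsto_nhds.mp hlogc (η / 4) (by positivity)
  have hgf : ∀ᶠ n : ℕ in atTop, 1 / (n : ℝ) ≤ f n := by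
    filter_upwards [eventually_ge_atTop 3] with n hn
    have hn' : (3 : ℝ) ≤ n := by exact_mod_cast hn
    have hlog : 1 ≤ Real.log n := by
      rw [Real.le_log_iff_exp_le (by linarith)]
      have := Real.exp_one_lt_d9
      linarith
    have hsq0 : 0 < Real.sqrt n := Real.sqrt_pos.mpr (by linarith)
    have hsq1 : Real.sqrt n ≤ n := by
      rw [Real.sqrt_le_iff]
      constructor <;> nlinarith
    unfold f
    calc 1 / (n : ℝ) ≤ 1 / Real.sqrt n := by gcongr
      _ ≤ Real.log n / Real.sqrt n := by gcongr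
  have h3 := at_index (δ := min (η / (4 * (|θ| + 1))) (η / (4 * (2 * K + 1)))) hgf hs hgap
    ((hs.eventually h1).and (h2.and (hs.eventually_ge_atTop 2))) (by positivity)
  filter_upwards [h3] with n hn
  obtain ⟨k, ⟨b1, b2, b3⟩, c1, c2, c3, c4, c5⟩ := hn
  have d1 := b1 n c1 c2
  rw [Real.dist_eq] at b2
  have hsk : (1 : ℝ) ≤ s k := by exact_mod_cast c3
  have hsn : (s k : ℝ) ≤ n := by exact_mod_cast c1
  have p1 := hu n (by omega)
  have p2 := hu (s k) b3
  have e1 : Real.log (u (s k) / (s k : ℝ) ^ θ) = Real.log (u (s k)) - θ * Real.log (s k) := by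
    rw [Real.log_div p2.ne' (by positivity), Real.log_rpow (by linarith)]
  have e2 : Real.log (u n / (n : ℝ) ^ θ) = Real.log (u n) - θ * Real.log n := by
    have : (0 : ℝ) < n := by linarith
    rw [Real.log_div p1.ne' (by positivity), Real.log_rpow (by linarith)]
  have d2 : |Real.log n - Real.log (s k)| ≤ η / (4 * (|θ| + 1)) :=
    (log_close c3 c1 c5).trans (min_le_left _ _)
  have d3 : |θ * (Real.log n - Real.log (s k))| ≤ η / 4 := by
    rw [abs_mul]
    calc |θ| * |Real.log n - Real.log (s k)| ≤ |θ| * (η / (4 * (|θ| + 1))) := by gcongr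
      _ ≤ η / 4 := by
        rw [mul_div_assoc', div_le_div_iff₀ (by positivity) (by norm_num)]
        nlinarith [abs_nonneg θ]
  have d4 : 2 * K * (((n : ℝ) - s k) * f (s k)) ≤ η / 4 := by
    have := c4.le.trans (min_le_right _ _)
    calc 2 * K * (((n : ℝ) - s k) * f (s k)) ≤ 2 * K * (η / (4 * (2 * K + 1))) := by gcongr
      _ ≤ η / 4 := by
        rw [mul_div_assoc', div_le_div_iff₀ (by positivity) (by norm_num)]
        nlinarith
  have key : |Real.log (u n / (n : ℝ) ^ θ) - Real.log D| ≤ Real.log (L + ε) := by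
    rw [e2]
    rw [e1] at b2
    have x1 := abs_le.mp d1
    have x2 := abs_lt.mp b2
    have x3 := abs_le.mp d3
    rw [abs_le]
    constructor <;> linarith [x1.1, x1.2, x2.1, x2.2, x3.1, x3.2]
  obtain ⟨k1, k2⟩ := abs_le.mp key
  have hv : 0 < u n / (n : ℝ) ^ θ := by
    have : (0 : ℝ) < n := by linarith
    positivity
  have hLε : 0 < L + ε := by linarith
  constructor
  · rw [← Real.log_le_log_iff (by positivity) hv, Real.log_div hD.ne' hLε.ne']
    linarith
  · rw [← Real.log_le_log_iff hv (by positivity), Real.log_mul hLε.ne' hD.ne']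
    linarith

/-- **the exponent along a sparse sequence is the exponent** -/
theorem exponent {u : ℕ → ℝ} (hu : ∀ n, 2 ≤ n → 0 < u n) {K : ℝ} (hK : 0 ≤ K)
    (hr : ∀ n, 2 ≤ n → |u (n + 2) / u n - 1| ≤ K * f n) {M : ℝ} (hM : 1 ≤ M)
    (hone : ∀ᶠ n in atTop, u (n + 1) ≤ M * u n ∧ u n ≤ M * u (n + 1))
    {s : ℕ → ℕ} (hs : Tendsto s atTop atTop)
    (hgap : Tendsto (fun k => ((s (k + 1) : ℝ) - s k) / Real.sqrt (s k)) atTop (𝓝 0)) {θ : ℝ}
    (hc : Tendsto (fun k => Real.log (u (s k)) / Real.log (s k)) atTop (𝓝 θ)) :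
    Tendsto (fun n : ℕ => Real.log (u n) / Real.log n) atTop (𝓝 θ) := by
  rw [Metric.tendsto_nhds]
  intro η hη
  have hlM : 0 ≤ Real.log M := Real.log_nonneg hM
  have h1 := window hu hK hr hM hone
  have h2 := Metric.tendsto_nhds.mp hc (min (η / 4) 1) (by positivity)
  have hgap' : Tendsto (fun k => ((s (k + 1) : ℝ) - s k) * (fun m : ℕ => 1 / Real.sqrt m) (s k))
      atTop (𝓝 0) := by
    refine hgap.congr fun k => ?_
    simp only
    rw [mul_one_div]
  have hgf : ∀ᶠ n : ℕ in atTop, 1 / (n : ℝ) ≤ (fun m : ℕ => 1 / Real.sqrt m) n := by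
    filter_upwards [eventually_ge_atTop 1] with n hn
    have hn' : (1 : ℝ) ≤ n := by exact_mod_cast hn
    have hsq0 : 0 < Real.sqrt n := Real.sqrt_pos.mpr (by linarith)
    have hsq1 : Real.sqrt n ≤ n := by
      rw [Real.sqrt_le_iff]
      constructor <;> nlinarith
    gcongr
  have hlogs : Tendsto (fun k => Real.log (s k)) atTop atTop :=
    Real.tendsto_log_atTop.comp (tendsto_natCast_atTop_atTop.comp hs)
  have h4 := hlogs.eventually_ge_atTop (max 1 (4 * (Real.log M + 1) / η + 4 * (|θ| + 1) / η))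
  have h3 := at_index (δ := min 1 (η / (4 * (2 * K + 1)))) hgf hs hgap'
    ((hs.eventually h1).and (h2.and ((hs.eventually_ge_atTop 2).and h4))) (by positivity)
  filter_upwards [h3] with n hn
  obtain ⟨k, ⟨b1, b2, b3, b4⟩, c1, c2, c3, c4, c5⟩ := hn
  have d1 := b1 n c1 c2
  rw [Real.dist_eq] at b2 ⊢
  have hsk : (1 : ℝ) ≤ s k := by exact_mod_cast c3
  have hsn : (s k : ℝ) ≤ n := by exact_mod_cast c1
  have l1 : 1 ≤ Real.log (s k) := (le_max_left _ _).trans b4
  have l2 := (le_max_right _ _).trans b4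
  have l3 : Real.log (s k) ≤ Real.log n := Real.log_le_log (by linarith) hsn
  have d2 : |Real.log n - Real.log (s k)| ≤ 1 := (log_close c3 c1 c5).trans (min_le_left _ _)
  have hsq0 : 0 < Real.sqrt (s k) := Real.sqrt_pos.mpr (by linarith)
  have d4 : 2 * K * (((n : ℝ) - s k) * f (s k)) ≤ η / 4 * Real.log (s k) := by
    have h6 := c4.le.trans (min_le_right _ _)
    have e : ((n : ℝ) - s k) * f (s k) = (((n : ℝ) - s k) * (1 / Real.sqrt (s k))) *
        Real.log (s k) := by unfold f; ring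
    rw [e]
    calc 2 * K * ((((n : ℝ) - s k) * (1 / Real.sqrt (s k))) * Real.log (s k)) ≤
          2 * K * (η / (4 * (2 * K + 1)) * Real.log (s k)) := by gcongr
      _ = 2 * K * (η / (4 * (2 * K + 1))) * Real.log (s k) := by ring
      _ ≤ η / 4 * Real.log (s k) := by
        gcongr
        rw [mul_div_assoc', div_le_div_iff₀ (by positivity) (by norm_num)]
        nlinarith
  obtain ⟨A, hA⟩ : ∃ A, A = Real.log (u n) := ⟨_, rfl⟩
  obtain ⟨B, hB⟩ : ∃ B, B = Real.log (u (s k)) := ⟨_, rfl⟩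
  obtain ⟨x, hx⟩ : ∃ x, x = Real.log (n : ℝ) := ⟨_, rfl⟩
  obtain ⟨y, hy⟩ : ∃ y, y = Real.log (s k : ℝ) := ⟨_, rfl⟩
  rw [← hA, ← hB] at d1
  rw [← hB, ← hy] at b2
  rw [← hx, ← hy] at d2 l3
  rw [← hy] at d4 l1 l2
  rw [← hA, ← hx]
  have hx0 : 0 < x := by linarith
  have hy0 : 0 < y := by linarith
  have b2' := b2.trans_le (min_le_left _ _)
  have b2'' := b2.trans_le (min_le_right _ _)
  have hBy : |B| ≤ (|θ| + 1) * y := by
    have : |B / y| ≤ |θ| + 1 := by
      have := abs_sub_abs_le_abs_sub (B / y) θ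
      linarith
    rwa [abs_div, abs_of_pos hy0, div_le_iff₀ hy0] at this
  have l4 : 4 * (Real.log M + 1) + 4 * (|θ| + 1) ≤ η * y := by
    rw [← add_div, div_le_iff₀ hη] at l2
    linarith
  -- `|A - θ x| < η x`
  have g1 : |A - θ * x| < η * x := by
    have e1 : A - θ * x = (A - B) + (B - θ * y) + θ * (y - x) := by ring
    have g2 : |B - θ * y| ≤ η / 4 * y := by
      have : |(B / y - θ) * y| ≤ η / 4 * y := by
        rw [abs_mul, abs_of_pos hy0]; gcongr
      have e : (B / y - θ) * y = B - θ * y := by field_simp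
      rwa [e] at this
    have g3 : |θ * (y - x)| ≤ |θ| := by
      rw [abs_mul, abs_sub_comm y x]
      calc |θ| * |x - y| ≤ |θ| * 1 := by gcongr
        _ = |θ| := mul_one _
    rw [e1]
    have g4 := abs_add_three (A - B) (B - θ * y) (θ * (y - x))
    have g5 : η * y ≤ η * x := by gcongr
    nlinarith [abs_nonneg θ]
  have e2 : A / x - θ = (A - θ * x) / x := by field_simp
  rw [e2, abs_div, abs_of_pos hx0, div_lt_iff₀ hx0]
  exact g1

end Pool.Agent.R956.D2
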