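import Pool.Agent.R956.A1
import Pool.Agent.R956.D2
import Pool.Agent.W387.Q.AreaLaw
import Pool.Agent.W387.Q.Mom
import Pool.Agent.TH303.LTwo

/-!
# The laws of the normalised area of polygons
-/

set_option autoImplicit false
set_option linter.unusedVariables false

namespace Pool.Agent.R956.A2

open MeasureTheory Filter Topology Set
open Pool.Agent.H739K hiding rN f4
open Pool.Agent.W387.Q Pool.Agent.W387.Q.AL
open scoped ENNReal NNReal BoundedContinuousFunction

noncomputable section

lemma integrable_law (g : ℝ → ℝ) (N : ℕ) : Integrable g (law N) := by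
  unfold law
  split_ifs with h
  · refine Integrable.smul_measure ?_ (by
      rw [ENNReal.inv_ne_top]
      exact_mod_cast card_ne h)
    rw [integrable_finsetSum_measure]
    intro w hw
    exact integrable_dirac (by simp)
  · exact integrable_dirac (by simp)

lemma law_nonneg (N : ℕ) : law N (Iio 0) = 0 := by
  unfold law
  split_ifs with h
  · rw [Measure.smul_apply, Measure.finsetSum_apply]
    have : ∑ w ∈ KP (2 * N - 1), Measure.dirac ((ar w : ℝ) / MA N) (Iio (0 : ℝ)) = 0 := by
      refine Finset.sum_eq_zero fun w hw => ?_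
      rw [Measure.dirac_apply' _ measurableSet_Iio, indicator_of_notMem]
      rw [mem_Iio, not_lt]
      have := MA_pos h
      positivity
    rw [this, smul_zero]
  · rw [Measure.dirac_apply' _ measurableSet_Iio, indicator_of_notMem]
    simp

lemma L_mean {N : ℕ} (hN : 2 ≤ N) : ∫ x, max x 0 ∂(law N) = 1 := by
  have hM := MA_pos hN
  rw [integral_law hN]
  unfold L
  have e : (fun f : ZMod (2 * N) → ℤ × ℤ => max ((Pool.Agent.H924P.area (2 * N) f : ℝ) / MA N) 0) =
      fun f => (Pool.Agent.H924P.area (2 * N) f : ℝ) * (1 / MA N) := by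
    funext f
    rw [max_eq_left (by positivity)]
    ring
  rw [e, F4x.me_mul CONV_proof hN]
  change MA N * (1 / MA N) = 1
  field_simp

lemma L_id {N : ℕ} (hN : 2 ≤ N) : ∫ x, x ∂(law N) = 1 := by
  rw [← L_mean hN]
  refine integral_congr_ae ?_
  have h0 : ∀ᵐ x ∂(law N), 0 ≤ x := A1.ae_nonneg (Q := plaw N) (law_nonneg N)
  filter_upwards [h0] with x hx
  rw [max_eq_left hx]

lemma L_pow (k : ℕ) {N : ℕ} (hN : 2 ≤ N) : ∫ x, x ^ k ∂(law N) = MOM.NK k N := by
  rw [integral_law hN]
  rfl

lemma one_le_NK (k : ℕ) {N : ℕ} (hN : 2 ≤ N) : 1 ≤ MOM.NK k N := by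
  rw [← L_pow k hN]
  have h0 : ∀ᵐ x ∂(law N), 0 ≤ x := A1.ae_nonneg (Q := plaw N) (law_nonneg N)
  have h1 : ∫ x, (1 + (k : ℝ) * (x - 1)) ∂(law N) = 1 := by
    rw [integral_add (integrable_const _) (integrable_law (fun x => (k : ℝ) * (x - 1)) N),
      integral_const_mul, integral_sub (integrable_law (fun x => x) N) (integrable_const _),
      L_id hN]
    simp
  rw [← h1]
  refine integral_mono_ae (integrable_law _ N) (integrable_law _ N) ?_
  filter_upwards [h0] with x hx
  have := one_add_mul_le_pow (show -2 ≤ x - 1 by linarith) k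
  simpa using this

lemma rN_tendsto : Tendsto (fun n => rN n) atTop (𝓝 0) := by
  refine D2.f_tendsto.congr' ?_
  filter_upwards [eventually_ge_atTop 2] with n hn
  rw [Pool.Agent.TH508.LT.rN_eq hn]
  rfl

theorem sq : A1.Sq plaw where
  nonneg := law_nonneg
  mean N := by
    show ∫⁻ x, ENNReal.ofReal (max x 0) ∂(law N) ≤ 1
    by_cases hN : 2 ≤ N
    · rw [← ofReal_integral_eq_lintegral_ofReal (integrable_law (fun x => max x 0) N)
        (Eventually.of_forall fun x => le_max_right _ _), L_mean hN]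
      simp
    · unfold law
      rw [if_neg hN, lintegral_dirac]
      simp
  merge g h1 h2 := by
    obtain ⟨K, hK⟩ := f4
    have t : Tendsto (fun n => K * rN n) atTop (𝓝 0) := by
      simpa using rN_tendsto.const_mul K
    rw [tendsto_zero_iff_abs_tendsto_zero]
    refine squeeze_zero' (Eventually.of_forall fun n => abs_nonneg _) ?_ t
    filter_upwards [eventually_ge_atTop 2] with n hn
    simp only [Function.comp_apply]
    show |∫ x, g x ∂(law (n + 1)) - ∫ x, g x ∂(law n)| ≤ _
    rw [integral_law (by omega), integral_law hn]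
    exact hK n hn g h1 h2

/-- moments along sparse sequences -/
theorem sparse_moments {m : ℕ → ℝ} (hm : ∀ k, ∃ s : ℕ → ℕ, Tendsto s atTop atTop ∧
      Tendsto (fun j => ((s (j + 1) : ℝ) - s j) * (Real.log (s j) / Real.sqrt (s j))) atTop (𝓝 0) ∧
      Tendsto (fun j => MOM.NK k (s j)) atTop (𝓝 (m k))) {ν : ProbabilityMeasure ℝ}
    (hν : ∀ ρ : ProbabilityMeasure ℝ,
      (∀ k, Integrable (fun x => x ^ k) (ρ : Measure ℝ) ∧ ∫ x, x ^ k ∂(ρ : Measure ℝ) = m k) →
      ρ = ν) : Tendsto plaw atTop (𝓝 ν) := by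
  refine A1.moments sq (fun k n => integrable_law _ n) (m := m) (fun k => ?_) hν
  obtain ⟨s, hs, hgap', h⟩ := hm k
  have hgap := Pool.Agent.TH303.LTwo.gap s hs hgap'
  have hm1 : 1 ≤ m k := by
    refine ge_of_tendsto h ?_
    filter_upwards [hs.eventually_ge_atTop 2] with j hj
    exact one_le_NK k hj
  obtain ⟨K, hK⟩ := Pool.Agent.W387.Q.MOM.all_moments k
  have h2 := Pool.Agent.W387.Q.mul_gen (fun n => MOM.NK k n) K
    (fun n hn => lt_of_lt_of_le one_pos (one_le_NK k hn))
    (fun n hn => (hK n hn).2) s hs hgap (m k) (by linarith) h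
  refine h2.congr' ?_
  filter_upwards [eventually_ge_atTop 2] with n hn
  exact (L_pow k hn).symm

end

end Pool.Agent.R956.A2
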