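import Pool.Agent.R956.D2

/-!
# The ratios `r (2 n) / r n ^ 2` for a slowly varying sequence
-/

set_option autoImplicit false
set_option linter.unusedVariables false

namespace Pool.Agent.R956.V1

open Filter Topology D2

/-- facts about the normalised numbers `r n = c n / μ ^ n` of walks -/
structure Sq (r : ℕ → ℝ) (K β : ℝ) : Prop where
  one_le : ∀ n, 1 ≤ r n
  hK : 0 ≤ K
  hβ : 1 ≤ β
  rate : ∀ n, 2 ≤ n → |r (n + 2) / r n - 1| ≤ K * f n
  step : ∀ ε : ℝ, 0 < ε → ∀ᶠ n in atTop, r (n + 1) ≤ (β + ε) * r n ∧ r n ≤ (β + ε) * r (n + 1)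
  sub : Tendsto (fun n : ℕ => Real.log (r n) / n) atTop (𝓝 0)

/-- the ratio `r (2 n) / r n ^ 2` -/
noncomputable def P (r : ℕ → ℝ) (n : ℕ) : ℝ := r (2 * n) / r n ^ 2

variable {r : ℕ → ℝ} {K β : ℝ}

lemma Sq.pos (S : Sq r K β) (n : ℕ) : 0 < r n := one_pos.trans_le (S.one_le n)

lemma P_pos (S : Sq r K β) (n : ℕ) : 0 < P r n := by
  have := S.pos n
  have := S.pos (2 * n)
  unfold P
  positivity

/-- an eventual bound is a bound -/
lemma ev_all2 {u g : ℕ → ℝ} (hg : ∀ n, 2 ≤ n → 0 < g n) {k : ℝ} (hk : 0 ≤ k)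
    (h : ∀ᶠ n in atTop, u n ≤ k * g n) :
    ∃ K : ℝ, 0 ≤ K ∧ ∀ n, 2 ≤ n → u n ≤ K * g n := by
  obtain ⟨N, hN⟩ := eventually_atTop.mp h
  have hS : 0 ≤ ∑ i ∈ Finset.range N, |u i| / |g i| :=
    Finset.sum_nonneg fun i _ => by positivity
  refine ⟨k + ∑ i ∈ Finset.range N, |u i| / |g i|, by positivity, fun n hn => ?_⟩
  have hg0 := hg n hn
  rcases lt_or_ge n N with h | h
  · have h1 : |u n| / |g n| ≤ ∑ i ∈ Finset.range N, |u i| / |g i| :=
      Finset.single_le_sum (f := fun i => |u i| / |g i|) (fun i _ => by positivity)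
        (Finset.mem_range.mpr h)
    have h2 : u n ≤ (|u n| / |g n|) * g n := by
      rw [abs_of_pos hg0, div_mul_cancel₀ _ hg0.ne']
      exact le_abs_self _
    refine h2.trans (mul_le_mul_of_nonneg_right ?_ hg0.le)
    linarith
  · refine (hN n h).trans (mul_le_mul_of_nonneg_right ?_ hg0.le)
    linarith

lemma f_pos {n : ℕ} (hn : 2 ≤ n) : 0 < f n := by
  have : (1 : ℝ) < n := by exact_mod_cast (show 1 < n by omega)
  unfold f
  exact div_pos (Real.log_pos this) (Real.sqrt_pos.mpr (by linarith))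

lemma quot_bound {x y z t : ℝ} (ht : 0 ≤ t) (ht1 : t ≤ 1 / 16) (hx : |x - 1| ≤ 2 * t)
    (hy : |y - 1| ≤ 4 * t) (hz : |z - 1| ≤ t) : |x * y / z ^ 2 - 1| ≤ 12 * t := by
  obtain ⟨x1, x2⟩ := abs_le.mp hx
  obtain ⟨y1, y2⟩ := abs_le.mp hy
  obtain ⟨z1, z2⟩ := abs_le.mp hz
  have hz0 : 0 < z := by linarith
  have hz2 : 0 < z ^ 2 := by positivity
  have a1 : x * y ≤ (1 + 2 * t) * (1 + 4 * t) := by
    apply mul_le_mul <;> linarith
  have a2 : (1 - 2 * t) * (1 - 4 * t) ≤ x * y := by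
    apply mul_le_mul <;> linarith
  have b1 : z ^ 2 ≤ (1 + t) ^ 2 := by
    apply pow_le_pow_left₀ hz0.le; linarith
  have b2 : (1 - t) ^ 2 ≤ z ^ 2 := by
    apply pow_le_pow_left₀ (by linarith); linarith
  have c1 : (12 * t + 1) * (1 - t) ^ 2 ≤ (12 * t + 1) * z ^ 2 :=
    mul_le_mul_of_nonneg_left b2 (by linarith)
  have c2 : (1 - 12 * t) * z ^ 2 ≤ (1 - 12 * t) * (1 + t) ^ 2 :=
    mul_le_mul_of_nonneg_left b1 (by linarith)
  have d1 : (1 + 2 * t) * (1 + 4 * t) ≤ (12 * t + 1) * (1 - t) ^ 2 := by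
    have : 0 ≤ t * (4 - 31 * t + 12 * t ^ 2) := mul_nonneg ht (by nlinarith)
    nlinarith
  have d2 : (1 - 12 * t) * (1 + t) ^ 2 ≤ (1 - 2 * t) * (1 - 4 * t) := by
    have : 0 ≤ t * (4 + 31 * t + 12 * t ^ 2) := by positivity
    nlinarith
  have g1 : x * y / z ^ 2 ≤ 12 * t + 1 := by
    rw [div_le_iff₀ hz2]
    linarith
  have g2 : 1 - 12 * t ≤ x * y / z ^ 2 := by
    rw [le_div_iff₀ hz2]
    linarith
  rw [abs_le]
  constructor <;> linarith

/-- the rate for the ratios -/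
theorem P_rate (S : Sq r K β) : ∃ K' : ℝ, 0 ≤ K' ∧ ∀ n, 2 ≤ n →
    |P r (n + 2) / P r n - 1| ≤ K' * f n := by
  refine ev_all2 (fun n hn => f_pos hn) (k := 12 * K) (by linarith [S.hK]) ?_
  have t : Tendsto (fun n => K * f n) atTop (𝓝 0) := by
    simpa using f_tendsto.const_mul K
  filter_upwards [t.eventually_lt_const (show (0 : ℝ) < 1 / 16 by norm_num),
    eventually_ge_atTop 2] with n h1 hn
  have p0 := S.pos n
  have p1 := S.pos (n + 2)
  have p2 := S.pos (2 * n)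
  have p3 := S.pos (2 * n + 2)
  have p4 := S.pos (2 * n + 4)
  have hf := f_nonneg n
  have e : P r (n + 2) / P r n = (r (2 * n + 2) / r (2 * n)) * (r (2 * n + 4) / r (2 * n + 2)) /
      (r (n + 2) / r n) ^ 2 := by
    unfold P
    rw [show 2 * (n + 2) = 2 * n + 4 by ring]
    field_simp
  rw [e, mul_assoc]
  refine quot_bound (by have := S.hK; positivity) h1.le ?_ ?_ (S.rate n hn)
  · refine (S.rate (2 * n) (by omega)).trans ?_
    have := f_window hn (show n ≤ 2 * n by omega) le_rfl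
    calc K * f (2 * n) ≤ K * (2 * f n) := mul_le_mul_of_nonneg_left this S.hK
      _ = _ := by ring
  · refine (S.rate (2 * n + 2) (by omega)).trans ?_
    have a1 := f_window (show 2 ≤ n + 1 by omega) (show n + 1 ≤ 2 * n + 2 by omega) (by omega)
    have a2 := f_window hn (show n ≤ n + 1 by omega) (by omega)
    calc K * f (2 * n + 2) ≤ K * (4 * f n) := mul_le_mul_of_nonneg_left (by linarith) S.hK
      _ = _ := by ring

lemma two_gen {r : ℕ → ℝ} (hr : ∀ n, 0 < r n) {K : ℝ}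
    (rate : ∀ n, 2 ≤ n → |r (n + 2) / r n - 1| ≤ K * f n) {η : ℝ} (hη : 0 < η) :
    ∀ᶠ n in atTop, r (n + 2) ≤ (1 + η) * r n ∧ r n ≤ (1 + η) * r (n + 2) := by
  have t : Tendsto (fun n => K * f n) atTop (𝓝 0) := by
    simpa using f_tendsto.const_mul K
  filter_upwards [t.eventually_lt_const (show (0 : ℝ) < η / (1 + η) by positivity),
    eventually_ge_atTop 2] with n h1 hn
  have p0 := hr n
  have p1 := hr (n + 2)
  obtain ⟨a1, a2⟩ := abs_le.mp ((rate n hn).trans h1.le)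
  have hη1 : η / (1 + η) ≤ η := by
    rw [div_le_iff₀ (by linarith)]
    nlinarith
  constructor
  · have : r (n + 2) / r n ≤ 1 + η := by linarith
    rwa [div_le_iff₀ p0] at this
  · have h3 : 1 - η / (1 + η) ≤ r (n + 2) / r n := by linarith
    have h4 : 1 - η / (1 + η) = 1 / (1 + η) := by
      field_simp
      ring
    rw [h4, div_le_div_iff₀ (by linarith) p0] at h3
    linarith

lemma two_ev (S : Sq r K β) {η : ℝ} (hη : 0 < η) :
    ∀ᶠ n in atTop, r (n + 2) ≤ (1 + η) * r n ∧ r n ≤ (1 + η) * r (n + 2) :=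
  two_gen S.pos S.rate hη

/-- one step of the ratios -/
theorem P_step (S : Sq r K β) {ε : ℝ} (hε : 0 < ε) :
    ∀ᶠ n in atTop, P r (n + 1) ≤ (β ^ 2 + ε) * P r n ∧ P r n ≤ (β ^ 2 + ε) * P r (n + 1) := by
  obtain ⟨η, hη, hη2⟩ : ∃ η : ℝ, 0 < η ∧ (1 + η) * (β + η) ^ 2 ≤ β ^ 2 + ε := by
    have hc : Tendsto (fun η : ℝ => (1 + η) * (β + η) ^ 2) (𝓝 0) (𝓝 ((1 + 0) * (β + 0) ^ 2)) :=
      Continuous.tendsto (by fun_prop) 0
    have h1 : ∀ᶠ η : ℝ in 𝓝 0, (1 + η) * (β + η) ^ 2 < β ^ 2 + ε :=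
      hc.eventually_lt_const (by linarith)
    have h2 : ∀ᶠ η : ℝ in 𝓝[>] 0, (1 + η) * (β + η) ^ 2 < β ^ 2 + ε :=
      h1.filter_mono nhdsWithin_le_nhds
    obtain ⟨η, h3, h4⟩ := (h2.and self_mem_nhdsWithin).exists
    exact ⟨η, h4, h3.le⟩
  have htwo : Tendsto (fun n : ℕ => 2 * n) atTop atTop :=
    tendsto_id.const_mul_atTop' (by norm_num)
  filter_upwards [S.step η hη, htwo.eventually (two_ev S hη)] with n h1 h2
  have p0 := S.pos n
  have p1 := S.pos (n + 1)
  have p2 := S.pos (2 * n)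
  have p3 := S.pos (2 * n + 2)
  have hβ := S.hβ
  have q1 : r (n + 1) ^ 2 ≤ (β + η) ^ 2 * r n ^ 2 := by
    rw [← mul_pow]
    exact pow_le_pow_left₀ p1.le h1.1 2
  have q2 : r n ^ 2 ≤ (β + η) ^ 2 * r (n + 1) ^ 2 := by
    rw [← mul_pow]
    exact pow_le_pow_left₀ p0.le h1.2 2
  unfold P
  rw [show 2 * (n + 1) = 2 * n + 2 by ring]
  constructor
  · refine le_trans ?_ (mul_le_mul_of_nonneg_right hη2 (by positivity))
    rw [div_le_iff₀ (by positivity)]
    have e : (1 + η) * (β + η) ^ 2 * (r (2 * n) / r n ^ 2) * r (n + 1) ^ 2 =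
        ((1 + η) * r (2 * n)) * (((β + η) ^ 2 * r (n + 1) ^ 2) / r n ^ 2) := by
      field_simp
    rw [e]
    have h3 : 1 ≤ ((β + η) ^ 2 * r (n + 1) ^ 2) / r n ^ 2 := by
      rw [one_le_div (by positivity)]
      exact q2
    calc r (2 * n + 2) ≤ (1 + η) * r (2 * n) := h2.1
      _ ≤ _ := le_mul_of_one_le_right (by positivity) h3
  · refine le_trans ?_ (mul_le_mul_of_nonneg_right hη2 (by positivity))
    rw [div_le_iff₀ (by positivity)]
    have e : (1 + η) * (β + η) ^ 2 * (r (2 * n + 2) / r (n + 1) ^ 2) * r n ^ 2 =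
        ((1 + η) * r (2 * n + 2)) * (((β + η) ^ 2 * r n ^ 2) / r (n + 1) ^ 2) := by
      field_simp
    rw [e]
    have h3 : 1 ≤ ((β + η) ^ 2 * r n ^ 2) / r (n + 1) ^ 2 := by
      rw [one_le_div (by positivity)]
      exact q1
    calc r (2 * n) ≤ (1 + η) * r (2 * n + 2) := h2.2
      _ ≤ _ := le_mul_of_one_le_right (by positivity) h3

/-- `2 n` along the lengths -/
lemma log_P (S : Sq r K β) (n : ℕ) : Real.log (P r n) = Real.log (r (2 * n)) -
    2 * Real.log (r n) := by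
  unfold P
  rw [Real.log_div (S.pos _).ne' (pow_pos (S.pos n) 2).ne', Real.log_pow]
  push_cast
  ring

/-- iterating the doubling inequality -/
lemma nonpos_of_double {g : ℕ → ℝ} (hg : Tendsto (fun n : ℕ => g n / n) atTop (𝓝 0)) {n : ℕ}
    (hn : 1 ≤ n) (h : ∀ J : ℕ, 2 * g (2 ^ J * n) ≤ g (2 * (2 ^ J * n))) : g n ≤ 0 := by
  have h1 : ∀ J : ℕ, 2 ^ J * g n ≤ g (2 ^ J * n) := by
    intro J
    induction J with
    | zero => simp
    | succ J ih =>
      have := h J
      rw [show 2 ^ (J + 1) * n = 2 * (2 ^ J * n) by ring, pow_succ]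
      linarith
  have hn0 : (0 : ℝ) < n := by exact_mod_cast hn
  have ht : Tendsto (fun J : ℕ => 2 ^ J * n) atTop atTop := by
    refine tendsto_atTop_mono (fun J => ?_) (tendsto_pow_atTop_atTop_of_one_lt (show 1 < 2 by norm_num))
    exact Nat.le_mul_of_pos_right _ hn
  have h2 := hg.comp ht
  have h3 : ∀ J : ℕ, g n / n ≤ (fun m : ℕ => g m / m) (2 ^ J * n) := by
    intro J
    have h4 := h1 J
    simp only
    rw [div_le_div_iff₀ hn0 (by positivity)]
    push_cast
    have : (0 : ℝ) < 2 ^ J := by positivity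
    nlinarith
  have h5 := ge_of_tendsto h2 (Eventually.of_forall h3)
  rw [div_le_iff₀ hn0, zero_mul] at h5
  exact h5

/-- the sum of a power law's logarithm is `o(n)` -/
lemma over_n (S : Sq r K β) (a b : ℝ) :
    Tendsto (fun n : ℕ => (Real.log (r n) - a * Real.log n - b) / n) atTop (𝓝 0) := by
  have h1 : Tendsto (fun n : ℕ => Real.log (n : ℝ) / n) atTop (𝓝 0) :=
    (Real.isLittleO_log_id_atTop.tendsto_div_nhds_zero).comp tendsto_natCast_atTop_atTop
  have h2 : Tendsto (fun n : ℕ => b / (n : ℝ)) atTop (𝓝 0) :=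
    tendsto_const_div_atTop_nhds_zero_nat b
  have h3 := (S.sub.sub (h1.const_mul a)).sub h2
  simp only [mul_zero, sub_zero] at h3
  refine h3.congr fun n => ?_
  ring

/-- **from bounds for the ratios to bounds for the sequence** -/
theorem upper (S : Sq r K β) {a b : ℝ} (hb : 0 < b) {n : ℕ} (hn : 1 ≤ n)
    (h : ∀ J : ℕ, b ≤ P r (2 ^ J * n) * ((2 ^ J * n : ℕ) : ℝ) ^ a) :
    r n / (n : ℝ) ^ a ≤ 2 ^ a / b := by
  have hn0 : (0 : ℝ) < n := by exact_mod_cast hn
  have key := nonpos_of_double (g := fun m : ℕ => Real.log (r m) - a * Real.log m -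
    (a * Real.log 2 - Real.log b)) (over_n S a _) hn fun J => by
      obtain ⟨m, hm⟩ : ∃ m, m = 2 ^ J * n := ⟨_, rfl⟩
      have hm1 : 1 ≤ m := by
        rw [hm]
        exact Nat.one_le_iff_ne_zero.mpr (by positivity)
      have hm0 : (0 : ℝ) < m := by exact_mod_cast hm1
      have h1 := Real.log_le_log hb (h J)
      rw [← hm] at h1 ⊢
      rw [Real.log_mul (P_pos S m).ne' (by positivity), Real.log_rpow hm0, log_P S] at h1
      have e : Real.log ((2 * m : ℕ) : ℝ) = Real.log 2 + Real.log m := by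
        rw [Nat.cast_mul, Real.log_mul (by norm_num) hm0.ne']
        norm_num
      rw [e]
      linarith
  have h2 : 0 < r n / (n : ℝ) ^ a := div_pos (S.pos n) (by positivity)
  rw [← Real.log_le_log_iff h2 (by positivity), Real.log_div (S.pos n).ne' (by positivity),
    Real.log_rpow hn0, Real.log_div (by positivity) hb.ne', Real.log_rpow (by norm_num)]
  linarith

theorem lower (S : Sq r K β) {a b : ℝ} (hb : 0 < b) {n : ℕ} (hn : 1 ≤ n)
    (h : ∀ J : ℕ, P r (2 ^ J * n) * ((2 ^ J * n : ℕ) : ℝ) ^ a ≤ b) :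
    2 ^ a / b ≤ r n / (n : ℝ) ^ a := by
  have hn0 : (0 : ℝ) < n := by exact_mod_cast hn
  have key := nonpos_of_double (g := fun m : ℕ => -(Real.log (r m) - a * Real.log m -
    (a * Real.log 2 - Real.log b))) (by
      have := (over_n S a (a * Real.log 2 - Real.log b)).neg
      rw [neg_zero] at this
      exact this.congr fun m => by rw [neg_div]) hn fun J => by
      obtain ⟨m, hm⟩ : ∃ m, m = 2 ^ J * n := ⟨_, rfl⟩
      have hm1 : 1 ≤ m := by
        rw [hm]
        exact Nat.one_le_iff_ne_zero.mpr (by positivity)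
      have hm0 : (0 : ℝ) < m := by exact_mod_cast hm1
      have h0 := P_pos S m
      have h1 := Real.log_le_log (by rw [← hm]; positivity) (h J)
      rw [← hm] at h1 ⊢
      rw [Real.log_mul (P_pos S m).ne' (by positivity), Real.log_rpow hm0, log_P S] at h1
      have e : Real.log ((2 * m : ℕ) : ℝ) = Real.log 2 + Real.log m := by
        rw [Nat.cast_mul, Real.log_mul (by norm_num) hm0.ne']
        norm_num
      rw [e]
      linarith
  have h2 : 0 < r n / (n : ℝ) ^ a := div_pos (S.pos n) (by positivity)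
  rw [← Real.log_le_log_iff (by positivity) h2, Real.log_div (S.pos n).ne' (by positivity),
    Real.log_rpow hn0, Real.log_div (by positivity) hb.ne', Real.log_rpow (by norm_num)]
  linarith

lemma pow_mul_ge (J n : ℕ) : n ≤ 2 ^ J * n := Nat.le_mul_of_pos_left n (by positivity)

/-- **the amplitude form, any parities** -/
theorem amp (S : Sq r K β) {s : ℕ → ℕ} (hs : Tendsto s atTop atTop)
    (hgap : Tendsto (fun k => ((s (k + 1) : ℝ) - s k) * f (s k)) atTop (𝓝 0)) {a B : ℝ}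
    (hB : 0 < B) (hc : Tendsto (fun k => P r (s k) * (s k : ℝ) ^ a) atTop (𝓝 B)) {ε : ℝ}
    (hε : 0 < ε) :
    ∀ᶠ n : ℕ in atTop,
      (B / (β ^ 2 + ε) ≤ P r n * (n : ℝ) ^ a ∧ P r n * (n : ℝ) ^ a ≤ (β ^ 2 + ε) * B) ∧
      (2 ^ a / B) / (β ^ 2 + ε) ≤ r n / (n : ℝ) ^ a ∧
      r n / (n : ℝ) ^ a ≤ (β ^ 2 + ε) * (2 ^ a / B) := by
  obtain ⟨K', hK0, hK'⟩ := P_rate S
  have hβ := S.hβ
  have hβ2 : 1 ≤ β ^ 2 := by nlinarith
  have h1 := amplitude (u := P r) (fun n _ => P_pos S n) hK0 hK' hβ2 (fun ε hε => P_step S hε) hs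
    hgap (θ := -a) hB (by
      refine hc.congr' ?_
      filter_upwards [hs.eventually_ge_atTop 1] with k hk
      have : (0 : ℝ) < s k := by exact_mod_cast hk
      rw [Real.rpow_neg this.le, div_inv_eq_mul]) hε
  have h2 : ∀ᶠ n : ℕ in atTop,
      B / (β ^ 2 + ε) ≤ P r n * (n : ℝ) ^ a ∧ P r n * (n : ℝ) ^ a ≤ (β ^ 2 + ε) * B := by
    filter_upwards [h1, eventually_ge_atTop 1] with n hn hn1
    have : (0 : ℝ) < n := by exact_mod_cast hn1
    rwa [Real.rpow_neg this.le, div_inv_eq_mul] at hn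
  obtain ⟨N, hN⟩ := eventually_atTop.mp h2
  filter_upwards [eventually_ge_atTop (max N 1)] with n hn
  have hn1 : 1 ≤ n := (le_max_right _ _).trans hn
  have hnN : N ≤ n := (le_max_left _ _).trans hn
  refine ⟨hN n hnN, ?_, ?_⟩
  · have := lower S (a := a) (b := (β ^ 2 + ε) * B) (by positivity) hn1
      (fun J => (hN _ (hnN.trans (pow_mul_ge J n))).2)
    rw [div_div, mul_comm B]
    exact this
  · have := upper S (a := a) (b := B / (β ^ 2 + ε)) (by positivity) hn1
      (fun J => (hN _ (hnN.trans (pow_mul_ge J n))).1)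
    refine this.trans (le_of_eq ?_)
    field_simp

/-- **the exponent along a sparse sequence** -/
theorem expo (S : Sq r K β) {s : ℕ → ℕ} (hs : Tendsto s atTop atTop)
    (hgap : Tendsto (fun k => ((s (k + 1) : ℝ) - s k) / Real.sqrt (s k)) atTop (𝓝 0)) {θ : ℝ}
    (hc : Tendsto (fun k => Real.log (P r (s k)) / Real.log (s k)) atTop (𝓝 θ)) :
    Tendsto (fun n : ℕ => Real.log (P r n) / Real.log n) atTop (𝓝 θ) := by
  obtain ⟨K', hK0, hK'⟩ := P_rate S
  have hβ := S.hβ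
  exact exponent (u := P r) (fun n _ => P_pos S n) hK0 hK' (M := β ^ 2 + 1) (by nlinarith)
    (P_step S one_pos) hs hgap hc

lemma tendsto_of_ratio {g : ℕ → ℝ} {D : ℝ} (hD : 0 < D)
    (h : ∀ ε : ℝ, 0 < ε → ∀ᶠ n in atTop, D / (1 + ε) ≤ g n ∧ g n ≤ (1 + ε) * D) :
    Tendsto g atTop (𝓝 D) := by
  rw [Metric.tendsto_nhds]
  intro η hη
  filter_upwards [h (η / (2 * D)) (by positivity)] with n hn
  obtain ⟨h1, h2⟩ := hn
  have e1 : (1 + η / (2 * D)) * D = D + η / 2 := by field_simp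
  have e2 : D - η / 2 ≤ D / (1 + η / (2 * D)) := by
    rw [le_div_iff₀ (by positivity)]
    have : (D - η / 2) * (1 + η / (2 * D)) = D - η ^ 2 / (4 * D) := by
      field_simp
      ring
    rw [this]
    have : 0 ≤ η ^ 2 / (4 * D) := by positivity
    linarith
  rw [e1] at h2
  rw [Real.dist_eq, abs_lt]
  constructor <;> linarith

lemma f_half {n : ℕ} (hn : 2 ≤ n) : f (2 * (n / 2)) ≤ 2 * f n := by
  obtain ⟨m, hm⟩ : ∃ m, m = 2 * (n / 2) := ⟨_, rfl⟩
  rw [← hm]
  have h2 : 2 ≤ m := by omega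
  have h3 : m ≤ n := by omega
  have h4 : n ≤ 2 * m := by omega
  have h2' : (2 : ℝ) ≤ m := by exact_mod_cast h2
  have h3' : (m : ℝ) ≤ n := by exact_mod_cast h3
  have h4' : (n : ℝ) ≤ 2 * m := by exact_mod_cast h4
  have e1 : Real.log m ≤ Real.log n := Real.log_le_log (by linarith) h3'
  have e0 : 0 ≤ Real.log m := Real.log_nonneg (by linarith)
  have e2 : Real.sqrt n ≤ 2 * Real.sqrt m := by
    rw [Real.sqrt_le_iff]
    refine ⟨by positivity, ?_⟩
    rw [mul_pow, Real.sq_sqrt (by linarith)]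
    linarith
  have hm0 : 0 < Real.sqrt m := Real.sqrt_pos.mpr (by linarith)
  have hn0 : 0 < Real.sqrt n := Real.sqrt_pos.mpr (by linarith)
  unfold f
  rw [← mul_div_assoc, div_le_div_iff₀ hm0 hn0]
  nlinarith

/-- a power law along a sparse sequence of even numbers holds along the even numbers -/
theorem same_parity {u : ℕ → ℝ} (hu : ∀ n, 0 < u n) {K : ℝ} (hK : 0 ≤ K)
    (hr : ∀ n, 2 ≤ n → |u (n + 2) / u n - 1| ≤ K * f n) {s : ℕ → ℕ} (hs : Tendsto s atTop atTop)
    (hev : ∀ k, Even (s k))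
    (hgap : Tendsto (fun k => ((s (k + 1) : ℝ) - s k) * f (s k)) atTop (𝓝 0)) {θ D : ℝ}
    (hD : 0 < D) (hc : Tendsto (fun k => u (s k) / (s k : ℝ) ^ θ) atTop (𝓝 D)) {ε : ℝ}
    (hε : 0 < ε) :
    ∀ᶠ n : ℕ in atTop, Even n → D / (1 + ε) ≤ u n / (n : ℝ) ^ θ ∧
      u n / (n : ℝ) ^ θ ≤ (1 + ε) * D := by
  obtain ⟨v, hv⟩ : ∃ v : ℕ → ℝ, v = fun n => u (2 * (n / 2)) := ⟨_, rfl⟩
  have hve : ∀ n, Even n → v n = u n := by
    intro n hn
    rw [hv]
    simp only
    rw [Nat.two_mul_div_two_of_even hn]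
  have hrate : ∀ n, 2 ≤ n → |v (n + 2) / v n - 1| ≤ (2 * K) * f n := by
    intro n hn
    rw [hv]
    simp only
    rw [show 2 * ((n + 2) / 2) = 2 * (n / 2) + 2 by omega]
    refine (hr _ (by omega)).trans ?_
    calc K * f (2 * (n / 2)) ≤ K * (2 * f n) := mul_le_mul_of_nonneg_left (f_half hn) hK
      _ = _ := by ring
  have hone : ∀ ε : ℝ, 0 < ε → ∀ᶠ n in atTop, v (n + 1) ≤ (1 + ε) * v n ∧
      v n ≤ (1 + ε) * v (n + 1) := by
    intro ε hε
    obtain ⟨N, hN⟩ := eventually_atTop.mp (two_gen hu hr hε)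
    filter_upwards [eventually_ge_atTop (N + 1)] with n hn
    have hvp : ∀ m, 0 < v m := fun m => by rw [hv]; exact hu _
    rcases Nat.even_or_odd' n with ⟨j, rfl | rfl⟩
    · have e : v (2 * j + 1) = v (2 * j) := by
        rw [hv]
        simp only
        rw [show 2 * ((2 * j + 1) / 2) = 2 * (2 * j / 2) by omega]
      rw [e]
      have := hvp (2 * j)
      constructor <;> nlinarith
    · have e1 : v (2 * j + 1) = u (2 * j) := by
        rw [hv]
        simp only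
        rw [show 2 * ((2 * j + 1) / 2) = 2 * j by omega]
      have e2 : v (2 * j + 1 + 1) = u (2 * j + 2) := by
        rw [hv]
        simp only
        rw [show 2 * ((2 * j + 1 + 1) / 2) = 2 * j + 2 by omega]
      rw [e1, e2]
      exact hN _ (by omega)
  have h1 := amplitude (u := v) (fun n _ => by rw [hv]; exact hu _) (by positivity) hrate le_rfl
    hone hs hgap hD (θ := θ) (by
      refine hc.congr fun k => ?_
      rw [hve _ (hev k)]) hε
  filter_upwards [h1] with n hn he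
  rwa [hve n he] at hn

/-- **the amplitude form, even lengths** -/
theorem amp_even (S : Sq r K β) {s : ℕ → ℕ} (hs : Tendsto s atTop atTop)
    (hev : ∀ k, Even (s k))
    (hgap : Tendsto (fun k => ((s (k + 1) : ℝ) - s k) * f (s k)) atTop (𝓝 0)) {a B : ℝ}
    (hB : 0 < B) (hc : Tendsto (fun k => P r (s k) * (s k : ℝ) ^ a) atTop (𝓝 B)) :
    Tendsto (fun n : ℕ => P r (2 * n) * ((2 * n : ℕ) : ℝ) ^ a) atTop (𝓝 B) ∧
    Tendsto (fun n : ℕ => r (2 * n) / ((2 * n : ℕ) : ℝ) ^ a) atTop (𝓝 (2 ^ a / B)) := by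
  obtain ⟨K', hK0, hK'⟩ := P_rate S
  have h1 : ∀ ε : ℝ, 0 < ε → ∀ᶠ n : ℕ in atTop, Even n →
      B / (1 + ε) ≤ P r n * (n : ℝ) ^ a ∧ P r n * (n : ℝ) ^ a ≤ (1 + ε) * B := by
    intro ε hε
    have h2 := same_parity (u := P r) (P_pos S) hK0 hK' hs hev hgap (θ := -a) hB (by
      refine hc.congr' ?_
      filter_upwards [hs.eventually_ge_atTop 1] with k hk
      have : (0 : ℝ) < s k := by exact_mod_cast hk
      rw [Real.rpow_neg this.le, div_inv_eq_mul]) hε
    filter_upwards [h2, eventually_ge_atTop 1] with n hn hn1 he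
    have : (0 : ℝ) < n := by exact_mod_cast hn1
    have h3 := hn he
    rwa [Real.rpow_neg this.le, div_inv_eq_mul] at h3
  have htwo : Tendsto (fun n : ℕ => 2 * n) atTop atTop :=
    tendsto_id.const_mul_atTop' (by norm_num)
  constructor
  · refine tendsto_of_ratio hB fun ε hε => ?_
    filter_upwards [htwo.eventually (h1 ε hε)] with n hn
    exact hn (even_two_mul n)
  · refine tendsto_of_ratio (by positivity) fun ε hε => ?_
    obtain ⟨N, hN⟩ := eventually_atTop.mp (h1 ε hε)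
    filter_upwards [eventually_ge_atTop (N + 1)] with n hn
    have hJ : ∀ J : ℕ, N ≤ 2 ^ J * (2 * n) ∧ Even (2 ^ J * (2 * n)) := fun J =>
      ⟨by have := pow_mul_ge J (2 * n); omega, (even_two_mul n).mul_left _⟩
    constructor
    · have := lower S (a := a) (b := (1 + ε) * B) (n := 2 * n) (by positivity) (by omega)
        (fun J => (hN _ (hJ J).1 (hJ J).2).2)
      rw [div_div, mul_comm B]
      exact this
    · have := upper S (a := a) (b := B / (1 + ε)) (n := 2 * n) (by positivity) (by omega)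
        (fun J => (hN _ (hJ J).1 (hJ J).2).1)
      refine this.trans (le_of_eq ?_)
      field_simp

end Pool.Agent.R956.V1
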