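import Pool.Agent.R956.L3

/-!
# Functionals which do not see the window
-/

set_option autoImplicit false
set_option linter.unusedVariables false

namespace Pool.Agent.R956

open Pool.Agent.H976R2 Finset
open Pool.Agent.H976R2.Dir
open Pool.Agent.Y981.SW (r3 r3_nonneg r3_le_one r3_tendsto rate_rh log_window eps_sum mu_pos')
open Pool.Agent.H739K.RATE (one_le_log)
open scoped Classical

noncomputable section

/-- the functional is not changed by insertions in the window -/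
def Blind (a r : ℕ) (F : List Dir → ℝ) : Prop :=
  ∀ (w : List Dir) (i : ℕ) (e : Dir), a ≤ i → i + r < w.length → F (ins w i e) = F w

theorem one_stepJ : ∃ A D : ℝ, 0 < A ∧ 0 < D ∧ ∀ a r n : ℕ, 2 ≤ n →
    A * Real.log n ^ 2 ≤ LJ a r n → 1 ≤ LJ a r n → ∀ F : List Dir → ℝ, (∀ w, |F w| ≤ 1) →
    Blind a r F → |EE (n + 2) F - EE n F| ≤ (Real.sqrt (SJ a r n) + D / LJ a r n) / rh n := by
  obtain ⟨A, D, hA, hD, hfew⟩ := fewJ_small
  refine ⟨A, D + 50000000, hA, by positivity, fun a r n hn hLA hL F hF hB => ?_⟩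
  have hLp : 0 < LJ a r n := by linarith
  have hf := hfew a r n hn hLA
  have h := transferJ (a := a) (r := r) n hL F F (fun _ => 0) (fun _ _ => le_rfl) (by
    rintro w hw ⟨i, e⟩ hp
    obtain ⟨h0, ha, hr⟩ := mem_admJ.mp hp
    simp only at ha hr ⊢
    rw [hB w i e ha hr]; simp)
  have hc := SW_card_pos n
  have hr := rh_pos n
  obtain ⟨N, hN⟩ : ∃ N : ℝ, N = ((SW n).card : ℝ) := ⟨_, rfl⟩
  have eN2 : ((SW (n + 2)).card : ℝ) = rh n * N := by
    unfold rh cN; rw [hN, div_mul_cancel₀ _ (SW_card_pos n).ne']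
  rw [← hN] at hc hf
  have herr : ∑ w ∈ SW n, (4000 * (0 : ℝ) + 50000000 / LJ a r n * |F w|) +
      ∑ w' ∈ fewJ a r (n + 2), |F w'| ≤ (D + 50000000) / LJ a r n * N := by
    have e1 : ∑ w ∈ SW n, (4000 * (0 : ℝ) + 50000000 / LJ a r n * |F w|) ≤
        50000000 / LJ a r n * N := by
      have e3 : 50000000 / LJ a r n * N = ∑ w ∈ SW n, 50000000 / LJ a r n := by
        rw [Finset.sum_const, nsmul_eq_mul, hN]; ring
      rw [e3]
      refine Finset.sum_le_sum (fun w _ => ?_)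
      have h1 := hF w
      have h2 : 0 ≤ 50000000 / LJ a r n := by positivity
      nlinarith
    have e2 : ∑ w' ∈ fewJ a r (n + 2), |F w'| ≤ D / LJ a r n * N := by
      calc ∑ w' ∈ fewJ a r (n + 2), |F w'| ≤ ∑ w' ∈ fewJ a r (n + 2), (1 : ℝ) :=
            Finset.sum_le_sum (fun w _ => hF w)
        _ = ((fewJ a r (n + 2)).card : ℝ) := by simp
        _ ≤ _ := hf
    calc _ ≤ 50000000 / LJ a r n * N + D / LJ a r n * N := add_le_add e1 e2
      _ = _ := by ring
  have h2 := h.trans herr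
  have hcs : |∑ w ∈ SW n, F w * RJ a r w - rh n * ∑ w ∈ SW n, F w| ≤
      Real.sqrt (SJ a r n) * N := by
    have e1 : ∑ w ∈ SW n, F w * RJ a r w - rh n * ∑ w ∈ SW n, F w =
        ∑ w ∈ SW n, F w * (RJ a r w - rh n) := by
      rw [Finset.mul_sum, ← Finset.sum_sub_distrib]
      exact Finset.sum_congr rfl (fun w _ => by ring)
    rw [e1]
    have e2 : (∑ w ∈ SW n, F w * (RJ a r w - rh n)) ^ 2 ≤ N * (SJ a r n * N) := by
      refine (Finset.sum_mul_sq_le_sq_mul_sq (SW n) F (fun w => RJ a r w - rh n)).trans ?_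
      have e3 : ∑ w ∈ SW n, F w ^ 2 ≤ N := by
        calc ∑ w ∈ SW n, F w ^ 2 ≤ ∑ w ∈ SW n, (1 : ℝ) := by
              refine Finset.sum_le_sum (fun w _ => ?_)
              have := hF w
              rw [← sq_abs]
              have h0 := abs_nonneg (F w)
              nlinarith
          _ = N := by simp [hN]
      have e4 : ∑ w ∈ SW n, (RJ a r w - rh n) ^ 2 = SJ a r n * N := by
        unfold SJ EE; rw [hN, div_mul_cancel₀ _ (SW_card_pos n).ne']
      rw [e4]
      have : 0 ≤ SJ a r n * N := mul_nonneg (SJ_nonneg a r n) hc.le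
      gcongr
    have e5 : N * (SJ a r n * N) = (Real.sqrt (SJ a r n) * N) ^ 2 := by
      rw [mul_pow, Real.sq_sqrt (SJ_nonneg a r n)]; ring
    rw [e5] at e2
    exact abs_le_of_sq_le_sq e2 (by positivity)
  have h3 : |∑ w' ∈ SW (n + 2), F w' - rh n * ∑ w ∈ SW n, F w| ≤
      (Real.sqrt (SJ a r n) + (D + 50000000) / LJ a r n) * N := by
    calc |∑ w' ∈ SW (n + 2), F w' - rh n * ∑ w ∈ SW n, F w|
        ≤ |∑ w' ∈ SW (n + 2), F w' - ∑ w ∈ SW n, F w * RJ a r w| +
          |∑ w ∈ SW n, F w * RJ a r w - rh n * ∑ w ∈ SW n, F w| := abs_sub_le _ _ _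
      _ ≤ (D + 50000000) / LJ a r n * N + Real.sqrt (SJ a r n) * N := add_le_add h2 hcs
      _ = _ := by ring
  have e6 : EE (n + 2) F - EE n F =
      (∑ w' ∈ SW (n + 2), F w' - rh n * ∑ w ∈ SW n, F w) / (rh n * N) := by
    unfold EE
    rw [eN2, ← hN]
    field_simp
  rw [e6, abs_div, abs_of_pos (mul_pos hr hc), div_le_div_iff₀ (mul_pos hr hc) hr]
  calc |∑ w' ∈ SW (n + 2), F w' - rh n * ∑ w ∈ SW n, F w| * rh n
      ≤ ((Real.sqrt (SJ a r n) + (D + 50000000) / LJ a r n) * N) * rh n := by gcongr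
    _ = _ := by ring

lemma sqrt_add_le' {x y : ℝ} (hx : 0 ≤ x) (hy : 0 ≤ y) :
    Real.sqrt (x + y) ≤ Real.sqrt x + Real.sqrt y := by
  have h1 := Real.sqrt_nonneg x
  have h2 := Real.sqrt_nonneg y
  rw [Real.sqrt_le_left (by positivity)]
  have h3 := Real.sq_sqrt hx
  have h4 := Real.sq_sqrt hy
  nlinarith [mul_nonneg h1 h2]

theorem sum_J : ∃ A C : ℝ, 0 < A ∧ 0 < C ∧ ∃ n₀ : ℕ, 3 ≤ n₀ ∧ ∀ n k a r : ℕ, n₀ ≤ n →
    (k : ℝ) * r3 n ≤ 1 → A * Real.log n ^ 2 ≤ LJ a r n → 1 ≤ LJ a r n →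
    ∀ F : List Dir → ℝ, (∀ w, |F w| ≤ 1) → Blind a r F →
    |EE (n + 2 * k) F - EE n F| ≤ C * (Real.sqrt (k * r3 n) + k / Real.sqrt (LJ a r n)) := by
  obtain ⟨A1, D1, hA1, hD1, hone⟩ := one_stepJ
  obtain ⟨A2, D2, hA2, hD2, hSJ⟩ := SJ_le
  obtain ⟨C, hC, h1⟩ := rate_rh
  obtain ⟨_, _, n₀, hn₀, h5⟩ := eps_sum
  obtain ⟨M, hM⟩ : ∃ M, M = H981.mu ^ 2 := ⟨_, rfl⟩
  have hMp : 0 < M := by rw [hM]; have := mu_pos'; positivity
  obtain ⟨B1, hB1⟩ : ∃ B1, B1 = 8 * C * M ^ 2 := ⟨_, rfl⟩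
  obtain ⟨B2, hB2⟩ : ∃ B2, B2 = D2 * (1 + 2 * M) := ⟨_, rfl⟩
  have hB1p : 0 < B1 := by rw [hB1]; positivity
  have hB2p : 0 < B2 := by rw [hB2]; positivity
  obtain ⟨C5, hC5⟩ : ∃ C5, C5 = 2 / M * (Real.sqrt B1 + Real.sqrt B2 + D1) := ⟨_, rfl⟩
  have hC5p : 0 < C5 := by rw [hC5]; positivity
  refine ⟨4 * (A1 + A2), C5, by positivity, hC5p, n₀, hn₀,
    fun n k a r hn hk hLA hL F hF hB => ?_⟩
  obtain ⟨-, -, -, hrb⟩ := h5 n k hn hk
  rw [← hM] at hrb
  have hn3 : 3 ≤ n := hn₀.trans hn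
  have hn' : (3 : ℝ) ≤ n := by exact_mod_cast hn3
  have hnp : (0 : ℝ) < n := by linarith
  have hLp : 0 < LJ a r n := by linarith
  obtain ⟨p1, p2, p3⟩ := r3_le_one hn3 hk
  have hr0 := r3_nonneg n
  have hk0 : (0 : ℝ) ≤ k := by positivity
  have hlogn : 0 ≤ Real.log (n : ℝ) := Real.log_natCast_nonneg n
  -- hypotheses at the intermediate lengths
  have hLi : ∀ i : ℕ, LJ a r (n + 2 * i) = LJ a r n + 2 * i := by
    intro i; unfold LJ; push_cast; ring
  have hlogi : ∀ i : ℕ, i < k → Real.log ((n + 2 * i : ℕ) : ℝ) ^ 2 ≤ 4 * Real.log n ^ 2 := by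
    intro i hi
    have g1 : ((n + 2 * i : ℕ) : ℝ) ≤ (n : ℝ) ^ 2 := by
      have g2 : n + 2 * i ≤ 2 * n := by omega
      have g3 : ((n + 2 * i : ℕ) : ℝ) ≤ 2 * n := by exact_mod_cast g2
      nlinarith
    have g4 : 0 ≤ Real.log ((n + 2 * i : ℕ) : ℝ) := Real.log_natCast_nonneg _
    have g5 : Real.log ((n + 2 * i : ℕ) : ℝ) ≤ 2 * Real.log n := by
      calc Real.log ((n + 2 * i : ℕ) : ℝ) ≤ Real.log ((n : ℝ) ^ 2) :=
            Real.log_le_log (by push_cast; positivity) g1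
        _ = 2 * Real.log n := by rw [Real.log_pow]; norm_num
    calc Real.log ((n + 2 * i : ℕ) : ℝ) ^ 2 ≤ (2 * Real.log n) ^ 2 := pow_le_pow_left₀ g4 g5 2
      _ = _ := by ring
  have hA : ∀ i : ℕ, i < k → (A1 + A2) * Real.log ((n + 2 * i : ℕ) : ℝ) ^ 2 ≤
      LJ a r (n + 2 * i) := by
    intro i hi
    have g1 := hlogi i hi
    rw [hLi]
    have : (0 : ℝ) ≤ i := by positivity
    calc (A1 + A2) * Real.log ((n + 2 * i : ℕ) : ℝ) ^ 2
        ≤ (A1 + A2) * (4 * Real.log n ^ 2) := by gcongr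
      _ = 4 * (A1 + A2) * Real.log n ^ 2 := by ring
      _ ≤ LJ a r n := hLA
      _ ≤ _ := by linarith
  have hA1' : ∀ i : ℕ, i < k → A1 * Real.log ((n + 2 * i : ℕ) : ℝ) ^ 2 ≤ LJ a r (n + 2 * i) := by
    intro i hi
    have g1 := hA i hi
    have : 0 ≤ A2 * Real.log ((n + 2 * i : ℕ) : ℝ) ^ 2 := by positivity
    linarith
  have hA2' : ∀ i : ℕ, i < k → A2 * Real.log ((n + 2 * i : ℕ) : ℝ) ^ 2 ≤ LJ a r (n + 2 * i) := by
    intro i hi
    have g1 := hA i hi
    have : 0 ≤ A1 * Real.log ((n + 2 * i : ℕ) : ℝ) ^ 2 := by positivity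
    linarith
  have hL1 : ∀ i : ℕ, 1 ≤ LJ a r (n + 2 * i) := by
    intro i; rw [hLi]; have : (0 : ℝ) ≤ i := by positivity
    linarith
  -- sum of SJ
  have hSS : ∀ j : ℕ, j ≤ k → ∑ i ∈ range j, SJ a r (n + 2 * i) ≤
      (rh (n + 2 * j) ^ 2 - rh n ^ 2) / 2 + j * (B2 / LJ a r n) := by
    intro j
    induction j with
    | zero => intro _; simp
    | succ j ih =>
      intro hj
      have ih' := ih (by omega)
      rw [Finset.sum_range_succ]
      have a1 := hSJ a r (n + 2 * j) (by omega) (hA2' j (by omega)) (hL1 j)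
      have a2 := (hrb (n + 2 * j) (by omega)).2
      have e : n + 2 * (j + 1) = n + 2 * j + 2 := by ring
      rw [e]
      have a3 : rh (n + 2 * j) * (rh (n + 2 * j + 2) - rh (n + 2 * j)) ≤
          (rh (n + 2 * j + 2) ^ 2 - rh (n + 2 * j) ^ 2) / 2 := by
        nlinarith [sq_nonneg (rh (n + 2 * j + 2) - rh (n + 2 * j))]
      have a4 : D2 * (1 + rh (n + 2 * j)) / LJ a r (n + 2 * j) ≤ B2 / LJ a r n := by
        rw [hB2, hLi]
        have : (0 : ℝ) ≤ j := by positivity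
        gcongr
        linarith
      push_cast at ih' ⊢
      linarith
  have hr3le : r3 (n + 2 * k) ≤ 3 * r3 n := by
    have h5 := log_window (n := n) (m := n + 2 * k) hn3 (by omega) p2
    have h6 : r3 (n + 2 * k) ≤ Real.sqrt (9 * (Real.log n ^ 2 / n)) := by
      unfold r3
      apply Real.sqrt_le_sqrt
      calc Real.log ((n + 2 * k : ℕ) : ℝ) ^ 2 / ((n + 2 * k : ℕ) : ℝ)
          ≤ (8 * Real.log n ^ 2) / (n : ℝ) := by
            gcongr
            push_cast; linarith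
        _ ≤ 9 * (Real.log n ^ 2 / n) := by
            rw [mul_div_assoc]
            have : 0 ≤ Real.log n ^ 2 / (n : ℝ) := by positivity
            linarith
    rw [Real.sqrt_mul (by norm_num)] at h6
    have e9 : Real.sqrt 9 = 3 := by
      rw [show (9 : ℝ) = 3 ^ 2 by norm_num]; exact Real.sqrt_sq (by norm_num)
    rw [e9] at h6
    exact h6
  have hdiff : rh (n + 2 * k) ^ 2 - rh n ^ 2 ≤ 16 * C * M ^ 2 * r3 n := by
    have a1 := h1 (n + 2 * k) (by omega)
    have a2 := h1 n hn3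
    have a3 := (hrb (n + 2 * k) (by omega)).2
    have a4 := (hrb n hn).2
    rw [← hM] at a1 a2
    have p1 := rh_pos (n + 2 * k)
    have p2 := rh_pos n
    have a5 : rh (n + 2 * k) / M - rh n / M ≤ 4 * (C * r3 n) := by
      have b1 := (abs_le.mp a1).2
      have b2 := (abs_le.mp a2).1
      have b3 : C * r3 (n + 2 * k) ≤ C * (3 * r3 n) := by gcongr
      linarith
    have a6 : rh (n + 2 * k) - rh n ≤ 4 * C * M * r3 n := by
      rw [← sub_div, div_le_iff₀ (by positivity)] at a5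
      linarith
    have a7 : rh (n + 2 * k) ^ 2 - rh n ^ 2 =
        (rh (n + 2 * k) - rh n) * (rh (n + 2 * k) + rh n) := by ring
    rw [a7]
    calc (rh (n + 2 * k) - rh n) * (rh (n + 2 * k) + rh n)
        ≤ (4 * C * M * r3 n) * (rh (n + 2 * k) + rh n) := by gcongr
      _ ≤ (4 * C * M * r3 n) * (4 * M) := by gcongr; linarith
      _ = _ := by ring
  have hsum : ∑ i ∈ range k, SJ a r (n + 2 * i) ≤ B1 * r3 n + k * (B2 / LJ a r n) := by
    have a1 := hSS k le_rfl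
    calc _ ≤ (rh (n + 2 * k) ^ 2 - rh n ^ 2) / 2 + k * (B2 / LJ a r n) := a1
      _ ≤ (16 * C * M ^ 2 * r3 n) / 2 + k * (B2 / LJ a r n) := by gcongr
      _ = _ := by rw [hB1]; ring
  have hsq : ∑ i ∈ range k, Real.sqrt (SJ a r (n + 2 * i)) ≤
      Real.sqrt B1 * Real.sqrt (k * r3 n) + Real.sqrt B2 * (k / Real.sqrt (LJ a r n)) := by
    have a1 := Finset.sum_mul_sq_le_sq_mul_sq (range k) (fun _ => (1 : ℝ))
      (fun i => Real.sqrt (SJ a r (n + 2 * i)))
    simp only [one_mul, one_pow, Finset.sum_const, nsmul_eq_mul, mul_one, card_range] at a1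
    have a2 : ∑ i ∈ range k, Real.sqrt (SJ a r (n + 2 * i)) ^ 2 =
        ∑ i ∈ range k, SJ a r (n + 2 * i) :=
      Finset.sum_congr rfl (fun i _ => Real.sq_sqrt (SJ_nonneg _ _ _))
    rw [a2] at a1
    have a3 : Real.sqrt B2 * (k / Real.sqrt (LJ a r n)) =
        Real.sqrt (B2 * (k ^ 2 / LJ a r n)) := by
      rw [Real.sqrt_mul hB2p.le, Real.sqrt_div (by positivity), Real.sqrt_sq hk0]
    rw [a3, ← Real.sqrt_mul hB1p.le]
    have a4 : Real.sqrt (B1 * (k * r3 n) + B2 * (k ^ 2 / LJ a r n)) ≤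
        Real.sqrt (B1 * (k * r3 n)) + Real.sqrt (B2 * (k ^ 2 / LJ a r n)) :=
      sqrt_add_le' (by positivity) (by positivity)
    refine le_trans (Real.le_sqrt_of_sq_le ?_) a4
    calc _ ≤ (k : ℝ) * ∑ i ∈ range k, SJ a r (n + 2 * i) := a1
      _ ≤ (k : ℝ) * (B1 * r3 n + k * (B2 / LJ a r n)) := by gcongr
      _ = _ := by ring
  -- telescoping
  have htel : ∀ j : ℕ, j ≤ k → |EE (n + 2 * j) F - EE n F| ≤
      ∑ i ∈ range j, (2 / M * Real.sqrt (SJ a r (n + 2 * i)) + 2 / M * (D1 / LJ a r n)) := by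
    intro j
    induction j with
    | zero => intro _; simp
    | succ j ih =>
      intro hj
      have ih' := ih (by omega)
      rw [Finset.sum_range_succ]
      have g1 := hone a r (n + 2 * j) (by omega) (hA1' j (by omega)) (hL1 j) F hF hB
      have e : n + 2 * (j + 1) = n + 2 * j + 2 := by ring
      rw [e]
      have g2 := (hrb (n + 2 * j) (by omega)).1
      have g3 := rh_pos (n + 2 * j)
      have g4 : (Real.sqrt (SJ a r (n + 2 * j)) + D1 / LJ a r (n + 2 * j)) / rh (n + 2 * j) ≤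
          2 / M * Real.sqrt (SJ a r (n + 2 * j)) + 2 / M * (D1 / LJ a r n) := by
        rw [div_le_iff₀ g3]
        have g5 : 1 ≤ 2 / M * rh (n + 2 * j) := by
          rw [div_mul_eq_mul_div, le_div_iff₀ hMp]; linarith
        have g6 : D1 / LJ a r (n + 2 * j) ≤ D1 / LJ a r n := by
          rw [hLi]
          have : (0 : ℝ) ≤ j := by positivity
          gcongr
          linarith
        have g7 := Real.sqrt_nonneg (SJ a r (n + 2 * j))
        have g8 : 0 ≤ D1 / LJ a r n := by positivity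
        have g9 : Real.sqrt (SJ a r (n + 2 * j)) + D1 / LJ a r n ≤
            (Real.sqrt (SJ a r (n + 2 * j)) + D1 / LJ a r n) * (2 / M * rh (n + 2 * j)) :=
          le_mul_of_one_le_right (by positivity) g5
        calc _ ≤ Real.sqrt (SJ a r (n + 2 * j)) + D1 / LJ a r n := by linarith
          _ ≤ _ := g9
          _ = _ := by ring
      calc |EE (n + 2 * j + 2) F - EE n F| ≤ |EE (n + 2 * j + 2) F - EE (n + 2 * j) F| +
            |EE (n + 2 * j) F - EE n F| := abs_sub_le _ _ _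
        _ ≤ _ := by linarith
  have hkL : (k : ℝ) * (D1 / LJ a r n) ≤ D1 * (k / Real.sqrt (LJ a r n)) := by
    have g1 : Real.sqrt (LJ a r n) ≤ LJ a r n := by
      rw [Real.sqrt_le_left (by linarith)]
      nlinarith
    have g2 : 0 < Real.sqrt (LJ a r n) := Real.sqrt_pos.mpr hLp
    calc (k : ℝ) * (D1 / LJ a r n) = D1 * (k / LJ a r n) := by ring
      _ ≤ D1 * (k / Real.sqrt (LJ a r n)) := by gcongr
  refine (htel k le_rfl).trans ?_
  rw [Finset.sum_add_distrib, ← Finset.mul_sum]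
  simp only [Finset.sum_const, nsmul_eq_mul, card_range]
  have hs1 := Real.sqrt_nonneg ((k : ℝ) * r3 n)
  have hs2 : 0 ≤ (k : ℝ) / Real.sqrt (LJ a r n) := by positivity
  have hb1 := Real.sqrt_nonneg B1
  have hb2 := Real.sqrt_nonneg B2
  have hM2 : 0 < 2 / M := by positivity
  calc 2 / M * ∑ i ∈ range k, Real.sqrt (SJ a r (n + 2 * i)) + (k : ℝ) * (2 / M * (D1 / LJ a r n))
      = 2 / M * (∑ i ∈ range k, Real.sqrt (SJ a r (n + 2 * i)) + (k : ℝ) * (D1 / LJ a r n)) := by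
        ring
    _ ≤ 2 / M * ((Real.sqrt B1 * Real.sqrt (k * r3 n) +
        Real.sqrt B2 * (k / Real.sqrt (LJ a r n))) + D1 * (k / Real.sqrt (LJ a r n))) := by
        gcongr
    _ ≤ C5 * (Real.sqrt (k * r3 n) + k / Real.sqrt (LJ a r n)) := by
        rw [hC5, mul_assoc]
        apply mul_le_mul_of_nonneg_left _ hM2.le
        have t1 : 0 ≤ Real.sqrt B2 * Real.sqrt (k * r3 n) := by positivity
        have t2 : 0 ≤ D1 * Real.sqrt (k * r3 n) := by positivity
        have t3 : 0 ≤ Real.sqrt B1 * (k / Real.sqrt (LJ a r n)) := by positivity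
        nlinarith

lemma EE_abs_le {n : ℕ} {F : List Dir → ℝ} (hF : ∀ w, |F w| ≤ 1) : |EE n F| ≤ 1 := by
  unfold EE
  have hc := SW_card_pos n
  rw [abs_div, abs_of_pos hc, div_le_one hc]
  refine (Finset.abs_sum_le_sum_abs _ _).trans ?_
  calc ∑ w ∈ SW n, |F w| ≤ ∑ w ∈ SW n, (1 : ℝ) := Finset.sum_le_sum fun w _ => hF w
    _ = _ := by simp

theorem all_J : ∃ C : ℝ, 0 < C ∧ ∀ n k a r : ℕ, 2 ≤ n → 1 ≤ k →
    C * Real.log n ^ 2 ≤ LJ a r n → ∀ F : List Dir → ℝ, (∀ w, |F w| ≤ 1) → Blind a r F →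
    |EE (n + 2 * k) F - EE n F| ≤ C * (Real.sqrt (k * r3 n) + k / Real.sqrt (LJ a r n)) := by
  obtain ⟨A, C, hA, hC, n₀, hn₀, h⟩ := sum_J
  -- lower bound for the rate at small lengths
  have hmin : ∃ c : ℝ, 0 < c ∧ ∀ n : ℕ, 2 ≤ n → n < n₀ → c ≤ Real.sqrt (r3 n) := by
    have hfin : ∀ m : ℕ, ∃ c : ℝ, 0 < c ∧ ∀ n : ℕ, 2 ≤ n → n < m → c ≤ Real.sqrt (r3 n) := by
      intro m
      induction m with
      | zero => exact ⟨1, one_pos, fun n h1 h2 => by omega⟩
      | succ m ih =>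
        obtain ⟨c, hc, h⟩ := ih
        rcases Nat.lt_or_ge m 2 with hm | hm
        · exact ⟨1, one_pos, fun n h1 h2 => by omega⟩
        · have hm' : (2 : ℝ) ≤ m := by exact_mod_cast hm
          have hl : 0 < Real.log (m : ℝ) := Real.log_pos (by linarith)
          have hp : 0 < Real.sqrt (r3 m) := by
            apply Real.sqrt_pos.mpr
            unfold r3
            apply Real.sqrt_pos.mpr
            positivity
          refine ⟨min c (Real.sqrt (r3 m)), lt_min hc hp, fun n h1 h2 => ?_⟩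
          rcases Nat.lt_or_ge n m with h3 | h3
          · exact (min_le_left _ _).trans (h n h1 h3)
          · have : n = m := by omega
            rw [this]; exact min_le_right _ _
    exact hfin n₀
  obtain ⟨c, hc, hmin⟩ := hmin
  obtain ⟨B, hB⟩ : ∃ B, B = A + C + 2 / c + 4 := ⟨_, rfl⟩
  have hBp : 0 < B := by rw [hB]; positivity
  refine ⟨B, hBp, fun n k a r hn hk hLA F hF hBl => ?_⟩
  have hn' : (2 : ℝ) ≤ n := by exact_mod_cast hn
  have hk' : (1 : ℝ) ≤ k := by exact_mod_cast hk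
  have hlog2 : (0.69 : ℝ) < Real.log n := by
    have h1 : Real.log 2 ≤ Real.log n := Real.log_le_log (by norm_num) hn'
    have := Real.log_two_gt_d9
    linarith
  have hlogsq : (0.47 : ℝ) ≤ Real.log n ^ 2 := by nlinarith
  have h2c : 0 < 2 / c := by positivity
  have hL1 : 1 ≤ LJ a r n := by
    have : 4 * Real.log n ^ 2 ≤ B * Real.log n ^ 2 := by
      rw [hB]; gcongr; linarith
    nlinarith
  have hLp : 0 < LJ a r n := by linarith
  have hr0 := r3_nonneg n
  have hs1 := Real.sqrt_nonneg ((k : ℝ) * r3 n)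
  have hs2 : 0 ≤ (k : ℝ) / Real.sqrt (LJ a r n) := by positivity
  have htriv : |EE (n + 2 * k) F - EE n F| ≤ 2 := by
    have h1 := abs_le.mp (EE_abs_le (n := n + 2 * k) hF)
    have h2 := abs_le.mp (EE_abs_le (n := n) hF)
    rw [abs_le]; constructor <;> linarith
  rcases Nat.lt_or_ge n n₀ with h1 | h1
  · -- small lengths
    have h2 := hmin n hn h1
    have h3 : Real.sqrt (r3 n) ≤ Real.sqrt (k * r3 n) := by
      apply Real.sqrt_le_sqrt
      nlinarith
    refine htriv.trans ?_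
    have h4 : 2 ≤ B * c := by
      rw [hB]
      have : 2 / c * c = 2 := by field_simp
      nlinarith
    calc (2 : ℝ) ≤ B * c := h4
      _ ≤ B * (Real.sqrt (k * r3 n) + k / Real.sqrt (LJ a r n)) := by
          gcongr; linarith
  · rcases le_or_gt ((k : ℝ) * r3 n) 1 with h2 | h2
    · have h3 : A * Real.log n ^ 2 ≤ LJ a r n := by
        refine le_trans ?_ hLA
        gcongr
        rw [hB]; linarith
      refine (h n k a r h1 h2 h3 hL1 F hF hBl).trans ?_
      gcongr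
      rw [hB]; linarith
    · refine htriv.trans ?_
      have h3 : 1 ≤ Real.sqrt (k * r3 n) := by
        rw [Real.one_le_sqrt]; exact h2.le
      have h4 : 2 ≤ B := by rw [hB]; linarith
      calc (2 : ℝ) ≤ B := h4
        _ ≤ B * (Real.sqrt (k * r3 n) + k / Real.sqrt (LJ a r n)) := by
          nlinarith

end

end Pool.Agent.R956
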