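import Pool.Agent.R956.T3
import Pool.Agent.R956.L4

/-!
# The walk rescaled by its diameter: merging
-/

set_option autoImplicit false
set_option linter.unusedVariables false

namespace Pool.Agent.R956

open Pool.Agent.H976R2 Finset
open Pool.Agent.H976R2.Dir
open Pool.Agent.Y981.SW (r3 r3_nonneg r3_le_one r3_tendsto rate_rh mu_pos')
open scoped Classical

noncomputable section

/-- diameter of a path -/
def dm (x : C(unitInterval, ℂ)) : ℝ := Metric.diam (Set.range x)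

/-- path divided by its diameter -/
def shape (x : C(unitInterval, ℂ)) : C(unitInterval, ℂ) := (dm x)⁻¹ • x

lemma bdd (x : C(unitInterval, ℂ)) : Bornology.IsBounded (Set.range x) :=
  (isCompact_range x.continuous).isBounded

lemma dm_nonneg (x : C(unitInterval, ℂ)) : 0 ≤ dm x := Metric.diam_nonneg

lemma dist_le_dm (x : C(unitInterval, ℂ)) (s t : unitInterval) : dist (x s) (x t) ≤ dm x :=
  Metric.dist_le_diam_of_mem (bdd x) ⟨s, rfl⟩ ⟨t, rfl⟩

lemma dm_le (x y : C(unitInterval, ℂ)) : dm x ≤ dm y + 2 * dist x y := by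
  unfold dm
  apply Metric.diam_le_of_forall_dist_le (by have := dm_nonneg y; unfold dm at this; positivity)
  rintro _ ⟨s, rfl⟩ _ ⟨t, rfl⟩
  have h1 : dist (x s) (y s) ≤ dist x y := ContinuousMap.dist_apply_le_dist _
  have h2 : dist (y t) (x t) ≤ dist x y := by
    rw [dist_comm]; exact ContinuousMap.dist_apply_le_dist _
  have h3 := dist_le_dm y s t
  unfold dm at h3
  calc dist (x s) (x t) ≤ dist (x s) (y s) + dist (y s) (y t) + dist (y t) (x t) :=
        dist_triangle4 _ _ _ _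
    _ ≤ _ := by linarith

lemma norm_le_dm {x : C(unitInterval, ℂ)} (h : x 0 = 0) : ‖x‖ ≤ dm x := by
  rw [ContinuousMap.norm_le _ (dm_nonneg x)]
  intro t
  have := dist_le_dm x t 0
  rwa [h, dist_zero_right] at this

lemma shape_zero {x : C(unitInterval, ℂ)} (h : x 0 = 0) : shape x 0 = 0 := by
  unfold shape
  rw [ContinuousMap.smul_apply, h, smul_zero]

lemma norm_shape_le {x : C(unitInterval, ℂ)} (h : x 0 = 0) : ‖shape x‖ ≤ 1 := by
  unfold shape
  rw [norm_smul, norm_inv, Real.norm_of_nonneg (dm_nonneg x)]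
  rcases eq_or_lt_of_le (dm_nonneg x) with h1 | h1
  · rw [← h1]; simp
  · rw [inv_mul_le_iff₀ h1, mul_one]
    exact norm_le_dm h

lemma dist_shape {x y : C(unitInterval, ℂ)} {d : ℝ} (hd : 0 < d) (hx : d ≤ dm x) (hy : d ≤ dm y)
    (hy0 : y 0 = 0) : dist (shape x) (shape y) ≤ 3 * dist x y / d := by
  have hxp : 0 < dm x := lt_of_lt_of_le hd hx
  have hyp : 0 < dm y := lt_of_lt_of_le hd hy
  have hny := norm_le_dm hy0
  have h1 := dm_le x y
  have h2 := dm_le y x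
  rw [dist_comm y x] at h2
  have hD : |dm y - dm x| ≤ 2 * dist x y := by rw [abs_le]; constructor <;> linarith
  have hdist : 0 ≤ dist x y := dist_nonneg
  rw [dist_eq_norm]
  have e : shape x - shape y = (dm x)⁻¹ • (x - y) + ((dm x)⁻¹ - (dm y)⁻¹) • y := by
    unfold shape
    ext t
    simp only [ContinuousMap.sub_apply, ContinuousMap.smul_apply, ContinuousMap.add_apply,
      Complex.real_smul]
    push_cast
    ring
  rw [e]
  refine (norm_add_le _ _).trans ?_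
  rw [norm_smul, norm_smul, ← dist_eq_norm, norm_inv, Real.norm_of_nonneg hxp.le]
  have e2 : (dm x)⁻¹ - (dm y)⁻¹ = (dm y - dm x) * ((dm x)⁻¹ * (dm y)⁻¹) := by
    field_simp
  rw [e2, norm_mul, Real.norm_eq_abs, Real.norm_of_nonneg (by positivity)]
  have g1 : (dm x)⁻¹ ≤ d⁻¹ := inv_anti₀ hd hx
  have g2 : (dm y)⁻¹ * ‖y‖ ≤ 1 := by
    rw [inv_mul_le_iff₀ hyp, mul_one]; exact hny
  calc (dm x)⁻¹ * dist x y + |dm y - dm x| * ((dm x)⁻¹ * (dm y)⁻¹) * ‖y‖
      = (dm x)⁻¹ * dist x y + |dm y - dm x| * (dm x)⁻¹ * ((dm y)⁻¹ * ‖y‖) := by ring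
    _ ≤ d⁻¹ * dist x y + (2 * dist x y) * d⁻¹ * 1 := by gcongr
    _ = 3 * dist x y / d := by ring

/-- the walk rescaled by its diameter -/
def Ys (w : List Dir) : C(unitInterval, ℂ) := shape (Xs 1 w)

lemma Xs_zero (w : List Dir) : Xs 1 w 0 = 0 := by
  show ((1⁻¹ : ℝ) : ℂ) * ZZ w ((w.length : ℝ) * ((0 : unitInterval) : ℝ)) = 0
  have h := Geo.KGeo.ZZ_nat w 0 (Nat.zero_le _)
  rw [Nat.cast_zero] at h
  rw [show ((0 : unitInterval) : ℝ) = 0 from rfl, mul_zero, h]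
  simp

lemma Xs_nat {n : ℕ} (hn : 1 ≤ n) {w : List Dir} (hl : w.length = n) {k : ℕ} (hk : k ≤ n) :
    ∃ t : unitInterval, Xs 1 w t = ((wX (w.take k) : ℤ) : ℂ) + ((wY (w.take k) : ℤ) : ℂ) *
      Complex.I := by
  have hn' : (0 : ℝ) < n := by exact_mod_cast hn
  have hk' : (k : ℝ) ≤ n := by exact_mod_cast hk
  refine ⟨⟨k / n, by positivity, by rw [div_le_one hn']; exact hk'⟩, ?_⟩
  show ((1⁻¹ : ℝ) : ℂ) * ZZ w ((w.length : ℝ) * ((k : ℝ) / n)) = _
  rw [hl]
  have e : (n : ℝ) * ((k : ℝ) / n) = k := by field_simp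
  rw [e, Geo.KGeo.ZZ_nat w k (by omega)]
  simp

lemma norm_pt_sq (a b : ℤ) : ‖((a : ℤ) : ℂ) + ((b : ℤ) : ℂ) * Complex.I‖ ^ 2 =
    (a : ℝ) ^ 2 + (b : ℝ) ^ 2 := by
  rw [← Complex.normSq_eq_norm_sq]
  rw [show ((a : ℤ) : ℂ) = (((a : ℤ) : ℝ) : ℂ) by push_cast; rfl,
    show ((b : ℤ) : ℂ) = (((b : ℤ) : ℝ) : ℂ) by push_cast; rfl,
    Complex.normSq_add_mul_I]

lemma dm_ge {n : ℕ} (hn : 1 ≤ n) {w : List Dir} (hw : w ∈ SW n) :
    Real.sqrt n / 3 ≤ dm (Xs 1 w) := by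
  have hl := (mem_SW.mp hw).1
  have h1 : (n : ℝ) / 8 ≤ mxsq w := by
    rw [← Tight.maxSq_eq hw]
    exact_mod_cast H977R2.maxSq_ge (Tight.fnw_saw hw)
  obtain ⟨k, hk, hk2⟩ : ∃ k ∈ Finset.range (w.length + 1), mxsq w = H976R2.sq (w.take k) := by
    unfold mxsq
    exact Finset.exists_mem_eq_sup' _ _
  rw [Finset.mem_range, hl] at hk
  obtain ⟨t, ht⟩ := Xs_nat hn hl (k := k) (by omega)
  have h2 := dist_le_dm (Xs 1 w) t 0
  rw [Xs_zero, dist_zero_right, ht] at h2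
  have h3 := norm_pt_sq (wX (w.take k)) (wY (w.take k))
  have h4 : H976R2.sq (w.take k) = (wX (w.take k) : ℝ) ^ 2 + (wY (w.take k) : ℝ) ^ 2 := rfl
  refine le_trans ?_ h2
  apply le_of_sq_le_sq _ (norm_nonneg _)
  rw [h3, ← h4, ← hk2, div_pow, Real.sq_sqrt (Nat.cast_nonneg n)]
  refine le_trans ?_ h1
  have : (0 : ℝ) ≤ n := Nat.cast_nonneg n
  norm_num
  linarith

lemma dist_Ys {n : ℕ} (hn : 1 ≤ n) {w : List Dir} (hw : w ∈ SW n) {i : ℕ} {e : Dir}
    (h : (i, e) ∈ adm w) : dist (Ys (ins w i e)) (Ys w) ≤ 108 / Real.sqrt n := by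
  obtain ⟨hl, hs⟩ := mem_SW.mp hw
  obtain ⟨hi, hp, hs2⟩ := mem_adm.mp h
  have hw2 : ins w i e ∈ SW (n + 2) := mem_SW.mpr ⟨by rw [length_ins e hi, hl], hs2⟩
  have hn' : (0 : ℝ) < n := by exact_mod_cast hn
  have hsq : 0 < Real.sqrt n := Real.sqrt_pos.mpr hn'
  have h1 := dm_ge hn hw
  have h2 := dm_ge (n := n + 2) (by omega) hw2
  have h3 : Real.sqrt n / 3 ≤ dm (Xs 1 (ins w i e)) := by
    refine le_trans ?_ h2
    have : Real.sqrt n ≤ Real.sqrt ((n + 2 : ℕ) : ℝ) := Real.sqrt_le_sqrt (by push_cast; linarith)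
    gcongr
  have h4 := Geo.dist_ins w i e hi 1 1 one_pos one_pos
  have h5 : dist (Xs 1 (ins w i e)) (Xs 1 w) ≤ 12 := by
    refine h4.trans (le_of_eq ?_)
    norm_num
  refine (dist_shape (d := Real.sqrt n / 3) (by positivity) h3 h1 (Xs_zero w)).trans ?_
  calc 3 * dist (Xs 1 (ins w i e)) (Xs 1 w) / (Real.sqrt n / 3)
      ≤ 3 * 12 / (Real.sqrt n / 3) := by gcongr
    _ = 108 / Real.sqrt n := by field_simp; norm_num

/-- one step for slowly changing functionals -/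
theorem one_stepUC : ∃ A D : ℝ, 0 < A ∧ 0 < D ∧ ∀ n : ℕ, 2 ≤ n →
    A * Real.log n ^ 2 ≤ n → ∀ (F : List Dir → ℝ) (δ : ℝ), 0 ≤ δ → (∀ w, |F w| ≤ 1) →
    (∀ w ∈ SW n, ∀ p ∈ adm w, |F (ins w p.1 p.2) - F w| ≤ δ) →
    |EE (n + 2) F - EE n F| ≤ (Real.sqrt (SJ 0 0 n) + D / n + 4000 * δ) / rh n := by
  obtain ⟨A, D, hA, hD, hfew⟩ := fewJ_small
  refine ⟨A, D + 50000000, hA, by positivity, fun n hn hLA F δ hδ hF hB => ?_⟩
  have hLn : LJ 0 0 n = n := by unfold LJ; push_cast; ring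
  have hn' : (2 : ℝ) ≤ n := by exact_mod_cast hn
  have hnp : (0 : ℝ) < n := by linarith
  have hf := hfew 0 0 n hn (by rw [hLn]; exact hLA)
  have h := transferJ (a := 0) (r := 0) n (by rw [hLn]; linarith) F F (fun _ => δ)
    (fun _ _ => hδ) (by
    rintro w hw p hp
    exact hB w hw p (mem_admJ.mp hp).1)
  rw [hLn] at hf h
  have hc := SW_card_pos n
  have hr := rh_pos n
  obtain ⟨N, hN⟩ : ∃ N : ℝ, N = ((SW n).card : ℝ) := ⟨_, rfl⟩
  have eN2 : ((SW (n + 2)).card : ℝ) = rh n * N := by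
    unfold rh cN; rw [hN, div_mul_cancel₀ _ (SW_card_pos n).ne']
  rw [← hN] at hc hf
  have herr : ∑ w ∈ SW n, (4000 * δ + 50000000 / (n : ℝ) * |F w|) +
      ∑ w' ∈ fewJ 0 0 (n + 2), |F w'| ≤ (4000 * δ + (D + 50000000) / n) * N := by
    have e1 : ∑ w ∈ SW n, (4000 * δ + 50000000 / (n : ℝ) * |F w|) ≤
        (4000 * δ + 50000000 / n) * N := by
      have e3 : (4000 * δ + 50000000 / (n : ℝ)) * N = ∑ w ∈ SW n, (4000 * δ + 50000000 / (n : ℝ)) := by
        rw [Finset.sum_const, nsmul_eq_mul, hN]; ring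
      rw [e3]
      refine Finset.sum_le_sum (fun w _ => ?_)
      have h1 := hF w
      have h2 : 0 ≤ 50000000 / (n : ℝ) := by positivity
      nlinarith
    have e2 : ∑ w' ∈ fewJ 0 0 (n + 2), |F w'| ≤ D / n * N := by
      calc ∑ w' ∈ fewJ 0 0 (n + 2), |F w'| ≤ ∑ w' ∈ fewJ 0 0 (n + 2), (1 : ℝ) :=
            Finset.sum_le_sum (fun w _ => hF w)
        _ = ((fewJ 0 0 (n + 2)).card : ℝ) := by simp
        _ ≤ _ := hf
    calc _ ≤ (4000 * δ + 50000000 / n) * N + D / n * N := add_le_add e1 e2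
      _ = _ := by ring
  have h2 := h.trans herr
  have hcs : |∑ w ∈ SW n, F w * RJ 0 0 w - rh n * ∑ w ∈ SW n, F w| ≤
      Real.sqrt (SJ 0 0 n) * N := by
    have e1 : ∑ w ∈ SW n, F w * RJ 0 0 w - rh n * ∑ w ∈ SW n, F w =
        ∑ w ∈ SW n, F w * (RJ 0 0 w - rh n) := by
      rw [Finset.mul_sum, ← Finset.sum_sub_distrib]
      exact Finset.sum_congr rfl (fun w _ => by ring)
    rw [e1]
    have e2 : (∑ w ∈ SW n, F w * (RJ 0 0 w - rh n)) ^ 2 ≤ N * (SJ 0 0 n * N) := by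
      refine (Finset.sum_mul_sq_le_sq_mul_sq (SW n) F (fun w => RJ 0 0 w - rh n)).trans ?_
      have e3 : ∑ w ∈ SW n, F w ^ 2 ≤ N := by
        calc ∑ w ∈ SW n, F w ^ 2 ≤ ∑ w ∈ SW n, (1 : ℝ) := by
              refine Finset.sum_le_sum (fun w _ => ?_)
              have := hF w
              rw [← sq_abs]
              have h0 := abs_nonneg (F w)
              nlinarith
          _ = N := by simp [hN]
      have e4 : ∑ w ∈ SW n, (RJ 0 0 w - rh n) ^ 2 = SJ 0 0 n * N := by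
        unfold SJ EE; rw [hN, div_mul_cancel₀ _ (SW_card_pos n).ne']
      rw [e4]
      have : 0 ≤ SJ 0 0 n * N := mul_nonneg (SJ_nonneg 0 0 n) hc.le
      gcongr
    have e5 : N * (SJ 0 0 n * N) = (Real.sqrt (SJ 0 0 n) * N) ^ 2 := by
      rw [mul_pow, Real.sq_sqrt (SJ_nonneg 0 0 n)]; ring
    rw [e5] at e2
    exact abs_le_of_sq_le_sq e2 (by positivity)
  have h3 : |∑ w' ∈ SW (n + 2), F w' - rh n * ∑ w ∈ SW n, F w| ≤
      (Real.sqrt (SJ 0 0 n) + (D + 50000000) / n + 4000 * δ) * N := by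
    calc |∑ w' ∈ SW (n + 2), F w' - rh n * ∑ w ∈ SW n, F w|
        ≤ |∑ w' ∈ SW (n + 2), F w' - ∑ w ∈ SW n, F w * RJ 0 0 w| +
          |∑ w ∈ SW n, F w * RJ 0 0 w - rh n * ∑ w ∈ SW n, F w| := abs_sub_le _ _ _
      _ ≤ (4000 * δ + (D + 50000000) / n) * N + Real.sqrt (SJ 0 0 n) * N := add_le_add h2 hcs
      _ = _ := by ring
  have e6 : EE (n + 2) F - EE n F =
      (∑ w' ∈ SW (n + 2), F w' - rh n * ∑ w ∈ SW n, F w) / (rh n * N) := by
    unfold EE
    rw [eN2, ← hN]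
    field_simp
  rw [e6, abs_div, abs_of_pos (mul_pos hr hc), div_le_div_iff₀ (mul_pos hr hc) hr]
  calc |∑ w' ∈ SW (n + 2), F w' - rh n * ∑ w ∈ SW n, F w| * rh n
      ≤ ((Real.sqrt (SJ 0 0 n) + (D + 50000000) / n + 4000 * δ) * N) * rh n := by gcongr
    _ = _ := by ring

lemma log_sq_le_eventually (A : ℝ) : ∀ᶠ n : ℕ in Filter.atTop, A * Real.log n ^ 2 ≤ n := by
  have h1 : (fun x : ℝ => Real.log x ^ 2) =o[Filter.atTop] (id : ℝ → ℝ) := Real.isLittleO_pow_log_id_atTop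
  have h2 := (h1.comp_tendsto tendsto_natCast_atTop_atTop).const_mul_left A
  filter_upwards [h2.bound one_pos] with n hn
  simp only [Function.comp_apply, id_eq, one_mul, Real.norm_eq_abs, Nat.abs_cast] at hn
  exact (le_abs_self _).trans hn

lemma SJ_tendsto : Filter.Tendsto (fun n => SJ 0 0 n) Filter.atTop (nhds 0) := by
  obtain ⟨A, D, hA, hD, h⟩ := SJ_le
  have hrt : Filter.Tendsto rh Filter.atTop (nhds (H981.mu ^ 2)) := by
    obtain ⟨C2, hC2, hr⟩ := rate_rh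
    have hmu0 : 0 < H981.mu := mu_pos'
    have h1 : Filter.Tendsto (fun n => rh n / H981.mu ^ 2 - 1) Filter.atTop (nhds 0) := by
      have hlim : Filter.Tendsto (fun n : ℕ => C2 * r3 n) Filter.atTop (nhds 0) := by
        have := r3_tendsto.const_mul C2
        simpa using this
      refine squeeze_zero_norm' ?_ hlim
      filter_upwards [Filter.eventually_ge_atTop 3] with n hn
      rw [Real.norm_eq_abs]
      exact hr n hn
    have h2 := (h1.add_const 1).mul_const (H981.mu ^ 2)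
    rw [zero_add, one_mul] at h2
    refine h2.congr fun n => ?_
    field_simp
    ring
  have hrt2 : Filter.Tendsto (fun n => rh (n + 2)) Filter.atTop (nhds (H981.mu ^ 2)) :=
    hrt.comp (Filter.tendsto_add_atTop_nat 2)
  have hn : Filter.Tendsto (fun n : ℕ => (n : ℝ)⁻¹) Filter.atTop (nhds 0) :=
    tendsto_inv_atTop_nhds_zero_nat
  have hlim : Filter.Tendsto (fun n : ℕ => rh n * (rh (n + 2) - rh n) +
      D * (1 + rh n) * (n : ℝ)⁻¹) Filter.atTop
      (nhds (H981.mu ^ 2 * (H981.mu ^ 2 - H981.mu ^ 2) + D * (1 + H981.mu ^ 2) * 0)) :=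
    (hrt.mul (hrt2.sub hrt)).add (((hrt.const_add 1).const_mul D).mul hn)
  rw [sub_self, mul_zero, mul_zero, add_zero] at hlim
  refine squeeze_zero' (Filter.Eventually.of_forall fun n => SJ_nonneg 0 0 n) ?_ hlim
  filter_upwards [log_sq_le_eventually A, Filter.eventually_ge_atTop 2] with n h1 h2
  have hLn : LJ 0 0 n = n := by unfold LJ; push_cast; ring
  have hn' : (2 : ℝ) ≤ n := by exact_mod_cast h2
  have h3 := h 0 0 n h2 (by rw [hLn]; exact h1) (by rw [hLn]; linarith)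
  rw [hLn] at h3
  rw [← div_eq_mul_inv]
  exact h3

/-- merging for uniformly continuous functions of the walk rescaled by its diameter -/
theorem merge_shape (g : C(unitInterval, ℂ) → ℝ) (hb : ∀ x, |g x| ≤ 1)
    (hu : UniformContinuous g) :
    Filter.Tendsto (fun n => EE (n + 2) (fun w => g (Ys w)) - EE n (fun w => g (Ys w)))
      Filter.atTop (nhds 0) := by
  obtain ⟨A, D, hA, hD, hstep⟩ := one_stepUC
  obtain ⟨C2, hC2, hr⟩ := rate_rh
  have hmu1 : 1 ≤ H981.mu := H981.one_le_mu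
  rw [Metric.tendsto_atTop]
  intro ε hε
  obtain ⟨δ, hδ, hg⟩ := Metric.uniformContinuous_iff.mp hu (ε / 40000) (by positivity)
  -- the error terms
  have hlim : Filter.Tendsto (fun n : ℕ => Real.sqrt (SJ 0 0 n) + D * (n : ℝ)⁻¹)
      Filter.atTop (nhds 0) := by
    have h1 := (SJ_tendsto.sqrt).add
      ((tendsto_inv_atTop_nhds_zero_nat (𝕜 := ℝ)).const_mul D)
    simpa using h1
  have hrlim : Filter.Tendsto (fun n : ℕ => C2 * r3 n) Filter.atTop (nhds 0) := by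
    have := r3_tendsto.const_mul C2
    simpa using this
  have hsq : Filter.Tendsto (fun n : ℕ => 108 / Real.sqrt (n : ℝ)) Filter.atTop (nhds 0) := by
    apply Filter.Tendsto.div_atTop tendsto_const_nhds
    exact Real.tendsto_sqrt_atTop.comp tendsto_natCast_atTop_atTop
  obtain ⟨N, hN⟩ := Filter.eventually_atTop.mp
    ((hlim.eventually (gt_mem_nhds (show (0 : ℝ) < ε / 10 by positivity))).and
      ((hrlim.eventually (gt_mem_nhds (show (0 : ℝ) < 1 / 2 by norm_num))).and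
        ((hsq.eventually (gt_mem_nhds hδ)).and
          ((log_sq_le_eventually A).and (Filter.eventually_ge_atTop 3)))))
  refine ⟨N, fun n hn => ?_⟩
  obtain ⟨h1, h2, h3, h4, h5⟩ := hN n hn
  rw [Real.dist_eq, sub_zero]
  have h6 := hstep n (by omega) h4 (fun w => g (Ys w)) (ε / 40000) (by positivity)
    (fun w => hb _) (by
    rintro w hw ⟨i, e⟩ hp
    have h7 := dist_Ys (by omega) hw hp
    have h8 := hg (lt_of_le_of_lt h7 h3)
    rw [Real.dist_eq] at h8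
    exact h8.le)
  have hrh : 1 / 2 ≤ rh n := by
    have h7 := (abs_le.mp ((hr n h5).trans h2.le)).1
    have h8 : (1 : ℝ) ≤ H981.mu ^ 2 := one_le_pow₀ hmu1
    have h9 : rh n / H981.mu ^ 2 ≤ rh n := div_le_self (rh_pos n).le h8
    linarith
  refine lt_of_le_of_lt h6 ?_
  rw [div_lt_iff₀ (by linarith)]
  have h7 : D / (n : ℝ) = D * (n : ℝ)⁻¹ := div_eq_mul_inv _ _
  rw [h7]
  nlinarith

end

end Pool.Agent.R956
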