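import Pool.Agent.R956.P1
import Pool.Agent.R956.S1
import Pool.Agent.H739K.AVS

/-!
# Functionals of the `(n+1)`-step walk bounded by functionals of its first `n` steps
-/

set_option autoImplicit false
set_option linter.unusedVariables false

namespace Pool.Agent.R956

open Pool.Agent.H976R2 Pool.Agent.H739K Finset
open Pool.Agent.H976R2.Dir
open scoped Classical

noncomputable section

theorem EE_ext_le {n : ℕ} (hn : 1 ≤ n) {G H : List Dir → ℝ} (hH : ∀ w, 0 ≤ H w)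
    (h : ∀ w ∈ SW (n + 1), G w ≤ H (w.take n)) :
    EE (n + 1) G ≤ 3 * cN n / cN (n + 1) * EE n H := by
  have h1 : EE (n + 1) G ≤ EE (n + 1) (fun w => H (w.take n)) := by
    unfold EE
    exact div_le_div_of_nonneg_right (Finset.sum_le_sum h) (SW_card_pos _).le
  have h2 := EE_ext hn le_rfl (G := fun w => H (w.take n)) (fun w => hH _)
    (fun w => by simp only [List.take_take, min_self])
  have h3 : EE n (fun w => H (w.take n)) = EE n H := by
    unfold EE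
    congr 1
    refine Finset.sum_congr rfl (fun w hw => ?_)
    simp only
    rw [List.take_of_length_le (mem_SW.mp hw).1.le]
  rw [h3] at h2
  exact h1.trans h2

/-- the first `n` steps of a path with `n + 1` steps -/
def cutl {n : ℕ} (ω : Fin (n + 2) → ℤ × ℤ) : Fin (n + 1) → ℤ × ℤ := fun i => ω i.castSucc

lemma pth_take {n : ℕ} (w : List Dir) : pth n (w.take n) = cutl (pth (n + 1) w) := by
  funext i
  unfold pth cutl
  have hi := i.isLt
  simp only [List.take_take, Fin.val_castSucc]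
  rw [min_eq_left (by omega)]

theorem avg_ext {n : ℕ} (hn : 1 ≤ n) {F : (Fin (n + 2) → ℤ × ℤ) → ℝ}
    {F' : (Fin (n + 1) → ℤ × ℤ) → ℝ} (h0 : ∀ ω, 0 ≤ F' ω)
    (h : ∀ ω, Pool.Agent.H976R2.IsSAW (n + 1) ω → F ω ≤ F' (cutl ω)) :
    AVF.avg (n + 1) F ≤ 3 * cN n / cN (n + 1) * AVF.avg n F' := by
  have h1 := EE_ext_le hn (G := fun w => F (pth (n + 1) w)) (H := fun w => F' (pth n w))
    (fun w => h0 _) (fun w hw => by
      rw [pth_take]
      exact h _ (pth_saw hw))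
  rw [AVF.avg_eq, AVF.avg_eq]
  exact h1

/-- `a_n = 3 c_n / c_{n+1}` -/
def an (n : ℕ) : ℝ := 3 * cN n / cN (n + 1)

lemma an_pos (n : ℕ) : 0 < an n := by
  unfold an
  have h1 := cN_pos n
  have h2 := cN_pos (n + 1)
  positivity

lemma one_le_an {n : ℕ} (hn : 1 ≤ n) : 1 ≤ an n := by
  unfold an
  rw [le_div_iff₀ (cN_pos _), one_mul]
  exact cN_succ_le hn

lemma an_mul (n : ℕ) : an n * an (n + 1) = 9 / rh n := by
  unfold an rh
  have h1 := cN_pos n
  have h2 := cN_pos (n + 1)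
  have h3 := cN_pos (n + 2)
  rw [show n + 1 + 1 = n + 2 by ring]
  field_simp
  norm_num

lemma an_tendsto : Filter.Tendsto (fun n => an n * an (n + 1)) Filter.atTop
    (nhds (9 / H981.mu ^ 2)) := by
  have h0 := mu_ge'
  have h3 := rh_tendsto.inv₀ (by positivity)
  have h4 := h3.const_mul 9
  rw [← div_eq_mul_inv] at h4
  refine h4.congr fun n => ?_
  rw [an_mul, div_eq_mul_inv]

/-- eventually `a_n ≤ 2` -/
lemma an_le : ∀ᶠ n : ℕ in Filter.atTop, an n ≤ 2 := by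
  have h0 := mu_ge'
  have h1 : (9 : ℝ) / H981.mu ^ 2 < 2 := by
    rw [div_lt_iff₀ (by positivity)]
    nlinarith
  filter_upwards [an_tendsto.eventually_lt_const h1, Filter.eventually_ge_atTop 1] with n hn h2
  have h3 := one_le_an (n := n + 1) (by omega)
  have h4 := an_pos n
  nlinarith

/-! ### the diameter -/

lemma dist2_eq (u v : ℤ × ℤ) : AVS.dist2 u v =
    ‖((u.1 : ℂ) + (u.2 : ℂ) * Complex.I) - ((v.1 : ℂ) + (v.2 : ℂ) * Complex.I)‖ := by
  have e : ((u.1 : ℂ) + (u.2 : ℂ) * Complex.I) - ((v.1 : ℂ) + (v.2 : ℂ) * Complex.I) =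
      (((u.1 - v.1 : ℤ) : ℂ)) + ((u.2 - v.2 : ℤ) : ℂ) * Complex.I := by
    push_cast; ring
  rw [e]
  have h := norm_pt_sq (u.1 - v.1) (u.2 - v.2)
  unfold AVS.dist2
  rw [← h, Real.sqrt_sq (norm_nonneg _)]

lemma dist2_tri (u v t : ℤ × ℤ) : AVS.dist2 u t ≤ AVS.dist2 u v + AVS.dist2 v t := by
  rw [dist2_eq, dist2_eq, dist2_eq]
  exact norm_sub_le_norm_sub_add_norm_sub _ _ _

lemma dist2_comm (u v : ℤ × ℤ) : AVS.dist2 u v = AVS.dist2 v u := by
  rw [dist2_eq, dist2_eq, norm_sub_rev]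

lemma dist2_self (u : ℤ × ℤ) : AVS.dist2 u u = 0 := by
  rw [dist2_eq, sub_self, norm_zero]

lemma dist2_step {u v : ℤ × ℤ} (h : |u.1 - v.1| + |u.2 - v.2| = 1) : AVS.dist2 u v = 1 := by
  unfold AVS.dist2
  have h1 : (u.1 - v.1) ^ 2 + (u.2 - v.2) ^ 2 = 1 := by
    rcases abs_cases (u.1 - v.1) with ⟨h1, h2⟩ | ⟨h1, h2⟩ <;>
    rcases abs_cases (u.2 - v.2) with ⟨h3, h4⟩ | ⟨h3, h4⟩ <;>
    rw [h1, h3] at h
    all_goals
      have hx : (u.1 - v.1 = 0 ∧ (u.2 - v.2 = 1 ∨ u.2 - v.2 = -1)) ∨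
          (u.2 - v.2 = 0 ∧ (u.1 - v.1 = 1 ∨ u.1 - v.1 = -1)) := by omega
      rcases hx with ⟨a, b | b⟩ | ⟨a, b | b⟩ <;> rw [a, b] <;> norm_num
  have h2 : (((u.1 - v.1 : ℤ) : ℝ)) ^ 2 + (((u.2 - v.2 : ℤ) : ℝ)) ^ 2 = 1 := by exact_mod_cast h1
  rw [h2, Real.sqrt_one]

lemma diam_cutl_le {n : ℕ} (ω : Fin (n + 2) → ℤ × ℤ) : AVS.diam (cutl ω) ≤ AVS.diam ω := by
  obtain ⟨p, hp⟩ := AVS.exists_diam (cutl ω)
  rw [← hp]
  exact AVS.dist2_le_diam ω (p.1.castSucc, p.2.castSucc)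

lemma diam_le_cutl {n : ℕ} {ω : Fin (n + 2) → ℤ × ℤ} (h : Pool.Agent.H976R2.IsSAW (n + 1) ω) :
    AVS.diam ω ≤ AVS.diam (cutl ω) + 1 := by
  have hlast : AVS.dist2 (ω (Fin.last (n + 1))) (ω (Fin.last n).castSucc) = 1 := by
    have := h.2.1 (Fin.last n)
    rw [Fin.succ_last] at this
    exact dist2_step this
  have h0 : 0 ≤ AVS.diam (cutl ω) := by
    have := AVS.dist2_le_diam (cutl ω) (0, 0)
    simp only [dist2_self] at this
    exact this
  have key : ∀ i : Fin (n + 2), AVS.dist2 (ω (Fin.last (n + 1))) (ω i) ≤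
      AVS.diam (cutl ω) + 1 := by
    intro i
    rcases Fin.eq_castSucc_or_eq_last i with ⟨j, rfl⟩ | rfl
    · have h1 := dist2_tri (ω (Fin.last (n + 1))) (ω (Fin.last n).castSucc) (ω j.castSucc)
      have h2 := AVS.dist2_le_diam (cutl ω) (Fin.last n, j)
      simp only [cutl] at h2
      rw [hlast] at h1
      linarith
    · rw [dist2_self]; linarith
  obtain ⟨⟨a, b⟩, hp⟩ := AVS.exists_diam ω
  rw [← hp]
  simp only
  rcases Fin.eq_castSucc_or_eq_last a with ⟨j, rfl⟩ | rfl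
  · rcases Fin.eq_castSucc_or_eq_last b with ⟨k, rfl⟩ | rfl
    · have h2 := AVS.dist2_le_diam (cutl ω) (j, k)
      simp only [cutl] at h2
      linarith
    · rw [dist2_comm]; exact key _
  · exact key _

lemma one_le_diam {n : ℕ} (hn : 1 ≤ n) {ω : Fin (n + 1) → ℤ × ℤ}
    (h : Pool.Agent.H976R2.IsSAW n ω) : 1 ≤ AVS.diam ω := by
  obtain ⟨m, rfl⟩ : ∃ m, n = m + 1 := ⟨n - 1, by omega⟩
  have h1 := dist2_step (h.2.1 0)
  rw [← h1]
  exact AVS.dist2_le_diam ω ((0 : Fin (m + 1)).succ, (0 : Fin (m + 1)).castSucc)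

end

end Pool.Agent.R956
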