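import Pool.Agent.R956.X1
import Pool.Agent.R956.D2

/-!
# Honeycomb lattice: walks with one more step
-/

set_option autoImplicit false
set_option linter.unusedVariables false

namespace Pool.Agent.R956.X2

open TH966.AK Finset Filter Topology
open Pool.Agent.Results.MP_b440f6_pr.DisplacementLower (ps norm_ps ps_sub)

lemma split {n : ℕ} (hn : 1 ≤ n) {w : List (ℤ × ℤ)} (hw : w ∈ Kw Hex.A (n + 1)) :
    ∃ (u : List (ℤ × ℤ)) (r p q : ℤ × ℤ), w = u ++ [r, p, q] ∧ u ++ [r, p] ∈ Kw Hex.A n ∧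
      Hex.A r p ∧ Hex.A p q ∧ q ≠ r := by
  rw [Hex.rule.mem_K] at hw
  obtain ⟨h1, h3, h4, h5⟩ := hw
  obtain ⟨v, hv⟩ : ∃ v, v = w.reverse := ⟨_, rfl⟩
  have hlen : v.length = n + 1 + 1 := by rw [hv, List.length_reverse, h1]
  have hw : w = v.reverse := by rw [hv, List.reverse_reverse]
  match v, hlen, hw with
  | [_, _], hlen, _ =>
    exfalso
    simp only [List.length_cons, List.length_nil] at hlen
    omega
  | q :: p :: r :: t, hlen, hw =>
    have e : w = t.reverse ++ [r, p, q] := by rw [hw]; simp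
    refine ⟨t.reverse, r, p, q, e, ?_, ?_, ?_, ?_⟩
    · rw [Hex.rule.mem_K]
      have e2 : w = (t.reverse ++ [r, p]) ++ [q] := by rw [e]; simp
      refine ⟨?_, ?_, ?_, ?_⟩
      · rw [e] at h1
        simp at h1 ⊢
        omega
      · rw [e2] at h3
        rw [List.head?_append] at h3
        cases h : (t.reverse ++ [r, p]).head? with
        | none => simp at h
        | some x => rw [h] at h3; simpa using h3
      · rw [e2] at h4
        exact h4.of_append_left
      · rw [e2] at h5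
        exact h5.left_of_append
    · rw [e] at h5
      have := h5.right_of_append
      simp at this
      exact this.1
    · rw [e] at h5
      have := h5.right_of_append
      simp at this
      exact this.2
    · rw [e] at h4
      have := h4.of_append_right
      simp at this
      rintro rfl
      exact this.1.2 rfl

theorem step {n : ℕ} (hn : 1 ≤ n) {F G : ℤ × ℤ → ℝ} (h0 : ∀ p, 0 ≤ G p)
    (h : ∀ p q, Hex.A p q → F q ≤ G p) : WF Hex.A F (n + 1) ≤ 2 * WF Hex.A G n := by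
  classical
  unfold WF
  have hl : ∀ (u : List (ℤ × ℤ)) (x : ℤ × ℤ), lst (u ++ [x]) = x := by
    intro u x
    unfold lst
    simp
  have hd : ∀ (u : List (ℤ × ℤ)) (r p q : ℤ × ℤ), (u ++ [r, p, q]).dropLast = u ++ [r, p] := by
    intro u r p q
    rw [show u ++ [r, p, q] = (u ++ [r, p]) ++ [q] by simp, List.dropLast_concat]
  have hmaps : ∀ w ∈ Kw Hex.A (n + 1), w.dropLast ∈ Kw Hex.A n := by
    intro w hw
    obtain ⟨u, r, p, q, rfl, h1, -⟩ := split hn hw
    rw [hd]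
    exact h1
  calc ∑ w ∈ Kw Hex.A (n + 1), F (lst w) ≤ ∑ w ∈ Kw Hex.A (n + 1), G (lst w.dropLast) := by
        refine Finset.sum_le_sum fun w hw => ?_
        obtain ⟨u, r, p, q, rfl, h1, h2, h3, h4⟩ := split hn hw
        rw [hd, show u ++ [r, p, q] = (u ++ [r, p]) ++ [q] by simp, hl,
          show u ++ [r, p] = (u ++ [r]) ++ [p] by simp, hl]
        exact h p q h3
    _ = ∑ v ∈ Kw Hex.A n, ∑ w ∈ Kw Hex.A (n + 1) with w.dropLast = v, G (lst w.dropLast) :=
        (Finset.sum_fiberwise_of_maps_to hmaps _).symm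
    _ ≤ ∑ v ∈ Kw Hex.A n, 2 * G (lst v) := by
        refine Finset.sum_le_sum fun v hv => ?_
        have e1 : ∑ w ∈ Kw Hex.A (n + 1) with w.dropLast = v, G (lst w.dropLast) =
            (((Kw Hex.A (n + 1)).filter (fun w => w.dropLast = v)).card : ℝ) * G (lst v) := by
          rw [← nsmul_eq_mul, ← Finset.sum_const]
          refine Finset.sum_congr rfl fun w hw => ?_
          rw [(mem_filter.1 hw).2]
        rw [e1]
        refine mul_le_mul_of_nonneg_right ?_ (h0 _)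
        -- the fibre has at most two elements
        rcases ((Kw Hex.A (n + 1)).filter (fun w => w.dropLast = v)).eq_empty_or_nonempty with
          he | ⟨w₀, hw₀⟩
        · rw [he]; simp
        · obtain ⟨hw1, hw2⟩ := mem_filter.1 hw₀
          obtain ⟨u, r, p, q, rfl, h1, h2, h3, h4⟩ := split hn hw1
          rw [hd] at hw2
          subst hw2
          have hsub : (Kw Hex.A (n + 1)).filter (fun w => w.dropLast = u ++ [r, p]) ⊆
              ((Hex.nb p).erase r).image (fun x => u ++ [r, p, x]) := by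
            intro w hw
            obtain ⟨g1, g2⟩ := mem_filter.1 hw
            obtain ⟨u', r', p', q', rfl, k1, k2, k3, k4⟩ := split hn g1
            rw [hd] at g2
            have g3 := List.append_inj' g2 rfl
            obtain ⟨rfl, g4⟩ := g3
            simp only [List.cons.injEq, and_true] at g4
            obtain ⟨rfl, rfl⟩ := g4
            rw [mem_image]
            exact ⟨q', mem_erase.2 ⟨k4, Hex.mem_nb.2 k3⟩, rfl⟩
          have hc := (card_le_card hsub).trans card_image_le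
          rw [card_erase_of_mem (Hex.mem_nb.2 (Hex.A_symm h2))] at hc
          have := Hex.card_nb p
          have h5 : ((Kw Hex.A (n + 1)).filter (fun w => w.dropLast = u ++ [r, p])).card ≤ 2 := by
            omega
          exact_mod_cast h5
    _ = 2 * ∑ v ∈ Kw Hex.A n, G (lst v) := by rw [Finset.mul_sum]

/-- the number of walks -/
noncomputable def cc (n : ℕ) : ℝ := (Kw Hex.A n).card

theorem cc_step {n : ℕ} (hn : 1 ≤ n) : cc (n + 1) ≤ 2 * cc n := by
  have h := step hn (F := fun _ => 1) (G := fun _ => 1) (fun _ => zero_le_one) (fun _ _ _ => le_rfl)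
  unfold WF at h
  simpa [cc] using h

lemma q4_step {p q : ℤ × ℤ} (h : Hex.A p q) :
    (q4 q : ℝ) ≤ q4 p + 4 * Real.sqrt (q4 p) + 4 := by
  have h1 := ((X1.adj_iff p q).1 h).1
  obtain ⟨a, ha⟩ : ∃ a, a = ‖ps .hexagonal (X1.φ p)‖ := ⟨_, rfl⟩
  obtain ⟨b, hb⟩ : ∃ b, b = ‖ps .hexagonal (X1.φ q)‖ := ⟨_, rfl⟩
  have ha0 : 0 ≤ a := by rw [ha]; positivity
  have hb0 : 0 ≤ b := by rw [hb]; positivity
  have e1 : (q4 p : ℝ) = 4 * a ^ 2 := by
    rw [ha, norm_ps, X1.q4_eq]
    push_cast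
    rfl
  have e2 : (q4 q : ℝ) = 4 * b ^ 2 := by
    rw [hb, norm_ps, X1.q4_eq]
    push_cast
    rfl
  have e3 : ‖ps .hexagonal (X1.φ q - X1.φ p)‖ = 1 := by
    have h2 : ‖ps .hexagonal (X1.φ q - X1.φ p)‖ ^ 2 = 1 := by
      rw [norm_ps]
      show ((H982P.Qt (X1.φ q - X1.φ p) : ℤ) : ℝ) = 1
      rw [h1]
      norm_num
    nlinarith [norm_nonneg (ps .hexagonal (X1.φ q - X1.φ p))]
  have e4 : b ≤ a + 1 := by
    rw [ha, hb]
    have h3 : ps .hexagonal (X1.φ q) = ps .hexagonal (X1.φ p) + ps .hexagonal (X1.φ q - X1.φ p) := by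
      rw [← ps_sub]; ring
    rw [h3]
    refine (norm_add_le _ _).trans ?_
    rw [e3]
  have e5 : Real.sqrt (q4 p) = 2 * a := by
    rw [e1, show 4 * a ^ 2 = (2 * a) ^ 2 by ring, Real.sqrt_sq (by positivity)]
  rw [e5, e1, e2]
  nlinarith

lemma cc_pos (n : ℕ) : 0 < cc n := by
  obtain ⟨-, K0, G⟩ := hex_growth (fun n => Set.ncard {f : Fin (n + 1) → ℤ × ℤ |
            f 0 = 0 ∧ Function.Injective f ∧
            ∀ i : Fin n, AdjH (f i.castSucc) (f i.succ)}) (fun n => rfl)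
  exact lt_of_lt_of_le (pow_pos (by linarith [G.hμ]) n) (G.low n)

theorem D4_step {n : ℕ} (hn : 1 ≤ n) (hD : 0 < D4 n) :
    D4 (n + 1) ≤ 2 * cc n / cc (n + 1) * (1 + (4 * Real.sqrt (D4 n) + 4) / D4 n) * D4 n := by
  have h := step hn (F := fun p => (q4 p : ℝ))
    (G := fun p => (q4 p : ℝ) + 4 * Real.sqrt (q4 p) + 4) (fun p => by
      have := q4_nonneg p
      have h2 : (0 : ℝ) ≤ q4 p := by exact_mod_cast this
      positivity) (fun p q h => q4_step h)
  have hc := cc_pos n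
  have hc1 := cc_pos (n + 1)
  have e1 : WF Hex.A (fun p => (q4 p : ℝ)) n = cc n * D4 n := by
    unfold D4 cc
    have : ((Kw Hex.A n).card : ℝ) ≠ 0 := hc.ne'
    field_simp
  have e2 : WF Hex.A (fun p => (q4 p : ℝ)) (n + 1) = cc (n + 1) * D4 (n + 1) := by
    unfold D4 cc
    have : ((Kw Hex.A (n + 1)).card : ℝ) ≠ 0 := hc1.ne'
    field_simp
  have e3 : WF Hex.A (fun p => Real.sqrt (q4 p)) n ≤ cc n * Real.sqrt (D4 n) := by
    have h1 : (WF Hex.A (fun p => Real.sqrt (q4 p)) n) ^ 2 ≤ cc n * (cc n * D4 n) := by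
      unfold WF
      refine (sq_sum_le_card_mul_sum_sq).trans (le_of_eq ?_)
      rw [← e1]
      unfold WF cc
      congr 1
      refine Finset.sum_congr rfl fun w _ => ?_
      rw [Real.sq_sqrt]
      exact_mod_cast q4_nonneg _
    have h2 : (cc n * Real.sqrt (D4 n)) ^ 2 = cc n * (cc n * D4 n) := by
      rw [mul_pow, Real.sq_sqrt hD.le]
      ring
    rw [← h2] at h1
    exact (le_abs_self _).trans (abs_le_of_sq_le_sq h1 (by positivity))
  have e4 : WF Hex.A (fun p => (q4 p : ℝ) + 4 * Real.sqrt (q4 p) + 4) n =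
      WF Hex.A (fun p => (q4 p : ℝ)) n + 4 * WF Hex.A (fun p => Real.sqrt (q4 p)) n +
        4 * cc n := by
    unfold WF cc
    rw [Finset.sum_add_distrib, Finset.sum_add_distrib, ← Finset.mul_sum, Finset.sum_const,
      nsmul_eq_mul]
    ring
  rw [e2, e4, e1] at h
  have h5 : cc (n + 1) * D4 (n + 1) ≤ 2 * cc n * (D4 n + 4 * Real.sqrt (D4 n) + 4) := by
    nlinarith
  have h6 : 2 * cc n / cc (n + 1) * (1 + (4 * Real.sqrt (D4 n) + 4) / D4 n) * D4 n =
      (2 * cc n * (D4 n + 4 * Real.sqrt (D4 n) + 4)) / cc (n + 1) := by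
    field_simp
    ring
  rw [h6, le_div_iff₀ hc1]
  linarith

/-! ## The consequences -/

/-- `μ² = 2 + √2` -/
noncomputable def mu2 : ℝ := 2 + Real.sqrt 2

lemma mu2_pos : 0 < mu2 := by unfold mu2; positivity

lemma cc_eq (n : ℕ) : cc n = (Set.ncard {f : Fin (n + 1) → ℤ × ℤ |
    f 0 = 0 ∧ Function.Injective f ∧ ∀ i : Fin n, AdjH (f i.castSucc) (f i.succ)} : ℝ) := by
  unfold cc
  rw [← card_wks Hex.rule]
  rfl

lemma cc_ratio : ∃ K : ℝ, ∀ n : ℕ, 2 ≤ n → |cc (n + 2) / cc n - mu2| ≤ K * D2.f n := by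
  obtain ⟨K, hK⟩ := hex_ratio (fun n => Set.ncard {f : Fin (n + 1) → ℤ × ℤ |
            f 0 = 0 ∧ Function.Injective f ∧
            ∀ i : Fin n, AdjH (f i.castSucc) (f i.succ)}) (fun n => rfl)
  refine ⟨K, fun n hn => ?_⟩
  have := hK n hn
  rw [cc_eq, cc_eq]
  exact this

/-- `c_n / μ^n` -/
noncomputable def r (n : ℕ) : ℝ := cc n / Real.sqrt mu2 ^ n

lemma smu_pos : 0 < Real.sqrt mu2 := Real.sqrt_pos.mpr mu2_pos

lemma r_pos (n : ℕ) : 0 < r n := by
  have := cc_pos n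
  have := smu_pos
  unfold r
  positivity

lemma r_two (n : ℕ) : r (n + 2) / r n = (cc (n + 2) / cc n) / mu2 := by
  have h1 := cc_pos n
  have h2 := smu_pos
  have h3 := mu2_pos
  unfold r
  rw [pow_add, Real.sq_sqrt h3.le]
  have : Real.sqrt mu2 ^ n ≠ 0 := by positivity
  field_simp

theorem r_rate : ∃ K : ℝ, 0 ≤ K ∧ ∀ n : ℕ, 2 ≤ n → |r (n + 2) / r n - 1| ≤ K * D2.f n := by
  obtain ⟨K, hK⟩ := cc_ratio
  have h3 := mu2_pos
  refine ⟨|K| / mu2, by positivity, fun n hn => ?_⟩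
  have h := hK n hn
  rw [r_two, show cc (n + 2) / cc n / mu2 - 1 = (cc (n + 2) / cc n - mu2) / mu2 by field_simp,
    abs_div, abs_of_pos h3, div_le_iff₀ h3]
  refine h.trans ?_
  have : K * D2.f n ≤ |K| * D2.f n := mul_le_mul_of_nonneg_right (le_abs_self K) (D2.f_nonneg n)
  refine this.trans (le_of_eq ?_)
  field_simp

lemma r_tendsto : Tendsto (fun n => r (n + 2) / r n) atTop (𝓝 1) := by
  obtain ⟨K, hK0, hK⟩ := r_rate
  have t : Tendsto (fun n => K * D2.f n) atTop (𝓝 0) := by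
    simpa using D2.f_tendsto.const_mul K
  rw [tendsto_iff_norm_sub_tendsto_zero]
  refine squeeze_zero' (Eventually.of_forall fun n => norm_nonneg _) ?_ t
  filter_upwards [eventually_ge_atTop 2] with n hn
  rw [Real.norm_eq_abs]
  exact hK n hn

lemma r_one {n : ℕ} (hn : 1 ≤ n) : r (n + 1) ≤ 2 / Real.sqrt mu2 * r n := by
  have h := cc_step hn
  have h2 := smu_pos
  unfold r
  rw [pow_succ, div_mul_div_comm, div_le_div_iff₀ (by positivity) (by positivity)]
  have : 0 < Real.sqrt mu2 ^ n * Real.sqrt mu2 := by positivity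
  nlinarith

theorem r_aux {r : ℕ → ℝ} {β : ℝ} (hβ0 : 0 < β) (hr : ∀ n, 0 < r n)
    (h2 : Tendsto (fun n => r (n + 2) / r n) atTop (𝓝 1))
    (h1 : ∀ n, 1 ≤ n → r (n + 1) ≤ β * r n) {ε : ℝ} (hε : 0 < ε) : ∀ᶠ n in atTop,
    r (n + 1) ≤ (β + ε) * r n ∧ r n ≤ (β + ε) * r (n + 1) := by
  have t : Tendsto (fun n => β / (r (n + 2) / r n)) atTop (𝓝 β) := by
    have := (tendsto_const_nhds (x := β)).div h2 one_ne_zero
    rwa [div_one] at this
  filter_upwards [eventually_ge_atTop 1, t.eventually_lt_const (show β < β + ε by linarith)]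
    with n hn g1
  have p0 := hr n
  have p1 := hr (n + 1)
  have p2 := hr (n + 2)
  have g2 := h1 n hn
  have g3 : r (n + 2) ≤ β * r (n + 1) := h1 (n + 1) (by omega)
  obtain ⟨x, hx⟩ : ∃ x, x = r n := ⟨_, rfl⟩
  obtain ⟨y, hy⟩ : ∃ y, y = r (n + 1) := ⟨_, rfl⟩
  obtain ⟨z, hz⟩ : ∃ z, z = r (n + 2) := ⟨_, rfl⟩
  rw [← hx, ← hz] at g1
  rw [← hx, ← hy] at g2
  rw [← hz, ← hy] at g3
  rw [← hx] at p0
  rw [← hy] at p1
  rw [← hz] at p2
  rw [← hx, ← hy]
  constructor
  · nlinarith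
  · have e : β / (z / x) = β * x / z := by field_simp
    rw [e, div_lt_iff₀ p2] at g1
    have h4 : β * x ≤ β * ((β + ε) * y) := by nlinarith
    exact le_of_mul_le_mul_left h4 hβ0

/-- consecutive numbers of walks -/
theorem r_bounds {ε : ℝ} (hε : 0 < ε) : ∀ᶠ n in atTop,
    r (n + 1) ≤ (2 / Real.sqrt mu2 + ε) * r n ∧ r n ≤ (2 / Real.sqrt mu2 + ε) * r (n + 1) :=
  r_aux (div_pos (by norm_num) smu_pos) r_pos r_tendsto (fun _ hn => r_one hn) hε

lemma D4_rate : ∃ K : ℝ, 0 ≤ K ∧ ∀ n : ℕ, 2 ≤ n → |D4 (n + 2) / D4 n - 1| ≤ K * D2.f n := by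
  obtain ⟨K, hK⟩ := hex_end
  refine ⟨|K|, abs_nonneg K, fun n hn => ((hK n hn).2.1).trans ?_⟩
  exact mul_le_mul_of_nonneg_right (le_abs_self K) (D2.f_nonneg n)

lemma D4_pos {n : ℕ} (hn : 2 ≤ n) : 0 < D4 n := by
  obtain ⟨K, hK⟩ := hex_end
  exact (hK n hn).1

lemma D4_two : Tendsto (fun n => D4 (n + 2) / D4 n) atTop (𝓝 1) := by
  obtain ⟨K, hK0, hK⟩ := D4_rate
  have t : Tendsto (fun n => K * D2.f n) atTop (𝓝 0) := by
    simpa using D2.f_tendsto.const_mul K
  rw [tendsto_iff_norm_sub_tendsto_zero]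
  refine squeeze_zero' (Eventually.of_forall fun n => norm_nonneg _) ?_ t
  filter_upwards [eventually_ge_atTop 2] with n hn
  rw [Real.norm_eq_abs]
  exact hK n hn

theorem D_aux {D c : ℕ → ℝ} {M : ℝ} (hM : 0 < M) (hD : ∀ n, 2 ≤ n → 0 < D n)
    (hc : ∀ n, 0 < c n) (h2 : Tendsto (fun n => D (n + 2) / D n) atTop (𝓝 1))
    (hc1 : ∀ n, 1 ≤ n → c (n + 1) ≤ 2 * c n)
    (hc2 : Tendsto (fun n => c (n + 2) / c n) atTop (𝓝 M)) (hinf : Tendsto D atTop atTop)
    (hs : ∀ n, 2 ≤ n →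
      D (n + 1) ≤ 2 * c n / c (n + 1) * (1 + (4 * Real.sqrt (D n) + 4) / D n) * D n)
    {ε : ℝ} (hε : 0 < ε) : ∀ᶠ n in atTop,
    D (n + 1) ≤ (4 / M + ε) * D n ∧ D n ≤ (4 / M + ε) * D (n + 1) := by
  have k1 : ∀ᶠ n in atTop, (1 : ℝ) ≤ 2 * c n / c (n + 1) := by
    filter_upwards [eventually_ge_atTop 1] with n hn
    rw [one_le_div (hc _)]
    exact hc1 n hn
  have k2 : Tendsto (fun n => 2 * c n / c (n + 1) * (2 * c (n + 1) / c (n + 1 + 1))) atTop
      (𝓝 (4 / M)) := by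
    have h2 := (tendsto_const_nhds (x := (4 : ℝ))).div hc2 hM.ne'
    refine h2.congr fun n => ?_
    have := hc n
    have := hc (n + 1)
    have := hc (n + 2)
    simp only [Pi.div_apply]
    rw [show n + 1 + 1 = n + 2 by ring]
    field_simp
    ring
  have k3 : Tendsto (fun n => (4 * Real.sqrt (D n) + 4) / D n) atTop (𝓝 0) := by
    have h1 : Tendsto (fun x : ℝ => (4 * Real.sqrt x + 4) / x) atTop (𝓝 0) := by
      have t1 : Tendsto (fun x : ℝ => 4 / Real.sqrt x + 4 / x) atTop (𝓝 0) := by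
        have a1 := (tendsto_const_nhds (x := (4 : ℝ))).div_atTop Real.tendsto_sqrt_atTop
        have a2 := (tendsto_const_nhds (x := (4 : ℝ))).div_atTop tendsto_id
        have := a1.add a2
        simpa using this
      refine t1.congr' ?_
      filter_upwards [eventually_gt_atTop 0] with x hx
      have hs : 0 < Real.sqrt x := Real.sqrt_pos.mpr hx
      have e : x = Real.sqrt x * Real.sqrt x := (Real.mul_self_sqrt hx.le).symm
      rw [add_div]
      congr 1
      rw [div_eq_div_iff hs.ne' hx.ne']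
      nth_rw 1 [e]
      ring
    exact h1.comp hinf
  have k4 : ∀ᶠ n in atTop,
      D (n + 1) ≤ 2 * c n / c (n + 1) * (1 + (4 * Real.sqrt (D n) + 4) / D n) * D n := by
    filter_upwards [eventually_ge_atTop 2] with n hn
    exact hs n hn
  exact D2.step_bounds (u := D) (a := fun n => 2 * c n / c (n + 1))
    (e := fun n => (4 * Real.sqrt (D n) + 4) / D n) (L := 4 / M) (div_pos (by norm_num) hM)
    hD h2 k1 k2 k3 k4 hε

lemma cc_two : Tendsto (fun n => cc (n + 2) / cc n) atTop (𝓝 mu2) := by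
  have := r_tendsto.mul_const mu2
  rw [one_mul] at this
  refine this.congr fun n => ?_
  have := mu2_pos
  rw [r_two]
  field_simp

/-- consecutive mean-square displacements -/
theorem D4_bounds {ε : ℝ} (hε : 0 < ε) : ∀ᶠ n in atTop,
    D4 (n + 1) ≤ (4 / mu2 + ε) * D4 n ∧ D4 n ≤ (4 / mu2 + ε) * D4 (n + 1) :=
  D_aux mu2_pos (fun _ hn => D4_pos hn) cc_pos D4_two (fun _ hn => cc_step hn) cc_two
    X1.D4_tendsto (fun n hn => D4_step (show 1 ≤ n by omega) (D4_pos hn)) hε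

end Pool.Agent.R956.X2
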