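import Pool.Agent.R956.V1
import Pool.Agent.R956.X2
import Pool.Agent.R956.D1
import Pool.Agent.Y943.SL.Uneq

/-!
# Square, triangular and honeycomb lattices: the normalised numbers of walks
-/

set_option autoImplicit false
set_option linter.unusedVariables false

namespace Pool.Agent.R956.V2

open Filter Topology TH966.AK
open Pool.Agent.R956.D2 (f)
open Pool.Agent.Y943.SL (Wk)

theorem mkSq {c : ℕ → ℝ} {μ K c' C : ℝ} (W : Wk c μ)
    (h : Pool.Agent.TH262.UL.Hy (fun n => c n / μ ^ n) K c' C) {β : ℝ} (hβ : 1 ≤ β)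
    (hs : ∀ n, 1 ≤ n → c (n + 1) ≤ (β * μ) * c n) :
    V1.Sq (fun n => c n / μ ^ n) K β := by
  have hμ := W.hμ
  have hrate : ∀ n, 2 ≤ n → |c (n + 2) / μ ^ (n + 2) / (c n / μ ^ n) - 1| ≤ K * f n := h.rat
  refine ⟨W.one_le, by linarith [h.K1], hβ, hrate, fun ε hε => ?_, W.sub⟩
  refine X2.r_aux (r := fun n => c n / μ ^ n) (by linarith) W.pos ?_ (fun n hn => ?_) hε
  · have t : Tendsto (fun n => K * f n) atTop (𝓝 0) := by
      simpa using D2.f_tendsto.const_mul K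
    rw [tendsto_iff_norm_sub_tendsto_zero]
    refine squeeze_zero' (Eventually.of_forall fun n => norm_nonneg _) ?_ t
    filter_upwards [eventually_ge_atTop 2] with n hn
    rw [Real.norm_eq_abs]
    exact hrate n hn
  · have := hs n hn
    rw [pow_succ, div_le_iff₀ (by positivity)]
    have e : β * (c n / μ ^ n) * (μ ^ n * μ) = (β * μ) * c n := by
      have := (pow_pos hμ n).ne'
      field_simp
    rw [e]
    exact this

theorem mkSq1 {c : ℕ → ℝ} {μ K c' C R : ℝ} (W : Wk c μ)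
    (h : Pool.Agent.TH262.UL.Hy (fun n => c n / μ ^ n) K c' C)
    (hs : ∀ n : ℕ, 2 ≤ n → |c (n + 1) / c n - μ| ≤ R * (Real.log n / √(n : ℝ))) :
    V1.Sq (fun n => c n / μ ^ n) K 1 := by
  have hμ := W.hμ
  have hrate : ∀ n, 2 ≤ n → |c (n + 2) / μ ^ (n + 2) / (c n / μ ^ n) - 1| ≤ K * f n := h.rat
  refine ⟨W.one_le, by linarith [h.K1], le_rfl, hrate, fun ε hε => ?_, W.sub⟩
  have t : Tendsto (fun n => |R| / μ * f n) atTop (𝓝 0) := by
    simpa using D2.f_tendsto.const_mul (|R| / μ)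
  filter_upwards [t.eventually_lt_const (show (0 : ℝ) < ε / (1 + ε) by positivity),
    eventually_ge_atTop 2] with n h1 hn
  have p0 := W.pos n
  have p1 := W.pos (n + 1)
  have hf := D2.f_nonneg n
  have h2 : |c (n + 1) / μ ^ (n + 1) / (c n / μ ^ n) - 1| ≤ |R| / μ * f n := by
    have e : c (n + 1) / μ ^ (n + 1) / (c n / μ ^ n) - 1 = (c (n + 1) / c n - μ) / μ := by
      have := (W.cpos n).ne'
      have := (pow_pos hμ n).ne'
      rw [pow_succ]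
      field_simp
    rw [e, abs_div, abs_of_pos hμ, div_le_iff₀ hμ]
    refine (hs n hn).trans ?_
    have : R * (Real.log n / √(n : ℝ)) ≤ |R| * f n :=
      mul_le_mul_of_nonneg_right (le_abs_self R) hf
    refine this.trans (le_of_eq ?_)
    field_simp
  obtain ⟨a1, a2⟩ := abs_le.mp (h2.trans h1.le)
  obtain ⟨x, hx⟩ : ∃ x, x = c n / μ ^ n := ⟨_, rfl⟩
  obtain ⟨y, hy⟩ : ∃ y, y = c (n + 1) / μ ^ (n + 1) := ⟨_, rfl⟩
  rw [← hx, ← hy] at a1 a2
  rw [← hx] at p0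
  rw [← hy] at p1
  rw [← hx, ← hy]
  have hη1 : ε / (1 + ε) ≤ ε := by
    rw [div_le_iff₀ (by linarith)]
    nlinarith
  constructor
  · have : y / x ≤ 1 + ε := by linarith
    rwa [div_le_iff₀ p0] at this
  · have h3 : 1 - ε / (1 + ε) ≤ y / x := by linarith
    have h4 : 1 - ε / (1 + ε) = 1 / (1 + ε) := by
      field_simp
      ring
    rw [h4, div_le_div_iff₀ (by linarith) p0] at h3
    linarith

theorem tri (a : ℕ → ℕ)
    (ha : ∀ n : ℕ, a n = Set.ncard {f : Fin (n + 1) → ℤ × ℤ |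
            f 0 = 0 ∧ Function.Injective f ∧
            ∀ i : Fin n, AdjT (f i.castSucc) (f i.succ)}) (μ : ℝ)
    (hμ : μ = (⨅ n : {n : ℕ // 1 ≤ n}, ((a n.1 : ℝ) ^ ((1 : ℝ) / (n.1 : ℝ))))) :
    ∃ K, V1.Sq (fun n => (a n : ℝ) / μ ^ n) K 1 := by
  obtain ⟨K, c, C, h⟩ := Pool.Agent.Y943.SL.hy_tri a ha μ hμ
  obtain ⟨hc, K0, G⟩ := tri_growth a ha μ hμ
  obtain ⟨R, hR⟩ := G.rate1 rfl
  simp only [hc] at hR
  exact ⟨K, mkSq1 (Pool.Agent.Y943.SL.wk_tri a ha μ hμ).1 h hR⟩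

theorem hex (a : ℕ → ℕ)
    (ha : ∀ n : ℕ, a n = Set.ncard {f : Fin (n + 1) → ℤ × ℤ |
            f 0 = 0 ∧ Function.Injective f ∧
            ∀ i : Fin n, AdjH (f i.castSucc) (f i.succ)}) (μ : ℝ)
    (hμ : μ = (⨅ n : {n : ℕ // 1 ≤ n}, ((a n.1 : ℝ) ^ ((1 : ℝ) / (n.1 : ℝ))))) :
    0 < μ ∧ 1 ≤ 2 / μ ∧ (2 / μ) ^ 2 < 1.172 ∧ ∃ K, V1.Sq (fun n => (a n : ℝ) / μ ^ n) K (2 / μ) := by
  obtain ⟨K, c, C, h⟩ := Pool.Agent.Y943.SL.hy_hex a ha μ hμ
  obtain ⟨hc, K0, G⟩ := hex_growth a ha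
  obtain ⟨W, -, hμ2⟩ := Pool.Agent.Y943.SL.wk_hex a ha μ hμ
  have hμ0 := W.hμ
  have hsq : μ ^ 2 = 2 + Real.sqrt 2 := by
    rw [hμ2, Real.sq_sqrt (by positivity)]
  have s1 : (1.4142 : ℝ) < Real.sqrt 2 := by
    rw [Real.lt_sqrt (by norm_num)]
    norm_num
  have s2 : Real.sqrt 2 < 1.4143 := by
    rw [Real.sqrt_lt' (by norm_num)]
    norm_num
  have hle : μ ≤ 2 := by nlinarith
  have h1 : 1 ≤ 2 / μ := (one_le_div hμ0).mpr hle
  refine ⟨hμ0, h1, ?_, K, mkSq W h h1 fun n hn => ?_⟩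
  · rw [div_pow, div_lt_iff₀ (by positivity), hsq]
    linarith
  · rw [div_mul_cancel₀ _ hμ0.ne']
    have h3 := X2.cc_step hn
    unfold X2.cc at h3
    rw [hc, hc] at h3
    exact h3

theorem sqr (a : ℕ → ℕ)
    (ha : ∀ n : ℕ, a n = Set.ncard {f : Fin (n + 1) → ℤ × ℤ |
            f 0 = 0 ∧ Function.Injective f ∧
            ∀ i : Fin n, (fun p q : ℤ × ℤ => |p.1 - q.1| + |p.2 - q.2| = 1) (f i.castSucc)
              (f i.succ)}) (μ : ℝ)
    (hμ : μ = (⨅ n : {n : ℕ // 1 ≤ n}, ((a n.1 : ℝ) ^ ((1 : ℝ) / (n.1 : ℝ))))) :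
    0 < μ ∧ 1 ≤ 3 / μ ∧ (3 / μ) ^ 2 < 1.53 ∧ ∃ K, V1.Sq (fun n => (a n : ℝ) / μ ^ n) K (3 / μ) := by
  obtain ⟨K, c, C, h⟩ := Pool.Agent.Y943.SL.hy_sq a ha μ hμ
  obtain ⟨W, hr⟩ := Pool.Agent.Y943.SL.wk_sq a ha μ hμ
  have hc : ∀ n, (a n : ℝ) = H981.cr' n := by
    intro n
    rw [H981.cr'_eq]
    congr 1
    rw [ha n, H981.C, ← Nat.card_coe_set_eq]
    refine Nat.card_congr (Equiv.subtypeEquivRight fun f => ?_)
    unfold H981.IsSAW
    constructor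
    · rintro ⟨h0, hi, hs⟩
      refine ⟨h0, fun i => ?_, hi⟩
      have := hs i
      simp only at this
      rw [abs_sub_comm, abs_sub_comm (f i.succ).2]
      exact this
    · rintro ⟨h0, hs, hi⟩
      refine ⟨h0, hi, fun i => ?_⟩
      have := hs i
      rw [abs_sub_comm, abs_sub_comm (f i.succ).2] at this
      exact this
  have h1 : μ = H981.mu := by
    refine tendsto_nhds_unique hr ?_
    simpa only [hc] using H981.tendsto_root
  have hμ0 := W.hμ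
  have m1 := mu_ge'
  have m2 := mu_le_three
  rw [← h1] at m1 m2
  have hb : 1 ≤ 3 / μ := (one_le_div hμ0).mpr m2
  refine ⟨hμ0, hb, ?_, K, mkSq W h hb fun n hn => ?_⟩
  · rw [div_pow, div_lt_iff₀ (by positivity)]
    nlinarith
  · rw [div_mul_cancel₀ _ hμ0.ne']
    have h3 := cN_succ_le hn
    rw [hc, hc, ← Pool.Agent.Y943.SL.card_SW, ← Pool.Agent.Y943.SL.card_SW]
    exact h3

end Pool.Agent.R956.V2
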