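import Pool.Agent.R956.K2
import Pool.Agent.R956.V2

/-!
# Numbers of self-avoiding walks: regularity from Kesten's inequality
-/

set_option autoImplicit false
set_option linter.unusedVariables false

namespace Pool.Agent.R956.K3

open Filter Topology
open Pool.Agent.R956.K1
open Pool.Agent.Y943.SL (Wk)

variable {c : ℕ → ℝ} {μ : ℝ}

theorem kc (W : Wk c μ) {p : ℕ} (hp : p ≤ 1) :
    ∃ D, Kc (fun k => c (2 * k + p) / μ ^ (2 * k + p)) D := by
  obtain ⟨D, hD, h⟩ := W.kes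
  obtain ⟨k0, hk⟩ := h p hp
  refine ⟨D, fun k => (W.pos _).le, Eventually.of_forall fun k => W.pos _, hD, ?_⟩
  filter_upwards [eventually_ge_atTop k0] with k hk0
  exact hk k hk0 (le_trans (pow_le_one₀ (by norm_num) (by norm_num)) (W.one_le _))

lemma par_iff {α : Type*} {g : ℕ → α} {l : Filter α} {p : ℕ} (hp : p ≤ 1) :
    Tendsto g (atTop ⊓ 𝓟 {n | n % 2 = p}) l ↔ Tendsto (fun k => g (2 * k + p)) atTop l := by
  constructor
  · intro h
    refine h.comp (tendsto_inf.mpr ⟨?_, ?_⟩)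
    · exact tendsto_atTop_mono (fun k => by simp only [id]; omega) tendsto_id
    · rw [tendsto_principal]
      exact Eventually.of_forall fun k => by simp only [Set.mem_setOf_eq]; omega
  · intro h U hU
    have h1 := h hU
    rw [mem_map, mem_atTop_sets] at h1
    obtain ⟨N, hN⟩ := h1
    rw [mem_map, mem_inf_principal, mem_atTop_sets]
    refine ⟨2 * N + p, fun n hn => ?_⟩
    simp only [Set.mem_setOf_eq, Set.mem_preimage]
    intro hnp
    have h2 := hN (n / 2) (by omega)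
    simp only [Set.mem_preimage] at h2
    rwa [show 2 * (n / 2) + p = n by omega] at h2

lemma two_pow_tend (p : ℕ) (a : ℝ) :
    Tendsto (fun k : ℕ => (((2 * k + p : ℕ) : ℝ) / k) ^ a) atTop (𝓝 (2 ^ a)) := by
  have h : Tendsto (fun k : ℕ => ((2 * k + p : ℕ) : ℝ) / k) atTop (𝓝 2) := by
    have h3 : Tendsto (fun n : ℕ => (2 : ℝ) + (p : ℝ) / n) atTop (𝓝 (2 + 0)) :=
      (tendsto_const_div_atTop_nhds_zero_nat (p : ℝ)).const_add 2
    rw [add_zero] at h3
    refine h3.congr' ?_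
    filter_upwards [eventually_gt_atTop 0] with n hn
    have : (n : ℝ) ≠ 0 := by exact_mod_cast (show n ≠ 0 by omega)
    push_cast
    field_simp
  exact h.rpow_const (Or.inl (by norm_num))

lemma change {y : ℝ} {p k : ℕ} (hk : 1 ≤ k) (a : ℝ) :
    y / (k : ℝ) ^ a = y / ((2 * k + p : ℕ) : ℝ) ^ a * (((2 * k + p : ℕ) : ℝ) / k) ^ a := by
  have h1 : (0 : ℝ) < k := by exact_mod_cast hk
  have h2 : (0 : ℝ) < ((2 * k + p : ℕ) : ℝ) := by exact_mod_cast (show 0 < 2 * k + p by omega)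
  rw [Real.div_rpow h2.le h1.le]
  have h3 := Real.rpow_pos_of_pos h1 a
  have h4 := Real.rpow_pos_of_pos h2 a
  field_simp

/-- **an asymptotic form along gaps `o(√n)` inside one parity class** -/
theorem form_one (W : Wk c μ) {p : ℕ} (hp : p ≤ 1) {S : Set ℕ} (hpar : ∀ m ∈ S, m % 2 = p)
    (hS : ∀ δ : ℝ, 0 < δ → ∀ᶠ n : ℕ in atTop, ∃ m ∈ S, n ≤ m ∧ (m : ℝ) ≤ n + δ * √(n : ℝ))
    {a A : ℝ} (hA : 0 < A)
    (h : Tendsto (fun n : ℕ => c n / μ ^ n / (n : ℝ) ^ a) (atTop ⊓ 𝓟 S) (𝓝 A)) :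
    Tendsto (fun n : ℕ => c n / μ ^ n / (n : ℝ) ^ a) (atTop ⊓ 𝓟 {n | n % 2 = p}) (𝓝 A) := by
  obtain ⟨D, K⟩ := kc W hp
  have ht : Tendsto (fun k : ℕ => 2 * k + p) atTop atTop :=
    tendsto_atTop_mono (fun k => by simp only [id]; omega) tendsto_id
  have h1 := K.form (S := {k | 2 * k + p ∈ S}) (a := a) (A := A * 2 ^ a) (fun δ hδ => by
    filter_upwards [ht.eventually (hS δ hδ), eventually_ge_atTop 1] with k hk hk1
    obtain ⟨m, hmS, hm2, hm3⟩ := hk
    have hmp := hpar m hmS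
    obtain ⟨j, hj⟩ : ∃ j, m = 2 * j + p := ⟨m / 2, by omega⟩
    subst hj
    refine ⟨j, hmS, by omega, ?_⟩
    have h5 : √((2 * k + p : ℕ) : ℝ) ≤ 2 * √(k : ℝ) := by
      rw [show (2 : ℝ) * √(k : ℝ) = √(4 * k) by
        rw [Real.sqrt_mul (by norm_num), show (4 : ℝ) = 2 ^ 2 by norm_num,
          Real.sqrt_sq (by norm_num)]]
      refine Real.sqrt_le_sqrt ?_
      exact_mod_cast (show 2 * k + p ≤ 4 * k by omega)
    have h6 := mul_le_mul_of_nonneg_left h5 hδ.le
    push_cast at hm3 h6 ⊢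
    linarith) (by positivity) (by
    have g1 : Tendsto (fun k : ℕ => 2 * k + p) (atTop ⊓ 𝓟 {k | 2 * k + p ∈ S}) (atTop ⊓ 𝓟 S) := by
      refine tendsto_inf.mpr ⟨ht.mono_left inf_le_left, ?_⟩
      rw [tendsto_principal, eventually_inf_principal]
      exact Eventually.of_forall fun k hk => hk
    have g2 := (h.comp g1).mul ((two_pow_tend p a).mono_left
      (inf_le_left : atTop ⊓ 𝓟 {k | 2 * k + p ∈ S} ≤ atTop))
    refine g2.congr' ?_
    have : ∀ᶠ k : ℕ in atTop, 1 ≤ k := eventually_ge_atTop 1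
    filter_upwards [this.filter_mono inf_le_left] with k hk
    rw [change (p := p) hk a]
    rfl)
  rw [par_iff hp]
  have h2 := h1.div (two_pow_tend p a) (by positivity)
  rw [mul_div_assoc, div_self (by positivity), mul_one] at h2
  refine h2.congr' ?_
  filter_upwards [eventually_ge_atTop 1] with k hk
  have h3 : (((2 * k + p : ℕ) : ℝ) / k) ^ a ≠ 0 := by
    have : (0 : ℝ) < k := by exact_mod_cast hk
    positivity
  show c (2 * k + p) / μ ^ (2 * k + p) / (k : ℝ) ^ a / (((2 * k + p : ℕ) : ℝ) / k) ^ a = _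
  rw [change (y := c (2 * k + p) / μ ^ (2 * k + p)) (p := p) hk a, mul_div_assoc, div_self h3,
    mul_one]

lemma two_ratio (W : Wk c μ) (n : ℕ) :
    c (n + 2) / c n - μ ^ 2 = μ ^ 2 * (c (n + 2) / μ ^ (n + 2) / (c n / μ ^ n) - 1) := by
  have h1 := (W.cpos n).ne'
  have h2 := (pow_pos W.hμ n).ne'
  have h3 := W.hμ.ne'
  rw [pow_add]
  field_simp

/-- **the ratios along a parity class with an asymptotic form** -/
theorem ratio_form (W : Wk c μ) {p : ℕ} (hp : p ≤ 1) {a A : ℝ} (hA : 0 < A)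
    (h : Tendsto (fun n : ℕ => c n / μ ^ n / (n : ℝ) ^ a) (atTop ⊓ 𝓟 {n | n % 2 = p}) (𝓝 A)) :
    Tendsto (fun n : ℕ => (c (n + 2) / c n - μ ^ 2) * √(n : ℝ)) (atTop ⊓ 𝓟 {n | n % 2 = p})
      (𝓝 0) := by
  obtain ⟨D, K⟩ := kc W hp
  rw [par_iff hp] at h ⊢
  have h1 := K.ratio_form (a := a) (A := A * 2 ^ a) (by positivity) (by
    refine (h.mul (two_pow_tend p a)).congr' ?_
    filter_upwards [eventually_ge_atTop 1] with k hk
    rw [← change (p := p) hk a])
  have h2 := two_pow_tend p (1 / 2)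
  have h3 := ((h1.mul h2).const_mul (μ ^ 2))
  rw [zero_mul, mul_zero] at h3
  refine h3.congr' ?_
  filter_upwards [eventually_ge_atTop 1] with k hk
  have hk0 : (0 : ℝ) < k := by exact_mod_cast hk
  have hs := Real.sqrt_pos.mpr hk0
  have e : (((2 * k + p : ℕ) : ℝ) / k) ^ (1 / 2 : ℝ) = √((2 * k + p : ℕ) : ℝ) / √(k : ℝ) := by
    rw [← Real.sqrt_eq_rpow, Real.sqrt_div (by positivity)]
  rw [two_ratio W, e, show 2 * (k + 1) + p = 2 * k + p + 2 by ring]
  field_simp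

lemma log_two_tend (p : ℕ) :
    Tendsto (fun k : ℕ => Real.log ((2 * k + p : ℕ) : ℝ) / Real.log k) atTop (𝓝 1) := by
  have h1 := (Real.continuousAt_log (show (2 : ℝ) ≠ 0 by norm_num)).tendsto.comp
    (show Tendsto (fun k : ℕ => ((2 * k + p : ℕ) : ℝ) / k) atTop (𝓝 2) by
      have := two_pow_tend p 1
      simpa using this)
  have h2 : Tendsto (fun k : ℕ => Real.log (k : ℝ)) atTop atTop :=
    Real.tendsto_log_atTop.comp tendsto_natCast_atTop_atTop
  have h3 := (h1.div_atTop h2).add_const 1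
  rw [zero_add] at h3
  refine h3.congr' ?_
  filter_upwards [eventually_ge_atTop 3] with k hk
  have hk0 : (0 : ℝ) < k := by exact_mod_cast (show 0 < k by omega)
  have hl := log_scale hk
  simp only [Function.comp_apply]
  rw [Real.log_div (by positivity) hk0.ne', sub_div, div_self (by linarith)]
  ring

/-- **the ratios when the exponent exists** -/
theorem ratio_expo (W : Wk c μ) {a : ℝ}
    (h : Tendsto (fun n : ℕ => Real.log (c n / μ ^ n) / Real.log n) atTop (𝓝 a)) :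
    Tendsto (fun n : ℕ => (c (n + 2) / c n - μ ^ 2) * √((n : ℝ) / Real.log n)) atTop (𝓝 0) := by
  have key : ∀ p : ℕ, p ≤ 1 → Tendsto (fun k : ℕ => (c (2 * k + p + 2) / c (2 * k + p) - μ ^ 2) *
      √(((2 * k + p : ℕ) : ℝ) / Real.log ((2 * k + p : ℕ) : ℝ))) atTop (𝓝 0) := by
    intro p hp
    obtain ⟨D, K⟩ := kc W hp
    have ht : Tendsto (fun k : ℕ => 2 * k + p) atTop atTop :=
      tendsto_atTop_mono (fun k => by simp only [id]; omega) tendsto_id
    have h1 := K.ratio_expo (a := a) (by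
      have g := (h.comp ht).mul (log_two_tend p)
      rw [mul_one] at g
      refine g.congr' ?_
      filter_upwards [eventually_ge_atTop 3] with k hk
      have hl : 0 < Real.log ((2 * k + p : ℕ) : ℝ) :=
        lt_of_lt_of_le one_pos (log_scale (show 3 ≤ 2 * k + p by omega))
      simp only [Function.comp_apply]
      rw [div_mul_div_cancel₀ hl.ne'])
    have h2 := h1.const_mul (2 * μ ^ 2)
    rw [mul_zero] at h2
    refine squeeze_zero_norm' ?_ (h2.abs.congr' (f₂ := fun k => |2 * μ ^ 2 *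
      ((c (2 * (k + 1) + p) / μ ^ (2 * (k + 1) + p) / (c (2 * k + p) / μ ^ (2 * k + p)) - 1) *
      √((k : ℝ) / Real.log k))|) (Eventually.of_forall fun k => rfl) |> fun h => by
        rwa [abs_zero] at h)
    filter_upwards [eventually_ge_atTop 3] with k hk
    have hk0 : (0 : ℝ) < k := by exact_mod_cast (show 0 < k by omega)
    have hl := log_scale hk
    have hl2 : Real.log k ≤ Real.log ((2 * k + p : ℕ) : ℝ) :=
      Real.log_le_log hk0 (by exact_mod_cast (show k ≤ 2 * k + p by omega))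
    have h5 : √(((2 * k + p : ℕ) : ℝ) / Real.log ((2 * k + p : ℕ) : ℝ)) ≤
        2 * √((k : ℝ) / Real.log k) := by
      rw [show (2 : ℝ) * √((k : ℝ) / Real.log k) = √(4 * ((k : ℝ) / Real.log k)) by
        rw [Real.sqrt_mul (by norm_num), show (4 : ℝ) = 2 ^ 2 by norm_num,
          Real.sqrt_sq (by norm_num)]]
      refine Real.sqrt_le_sqrt ?_
      rw [mul_div_assoc']
      exact div_le_div₀ (by positivity) (by exact_mod_cast (show 2 * k + p ≤ 4 * k by omega))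
        (by linarith) hl2
    rw [two_ratio W, show 2 * (k + 1) + p = 2 * k + p + 2 by ring, Real.norm_eq_abs, abs_mul,
      abs_mul, abs_mul, abs_mul, abs_mul, abs_of_nonneg (Real.sqrt_nonneg _),
      abs_of_nonneg (Real.sqrt_nonneg _), abs_of_pos (show (0 : ℝ) < 2 by norm_num)]
    have h6 : 0 ≤ |μ ^ 2| * |c (2 * k + p + 2) / μ ^ (2 * k + p + 2) /
        (c (2 * k + p) / μ ^ (2 * k + p)) - 1| := by positivity
    have h7 := mul_le_mul_of_nonneg_left h5 h6
    linarith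
  have k0 := (par_iff (g := fun n : ℕ => (c (n + 2) / c n - μ ^ 2) * √((n : ℝ) / Real.log n))
    (l := 𝓝 0) (p := 0) (by norm_num)).mpr (key 0 (by norm_num))
  have k1 := (par_iff (g := fun n : ℕ => (c (n + 2) / c n - μ ^ 2) * √((n : ℝ) / Real.log n))
    (l := 𝓝 0) (p := 1) le_rfl).mpr (key 1 le_rfl)
  have h2 := k0.sup k1
  rw [← inf_sup_left, sup_principal] at h2
  have e : ({n : ℕ | n % 2 = 0} ∪ {n | n % 2 = 1}) = Set.univ := by
    ext n
    simp only [Set.mem_union, Set.mem_setOf_eq, Set.mem_univ, iff_true]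
    omega
  rw [e, principal_univ, inf_top_eq] at h2
  exact h2

lemma pw {x a : ℝ} (h1 : 1 ≤ x) (h3 : x ≤ 3) :
    (3 : ℝ) ^ (-|a|) ≤ x ^ a ∧ x ^ a ≤ (3 : ℝ) ^ |a| := by
  have hx : 0 < x := by linarith
  constructor
  · calc (3 : ℝ) ^ (-|a|) ≤ x ^ (-|a|) :=
          Real.rpow_le_rpow_of_nonpos hx h3 (by have := abs_nonneg a; linarith)
      _ ≤ x ^ a := Real.rpow_le_rpow_of_exponent_le h1 (neg_abs_le a)
  · calc x ^ a ≤ x ^ |a| := Real.rpow_le_rpow_of_exponent_le h1 (le_abs_self a)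
      _ ≤ (3 : ℝ) ^ |a| := Real.rpow_le_rpow hx.le h3 (abs_nonneg a)

/-- **two-sided bounds along gaps `O(√n)` of any parities** -/
theorem bounds (W : Wk c μ) {S : Set ℕ} {δ : ℝ} (hδ : 0 < δ)
    (hS : ∀ᶠ n : ℕ in atTop, ∃ m ∈ S, n ≤ m ∧ (m : ℝ) ≤ n + δ * √(n : ℝ)) {a A B : ℝ}
    (hA : 0 < A)
    (h : ∀ᶠ n : ℕ in atTop, n ∈ S → A ≤ c n / μ ^ n / (n : ℝ) ^ a ∧
      c n / μ ^ n / (n : ℝ) ^ a ≤ B) :
    ∃ A' B' : ℝ, 0 < A' ∧ 0 < B' ∧ ∀ᶠ n : ℕ in atTop,
      A' ≤ c n / μ ^ n / (n : ℝ) ^ a ∧ c n / μ ^ n / (n : ℝ) ^ a ≤ B' := by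
  obtain ⟨D, K⟩ := kc W (show 0 ≤ 1 by norm_num)
  simp only [add_zero] at K
  obtain ⟨B0, hB0⟩ := W.par
  obtain ⟨r, hr⟩ : ∃ r : ℕ → ℝ, r = fun n => c n / μ ^ n := ⟨_, rfl⟩
  have hrp : ∀ n, 0 < r n := fun n => by rw [hr]; exact W.pos n
  have hstep : ∀ n, 1 ≤ n → r n ≤ Real.exp B0 * r (n + 1) ∧ r (n + 1) ≤ Real.exp B0 * r n := by
    intro n hn
    have h1 := hB0 n hn
    rw [abs_le] at h1
    have p0 := hrp n
    have p1 := hrp (n + 1)
    constructor
    · rw [← Real.log_le_log_iff p0 (by positivity), Real.log_mul (Real.exp_pos _).ne' p1.ne',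
        Real.log_exp, hr]
      simp only
      linarith [h1.1]
    · rw [← Real.log_le_log_iff p1 (by positivity), Real.log_mul (Real.exp_pos _).ne' p0.ne',
        Real.log_exp, hr]
      simp only
      linarith [h1.2]
  have hB1 : 0 ≤ B0 := (abs_nonneg _).trans (hB0 1 le_rfl)
  obtain ⟨e0, he0⟩ : ∃ e0, e0 = Real.exp B0 := ⟨_, rfl⟩
  have he1 : 1 ≤ e0 := by rw [he0]; exact Real.one_le_exp hB1
  rw [← he0] at hstep
  obtain ⟨q, hq⟩ : ∃ q : ℝ, q = (3 : ℝ) ^ |a| := ⟨_, rfl⟩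
  have hq1 : 1 ≤ q := by rw [hq]; exact Real.one_le_rpow (by norm_num) (abs_nonneg a)
  have hq0 : 0 < q := by linarith
  -- comparison of `n` and `n / 2`
  have cmp : ∀ n k : ℕ, 1 ≤ k → k = n / 2 →
      (r (2 * k) / (k : ℝ) ^ a ≤ e0 * q * (r n / (n : ℝ) ^ a)) ∧
      (r n / (n : ℝ) ^ a ≤ e0 * q * (r (2 * k) / (k : ℝ) ^ a)) := by
    intro n k hk hkn
    have hk0 : (0 : ℝ) < k := by exact_mod_cast hk
    have hn0 : (0 : ℝ) < n := by exact_mod_cast (show 0 < n by omega)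
    have hx1 : (1 : ℝ) ≤ (n : ℝ) / k := by
      rw [one_le_div hk0]
      exact_mod_cast (show k ≤ n by omega)
    have hx3 : (n : ℝ) / k ≤ 3 := by
      rw [div_le_iff₀ hk0]
      exact_mod_cast (show n ≤ 3 * k by omega)
    obtain ⟨w1, w2⟩ := pw (a := a) hx1 hx3
    rw [Real.rpow_neg (by norm_num), ← hq, Real.div_rpow hn0.le hk0.le] at w1
    rw [← hq, Real.div_rpow hn0.le hk0.le] at w2
    have ka := Real.rpow_pos_of_pos hk0 a
    have na := Real.rpow_pos_of_pos hn0 a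
    rw [div_le_iff₀ ka] at w2
    rw [le_div_iff₀ ka, inv_mul_le_iff₀ hq0] at w1
    have hrr : r (2 * k) ≤ e0 * r n ∧ r n ≤ e0 * r (2 * k) := by
      rcases (show n = 2 * k ∨ n = 2 * k + 1 by omega) with h | h
      · rw [h]
        have := hrp (2 * k)
        constructor <;> nlinarith
      · rw [h]
        exact hstep (2 * k) (by omega)
    have p0 := hrp n
    have p1 := hrp (2 * k)
    constructor
    · rw [div_le_iff₀ ka]
      calc r (2 * k) ≤ e0 * r n := hrr.1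
        _ = e0 * (r n / (n : ℝ) ^ a) * (n : ℝ) ^ a := by field_simp
        _ ≤ e0 * (r n / (n : ℝ) ^ a) * (q * (k : ℝ) ^ a) := by gcongr
        _ = _ := by ring
    · rw [div_le_iff₀ na]
      calc r n ≤ e0 * r (2 * k) := hrr.2
        _ = e0 * (r (2 * k) / (k : ℝ) ^ a) * (k : ℝ) ^ a := by field_simp
        _ ≤ e0 * (r (2 * k) / (k : ℝ) ^ a) * (q * (n : ℝ) ^ a) := by gcongr
        _ = _ := by ring
  have ht : Tendsto (fun k : ℕ => 2 * k) atTop atTop :=
    tendsto_atTop_mono (fun k => by simp only [id]; omega) tendsto_id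
  have heq : 0 < e0 * q := by positivity
  obtain ⟨A', B', hA', hB', hAB⟩ := K.bounds (S := {k | ∃ m ∈ S, k = m / 2}) (δ := δ) hδ (by
    filter_upwards [ht.eventually hS, eventually_ge_atTop 1] with k hk hk1
    obtain ⟨m, hmS, hm2, hm3⟩ := hk
    refine ⟨m / 2, ⟨m, hmS, rfl⟩, by omega, ?_⟩
    have h4 : ((m / 2 : ℕ) : ℝ) ≤ (m : ℝ) / 2 := Nat.cast_div_le
    have h5 : √((2 * k : ℕ) : ℝ) ≤ 2 * √(k : ℝ) := by
      rw [show (2 : ℝ) * √(k : ℝ) = √(4 * k) by
        rw [Real.sqrt_mul (by norm_num), show (4 : ℝ) = 2 ^ 2 by norm_num,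
          Real.sqrt_sq (by norm_num)]]
      refine Real.sqrt_le_sqrt ?_
      exact_mod_cast (show 2 * k ≤ 4 * k by omega)
    have h6 := mul_le_mul_of_nonneg_left h5 hδ.le
    push_cast at hm3 h6
    linarith) (a := a) (A := A / (e0 * q)) (B := e0 * q * B) (by positivity) (by
    obtain ⟨N, hN⟩ := eventually_atTop.1 h
    filter_upwards [eventually_ge_atTop (N + 1)] with k hk hkS
    obtain ⟨m, hmS, hkm⟩ := hkS
    obtain ⟨g1, g2⟩ := hN m (by omega) hmS
    obtain ⟨g3, g4⟩ := cmp m k (by omega) hkm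
    have e1 : r m = c m / μ ^ m := by rw [hr]
    have e2 : r (2 * k) = c (2 * k) / μ ^ (2 * k) := by rw [hr]
    rw [← e1] at g1 g2
    rw [← e2]
    constructor
    · rw [div_le_iff₀ heq]
      linarith
    · refine g3.trans ?_
      exact mul_le_mul_of_nonneg_left g2 heq.le)
  refine ⟨A' / (e0 * q), e0 * q * B', by positivity, by positivity, ?_⟩
  obtain ⟨N, hN⟩ := eventually_atTop.1 hAB
  filter_upwards [eventually_ge_atTop (2 * N + 2)] with n hn
  obtain ⟨g1, g2⟩ := hN (n / 2) (by omega)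
  obtain ⟨g3, g4⟩ := cmp n (n / 2) (by omega) rfl
  have e1 : r n = c n / μ ^ n := by rw [hr]
  have e2 : r (2 * (n / 2)) = c (2 * (n / 2)) / μ ^ (2 * (n / 2)) := by rw [hr]
  rw [← e2] at g1 g2
  rw [← e1]
  constructor
  · rw [div_le_iff₀ heq]
    linarith
  · refine g4.trans ?_
    exact mul_le_mul_of_nonneg_left g2 heq.le

end Pool.Agent.R956.K3
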