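import Pool.Agent.R956.K3

/-!
# The other parity class
-/

set_option autoImplicit false
set_option linter.unusedVariables false

namespace Pool.Agent.R956.K4

open Filter Topology

lemma shift_tend (a : ℝ) : Tendsto (fun n : ℕ => (((n : ℝ) + 1) / n) ^ a) atTop (𝓝 1) := by
  have h : Tendsto (fun n : ℕ => ((n : ℝ) + 1) / n) atTop (𝓝 1) := by
    have h3 : Tendsto (fun n : ℕ => (1 : ℝ) + 1 / (n : ℝ)) atTop (𝓝 (1 + 0)) :=
      (tendsto_const_div_atTop_nhds_zero_nat (1 : ℝ)).const_add 1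
    rw [add_zero] at h3
    refine h3.congr' ?_
    filter_upwards [eventually_gt_atTop 0] with n hn
    have : (n : ℝ) ≠ 0 := by exact_mod_cast (show n ≠ 0 by omega)
    field_simp
  have := h.rpow_const (p := a) (Or.inl one_ne_zero)
  rwa [Real.one_rpow] at this

/-- an asymptotic form along one parity class gives bounds for the other one -/
theorem other {r : ℕ → ℝ} (hr : ∀ n, 0 < r n) {β : ℝ} (hβ : 1 ≤ β)
    (hs : ∀ ε : ℝ, 0 < ε → ∀ᶠ n in atTop, r (n + 1) ≤ (β + ε) * r n ∧ r n ≤ (β + ε) * r (n + 1))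
    {p : ℕ} (hp : p ≤ 1) {a A : ℝ} (hA : 0 < A)
    (h : Tendsto (fun n : ℕ => r n / (n : ℝ) ^ a) (atTop ⊓ 𝓟 {n | n % 2 = p}) (𝓝 A)) {ε : ℝ}
    (hε : 0 < ε) :
    ∀ᶠ n : ℕ in atTop, A / (β + ε) ≤ r n / (n : ℝ) ^ a ∧ r n / (n : ℝ) ^ a ≤ (β + ε) * A := by
  obtain ⟨η, hη, hη2⟩ : ∃ η : ℝ, 0 < η ∧ (β + η) * ((1 + η) * (1 + η)) ≤ β + ε := by
    have hc : Tendsto (fun η : ℝ => (β + η) * ((1 + η) * (1 + η))) (𝓝 0)
        (𝓝 ((β + 0) * ((1 + 0) * (1 + 0)))) :=
      Continuous.tendsto (by fun_prop) 0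
    have h1 : ∀ᶠ η : ℝ in 𝓝 0, (β + η) * ((1 + η) * (1 + η)) < β + ε :=
      hc.eventually_lt_const (by linarith)
    have h2 : ∀ᶠ η : ℝ in 𝓝[>] 0, (β + η) * ((1 + η) * (1 + η)) < β + ε :=
      h1.filter_mono nhdsWithin_le_nhds
    obtain ⟨η, h3, h4⟩ := (h2.and self_mem_nhdsWithin).exists
    exact ⟨η, h4, h3.le⟩
  have h1 : ∀ᶠ n : ℕ in atTop, n % 2 = p → A / (1 + η) < r n / (n : ℝ) ^ a ∧
      r n / (n : ℝ) ^ a < (1 + η) * A := by
    have u1 := h.eventually_const_lt (show A / (1 + η) < A by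
      rw [div_lt_iff₀ (by linarith)]; nlinarith)
    have u2 := h.eventually_lt_const (show A < (1 + η) * A by nlinarith)
    have u3 := u1.and u2
    rw [eventually_inf_principal] at u3
    exact u3
  have h2 : ∀ᶠ n : ℕ in atTop, 1 / (1 + η) < (((n : ℝ) + 1) / n) ^ a ∧
      (((n : ℝ) + 1) / n) ^ a < 1 + η := by
    have u1 := (shift_tend a).eventually_const_lt (show 1 / (1 + η) < 1 by
      rw [div_lt_iff₀ (by linarith)]; linarith)
    have u2 := (shift_tend a).eventually_lt_const (show 1 < 1 + η by linarith)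
    exact u1.and u2
  have h3 : ∀ᶠ n : ℕ in atTop, (n + 1) % 2 = p → A / (1 + η) < r (n + 1) / ((n + 1 : ℕ) : ℝ) ^ a ∧
      r (n + 1) / ((n + 1 : ℕ) : ℝ) ^ a < (1 + η) * A :=
    (tendsto_add_atTop_nat 1).eventually h1
  filter_upwards [h1, h2, h3, hs η hη, eventually_ge_atTop 1] with n g1 g2 g3 g4 hn
  have hn0 : (0 : ℝ) < n := by exact_mod_cast hn
  have hb : 1 + η ≤ β + ε := by
    refine le_trans ?_ hη2
    have : 1 ≤ β + η := by linarith
    have : (1 + η) ≤ (1 + η) * (1 + η) := by nlinarith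
    nlinarith
  rcases (show n % 2 = p ∨ (n + 1) % 2 = p by omega) with hc | hc
  · obtain ⟨k1, k2⟩ := g1 hc
    constructor
    · refine le_trans ?_ k1.le
      exact div_le_div_of_nonneg_left hA.le (by linarith) hb
    · refine k2.le.trans ?_
      gcongr
  · obtain ⟨k1, k2⟩ := g3 hc
    have p0 := hr n
    have p1 := hr (n + 1)
    have hn1 : (0 : ℝ) < ((n + 1 : ℕ) : ℝ) := by positivity
    obtain ⟨G, hG⟩ : ∃ G, G = r (n + 1) / ((n + 1 : ℕ) : ℝ) ^ a := ⟨_, rfl⟩
    obtain ⟨w, hw⟩ : ∃ w, w = (((n : ℝ) + 1) / n) ^ a := ⟨_, rfl⟩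
    rw [← hG] at k1 k2
    rw [← hw] at g2
    have hw0 : 0 < w := by rw [hw]; positivity
    have hG0 : 0 < G := by rw [hG]; positivity
    have e : ∀ x : ℝ, x / (n : ℝ) ^ a = x / r (n + 1) * (G * w) := by
      intro x
      rw [hG, hw, Real.div_rpow (by positivity) hn0.le]
      push_cast
      have := Real.rpow_pos_of_pos hn0 a
      have : 0 < ((n : ℝ) + 1) ^ a := by positivity
      field_simp
    have q1 : r n / r (n + 1) ≤ β + η := by
      rw [div_le_iff₀ p1]; exact g4.2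
    have q2 : 1 / (β + η) ≤ r n / r (n + 1) := by
      rw [div_le_div_iff₀ (by linarith) p1]
      linarith [g4.1]
    rw [e]
    constructor
    · have m1 : A / (1 + η) * (1 / (1 + η)) ≤ G * w :=
        mul_le_mul k1.le g2.1.le (by positivity) hG0.le
      have m2 : 1 / (β + η) * (A / (1 + η) * (1 / (1 + η))) ≤ r n / r (n + 1) * (G * w) :=
        mul_le_mul q2 m1 (by positivity) (by positivity)
      refine le_trans ?_ m2
      have e2 : 1 / (β + η) * (A / (1 + η) * (1 / (1 + η))) =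
          A / ((β + η) * ((1 + η) * (1 + η))) := by
        field_simp
      rw [e2]
      exact div_le_div_of_nonneg_left hA.le (by positivity) hη2
    · have m1 : G * w ≤ (1 + η) * A * (1 + η) :=
        mul_le_mul k2.le g2.2.le hw0.le (by positivity)
      have m2 : r n / r (n + 1) * (G * w) ≤ (β + η) * ((1 + η) * A * (1 + η)) :=
        mul_le_mul q1 m1 (by positivity) (by linarith)
      refine m2.trans ?_
      calc (β + η) * ((1 + η) * A * (1 + η)) = (β + η) * ((1 + η) * (1 + η)) * A := by ring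
        _ ≤ (β + ε) * A := by gcongr

end Pool.Agent.R956.K4
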