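import Pool.Agent.TH966.KS.Samp

/-!
# Sequences with Kesten's inequality: sampling and increments
-/

set_option autoImplicit false
set_option linter.unusedVariables false

namespace Pool.Agent.R956.K1

open Filter Topology TH966.KS

/-- a nonnegative sequence with Kesten's inequality -/
structure Kc (y : ℕ → ℝ) (D : ℝ) : Prop where
  nonneg : ∀ k, 0 ≤ y k
  pos : ∀ᶠ k in atTop, 0 < y k
  D0 : 0 ≤ D
  kes : ∀ᶠ k : ℕ in atTop, y (k + 1) ^ 2 ≤ y k * y (k + 2) * (1 + D / k)

/-- a scale of errors -/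
structure Sc (E : ℕ → ℝ) : Prop where
  one_le : ∀ n, 1 ≤ n → 1 ≤ E n
  mono : Monotone E
  two : ∀ n, 1 ≤ n → E (2 * n) ≤ 2 * E n
  small : Tendsto (fun n : ℕ => E n / n) atTop (𝓝 0)

lemma sc_one : Sc (fun _ => 1) :=
  ⟨fun _ _ => le_rfl, monotone_const, fun _ _ => by norm_num,
    tendsto_const_div_atTop_nhds_zero_nat 1⟩

lemma log_over : Tendsto (fun n : ℕ => Real.log (n : ℝ) / n) atTop (𝓝 0) :=
  (Real.isLittleO_log_id_atTop.tendsto_div_nhds_zero).comp tendsto_natCast_atTop_atTop

lemma sc_log : Sc (fun n => 1 + Real.log n) := by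
  refine ⟨fun n _ => ?_, ?_, fun n hn => ?_, ?_⟩
  · have := Real.log_natCast_nonneg n
    linarith
  · intro m n hmn
    rcases Nat.eq_zero_or_pos m with h0 | h0
    · subst h0
      have := Real.log_natCast_nonneg n
      simpa using this
    · have : Real.log m ≤ Real.log n :=
        Real.log_le_log (by exact_mod_cast h0) (by exact_mod_cast hmn)
      simpa using this
  · have hn0 : (0 : ℝ) < n := by exact_mod_cast hn
    have h1 := Real.log_natCast_nonneg n
    push_cast
    rw [Real.log_mul (by norm_num) hn0.ne']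
    have := Real.log_two_lt_d9
    linarith
  · have h := (tendsto_const_div_atTop_nhds_zero_nat (1 : ℝ)).add log_over
    rw [add_zero] at h
    refine h.congr fun n => ?_
    rw [add_div]

variable {y : ℕ → ℝ} {D : ℝ} {E : ℕ → ℝ}

lemma psi_diff (a b : ℝ) {m n : ℕ} (hm : 1 ≤ m) (hmn : m ≤ n) :
    |(a * Real.log n + b) - (a * Real.log m + b)| ≤ |a| * ((n : ℝ) - m) / m := by
  have hm0 : (0 : ℝ) < m := by exact_mod_cast (show 0 < m by omega)
  have hmn' : (m : ℝ) ≤ n := by exact_mod_cast hmn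
  have hn0 : (0 : ℝ) < n := by linarith
  have h1 : (a * Real.log n + b) - (a * Real.log m + b) = a * Real.log ((n : ℝ) / m) := by
    rw [Real.log_div hn0.ne' hm0.ne']
    ring
  rw [h1, abs_mul, mul_div_assoc]
  refine mul_le_mul_of_nonneg_left ?_ (abs_nonneg _)
  have h2 : 0 ≤ Real.log ((n : ℝ) / m) := Real.log_nonneg ((one_le_div hm0).2 hmn')
  rw [abs_of_nonneg h2]
  refine (Real.log_le_sub_one_of_pos (div_pos hn0 hm0)).trans ?_
  rw [div_sub_one hm0.ne']

lemma psi_zero (a b : ℝ) : Tendsto (fun n : ℕ => (a * Real.log n + b) / n) atTop (𝓝 0) := by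
  have h := (log_over.const_mul a).add (tendsto_const_div_atTop_nhds_zero_nat b)
  rw [mul_zero, zero_add] at h
  refine h.congr fun n => ?_
  rw [add_div, mul_div_assoc]

/-- **sampling** -/
theorem Kc.samp (K : Kc y D) (hE : Sc E) {S : Set ℕ} {τ δ : ℝ} (hτ : 0 < τ) (hδ : 0 < δ)
    (a b : ℝ) (hS : ∀ᶠ n : ℕ in atTop, ∃ k ∈ S, n ≤ k ∧ (k : ℝ) ≤ n + δ * √(n * E n))
    (hy : ∀ᶠ k : ℕ in atTop, k ∈ S → |Real.log (y k) - (a * Real.log k + b)| ≤ τ * E k) :
    ∀ᶠ n : ℕ in atTop, |Real.log (y n) - (a * Real.log n + b)| ≤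
      (9 * τ + 384 * D * δ ^ 2) * E n := by
  obtain ⟨k0, hk0⟩ := eventually_atTop.1 K.kes
  have hK : Kes y D (1 / 2) k0 := fun k hk _ => hk0 k hk
  have h := step (ψ := fun n => a * Real.log n + b) hK K.nonneg K.D0 (by norm_num) (by norm_num)
    hE.one_le hE.mono hE.two hE.small hτ hδ (abs_nonneg a)
    (fun m n hm hmn => psi_diff a b hm hmn) (psi_zero a b) hS (by
      filter_upwards [hy, K.pos] with k h1 h2 h3
      exact ⟨h2, h1 h3⟩)
  filter_upwards [h] with n hn
  exact hn.2

/-- **sampling with small errors** -/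
theorem Kc.samp0 (K : Kc y D) (hE : Sc E) {S : Set ℕ} (a b : ℝ)
    (hS : ∀ δ : ℝ, 0 < δ → ∀ᶠ n : ℕ in atTop, ∃ k ∈ S, n ≤ k ∧ (k : ℝ) ≤ n + δ * √(n * E n))
    (hy : ∀ τ : ℝ, 0 < τ → ∀ᶠ k : ℕ in atTop, k ∈ S →
      |Real.log (y k) - (a * Real.log k + b)| ≤ τ * E k) (ε : ℝ) (hε : 0 < ε) :
    ∀ᶠ n : ℕ in atTop, |Real.log (y n) - (a * Real.log n + b)| ≤ ε * E n := by
  have hD := K.D0
  have hδ : 0 < √(ε / (2 * (384 * D + 1))) := Real.sqrt_pos.2 (by positivity)
  have h := K.samp hE (τ := ε / 18) (by positivity) hδ a b (hS _ hδ) (hy _ (by positivity))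
  filter_upwards [h, eventually_ge_atTop 1] with n hn hn1
  refine hn.trans ?_
  have hE0 : 0 ≤ E n := zero_le_one.trans (hE.one_le n hn1)
  refine mul_le_mul_of_nonneg_right ?_ hE0
  rw [Real.sq_sqrt (by positivity)]
  have h7 : 384 * D * (ε / (2 * (384 * D + 1))) ≤ ε / 2 := by
    rw [mul_div_assoc', div_le_div_iff₀ (by positivity) (by norm_num)]
    nlinarith
  linarith

/-- the logarithms are nearly convex -/
lemma Kc.conv (K : Kc y D) : ∀ᶠ k : ℕ in atTop,
    2 * Real.log (y (k + 1)) ≤ Real.log (y k) + Real.log (y (k + 2)) + D / k := by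
  have h1 : ∀ᶠ k : ℕ in atTop, 0 < y (k + 1) := (tendsto_add_atTop_nat 1).eventually K.pos
  have h2 : ∀ᶠ k : ℕ in atTop, 0 < y (k + 2) := (tendsto_add_atTop_nat 2).eventually K.pos
  filter_upwards [K.kes, K.pos, h1, h2, eventually_ge_atTop 1] with k hk p0 p1 p2 hk1
  have hk0 : (0 : ℝ) < k := by exact_mod_cast hk1
  have hD := K.D0
  have h3 := Real.log_le_log (by positivity) hk
  rw [Real.log_pow, Real.log_mul (by positivity) (by positivity),
    Real.log_mul (by positivity) (by positivity)] at h3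
  have h4 := Real.log_le_sub_one_of_pos (show (0 : ℝ) < 1 + D / k by positivity)
  push_cast at h3
  linarith

/-- **the increments**: if `log (y n) = a log n + b + o(E n)` then the increments of `log y` are
`o(√(E n / n))` -/
theorem Kc.incr (K : Kc y D) (hE : Sc E) (a b : ℝ)
    (hy : ∀ τ : ℝ, 0 < τ → ∀ᶠ n : ℕ in atTop,
      |Real.log (y n) - (a * Real.log n + b)| ≤ τ * E n) (ε : ℝ) (hε : 0 < ε) :
    ∀ᶠ n : ℕ in atTop, |Real.log (y (n + 1)) - Real.log (y n)| ≤ ε * √(E n / n) := by
  have hD := K.D0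
  obtain ⟨l, hl⟩ : ∃ l : ℕ → ℝ, l = fun n => Real.log (y n) := ⟨_, rfl⟩
  obtain ⟨η, hη⟩ : ∃ η : ℝ, η = ε / (16 * (D + 1)) := ⟨_, rfl⟩
  have hη0 : 0 < η := by rw [hη]; positivity
  obtain ⟨τ, hτ⟩ : ∃ τ : ℝ, τ = ε * η / 16 := ⟨_, rfl⟩
  have hτ0 : 0 < τ := by rw [hτ]; positivity
  obtain ⟨N1, hN1⟩ := eventually_atTop.1 (K.conv)
  obtain ⟨N2, hN2⟩ := eventually_atTop.1 (hy τ hτ0)
  -- the two estimates from near-convexity
  have up : ∀ n : ℕ, N1 + 1 ≤ n → ∀ t : ℕ,
      t * (l (n + 1) - l n) ≤ l (n + t) - l n + D * (t : ℝ) ^ 2 / n := by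
    intro n hn t
    have hn0 : (0 : ℝ) < n := by exact_mod_cast (show 0 < n by omega)
    have hinc : ∀ i : ℕ, l (n + 1) - l n ≤ l (n + i + 1) - l (n + i) + i * (D / n) := by
      intro i
      induction i with
      | zero => simp
      | succ i ih =>
        have h1 := hN1 (n + i) (by omega)
        rw [hl] at ih ⊢
        have h2 : D / ((n + i : ℕ) : ℝ) ≤ D / n := by
          apply div_le_div_of_nonneg_left hD hn0
          push_cast
          have : (0 : ℝ) ≤ i := Nat.cast_nonneg i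
          linarith
        rw [show n + (i + 1) + 1 = n + i + 2 by ring, show n + (i + 1) = n + i + 1 by ring]
        push_cast
        simp only at ih h1 ⊢
        linarith
    induction t with
    | zero => simp
    | succ t ih =>
      have h1 := hinc t
      rw [show n + (t + 1) = n + t + 1 by ring]
      push_cast
      have h3 : D * (t : ℝ) ^ 2 / n + t * (D / n) ≤ D * ((t : ℝ) + 1) ^ 2 / n := by
        rw [mul_div_assoc', ← add_div]
        apply div_le_div_of_nonneg_right _ hn0.le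
        have : (0 : ℝ) ≤ t := Nat.cast_nonneg t
        nlinarith
      linarith
  have dn : ∀ n t : ℕ, N1 + 1 + t ≤ n →
      l n - l (n - t) ≤ t * (l (n + 1) - l n) + D * (t : ℝ) ^ 2 / ((n : ℝ) - t) := by
    intro n t hn
    obtain ⟨m, rfl⟩ : ∃ m, n = m + t := ⟨n - t, by omega⟩
    have hm : N1 + 1 ≤ m := by omega
    have hm0 : (0 : ℝ) < m := by exact_mod_cast (show 0 < m by omega)
    rw [Nat.add_sub_cancel]
    have e : ((m + t : ℕ) : ℝ) - t = m := by push_cast; ring
    rw [e]
    have hinc : ∀ j i : ℕ, l (m + i + 1) - l (m + i) ≤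
        l (m + i + j + 1) - l (m + i + j) + j * (D / m) := by
      intro j i
      induction j with
      | zero => simp
      | succ j ih =>
        have h1 := hN1 (m + i + j) (by omega)
        rw [hl] at ih ⊢
        have h2 : D / ((m + i + j : ℕ) : ℝ) ≤ D / m := by
          apply div_le_div_of_nonneg_left hD hm0
          push_cast
          have : (0 : ℝ) ≤ i := Nat.cast_nonneg i
          have : (0 : ℝ) ≤ j := Nat.cast_nonneg j
          linarith
        rw [show m + i + (j + 1) + 1 = m + i + j + 2 by ring,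
          show m + i + (j + 1) = m + i + j + 1 by ring]
        push_cast
        simp only at ih h1 ⊢
        linarith
    -- sum of the increments
    have hsum : ∀ i : ℕ, i ≤ t → l (m + i) - l m ≤
        i * (l (m + t + 1) - l (m + t)) + i * (t * (D / m)) := by
      intro i
      induction i with
      | zero => intro _; simp
      | succ i ih =>
        intro hi
        have h1 := ih (by omega)
        have h2 := hinc (t - i) i
        rw [show m + i + (t - i) = m + t by omega] at h2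
        have h3 : ((t - i : ℕ) : ℝ) * (D / m) ≤ t * (D / m) := by
          apply mul_le_mul_of_nonneg_right _ (by positivity)
          exact_mod_cast Nat.sub_le t i
        rw [show m + (i + 1) = m + i + 1 by ring]
        push_cast
        linarith
    have h := hsum t le_rfl
    have e2 : (t : ℝ) * (t * (D / m)) = D * (t : ℝ) ^ 2 / m := by ring
    rw [e2] at h
    exact h
  -- large `n`
  have ev1 : ∀ᶠ n : ℕ in atTop, E n / n < (1 / (4 * (η + 1))) ^ 2 :=
    hE.small.eventually_lt_const (by positivity)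
  have ev2 : ∀ᶠ n : ℕ in atTop, (4 * |a| / ε) ^ 2 + 1 / η ^ 2 ≤ (n : ℝ) :=
    tendsto_natCast_atTop_atTop.eventually_ge_atTop _
  filter_upwards [ev1, ev2, eventually_ge_atTop (2 * N1 + 2 * N2 + 8)] with n g1 g2 hn
  have hn0 : (0 : ℝ) < n := by exact_mod_cast (show 0 < n by omega)
  have hE1 := hE.one_le n (by omega)
  have hE0 : 0 < E n := by linarith
  obtain ⟨q, hq⟩ : ∃ q : ℝ, q = √(E n / n) := ⟨_, rfl⟩
  have hq0 : 0 < q := by rw [hq]; exact Real.sqrt_pos.2 (by positivity)
  have hqq : q ^ 2 = E n / n := by rw [hq, Real.sq_sqrt (by positivity)]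
  have hq1 : q < 1 / (4 * (η + 1)) := by
    rw [← hqq] at g1
    exact lt_of_pow_lt_pow_left₀ 2 (by positivity) g1
  -- `t ≈ η q n`
  obtain ⟨t, ht⟩ : ∃ t : ℕ, t = ⌈η * q * n⌉₊ := ⟨_, rfl⟩
  have ht1 : η * q * n ≤ t := by rw [ht]; exact Nat.le_ceil _
  have ht2 : (t : ℝ) < η * q * n + 1 := by rw [ht]; exact Nat.ceil_lt_add_one (by positivity)
  have hqn : 1 ≤ η * q * n := by
    have h1 : 1 / n ≤ q ^ 2 := by
      rw [hqq]
      exact div_le_div_of_nonneg_right hE1 hn0.le
    have h2 : 1 / η ^ 2 ≤ n := by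
      have : 0 ≤ (4 * |a| / ε) ^ 2 := by positivity
      linarith
    have h3 : 1 ≤ (η * q * n) ^ 2 := by
      have e : (η * q * n) ^ 2 = η ^ 2 * (q ^ 2 * n) * n := by ring
      rw [e]
      have h4 : 1 ≤ q ^ 2 * n := by
        rw [div_le_iff₀ hn0] at h1
        exact h1
      have h5 : 1 ≤ η ^ 2 * n := by
        rw [div_le_iff₀ (by positivity)] at h2
        linarith
      calc (1 : ℝ) ≤ η ^ 2 * n := h5
        _ = η ^ 2 * 1 * n := by ring
        _ ≤ η ^ 2 * (q ^ 2 * n) * n := by gcongr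
    have h6 : 0 ≤ η * q * n := by positivity
    exact (one_le_sq_iff₀ h6).mp h3
  have ht0 : (0 : ℝ) < t := by linarith
  have ht3 : (t : ℝ) ≤ 2 * (η * q * n) := by linarith
  have htn : (t : ℝ) ≤ n / 2 := by
    have h1 : η * q ≤ 1 / 4 := by
      calc η * q ≤ η * (1 / (4 * (η + 1))) := by gcongr
        _ ≤ 1 / 4 := by
          rw [mul_one_div, div_le_div_iff₀ (by positivity) (by norm_num)]
          linarith
    calc (t : ℝ) ≤ 2 * (η * q * n) := ht3
      _ = 2 * (η * q) * n := by ring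
      _ ≤ 2 * (1 / 4) * n := by gcongr
      _ = n / 2 := by ring
  have htn' : 2 * t ≤ n := by
    have : (2 * t : ℝ) ≤ n := by linarith
    exact_mod_cast this
  -- values of `l`
  have v0 := hN2 n (by omega)
  have v1 := hN2 (n + t) (by omega)
  have v2 := hN2 (n - t) (by omega)
  have E1 : E (n + t) ≤ 2 * E n := (hE.mono (by omega)).trans (hE.two n (by omega))
  have E2 : E (n - t) ≤ E n := hE.mono (by omega)
  have p1 := psi_diff a b (show 1 ≤ n by omega) (show n ≤ n + t by omega)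
  have p2 := psi_diff a b (show 1 ≤ n - t by omega) (show n - t ≤ n by omega)
  have cst : ((n - t : ℕ) : ℝ) = (n : ℝ) - t := by rw [Nat.cast_sub (by omega)]
  have hnt : (n : ℝ) / 2 ≤ (n : ℝ) - t := by linarith
  have p1' : |a| * (((n + t : ℕ) : ℝ) - n) / n ≤ 2 * |a| * t / n := by
    push_cast
    apply div_le_div_of_nonneg_right _ hn0.le
    have h1 := mul_nonneg (abs_nonneg a) ht0.le
    have e : |a| * ((n : ℝ) + t - n) = |a| * t := by ring
    rw [e]
    linarith only [h1]
  have p2' : |a| * ((n : ℝ) - ((n - t : ℕ) : ℝ)) / ((n - t : ℕ) : ℝ) ≤ 2 * |a| * t / n := by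
    rw [cst, div_le_div_iff₀ (by linarith) hn0]
    have := abs_nonneg a
    have h1 : |a| * ((n : ℝ) - (n - t)) * n = |a| * t * n := by ring
    have h2 : |a| * t * n ≤ 2 * |a| * t * (n - t) := by
      have h3 : 0 ≤ |a| * t := mul_nonneg (abs_nonneg a) ht0.le
      have h4 := mul_le_mul_of_nonneg_left hnt h3
      linarith only [h4]
    linarith only [h1, h2]
  have bE : 0 ≤ τ * E n := by positivity
  have w1 : l (n + t) - l n ≤ 2 * |a| * t / n + 3 * τ * E n := by
    rw [hl]
    have a1 := (abs_le.1 v1).2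
    have a2 := (abs_le.1 v0).1
    have a3 := (abs_le.1 p1).2
    have a4 : τ * E (n + t) ≤ 2 * (τ * E n) := by
      have := mul_le_mul_of_nonneg_left E1 hτ0.le
      linarith only [this]
    simp only
    linarith
  have w2 : -(2 * |a| * t / n + 3 * τ * E n) ≤ l n - l (n - t) := by
    rw [hl]
    have a1 := (abs_le.1 v2).2
    have a2 := (abs_le.1 v0).1
    have a3 := (abs_le.1 p2).1
    have a4 : τ * E (n - t) ≤ τ * E n := mul_le_mul_of_nonneg_left E2 hτ0.le
    simp only
    linarith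
  have u1 := up n (by omega) t
  have u2 := dn n t (by omega)
  -- the final estimate
  have EQ : E n = q ^ 2 * n := by rw [hqq]; field_simp
  have k1 : 3 * τ * E n ≤ ε / 4 * q * t := by
    rw [EQ]
    have h1 : ε / 4 * q * (η * q * n) ≤ ε / 4 * q * t := by gcongr
    have h2 : 3 * τ * (q ^ 2 * n) ≤ ε / 4 * q * (η * q * n) := by
      rw [hτ]
      have h3 : 0 ≤ ε * η * (q ^ 2 * n) := by positivity
      have e1 : 3 * (ε * η / 16) * (q ^ 2 * n) = 3 / 16 * (ε * η * (q ^ 2 * n)) := by ring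
      have e2 : ε / 4 * q * (η * q * n) = 4 / 16 * (ε * η * (q ^ 2 * n)) := by ring
      rw [e1, e2]
      linarith only [h3]
    linarith only [h1, h2]
  have k2 : 2 * |a| * t / n ≤ ε / 2 * q * t := by
    have h1 : (4 * |a| / ε) ^ 2 ≤ n := by
      have : 0 ≤ 1 / η ^ 2 := by positivity
      linarith
    have h2 : 4 * |a| / ε ≤ q * n := by
      have h3 : (4 * |a| / ε) ^ 2 ≤ (q * n) ^ 2 := by
        refine h1.trans ?_
        have e : (q * n) ^ 2 = E n * n := by rw [mul_pow, hqq]; field_simp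
        rw [e]
        exact le_mul_of_one_le_left hn0.le hE1
      exact le_of_sq_le_sq h3 (by positivity)
    rw [div_le_iff₀ hε] at h2
    rw [div_le_iff₀ hn0]
    have h4 := mul_le_mul_of_nonneg_right h2 ht0.le
    have e1 : ε / 2 * q * t * n = 1 / 2 * (q * n * ε * t) := by ring
    rw [e1]
    linarith only [h4]
  have k3 : D * (t : ℝ) ^ 2 / n ≤ ε / 8 * q * t := by
    rw [div_le_iff₀ hn0]
    have h1 : D * (t : ℝ) ≤ ε / 8 * q * n := by
      calc D * (t : ℝ) ≤ D * (2 * (η * q * n)) := by gcongr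
        _ = 2 * (D * η) * (q * n) := by ring
        _ ≤ 2 * (ε / 16) * (q * n) := by
          have : D * η ≤ ε / 16 := by
            rw [hη, mul_div_assoc', div_le_div_iff₀ (by positivity) (by norm_num)]
            have := mul_nonneg hD hε.le
            linarith only [this, hε]
          gcongr
        _ = ε / 8 * q * n := by ring
    have h2 := mul_le_mul_of_nonneg_right h1 ht0.le
    linarith only [h2]
  have k4 : D * (t : ℝ) ^ 2 / ((n : ℝ) - t) ≤ ε / 4 * q * t := by
    have h1 : D * (t : ℝ) ^ 2 / ((n : ℝ) - t) ≤ D * (t : ℝ) ^ 2 / ((n : ℝ) / 2) :=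
      div_le_div_of_nonneg_left (by positivity) (by linarith) hnt
    have h2 : D * (t : ℝ) ^ 2 / ((n : ℝ) / 2) = 2 * (D * (t : ℝ) ^ 2 / n) := by
      field_simp
    linarith
  have e1 : l (n + 1) = Real.log (y (n + 1)) := by rw [hl]
  have e2 : l n = Real.log (y n) := by rw [hl]
  rw [← hq, ← e1, ← e2, abs_le]
  constructor
  · have h1 : -(ε * q * t) ≤ t * (l (n + 1) - l n) := by linarith
    have h2 : t * (-(ε * q)) ≤ t * (l (n + 1) - l n) := by linarith
    exact le_of_mul_le_mul_left h2 ht0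
  · have h1 : t * (l (n + 1) - l n) ≤ t * (ε * q) := by linarith
    exact le_of_mul_le_mul_left h1 ht0

end Pool.Agent.R956.K1
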