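import Pool.Agent.R956.K6

/-!
# Nearly convex sequences and a doubling relation along a sparse set
-/

set_option autoImplicit false
set_option linter.unusedVariables false

namespace Pool.Agent.R956.K10

open Filter Topology
open Pool.Agent.R956.K6 (Reg two_sqrt)

section conv

variable {l : ℕ → ℝ} {D : ℝ} {N1 : ℕ}

lemma up (hD : 0 ≤ D) (hN1 : ∀ k, N1 ≤ k → 2 * l (k + 1) ≤ l k + l (k + 2) + D / k) {n : ℕ}
    (hn : N1 + 1 ≤ n) (t : ℕ) :
    t * (l (n + 1) - l n) ≤ l (n + t) - l n + D * (t : ℝ) ^ 2 / n := by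
  have hn0 : (0 : ℝ) < n := by exact_mod_cast (show 0 < n by omega)
  have hinc : ∀ i : ℕ, l (n + 1) - l n ≤ l (n + i + 1) - l (n + i) + i * (D / n) := by
    intro i
    induction i with
    | zero => simp
    | succ i ih =>
      have h1 := hN1 (n + i) (by omega)
      have h2 : D / ((n + i : ℕ) : ℝ) ≤ D / n := by
        apply div_le_div_of_nonneg_left hD hn0
        push_cast
        have : (0 : ℝ) ≤ i := Nat.cast_nonneg i
        linarith
      rw [show n + (i + 1) + 1 = n + i + 2 by ring, show n + (i + 1) = n + i + 1 by ring]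
      push_cast
      linarith
  induction t with
  | zero => simp
  | succ t ih =>
    have h1 := hinc t
    rw [show n + (t + 1) = n + t + 1 by ring]
    push_cast
    have h3 : D * (t : ℝ) ^ 2 / n + t * (D / n) ≤ D * ((t : ℝ) + 1) ^ 2 / n := by
      rw [mul_div_assoc', ← add_div]
      apply div_le_div_of_nonneg_right _ hn0.le
      have : (0 : ℝ) ≤ t := Nat.cast_nonneg t
      nlinarith
    linarith

lemma dn (hD : 0 ≤ D) (hN1 : ∀ k, N1 ≤ k → 2 * l (k + 1) ≤ l k + l (k + 2) + D / k) {m : ℕ}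
    (hm : N1 + 1 ≤ m) (t : ℕ) :
    l (m + t) - l m ≤ t * (l (m + t + 1) - l (m + t)) + D * (t : ℝ) ^ 2 / m := by
  have hm0 : (0 : ℝ) < m := by exact_mod_cast (show 0 < m by omega)
  have hinc : ∀ j i : ℕ, l (m + i + 1) - l (m + i) ≤
      l (m + i + j + 1) - l (m + i + j) + j * (D / m) := by
    intro j i
    induction j with
    | zero => simp
    | succ j ih =>
      have h1 := hN1 (m + i + j) (by omega)
      have h2 : D / ((m + i + j : ℕ) : ℝ) ≤ D / m := by
        apply div_le_div_of_nonneg_left hD hm0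
        push_cast
        have : (0 : ℝ) ≤ i := Nat.cast_nonneg i
        have : (0 : ℝ) ≤ j := Nat.cast_nonneg j
        linarith
      rw [show m + i + (j + 1) + 1 = m + i + j + 2 by ring,
        show m + i + (j + 1) = m + i + j + 1 by ring]
      push_cast
      linarith
  have hsum : ∀ i : ℕ, i ≤ t → l (m + i) - l m ≤
      i * (l (m + t + 1) - l (m + t)) + i * (t * (D / m)) := by
    intro i
    induction i with
    | zero => intro _; simp
    | succ i ih =>
      intro hi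
      have h1 := ih (by omega)
      have h2 := hinc (t - i) i
      rw [show m + i + (t - i) = m + t by omega] at h2
      have h3 : ((t - i : ℕ) : ℝ) * (D / m) ≤ t * (D / m) := by
        apply mul_le_mul_of_nonneg_right _ (by positivity)
        exact_mod_cast Nat.sub_le t i
      rw [show m + (i + 1) = m + i + 1 by ring]
      push_cast
      linarith
  have h := hsum t le_rfl
  have e2 : (t : ℝ) * (t * (D / m)) = D * (t : ℝ) ^ 2 / m := by ring
  rw [e2] at h
  exact h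

/-- the chord inequality -/
lemma three (hD : 0 ≤ D) (hN1 : ∀ k, N1 ≤ k → 2 * l (k + 1) ≤ l k + l (k + 2) + D / k) {m : ℕ}
    (hm : N1 + 1 ≤ m) (i t : ℕ) :
    ((t : ℝ) + i) * l (m + i) ≤ t * l m + i * l (m + i + t) +
      D * (t * i * (t + i)) / m := by
  have hm0 : (0 : ℝ) < m := by exact_mod_cast (show 0 < m by omega)
  have h1 := up hD hN1 (show N1 + 1 ≤ m + i by omega) t
  have h2 := dn hD hN1 hm i
  have hi : (0 : ℝ) ≤ i := Nat.cast_nonneg i
  have ht : (0 : ℝ) ≤ t := Nat.cast_nonneg t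
  have h3 := mul_le_mul_of_nonneg_left h1 hi
  have h4 := mul_le_mul_of_nonneg_left h2 ht
  have h5 : D * (t : ℝ) ^ 2 / ((m + i : ℕ) : ℝ) ≤ D * (t : ℝ) ^ 2 / m := by
    apply div_le_div_of_nonneg_left (by positivity) hm0
    push_cast
    linarith
  have h6 := mul_le_mul_of_nonneg_left h5 hi
  have e : D * ((t : ℝ) * i * (t + i)) / m = i * (D * (t : ℝ) ^ 2 / m) + t * (D * (i : ℝ) ^ 2 / m) := by
    ring
  rw [e]
  linarith

end conv

/-- scales which grow slowly -/
structure Sl (E : ℕ → ℝ) : Prop extends K1.Sc E where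
  three : ∀ᶠ k : ℕ in atTop, E (3 * k) ≤ 11 / 10 * E k

lemma sl_one : Sl (fun _ => 1) := ⟨K1.sc_one, Eventually.of_forall fun _ => by norm_num⟩

lemma sl_log : Sl (fun n => 1 + Real.log n) := by
  refine ⟨K1.sc_log, ?_⟩
  filter_upwards [(Real.tendsto_log_atTop.comp tendsto_natCast_atTop_atTop).eventually_ge_atTop 20,
    eventually_ge_atTop 1] with k hk hk1
  have hk0 : (0 : ℝ) < k := by exact_mod_cast hk1
  simp only [Function.comp_apply] at hk
  push_cast
  rw [Real.log_mul (by norm_num) hk0.ne']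
  have h5 : Real.log 3 ≤ 2 := by
    rw [Real.log_le_iff_le_exp (by norm_num)]
    have := Real.add_one_le_exp (2 : ℝ)
    linarith
  linarith

/-- `s` is near `x` -/
def Near (E : ℕ → ℝ) (x s : ℕ) : Prop :=
  (x : ℝ) ≤ s + √(x * E x) / 10 ∧ (s : ℝ) ≤ x + √(x * E x) / 10

section main

variable {U ψ E : ℕ → ℝ} {D : ℝ} {T : Set ℕ}

/-- the gaps of `T` -/
def Gp (E : ℕ → ℝ) (T : Set ℕ) : Prop :=
  ∀ δ : ℝ, 0 < δ → ∀ᶠ n : ℕ in atTop, ∃ k ∈ T, n ≤ k ∧ (k : ℝ) ≤ n + δ * √(n * E n)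

lemma small (hE : K1.Sc E) {a : ℝ} (ha : 0 < a) : ∀ᶠ x : ℕ in atTop, √(x * E x) ≤ a * x := by
  filter_upwards [hE.small.eventually_lt_const (show (0 : ℝ) < a ^ 2 by positivity),
    eventually_ge_atTop 1] with x hx hx1
  have hx0 : (0 : ℝ) < x := by exact_mod_cast hx1
  rw [Real.sqrt_le_left (by positivity)]
  rw [div_lt_iff₀ hx0] at hx
  nlinarith

lemma large (hE : K1.Sc E) (a : ℝ) : ∀ᶠ x : ℕ in atTop, a ≤ √(x * E x) := by
  filter_upwards [tendsto_natCast_atTop_atTop.eventually_ge_atTop (a ^ 2 : ℝ),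
    eventually_ge_atTop 1] with x hx hx1
  have hx0 : (0 : ℝ) < x := by exact_mod_cast hx1
  have := hE.one_le x hx1
  apply Real.le_sqrt_of_sq_le
  nlinarith

/-- two points of `T` around `x` -/
lemma around (hE : K1.Sc E) (hT : Gp E T) {δ : ℝ} (hδ : 0 < δ) (hδ1 : δ ≤ 1 / 20) :
    ∀ᶠ x : ℕ in atTop, ∃ s t : ℕ, s ∈ T ∧ t ∈ T ∧ s ≤ x ∧ x ≤ t ∧
      (x : ℝ) ≤ s + 2 * (δ * √(x * E x)) ∧ (t : ℝ) ≤ x + δ * √(x * E x) := by
  obtain ⟨N, hN⟩ := eventually_atTop.1 (hT δ hδ)
  filter_upwards [eventually_ge_atTop (2 * N + 2), small hE (show (0 : ℝ) < 1 by norm_num),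
    large hE (1 / δ)] with x hx h1 h2
  have hx0 : (0 : ℝ) < x := by exact_mod_cast (show 0 < x by omega)
  obtain ⟨g, hg⟩ : ∃ g : ℝ, g = δ * √(x * E x) := ⟨_, rfl⟩
  have hg1 : 1 ≤ g := by
    rw [hg]
    rw [div_le_iff₀ hδ] at h2
    linarith
  have hgx : g ≤ x / 20 := by
    rw [hg]
    have : δ * √(x * E x) ≤ 1 / 20 * (1 * x) := by gcongr
    linarith
  have hcx : ⌈g⌉₊ ≤ x / 2 := by
    have h3 : ((2 * ⌈g⌉₊ : ℕ) : ℝ) ≤ x := by
      push_cast
      have := (Nat.ceil_lt_add_one (show 0 ≤ g by linarith)).le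
      linarith
    have : 2 * ⌈g⌉₊ ≤ x := by exact_mod_cast h3
    omega
  obtain ⟨t, ht1, ht2, ht3⟩ := hN x (by omega)
  obtain ⟨s, hs1, hs2, hs3⟩ := hN (x - ⌈g⌉₊) (by omega)
  have hcast : ((x - ⌈g⌉₊ : ℕ) : ℝ) = x - ⌈g⌉₊ := by rw [Nat.cast_sub (by omega)]
  have hmono : δ * √(((x - ⌈g⌉₊ : ℕ) : ℝ) * E (x - ⌈g⌉₊)) ≤ g := by
    rw [hg]
    refine mul_le_mul_of_nonneg_left (Real.sqrt_le_sqrt ?_) hδ.le
    have a1 : ((x - ⌈δ * √(x * E x)⌉₊ : ℕ) : ℝ) ≤ x := by exact_mod_cast Nat.sub_le _ _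
    have a2 : E (x - ⌈δ * √(x * E x)⌉₊) ≤ E x := hE.mono (Nat.sub_le _ _)
    have a3 : 0 ≤ E x := zero_le_one.trans (hE.one_le x (by omega))
    calc _ ≤ ((x - ⌈δ * √(x * E x)⌉₊ : ℕ) : ℝ) * E x :=
          mul_le_mul_of_nonneg_left a2 (Nat.cast_nonneg _)
      _ ≤ _ := mul_le_mul_of_nonneg_right a1 a3
  have hceil := Nat.le_ceil g
  have hceil2 := (Nat.ceil_lt_add_one (show 0 ≤ g by linarith)).le
  refine ⟨s, t, hs1, ht1, ?_, ht2, ?_, ht3⟩
  · have h6 : (s : ℝ) ≤ ((x - ⌈g⌉₊ : ℕ) : ℝ) + g := by linarith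
    have : (s : ℝ) ≤ x := by
      rw [hcast] at h6
      linarith
    exact_mod_cast this
  · rw [← hg]
    have : ((x - ⌈g⌉₊ : ℕ) : ℝ) ≤ s := by exact_mod_cast hs2
    rw [hcast] at this
    linarith

/-- upper bounds at all points from upper bounds along `T` -/
lemma ub (hD : 0 ≤ D) (hU : ∀ᶠ k : ℕ in atTop, 2 * U (k + 1) ≤ U k + U (k + 2) + D / k)
    (hE : K1.Sc E) (hT : Gp E T) (hψ : Reg ψ) {κ : ℝ} (hκ : 0 < κ) :
    ∀ᶠ x : ℕ in atTop, ∀ b : ℝ, (∀ s ∈ T, Near E x s → U s - ψ s ≤ b) →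
      U x - ψ x ≤ b + κ * E x := by
  obtain ⟨A, hA, hψ⟩ := hψ
  obtain ⟨N1, hN1⟩ := eventually_atTop.1 hU
  obtain ⟨δ, hδ⟩ : ∃ δ : ℝ, δ = min (1 / 20) (√(κ / (8 * (D + 1)))) := ⟨_, rfl⟩
  have hδ0 : 0 < δ := by rw [hδ]; positivity
  have hδ1 : δ ≤ 1 / 20 := by rw [hδ]; exact min_le_left _ _
  have hδ2 : δ ^ 2 ≤ κ / (8 * (D + 1)) := by
    have h1 : δ ≤ √(κ / (8 * (D + 1))) := by rw [hδ]; exact min_le_right _ _
    calc δ ^ 2 ≤ √(κ / (8 * (D + 1))) ^ 2 := by gcongr
      _ = _ := Real.sq_sqrt (by positivity)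
  filter_upwards [around hE hT hδ0 hδ1, small hE (show (0 : ℝ) < κ / (8 * (A + 1)) by positivity),
    small hE (show (0 : ℝ) < 1 by norm_num), eventually_ge_atTop (4 * N1 + 8)]
    with x h1 h2 h3 hx b hb
  obtain ⟨s, t, hs, ht, hsx, hxt, h4, h5⟩ := h1
  have hx0 : (0 : ℝ) < x := by exact_mod_cast (show 0 < x by omega)
  obtain ⟨q, hq⟩ : ∃ q : ℝ, q = √(x * E x) := ⟨_, rfl⟩
  have hE1 := hE.one_le x (by omega)
  have hE0 : 0 < E x := by linarith
  have hq0 : 0 < q := by rw [hq]; positivity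
  have hqq : q ^ 2 = x * E x := by rw [hq, Real.sq_sqrt (by positivity)]
  rw [← hq] at h2 h3 h4 h5
  have hnear : ∀ y : ℕ, (x : ℝ) ≤ y + 2 * (δ * q) → (y : ℝ) ≤ x + δ * q → Near E x y := by
    intro y hy1 hy2
    have h6 : δ * q ≤ 1 / 20 * q := by gcongr
    unfold Near
    rw [← hq]
    constructor <;> linarith
  have hδq : δ * q ≤ 1 / 20 * q := by gcongr
  have hδq0 : 0 < δ * q := by positivity
  have bs := hb s hs (hnear s h4 (by
    have : (s : ℝ) ≤ x := by exact_mod_cast hsx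
    linarith))
  have bt := hb t ht (hnear t (by
    have : (x : ℝ) ≤ t := by exact_mod_cast hxt
    linarith) h5)
  have hs2 : (x : ℝ) / 2 ≤ s := by linarith
  have hs0 : (0 : ℝ) < s := by linarith
  have hsN : N1 + 1 ≤ s := by
    have : ((2 * s : ℕ) : ℝ) ≥ x := by push_cast; linarith
    have : x ≤ 2 * s := by exact_mod_cast this
    omega
  obtain ⟨i, hi⟩ : ∃ i, x = s + i := ⟨x - s, by omega⟩
  obtain ⟨j, hj⟩ : ∃ j, t = x + j := ⟨t - x, by omega⟩
  have hiq : (i : ℝ) ≤ 2 * (δ * q) := by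
    have : (x : ℝ) = s + i := by rw [hi]; push_cast; ring
    linarith
  have hjq : (j : ℝ) ≤ δ * q := by
    have : (t : ℝ) = x + j := by rw [hj]; push_cast; ring
    linarith
  -- the comparison function
  have p1 : |ψ x - ψ s| ≤ κ / 4 := by
    refine (hψ s x (by omega) hsx).trans ?_
    have e : (x : ℝ) - s = i := by rw [hi]; push_cast; ring
    rw [e, div_le_iff₀ hs0]
    have h6 : A * (i : ℝ) ≤ A * (2 * (1 / 20 * (κ / (8 * (A + 1)) * x))) := by
      have : (i : ℝ) ≤ 2 * (1 / 20 * (κ / (8 * (A + 1)) * x)) := by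
        have : 1 / 20 * q ≤ 1 / 20 * (κ / (8 * (A + 1)) * x) := by gcongr
        linarith
      gcongr
    have h7 : A * (2 * (1 / 20 * (κ / (8 * (A + 1)) * x))) ≤ κ / 80 * x := by
      have e2 : A * (2 * (1 / 20 * (κ / (8 * (A + 1)) * x))) = (A / (A + 1)) * (κ / 80 * x) := by
        field_simp
        ring
      rw [e2]
      have : A / (A + 1) ≤ 1 := by rw [div_le_one (by positivity)]; linarith
      exact mul_le_of_le_one_left (by positivity) this
    nlinarith
  have p2 : |ψ t - ψ x| ≤ κ / 4 := by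
    refine (hψ x t (by omega) hxt).trans ?_
    have e : (t : ℝ) - x = j := by rw [hj]; push_cast; ring
    rw [e, div_le_iff₀ hx0]
    have h6 : A * (j : ℝ) ≤ A * (1 / 20 * (κ / (8 * (A + 1)) * x)) := by
      have : (j : ℝ) ≤ 1 / 20 * (κ / (8 * (A + 1)) * x) := by
        have : 1 / 20 * q ≤ 1 / 20 * (κ / (8 * (A + 1)) * x) := by gcongr
        linarith
      gcongr
    have h7 : A * (1 / 20 * (κ / (8 * (A + 1)) * x)) ≤ κ / 160 * x := by
      have e2 : A * (1 / 20 * (κ / (8 * (A + 1)) * x)) = (A / (A + 1)) * (κ / 160 * x) := by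
        field_simp
        ring
      rw [e2]
      have : A / (A + 1) ≤ 1 := by rw [div_le_one (by positivity)]; linarith
      exact mul_le_of_le_one_left (by positivity) this
    nlinarith
  rw [abs_le] at p1 p2
  have hκE : κ ≤ κ * E x := by nlinarith
  rcases Nat.eq_zero_or_pos (i + j) with h0 | h0
  · have : x = s := by omega
    rw [this] at hκE ⊢
    linarith
  have hij : (0 : ℝ) < (j : ℝ) + i := by exact_mod_cast (show 0 < j + i by omega)
  have h6 := three hD hN1 hsN i j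
  rw [← hi, ← hj] at h6
  have hi0 : (0 : ℝ) ≤ i := Nat.cast_nonneg i
  have hj0 : (0 : ℝ) ≤ j := Nat.cast_nonneg j
  have h7 : D * ((j : ℝ) * i * (j + i)) / s ≤ (j + i) * (κ / 2 * E x) := by
    rw [div_le_iff₀ hs0]
    have h8 : D * ((j : ℝ) * i) ≤ κ / 2 * E x * s := by
      calc D * ((j : ℝ) * i) ≤ D * ((δ * q) * (2 * (δ * q))) := by gcongr
        _ = 2 * D * δ ^ 2 * (x * E x) := by rw [← hqq]; ring
        _ ≤ 2 * D * (κ / (8 * (D + 1))) * (x * E x) := by gcongr
        _ = (D / (D + 1)) * (κ / 4 * (x * E x)) := by field_simp; ring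
        _ ≤ 1 * (κ / 4 * (x * E x)) := by
          have : D / (D + 1) ≤ 1 := by rw [div_le_one (by positivity)]; linarith
          gcongr
        _ ≤ κ / 2 * E x * s := by
          have : κ / 2 * E x * (x / 2) ≤ κ / 2 * E x * s := by gcongr
          linarith
    have := mul_le_mul_of_nonneg_left h8 hij.le
    linarith
  have h9 : ((j : ℝ) + i) * U x ≤ (j + i) * (b + ψ x + κ / 4 + κ / 2 * E x) := by
    have a1 : (j : ℝ) * U s ≤ j * (b + ψ x + κ / 4) := by
      apply mul_le_mul_of_nonneg_left _ hj0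
      linarith
    have a2 : (i : ℝ) * U t ≤ i * (b + ψ x + κ / 4) := by
      apply mul_le_mul_of_nonneg_left _ hi0
      linarith
    linarith
  have h10 := le_of_mul_le_mul_left h9 hij
  linarith

/-- lower bounds at all points from two-sided bounds along `T` -/
lemma lb (hD : 0 ≤ D) (hU : ∀ᶠ k : ℕ in atTop, 2 * U (k + 1) ≤ U k + U (k + 2) + D / k)
    (hE : K1.Sc E) (hT : Gp E T) (hψ : Reg ψ) {κ : ℝ} (hκ : 0 < κ) :
    ∀ᶠ x : ℕ in atTop, ∀ b b' : ℝ, 0 ≤ b → 0 ≤ b' → (∀ s ∈ T, Near E x s → -b ≤ U s - ψ s) →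
      (∀ s ∈ T, Near E x s → U s - ψ s ≤ b') →
      -(11 / 10 * b + 1 / 10 * b' + κ * E x) ≤ U x - ψ x := by
  obtain ⟨A, hA, hψ⟩ := hψ
  obtain ⟨N1, hN1⟩ := eventually_atTop.1 hU
  obtain ⟨δ, hδ⟩ : ∃ δ : ℝ, δ = min (1 / 400) (√(κ / (40 * (D + 1)))) := ⟨_, rfl⟩
  have hδ0 : 0 < δ := by rw [hδ]; positivity
  have hδ1 : δ ≤ 1 / 400 := by rw [hδ]; exact min_le_left _ _
  have hδ2 : δ ^ 2 ≤ κ / (40 * (D + 1)) := by
    have h1 : δ ≤ √(κ / (40 * (D + 1))) := by rw [hδ]; exact min_le_right _ _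
    calc δ ^ 2 ≤ √(κ / (40 * (D + 1))) ^ 2 := by gcongr
      _ = _ := Real.sq_sqrt (by positivity)
  obtain ⟨N, hN⟩ := eventually_atTop.1 (hT δ hδ0)
  filter_upwards [small hE (show (0 : ℝ) < κ / (8 * (A + 1)) by positivity),
    small hE (show (0 : ℝ) < 1 by norm_num), large hE (1 / δ), eventually_ge_atTop (N + N1 + 8)]
    with x h2 h3 h3' hx b b' hb0 hb0' hb hb'
  have hx0 : (0 : ℝ) < x := by exact_mod_cast (show 0 < x by omega)
  obtain ⟨q, hq⟩ : ∃ q : ℝ, q = √(x * E x) := ⟨_, rfl⟩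
  have hE1 := hE.one_le x (by omega)
  have hE0 : 0 < E x := by linarith
  have hq0 : 0 < q := by rw [hq]; positivity
  have hqq : q ^ 2 = x * E x := by rw [hq, Real.sq_sqrt (by positivity)]
  rw [← hq] at h2 h3 h3'
  obtain ⟨g, hg⟩ : ∃ g : ℝ, g = δ * q := ⟨_, rfl⟩
  have hg1 : 1 ≤ g := by
    rw [hg]
    rw [div_le_iff₀ hδ0] at h3'
    linarith
  have hgq : g ≤ q / 400 := by
    rw [hg]
    have : δ * q ≤ 1 / 400 * q := by gcongr
    linarith
  have hgx : 400 * g ≤ x := by linarith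
  obtain ⟨s, hs1, hs2, hs3⟩ := hN x (by omega)
  rw [← hq, ← hg] at hs3
  obtain ⟨y, hy⟩ : ∃ y : ℕ, y = x + ⌈11 * g⌉₊ := ⟨_, rfl⟩
  have hya : (x : ℝ) + 11 * g ≤ y := by
    rw [hy]
    push_cast
    have := Nat.le_ceil (11 * g)
    linarith
  have hyb : (y : ℝ) ≤ x + 12 * g := by
    rw [hy]
    push_cast
    have := (Nat.ceil_lt_add_one (show 0 ≤ 11 * g by positivity)).le
    linarith
  have hyc : y ≤ 2 * x := by
    have : (y : ℝ) ≤ 2 * x := by linarith
    exact_mod_cast this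
  obtain ⟨t, ht1, ht2, ht3⟩ := hN y (by omega)
  have hEy : E y ≤ 2 * E x := (hE.mono hyc).trans (hE.two x (by omega))
  have hty : (t : ℝ) ≤ x + 14 * g := by
    have h1 : √((y : ℝ) * E y) ≤ 2 * q := by
      rw [hq, two_sqrt]
      refine Real.sqrt_le_sqrt ?_
      have h2 : (y : ℝ) ≤ 2 * x := by exact_mod_cast hyc
      have h3 : 0 ≤ E y := zero_le_one.trans (hE.one_le y (by omega))
      calc (y : ℝ) * E y ≤ (2 * x) * (2 * E x) := by gcongr
        _ = _ := by ring
    have h2 := mul_le_mul_of_nonneg_left h1 hδ0.le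
    have h3 : δ * (2 * q) = 2 * g := by rw [hg]; ring
    rw [h3] at h2
    linarith
  have hyt : (y : ℝ) ≤ t := by exact_mod_cast ht2
  have hxs : (x : ℝ) ≤ s := by exact_mod_cast hs2
  have nears : Near E x s := by
    unfold Near
    rw [← hq]
    constructor <;> linarith
  have neart : Near E x t := by
    unfold Near
    rw [← hq]
    constructor <;> linarith
  have bs := hb s hs1 nears
  have bt := hb' t ht1 neart
  obtain ⟨i, hi⟩ : ∃ i, s = x + i := ⟨s - x, by omega⟩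
  have hst : s ≤ t := by
    have : (s : ℝ) ≤ t := by linarith
    exact_mod_cast this
  obtain ⟨j, hj⟩ : ∃ j, t = x + i + j := ⟨t - s, by omega⟩
  have hig : (i : ℝ) ≤ g := by
    have : (s : ℝ) = x + i := by rw [hi]; push_cast; ring
    linarith
  have hjg : 10 * g ≤ (j : ℝ) := by
    have : (t : ℝ) = x + i + j := by rw [hj]; push_cast; ring
    linarith
  have hjg2 : (i : ℝ) + j ≤ 14 * g := by
    have : (t : ℝ) = x + i + j := by rw [hj]; push_cast; ring
    linarith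
  have hi0 : (0 : ℝ) ≤ i := Nat.cast_nonneg i
  have hj0 : (0 : ℝ) < j := by linarith
  have h6 := three hD hN1 (show N1 + 1 ≤ x by omega) i j
  rw [← hj, ← hi] at h6
  -- the comparison function
  have pe : ∀ z : ℕ, x ≤ z → (z : ℝ) ≤ x + 14 * g → |ψ z - ψ x| ≤ κ / 8 := by
    intro z hz1 hz2
    refine (hψ x z (by omega) hz1).trans ?_
    rw [div_le_iff₀ hx0]
    have h7 : (z : ℝ) - x ≤ 14 / 400 * (κ / (8 * (A + 1)) * x) := by
      have : q / 400 ≤ (κ / (8 * (A + 1)) * x) / 400 := by linarith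
      linarith
    calc A * ((z : ℝ) - x) ≤ A * (14 / 400 * (κ / (8 * (A + 1)) * x)) := by gcongr
      _ = (A / (A + 1)) * (14 / 3200 * (κ * x)) := by field_simp; ring
      _ ≤ 1 * (14 / 3200 * (κ * x)) := by
        have : A / (A + 1) ≤ 1 := by rw [div_le_one (by positivity)]; linarith
        gcongr
      _ ≤ κ / 8 * x := by
        have : 0 < κ * x := by positivity
        linarith
  have p1 := pe s hs2 (by linarith)
  have p2 := pe t (by omega) hty
  rw [abs_le] at p1 p2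
  have h7 : D * ((j : ℝ) * i * (j + i)) / x ≤ j * (κ / 2 * E x) := by
    rw [div_le_iff₀ hx0]
    have h8 : D * ((i : ℝ) * (j + i)) ≤ κ / 2 * E x * x := by
      calc D * ((i : ℝ) * (j + i)) ≤ D * (g * (14 * g)) := by
            have : (j : ℝ) + i ≤ 14 * g := by linarith
            gcongr
        _ = 14 * D * δ ^ 2 * (x * E x) := by rw [← hqq, hg]; ring
        _ ≤ 14 * D * (κ / (40 * (D + 1))) * (x * E x) := by gcongr
        _ = (D / (D + 1)) * (14 / 40 * κ * (x * E x)) := by field_simp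
        _ ≤ 1 * (14 / 40 * κ * (x * E x)) := by
          have : D / (D + 1) ≤ 1 := by rw [div_le_one (by positivity)]; linarith
          gcongr
        _ ≤ κ / 2 * E x * x := by
          have : 0 < κ * (x * E x) := by positivity
          linarith
    have := mul_le_mul_of_nonneg_left h8 hj0.le
    linarith
  have hκE : κ ≤ κ * E x := by nlinarith
  have h11 : (i : ℝ) ≤ 1 / 10 * j := by linarith
  have h9 : (j : ℝ) * (-(11 / 10 * b + 1 / 10 * b' + κ * E x)) ≤ j * (U x - ψ x) := by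
    have a1 : ((j : ℝ) + i) * (-b + ψ x - κ / 8) ≤ (j + i) * U s := by
      apply mul_le_mul_of_nonneg_left _ (by positivity)
      linarith
    have a2 : (i : ℝ) * U t ≤ i * (b' + ψ x + κ / 8) := by
      apply mul_le_mul_of_nonneg_left _ hi0
      linarith
    have a3 : (i : ℝ) * b ≤ 1 / 10 * j * b := by gcongr
    have a4 : (i : ℝ) * b' ≤ 1 / 10 * j * b' := by gcongr
    have a5 : (i : ℝ) * κ ≤ 1 / 10 * j * κ := by gcongr
    have a6 : (j : ℝ) * κ ≤ j * (κ * E x) := by gcongr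
    have a7 : (j : ℝ) * (κ / 2 * E x) + j * (κ / 2 * E x) = j * (κ * E x) := by ring
    nlinarith
  exact le_of_mul_le_mul_left h9 hj0

lemma sq_bd {E : ℕ → ℝ} {k s : ℕ} (hk0 : (0 : ℝ) < k) (hEk : 1 ≤ E k)
    (hE3 : E (3 * k) ≤ 11 / 10 * E k) (hm : Monotone E) (hE2k : 0 ≤ E (2 * k))
    (hsm : √(k * E k) ≤ 1 / 10 * k) (hn : Near E (2 * k) s) :
    s ≤ 3 * k ∧ k < s ∧ (s : ℝ) ≤ 2 * k + 3 / 20 * √(k * E k) ∧ (s : ℝ) ≤ 225 / 100 * k ∧
    √(s * E s) ≤ 3 / 2 * √(k * E k) := by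
  obtain ⟨q, hq⟩ : ∃ q : ℝ, q = √(k * E k) := ⟨_, rfl⟩
  have hq0 : 0 < q := by rw [hq]; positivity
  have hqq : q ^ 2 = k * E k := by rw [hq, Real.sq_sqrt (by positivity)]
  rw [← hq] at hsm ⊢
  obtain ⟨h1, h2⟩ := hn
  have h3 : √(((2 * k : ℕ) : ℝ) * E (2 * k)) ≤ 3 / 2 * q := by
    rw [Real.sqrt_le_left (by positivity)]
    push_cast
    have h4 : E (2 * k) ≤ 11 / 10 * E k := (hm (by omega)).trans hE3
    calc 2 * (k : ℝ) * E (2 * k) ≤ 2 * k * (11 / 10 * E k) := by gcongr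
      _ = 22 / 10 * (k * E k) := by ring
      _ ≤ (3 / 2 * q) ^ 2 := by rw [mul_pow, hqq]; nlinarith
  push_cast at h1 h2 h3
  have h5 : (s : ℝ) ≤ 2 * k + 3 / 20 * q := by linarith
  have h6 : (s : ℝ) ≤ 225 / 100 * k := by linarith
  have h7 : s ≤ 3 * k := by
    have : (s : ℝ) ≤ 3 * k := by linarith
    exact_mod_cast this
  have h8 : k < s := by
    have : (k : ℝ) < s := by linarith
    exact_mod_cast this
  refine ⟨h7, h8, h5, h6, ?_⟩
  rw [Real.sqrt_le_left (by positivity)]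
  have h9 : E s ≤ 11 / 10 * E k := (hm h7).trans hE3
  have h10 : 0 ≤ E s := by
    have := hm h8.le
    linarith
  calc (s : ℝ) * E s ≤ (2 * k + 3 / 20 * q) * (11 / 10 * E k) := by gcongr
    _ = 22 / 10 * (k * E k) + 33 / 200 * (q * E k) := by ring
    _ ≤ 22 / 10 * (k * E k) + 33 / 200 * (1 / 10 * k * E k) := by gcongr
    _ ≤ (3 / 2 * q) ^ 2 := by
      rw [mul_pow, hqq]
      have : 0 < k * E k := by positivity
      nlinarith

/-- upper bounds along `T` -/
theorem upT (hD : 0 ≤ D) (hU : ∀ᶠ k : ℕ in atTop, 2 * U (k + 1) ≤ U k + U (k + 2) + D / k)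
    (hE : Sl E) (hT : Gp E T) (hψ : Reg ψ)
    (hlin : Tendsto (fun k : ℕ => (U k - ψ k) / k) atTop (𝓝 0))
    (hyp : ∀ τ : ℝ, 0 < τ → ∀ᶠ k : ℕ in atTop, k ∈ T →
      |(U (2 * k) - ψ (2 * k)) - 2 * (U k - ψ k)| ≤ τ * E k) {ε : ℝ} (hε : 0 < ε) :
    ∀ᶠ k : ℕ in atTop, k ∈ T → U k - ψ k ≤ ε * E k := by
  have ht : Tendsto (fun k : ℕ => 2 * k) atTop atTop :=
    tendsto_atTop_mono (fun k => by simp only [id]; omega) tendsto_id
  obtain ⟨K0, hK0⟩ := eventually_atTop.1 (((ht.eventually (ub hD hU hE.toSc hT hψ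
    (show 0 < ε / 4 by positivity))).and (hyp (ε / 4) (by positivity))).and
    (hE.three.and (small hE.toSc (show (0 : ℝ) < 1 / 10 by norm_num))))
  filter_upwards [eventually_ge_atTop (K0 + 1)] with k hk hkT
  -- the claim with a linear term
  have claim : ∀ lam : ℝ, 0 < lam → U k - ψ k ≤ ε * E k + lam * (k + √(k * E k)) := by
    intro lam hlam
    obtain ⟨K1, hK1⟩ := eventually_atTop.1 (hlin.eventually_lt_const hlam)
    have ind : ∀ n k : ℕ, K1 ≤ k + n → K0 + 1 ≤ k → k ∈ T →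
        U k - ψ k ≤ ε * E k + lam * (k + √(k * E k)) := by
      intro n
      induction n with
      | zero =>
        intro k h1 h2 _
        have hk0 : (0 : ℝ) < k := by exact_mod_cast (show 0 < k by omega)
        have h3 := hK1 k (by omega)
        rw [div_lt_iff₀ hk0] at h3
        have h4 : 0 ≤ ε * E k := mul_nonneg hε.le (zero_le_one.trans (hE.one_le k (by omega)))
        have h5 : 0 ≤ lam * √(k * E k) := by positivity
        linarith
      | succ n ih =>
        intro k h1 h2 hkT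
        rcases Nat.lt_or_ge k K1 with hlt | hge
        swap
        · exact (by
            have hk0 : (0 : ℝ) < k := by exact_mod_cast (show 0 < k by omega)
            have h3 := hK1 k hge
            rw [div_lt_iff₀ hk0] at h3
            have h4 : 0 ≤ ε * E k := mul_nonneg hε.le (zero_le_one.trans (hE.one_le k (by omega)))
            have h5 : 0 ≤ lam * √(k * E k) := by positivity
            linarith)
        have hk0 : (0 : ℝ) < k := by exact_mod_cast (show 0 < k by omega)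
        obtain ⟨⟨g1, g2⟩, g3, g4⟩ := hK0 k (by omega)
        have g2 := g2 hkT
        have hE1 := hE.one_le k (by omega)
        have hE2 := zero_le_one.trans (hE.one_le (2 * k) (by omega))
        have g5 := g1 (11 / 10 * ε * E k + 2 * (lam * (k + √(k * E k)))) (by
          intro s hs hn
          obtain ⟨q1, q2, q3, q4, q5⟩ := sq_bd hk0 hE1 g3 hE.mono hE2 g4 hn
          have h6 := ih s (by omega) (by omega) hs
          refine h6.trans ?_
          have h7 : E s ≤ 11 / 10 * E k := (hE.mono q1).trans g3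
          have h8 : ε * E s ≤ ε * (11 / 10 * E k) := by gcongr
          have h9 : lam * (s + √(s * E s)) ≤ lam * (2 * (k + √(k * E k))) := by
            apply mul_le_mul_of_nonneg_left _ hlam.le
            have : 0 ≤ √((k : ℝ) * E k) := Real.sqrt_nonneg _
            linarith
          linarith)
        have h10 : E (2 * k) ≤ 11 / 10 * E k := (hE.mono (by omega)).trans g3
        have h11 : ε / 4 * E (2 * k) ≤ ε / 4 * (11 / 10 * E k) := by gcongr
        have h12 := (abs_le.1 g2).1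
        have h13 : 0 < ε * E k := by positivity
        linarith
    exact ind K1 k (by omega) hk hkT
  have hp : 0 < (k : ℝ) + √(k * E k) := by
    have : (0 : ℝ) < k := by exact_mod_cast (show 0 < k by omega)
    positivity
  refine le_of_forall_pos_le_add fun r hr => ?_
  have h := claim (r / (k + √(k * E k))) (by positivity)
  rwa [div_mul_cancel₀ _ hp.ne'] at h

/-- upper bounds everywhere -/
theorem upAll (hD : 0 ≤ D) (hU : ∀ᶠ k : ℕ in atTop, 2 * U (k + 1) ≤ U k + U (k + 2) + D / k)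
    (hE : Sl E) (hT : Gp E T) (hψ : Reg ψ)
    (h : ∀ ε : ℝ, 0 < ε → ∀ᶠ k : ℕ in atTop, k ∈ T → U k - ψ k ≤ ε * E k) {ε : ℝ} (hε : 0 < ε) :
    ∀ᶠ k : ℕ in atTop, U k - ψ k ≤ ε * E k := by
  obtain ⟨K0, hK0⟩ := eventually_atTop.1 (h (ε / 4) (by positivity))
  filter_upwards [ub hD hU hE.toSc hT hψ (show 0 < ε / 4 by positivity), eventually_ge_atTop
    (2 * K0 + 2), hE.three, small hE.toSc (show (0 : ℝ) < 1 by norm_num)] with x h1 h2 h3 h4
  have hx0 : (0 : ℝ) < x := by exact_mod_cast (show 0 < x by omega)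
  have hE1 := hE.one_le x (by omega)
  have h5 := h1 (ε / 4 * (11 / 10 * E x)) (by
    intro s hs hn
    obtain ⟨n1, n2⟩ := hn
    have h6 : s ≤ 3 * x := by
      have : (s : ℝ) ≤ 3 * x := by linarith
      exact_mod_cast this
    have h7 : K0 ≤ s := by
      have : (x : ℝ) ≤ 2 * s := by linarith
      have : x ≤ 2 * s := by exact_mod_cast this
      omega
    have h8 : E s ≤ 11 / 10 * E x := (hE.mono h6).trans h3
    exact (hK0 s h7 hs).trans (by gcongr))
  have : 0 < ε * E x := by positivity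
  linarith

/-- lower bounds along `T` -/
theorem dnT (hD : 0 ≤ D) (hU : ∀ᶠ k : ℕ in atTop, 2 * U (k + 1) ≤ U k + U (k + 2) + D / k)
    (hU0 : ∀ᶠ k : ℕ in atTop, 0 ≤ U k)
    (hE : Sl E) (hT : Gp E T) (hψ : Reg ψ)
    (hroot : Tendsto (fun k : ℕ => ψ k / √k) atTop (𝓝 0))
    (hyp : ∀ τ : ℝ, 0 < τ → ∀ᶠ k : ℕ in atTop, k ∈ T →
      |(U (2 * k) - ψ (2 * k)) - 2 * (U k - ψ k)| ≤ τ * E k)
    (hup : ∀ ε : ℝ, 0 < ε → ∀ᶠ k : ℕ in atTop, U k - ψ k ≤ ε * E k) {ε : ℝ} (hε : 0 < ε) :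
    ∀ᶠ k : ℕ in atTop, k ∈ T → -(ε * E k) ≤ U k - ψ k := by
  have ht : Tendsto (fun k : ℕ => 2 * k) atTop atTop :=
    tendsto_atTop_mono (fun k => by simp only [id]; omega) tendsto_id
  obtain ⟨K0, hK0⟩ := eventually_atTop.1 (((ht.eventually (lb hD hU hE.toSc hT hψ
    (show 0 < ε / 4 by positivity))).and ((hyp (ε / 4) (by positivity)).and
    (hup (ε / 4) (by positivity)))).and
    (hE.three.and (small hE.toSc (show (0 : ℝ) < 1 / 10 by norm_num))))
  filter_upwards [eventually_ge_atTop (K0 + 1)] with k hk hkT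
  have claim : ∀ lam : ℝ, 0 < lam → -(ε * E k + lam * √(k : ℝ)) ≤ U k - ψ k := by
    intro lam hlam
    obtain ⟨K1, hK1⟩ := eventually_atTop.1 ((hroot.eventually_lt_const hlam).and hU0)
    have base : ∀ k : ℕ, K1 ≤ k → K0 + 1 ≤ k → -(ε * E k + lam * √(k : ℝ)) ≤ U k - ψ k := by
      intro k h1 h2
      have hk0 : (0 : ℝ) < √(k : ℝ) := Real.sqrt_pos.2 (by exact_mod_cast (show 0 < k by omega))
      obtain ⟨h3, h3'⟩ := hK1 k h1
      rw [div_lt_iff₀ hk0] at h3
      have h4 : 0 ≤ ε * E k := mul_nonneg hε.le (zero_le_one.trans (hE.one_le k (by omega)))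
      linarith
    have ind : ∀ n k : ℕ, K1 ≤ k + n → K0 + 1 ≤ k → k ∈ T →
        -(ε * E k + lam * √(k : ℝ)) ≤ U k - ψ k := by
      intro n
      induction n with
      | zero =>
        intro k h1 h2 _
        exact base k (by omega) h2
      | succ n ih =>
        intro k h1 h2 hkT
        rcases Nat.lt_or_ge k K1 with hlt | hge
        swap
        · exact base k hge h2
        have hk0 : (0 : ℝ) < k := by exact_mod_cast (show 0 < k by omega)
        obtain ⟨⟨g1, g2, -⟩, g3, g4⟩ := hK0 k (by omega)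
        have g2 := g2 hkT
        have hE1 := hE.one_le k (by omega)
        have hE2 := zero_le_one.trans (hE.one_le (2 * k) (by omega))
        have hsq : 0 ≤ √(k : ℝ) := Real.sqrt_nonneg _
        have g5 := g1 (11 / 10 * ε * E k + 3 / 2 * (lam * √(k : ℝ)))
          (11 / 10 * (ε / 4) * E k) (by positivity) (by positivity) (by
          intro s hs hn
          obtain ⟨q1, q2, q3, q4, q5⟩ := sq_bd hk0 hE1 g3 hE.mono hE2 g4 hn
          have h6 := ih s (by omega) (by omega) hs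
          have h7 : E s ≤ 11 / 10 * E k := (hE.mono q1).trans g3
          have h8 : ε * E s ≤ ε * (11 / 10 * E k) := by gcongr
          have h9 : √(s : ℝ) ≤ 3 / 2 * √(k : ℝ) := by
            rw [Real.sqrt_le_left (by positivity), mul_pow, Real.sq_sqrt hk0.le]
            linarith
          have h10 : lam * √(s : ℝ) ≤ lam * (3 / 2 * √(k : ℝ)) := by gcongr
          linarith) (by
          intro s hs hn
          obtain ⟨q1, q2, q3, q4, q5⟩ := sq_bd hk0 hE1 g3 hE.mono hE2 g4 hn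
          obtain ⟨⟨-, -, h6⟩, -⟩ := hK0 s (by omega)
          have h7 : E s ≤ 11 / 10 * E k := (hE.mono q1).trans g3
          have h8 : ε / 4 * E s ≤ ε / 4 * (11 / 10 * E k) := by gcongr
          linarith)
        have h10 : E (2 * k) ≤ 11 / 10 * E k := (hE.mono (by omega)).trans g3
        have h11 : ε / 4 * E (2 * k) ≤ ε / 4 * (11 / 10 * E k) := by gcongr
        have h12 := (abs_le.1 g2).2
        have h13 : 0 < ε * E k := by positivity
        have h14 : 0 ≤ lam * √(k : ℝ) := by positivity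
        linarith
    exact ind K1 k (by omega) hk hkT
  have hp : 0 < √(k : ℝ) := Real.sqrt_pos.2 (by exact_mod_cast (show 0 < k by omega))
  have : -(U k - ψ k) ≤ ε * E k := by
    refine le_of_forall_pos_le_add fun r hr => ?_
    have h := claim (r / √(k : ℝ)) (by positivity)
    rw [div_mul_cancel₀ _ hp.ne'] at h
    linarith
  linarith

/-- **the doubling relation along a sparse set determines a nearly convex sequence** -/
theorem main (hD : 0 ≤ D) (hU : ∀ᶠ k : ℕ in atTop, 2 * U (k + 1) ≤ U k + U (k + 2) + D / k)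
    (hU0 : ∀ᶠ k : ℕ in atTop, 0 ≤ U k) (hUs : Tendsto (fun k : ℕ => U k / k) atTop (𝓝 0))
    (hE : Sl E) (hT : Gp E T) (hψ : Reg ψ)
    (hroot : Tendsto (fun k : ℕ => ψ k / √k) atTop (𝓝 0))
    (hyp : ∀ τ : ℝ, 0 < τ → ∀ᶠ k : ℕ in atTop, k ∈ T →
      |(U (2 * k) - ψ (2 * k)) - 2 * (U k - ψ k)| ≤ τ * E k) {ε : ℝ} (hε : 0 < ε) :
    ∀ᶠ k : ℕ in atTop, |U k - ψ k| ≤ ε * E k := by
  have hlin : Tendsto (fun k : ℕ => (U k - ψ k) / k) atTop (𝓝 0) := by
    have h1 : Tendsto (fun k : ℕ => ψ k / k) atTop (𝓝 0) := by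
      refine squeeze_zero_norm' ?_ (tendsto_zero_iff_norm_tendsto_zero.1 hroot)
      filter_upwards [eventually_ge_atTop 1] with k hk
      have hk1 : (1 : ℝ) ≤ k := by exact_mod_cast hk
      have hs : 0 < √(k : ℝ) := by positivity
      rw [norm_div, norm_div, Real.norm_of_nonneg hs.le,
        Real.norm_of_nonneg (show (0 : ℝ) ≤ (k : ℝ) by linarith)]
      apply div_le_div_of_nonneg_left (norm_nonneg _) hs
      rw [Real.sqrt_le_left (by linarith)]
      nlinarith
    have h2 := hUs.sub h1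
    rw [sub_zero] at h2
    refine h2.congr fun k => ?_
    rw [sub_div]
  have hup : ∀ ε : ℝ, 0 < ε → ∀ᶠ k : ℕ in atTop, U k - ψ k ≤ ε * E k := fun ε hε =>
    upAll hD hU hE hT hψ (fun ε hε => upT hD hU hE hT hψ hlin hyp hε) hε
  have hdn : ∀ ε : ℝ, 0 < ε → ∀ᶠ k : ℕ in atTop, k ∈ T → -(ε * E k) ≤ U k - ψ k := fun ε hε =>
    dnT hD hU hU0 hE hT hψ hroot hyp hup hε
  obtain ⟨K0, hK0⟩ := eventually_atTop.1 ((hup (ε / 4) (by positivity)).and
    (hdn (ε / 4) (by positivity)))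
  filter_upwards [lb hD hU hE.toSc hT hψ (show 0 < ε / 4 by positivity), hup ε hε,
    eventually_ge_atTop (2 * K0 + 2), hE.three, small hE.toSc (show (0 : ℝ) < 1 by norm_num)]
    with x h1 h1' h2 h3 h4
  have hx0 : (0 : ℝ) < x := by exact_mod_cast (show 0 < x by omega)
  have hE1 := hE.one_le x (by omega)
  have near : ∀ s : ℕ, Near E x s → K0 ≤ s ∧ E s ≤ 11 / 10 * E x := by
    rintro s ⟨n1, n2⟩
    have h6 : s ≤ 3 * x := by
      have : (s : ℝ) ≤ 3 * x := by linarith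
      exact_mod_cast this
    have h7 : K0 ≤ s := by
      have : (x : ℝ) ≤ 2 * s := by linarith
      have : x ≤ 2 * s := by exact_mod_cast this
      omega
    exact ⟨h7, (hE.mono h6).trans h3⟩
  have h5 := h1 (ε / 4 * (11 / 10 * E x)) (ε / 4 * (11 / 10 * E x)) (by positivity)
    (by positivity) (by
    intro s hs hn
    obtain ⟨n1, n2⟩ := near s hn
    have h6 := (hK0 s n1).2 hs
    have h7 : ε / 4 * E s ≤ ε / 4 * (11 / 10 * E x) := by gcongr
    linarith) (by
    intro s hs hn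
    obtain ⟨n1, n2⟩ := near s hn
    have h6 := (hK0 s n1).1
    have h7 : ε / 4 * E s ≤ ε / 4 * (11 / 10 * E x) := by gcongr
    linarith)
  rw [abs_le]
  refine ⟨?_, h1'⟩
  have : 0 < ε * E x := by positivity
  linarith

end main

end Pool.Agent.R956.K10
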