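import Pool.Agent.R956.K9
import Pool.Agent.R956.K10

/-!
# The non-intersection probabilities along sparse lengths
-/

set_option autoImplicit false
set_option linter.unusedVariables false

namespace Pool.Agent.R956.K11

open Filter Topology
open Pool.Agent.Y943.SL (Wk)
open Pool.Agent.R956.K6 (Reg two_sqrt)

variable {c : ℕ → ℝ} {μ : ℝ}

/-- the logarithms at even lengths -/
noncomputable def U (c : ℕ → ℝ) (μ : ℝ) (k : ℕ) : ℝ := Real.log (c (2 * k) / μ ^ (2 * k))

lemma U_conv (C : Wk c μ) : ∃ D : ℝ, 0 ≤ D ∧ ∀ᶠ k : ℕ in atTop,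
    2 * U c μ (k + 1) ≤ U c μ k + U c μ (k + 2) + D / k := by
  obtain ⟨D, K⟩ := K3.kc C (show 0 ≤ 1 by norm_num)
  exact ⟨D, K.D0, K.conv⟩

lemma U_nonneg (C : Wk c μ) (k : ℕ) : 0 ≤ U c μ k := Real.log_nonneg (C.one_le _)

lemma U_small (C : Wk c μ) : Tendsto (fun k : ℕ => U c μ k / k) atTop (𝓝 0) := by
  have ht : Tendsto (fun k : ℕ => 2 * k) atTop atTop :=
    tendsto_atTop_mono (fun k => by simp only [id]; omega) tendsto_id
  have h := (C.sub.comp ht).const_mul 2
  rw [mul_zero] at h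
  refine h.congr fun k => ?_
  simp only [Function.comp_apply, U]
  push_cast
  ring

lemma psi_root (a b : ℝ) : Tendsto (fun k : ℕ => (a * Real.log k + b) / √(k : ℝ)) atTop (𝓝 0) := by
  have h1 : Tendsto (fun k : ℕ => Real.log (k : ℝ) / √(k : ℝ)) atTop (𝓝 0) := by
    have h := (isLittleO_log_rpow_atTop (show (0 : ℝ) < 1 / 2 by norm_num)).tendsto_div_nhds_zero.comp
      tendsto_natCast_atTop_atTop
    refine h.congr fun k => ?_
    simp only [Function.comp_apply]
    rw [Real.sqrt_eq_rpow]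
  have h2 : Tendsto (fun k : ℕ => b / √(k : ℝ)) atTop (𝓝 0) :=
    tendsto_const_nhds.div_atTop (Real.tendsto_sqrt_atTop.comp tendsto_natCast_atTop_atTop)
  have h := (h1.const_mul a).add h2
  rw [mul_zero, add_zero] at h
  refine h.congr fun k => ?_
  rw [add_div, mul_div_assoc]

lemma reg_psi (a b : ℝ) : Reg (fun k : ℕ => a * Real.log k + b) :=
  ⟨|a|, abs_nonneg a, fun m n hm hmn => K1.psi_diff a b hm hmn⟩

lemma log_three : Real.log 3 ≤ 2 := by
  rw [Real.log_le_iff_le_exp (by norm_num)]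
  have := Real.add_one_le_exp (2 : ℝ)
  linarith

lemma log_half {m k : ℕ} (hk : 1 ≤ k) (hmk : m / 2 = k) :
    Real.log k ≤ Real.log m ∧ Real.log m ≤ Real.log k + 2 := by
  have hk0 : (0 : ℝ) < k := by exact_mod_cast hk
  have hm0 : (0 : ℝ) < m := by exact_mod_cast (show 0 < m by omega)
  have hkm : (k : ℝ) ≤ m := by exact_mod_cast (show k ≤ m by omega)
  have hm3 : (m : ℝ) ≤ 3 * k := by exact_mod_cast (show m ≤ 3 * k by omega)
  refine ⟨Real.log_le_log hk0 hkm, ?_⟩
  have h4 := Real.log_le_log hm0 hm3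
  rw [Real.log_mul (by norm_num) hk0.ne'] at h4
  have := log_three
  linarith

/-- **exponents** -/
theorem expo (C : Wk c μ) {S : Set ℕ}
    (hS : ∀ δ : ℝ, 0 < δ → ∀ᶠ n : ℕ in atTop, ∃ m ∈ S, n ≤ m ∧
      (m : ℝ) ≤ n + δ * √(n * Real.log n)) {α : ℝ}
    (h1 : Tendsto (fun n : ℕ => Real.log (c (2 * n) / c n ^ 2) / Real.log n) (atTop ⊓ 𝓟 S)
      (𝓝 (-α))) :
    Tendsto (fun n : ℕ => Real.log (c n / μ ^ n) / Real.log n) atTop (𝓝 α) := by
  obtain ⟨D, hD, hU⟩ := U_conv C
  obtain ⟨B0, hst⟩ := C.par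
  have hb0 : 0 ≤ B0 := (abs_nonneg _).trans (hst 1 le_rfl)
  have ht : Tendsto (fun k : ℕ => 2 * k) atTop atTop :=
    tendsto_atTop_mono (fun k => by simp only [id]; omega) tendsto_id
  have main : ∀ ε : ℝ, 0 < ε → ∀ᶠ k : ℕ in atTop,
      |U c μ k - (α * Real.log k + 0)| ≤ ε * (1 + Real.log k) := fun ε hε =>
    K10.main hD hU (Eventually.of_forall (U_nonneg C)) (U_small C) K10.sl_log
    (T := {k | ∃ m ∈ S, m / 2 = k}) (fun δ hδ => by
      filter_upwards [ht.eventually (hS δ hδ), eventually_ge_atTop 3] with k hk hk1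
      obtain ⟨m, hmS, hm2, hm3⟩ := hk
      refine ⟨m / 2, ⟨m, hmS, rfl⟩, by omega, ?_⟩
      have h4 : ((m / 2 : ℕ) : ℝ) ≤ (m : ℝ) / 2 := Nat.cast_div_le
      have hk0 : (0 : ℝ) < k := by exact_mod_cast (show 0 < k by omega)
      have hl := K1.log_scale hk1
      have h5 : √(((2 * k : ℕ) : ℝ) * Real.log ((2 * k : ℕ) : ℝ)) ≤ 2 * √(k * (1 + Real.log k)) := by
        rw [two_sqrt]
        refine Real.sqrt_le_sqrt ?_
        push_cast
        rw [Real.log_mul (by norm_num) hk0.ne']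
        have := Real.log_two_lt_d9
        nlinarith
      have h6 := mul_le_mul_of_nonneg_left h5 hδ.le
      push_cast at hm3 h6
      linarith) (reg_psi α 0) (psi_root α 0) (fun τ hτ => by
      have h3 := Metric.tendsto_nhds.mp h1 (τ / 4) (by positivity)
      rw [eventually_inf_principal] at h3
      obtain ⟨N1, hN1⟩ := eventually_atTop.1 h3
      have hlog : ∀ᶠ k : ℕ in atTop, (4 * B0 + |α| * 4) / (τ / 2) ≤ Real.log k :=
        (Real.tendsto_log_atTop.comp tendsto_natCast_atTop_atTop).eventually_ge_atTop _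
      filter_upwards [eventually_ge_atTop (N1 + 3), hlog] with k hk hkl hkS
      obtain ⟨m, hmS, hmk⟩ := hkS
      have hk0 : (0 : ℝ) < k := by exact_mod_cast (show 0 < k by omega)
      have hl := K1.log_scale (show 3 ≤ k by omega)
      obtain ⟨hl1, hl2⟩ := log_half (show 1 ≤ k by omega) hmk
      have h4 := hN1 m (by omega) hmS
      rw [Real.dist_eq] at h4
      have h5 : |Real.log (c (2 * m) / c m ^ 2) + α * Real.log m| ≤ τ / 4 * Real.log m := by
        have e : Real.log (c (2 * m) / c m ^ 2) + α * Real.log m =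
            (Real.log (c (2 * m) / c m ^ 2) / Real.log m - -α) * Real.log m := by
          have : Real.log (m : ℝ) ≠ 0 := by linarith
          field_simp
          ring
        rw [e, abs_mul, abs_of_pos (show 0 < Real.log (m : ℝ) by linarith)]
        exact mul_le_mul_of_nonneg_right h4.le (by linarith)
      rw [K8.log_P C] at h5
      have h6 : |Real.log (c (2 * m) / μ ^ (2 * m)) - U c μ (2 * k)| ≤ 2 * B0 := by
        unfold U
        rcases (show m = 2 * k ∨ m = 2 * k + 1 by omega) with h | h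
        · rw [h, sub_self, abs_zero]
          linarith
        · rw [h, show 2 * (2 * k + 1) = 2 * (2 * k) + 1 + 1 by ring]
          have a1 := hst (2 * (2 * k)) (by omega)
          have a2 := hst (2 * (2 * k) + 1) (by omega)
          have := abs_sub_le (Real.log (c (2 * (2 * k) + 1 + 1) / μ ^ (2 * (2 * k) + 1 + 1)))
            (Real.log (c (2 * (2 * k) + 1) / μ ^ (2 * (2 * k) + 1)))
            (Real.log (c (2 * (2 * k)) / μ ^ (2 * (2 * k))))
          linarith
      have h7 : |Real.log (c m / μ ^ m) - U c μ k| ≤ B0 := by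
        unfold U
        rcases (show m = 2 * k ∨ m = 2 * k + 1 by omega) with h | h
        · rw [h, sub_self, abs_zero]
          exact hb0
        · rw [h]
          exact hst (2 * k) (by omega)
      have h8 : |α * Real.log m - α * Real.log k| ≤ |α| * 2 := by
        rw [← mul_sub, abs_mul]
        refine mul_le_mul_of_nonneg_left ?_ (abs_nonneg α)
        rw [abs_le]
        constructor <;> linarith
      have h9 : |α * Real.log 2| ≤ |α| * 1 := by
        rw [abs_mul]
        refine mul_le_mul_of_nonneg_left ?_ (abs_nonneg α)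
        have h01 : 0 < Real.log 2 := Real.log_pos (by norm_num)
        have h02 := Real.log_two_lt_d9
        rw [abs_of_pos h01]
        linarith
      have e : (U c μ (2 * k) - (α * Real.log ((2 * k : ℕ) : ℝ) + 0)) -
          2 * (U c μ k - (α * Real.log k + 0)) =
          (Real.log (c (2 * m) / μ ^ (2 * m)) + -2 * Real.log (c m / μ ^ m) + α * Real.log m) -
          (Real.log (c (2 * m) / μ ^ (2 * m)) - U c μ (2 * k)) +
          2 * (Real.log (c m / μ ^ m) - U c μ k) -
          (α * Real.log m - α * Real.log k) - α * Real.log 2 := by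
        push_cast
        rw [Real.log_mul (by norm_num) hk0.ne']
        ring
      rw [e]
      have h10 : τ / 4 * Real.log m ≤ τ / 4 * (Real.log k + 2) := by gcongr
      rw [div_le_iff₀ (by positivity)] at hkl
      have h11 := abs_nonneg α
      rw [abs_le] at h5 h6 h7 h8 h9 ⊢
      constructor
      · nlinarith [h5.1, h6.2, h7.1, h8.2, h9.2]
      · nlinarith [h5.2, h6.1, h7.2, h8.1, h9.1]) hε
  rw [Metric.tendsto_nhds]
  intro ε hε
  obtain ⟨N1, hN1⟩ := eventually_atTop.1 (main (ε / 4) (by positivity))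
  filter_upwards [eventually_ge_atTop (2 * N1 + 6), (Real.tendsto_log_atTop.comp
      tendsto_natCast_atTop_atTop).eventually_ge_atTop ((4 * |α| + 2 * B0) / ε + 2)] with n hn1 hnl
  obtain ⟨k, hk⟩ : ∃ k, n / 2 = k := ⟨_, rfl⟩
  have h4 := hN1 k (by omega)
  have hl := K1.log_scale (show 3 ≤ k by omega)
  obtain ⟨hl1, hl2⟩ := log_half (show 1 ≤ k by omega) hk
  simp only [Function.comp_apply] at hnl
  have hln : 0 < Real.log (n : ℝ) := by linarith
  have h7 : |Real.log (c n / μ ^ n) - U c μ k| ≤ B0 := by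
    unfold U
    rcases (show n = 2 * k ∨ n = 2 * k + 1 by omega) with h | h
    · rw [h, sub_self, abs_zero]
      exact hb0
    · rw [h]
      exact hst (2 * k) (by omega)
  have h8 : |α * Real.log k - α * Real.log n| ≤ |α| * 2 := by
    rw [← mul_sub, abs_mul]
    refine mul_le_mul_of_nonneg_left ?_ (abs_nonneg α)
    rw [abs_le]
    constructor <;> linarith
  rw [Real.dist_eq]
  have e : Real.log (c n / μ ^ n) / Real.log n - α =
      (Real.log (c n / μ ^ n) - α * Real.log n) / Real.log n := by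
    field_simp
  rw [e, abs_div, abs_of_pos hln, div_lt_iff₀ hln]
  have h9 : 4 * |α| + 2 * B0 + 2 * ε ≤ ε * Real.log n := by
    have := mul_le_mul_of_nonneg_left hnl hε.le
    have e2 : ε * ((4 * |α| + 2 * B0) / ε + 2) = 4 * |α| + 2 * B0 + 2 * ε := by field_simp
    rwa [e2] at this
  have a1 := abs_sub_le (Real.log (c n / μ ^ n)) (U c μ k) (α * Real.log n)
  have a2 := abs_sub_le (U c μ k) (α * Real.log k + 0) (α * Real.log n)
  rw [add_zero] at a2 h4
  nlinarith

/-- **forms** -/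
theorem form (C : Wk c μ) {S : Set ℕ} (hev : ∀ m ∈ S, Even m)
    (hS : ∀ δ : ℝ, 0 < δ → ∀ᶠ n : ℕ in atTop, ∃ m ∈ S, n ≤ m ∧ (m : ℝ) ≤ n + δ * √(n : ℝ))
    {α B : ℝ} (hB : 0 < B)
    (h1 : Tendsto (fun n : ℕ => c (2 * n) / c n ^ 2 * (n : ℝ) ^ α) (atTop ⊓ 𝓟 S) (𝓝 B)) :
    Tendsto (fun k : ℕ => c (2 * k) / μ ^ (2 * k) / ((2 * k : ℕ) : ℝ) ^ α) atTop
      (𝓝 (2 ^ α / B)) ∧
    Tendsto (fun k : ℕ => c (2 * (2 * k)) / c (2 * k) ^ 2 * ((2 * k : ℕ) : ℝ) ^ α) atTop (𝓝 B) := by
  obtain ⟨D, hD, hU⟩ := U_conv C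
  have ht : Tendsto (fun k : ℕ => 2 * k) atTop atTop :=
    tendsto_atTop_mono (fun k => by simp only [id]; omega) tendsto_id
  obtain ⟨β, hβ⟩ : ∃ β : ℝ, β = 2 * α * Real.log 2 - Real.log B := ⟨_, rfl⟩
  have main : ∀ ε : ℝ, 0 < ε → ∀ᶠ k : ℕ in atTop,
      |U c μ k - (α * Real.log k + β)| ≤ ε * 1 := fun ε hε =>
    K10.main hD hU (Eventually.of_forall (U_nonneg C)) (U_small C) K10.sl_one
    (T := {k | 2 * k ∈ S}) (fun δ hδ => by
      filter_upwards [ht.eventually (hS δ hδ), eventually_ge_atTop 1] with k hk hk1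
      obtain ⟨m, hmS, hm2, hm3⟩ := hk
      obtain ⟨j, hj⟩ := hev m hmS
      obtain rfl : m = 2 * j := by omega
      refine ⟨j, hmS, by omega, ?_⟩
      have h5 : √((2 * k : ℕ) : ℝ) ≤ 2 * √(k : ℝ) := by
        rw [two_sqrt]
        refine Real.sqrt_le_sqrt ?_
        exact_mod_cast (show 2 * k ≤ 4 * k by omega)
      have h6 := mul_le_mul_of_nonneg_left h5 hδ.le
      rw [mul_one]
      push_cast at hm3 h6
      linarith) (reg_psi α β) (psi_root α β) (fun τ hτ => by
      have h2 : Tendsto (fun n : ℕ => Real.log (c (2 * n) / c n ^ 2 * (n : ℝ) ^ α)) (atTop ⊓ 𝓟 S)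
        (𝓝 (Real.log B)) := (Real.continuousAt_log hB.ne').tendsto.comp h1
      have h3 := Metric.tendsto_nhds.mp h2 τ hτ
      rw [eventually_inf_principal] at h3
      filter_upwards [ht.eventually h3, eventually_ge_atTop 1] with k h5 hk1 hkS
      have h7 := h5 hkS
      have hk0 : (0 : ℝ) < k := by exact_mod_cast hk1
      have hn0 : (0 : ℝ) < ((2 * k : ℕ) : ℝ) := by exact_mod_cast (show 0 < 2 * k by omega)
      have hP : 0 < c (2 * (2 * k)) / c (2 * k) ^ 2 :=
        div_pos (C.cpos _) (pow_pos (C.cpos _) 2)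
      rw [Real.dist_eq, Real.log_mul hP.ne' (Real.rpow_pos_of_pos hn0 _).ne',
        Real.log_rpow hn0, K8.log_P C] at h7
      have e : (U c μ (2 * k) - (α * Real.log ((2 * k : ℕ) : ℝ) + β)) -
          2 * (U c μ k - (α * Real.log k + β)) =
          Real.log (c (2 * (2 * k)) / μ ^ (2 * (2 * k))) + -2 * Real.log (c (2 * k) / μ ^ (2 * k)) +
          α * Real.log ((2 * k : ℕ) : ℝ) - Real.log B := by
        unfold U
        rw [hβ]
        push_cast
        rw [Real.log_mul (by norm_num) hk0.ne']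
        ring
      rw [e, mul_one]
      exact h7.le) hε
  have hlim : Tendsto (fun k : ℕ => U c μ k - (α * Real.log k + β)) atTop (𝓝 0) := by
    rw [Metric.tendsto_nhds]
    intro ε hε
    filter_upwards [main (ε / 2) (by positivity)] with k hk
    rw [dist_zero_right, Real.norm_eq_abs]
    linarith
  have f1 : Tendsto (fun k : ℕ => c (2 * k) / μ ^ (2 * k) / ((2 * k : ℕ) : ℝ) ^ α) atTop
      (𝓝 (2 ^ α / B)) := by
    have h2 := ((Real.continuous_exp.tendsto 0).comp hlim).mul_const (2 ^ α / B)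
    rw [Real.exp_zero, one_mul] at h2
    refine h2.congr' ?_
    filter_upwards [eventually_ge_atTop 1] with k hk
    have hk0 : (0 : ℝ) < k := by exact_mod_cast hk
    have hn0 : (0 : ℝ) < ((2 * k : ℕ) : ℝ) := by exact_mod_cast (show 0 < 2 * k by omega)
    simp only [Function.comp_apply]
    unfold U
    rw [Real.exp_sub, Real.exp_add, Real.exp_log (C.pos _), mul_comm α, ← Real.rpow_def_of_pos hk0,
      hβ, Real.exp_sub, Real.exp_log hB, show 2 * α * Real.log 2 = Real.log 2 * (α + α) by ring,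
      ← Real.rpow_def_of_pos (by norm_num), Real.rpow_add (by norm_num)]
    push_cast
    rw [Real.mul_rpow (by norm_num) hk0.le]
    have h3 := Real.rpow_pos_of_pos (show (0 : ℝ) < 2 by norm_num) α
    have h4 := Real.rpow_pos_of_pos hk0 α
    field_simp
  refine ⟨f1, ?_⟩
  have f2 := f1.comp ht
  have f3 := (f2.div (f1.pow 2) (by positivity)).const_mul (2 ^ α)
  have e : (2 : ℝ) ^ α * (2 ^ α / B / (2 ^ α / B) ^ 2) = B := by
    have h3 := Real.rpow_pos_of_pos (show (0 : ℝ) < 2 by norm_num) α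
    field_simp
  rw [e] at f3
  refine f3.congr' ?_
  filter_upwards [eventually_ge_atTop 1] with k hk
  have hk0 : (0 : ℝ) < k := by exact_mod_cast hk
  have hn0 : (0 : ℝ) < ((2 * k : ℕ) : ℝ) := by exact_mod_cast (show 0 < 2 * k by omega)
  have hμ := C.hμ
  have p1 := C.cpos (2 * k)
  show 2 ^ α * (c (2 * (2 * k)) / μ ^ (2 * (2 * k)) / ((2 * (2 * k) : ℕ) : ℝ) ^ α /
    (c (2 * k) / μ ^ (2 * k) / ((2 * k : ℕ) : ℝ) ^ α) ^ 2) = _
  rw [show ((2 * (2 * k) : ℕ) : ℝ) = 2 * ((2 * k : ℕ) : ℝ) by push_cast; ring,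
    Real.mul_rpow (by norm_num) hn0.le, show μ ^ (2 * (2 * k)) = (μ ^ (2 * k)) ^ 2 by
      rw [← pow_mul]; ring_nf]
  have h3 := Real.rpow_pos_of_pos (show (0 : ℝ) < 2 by norm_num) α
  have h4 := Real.rpow_pos_of_pos hn0 α
  have h5 := pow_pos hμ (2 * k)
  field_simp

end Pool.Agent.R956.K11
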