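import Pool.Agent.R956.K11

/-!
# Nearly convex sequences without a sign condition and a doubling relation along a sparse set
-/

set_option autoImplicit false
set_option linter.unusedVariables false

namespace Pool.Agent.R956.K12

open Filter Topology
open Pool.Agent.R956.K6 (Reg two_sqrt)
open Pool.Agent.R956.K10

variable {U ψ E : ℕ → ℝ} {D : ℝ} {T : Set ℕ}

/-- lower bounds at all points from lower bounds along `T` and upper bounds everywhere; the loss is
of order `√(E B)` -/
lemma lb' (hD : 0 ≤ D) (hU : ∀ᶠ k : ℕ in atTop, 2 * U (k + 1) ≤ U k + U (k + 2) + D / k)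
    (hE : K1.Sc E) (hT : Gp E T) (hψ : Reg ψ)
    (hup : ∀ᶠ k : ℕ in atTop, U k - ψ k ≤ E k) {κ : ℝ} (hκ : 0 < κ) :
    ∀ᶠ x : ℕ in atTop, ∀ b : ℝ, 0 ≤ b → b + E x ≤ x / 16 →
      (∀ s ∈ T, s ≤ x → 2 * x ≤ 3 * s → -b ≤ U s - ψ s) →
      -(b + κ * √(E x * (b + E x)) + κ) ≤ U x - ψ x := by
  obtain ⟨A, hA, hψ⟩ := hψ
  obtain ⟨N1, hN1⟩ := eventually_atTop.1 hU
  obtain ⟨N2, hN2⟩ := eventually_atTop.1 hup
  obtain ⟨δ, hδ⟩ : ∃ δ : ℝ, δ = min (1 / 20) (κ / (64 * (D + A + 1))) := ⟨_, rfl⟩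
  have hδ0 : 0 < δ := by rw [hδ]; positivity
  have hδ1 : δ ≤ 1 / 20 := by rw [hδ]; exact min_le_left _ _
  have hδ2 : 64 * (D + A + 1) * δ ≤ κ := by
    have h1 : δ ≤ κ / (64 * (D + A + 1)) := by rw [hδ]; exact min_le_right _ _
    rw [le_div_iff₀ (by positivity)] at h1
    linarith
  filter_upwards [around hE hT hδ0 hδ1, small hE (show (0 : ℝ) < 1 / 4 by norm_num),
    small hE (show (0 : ℝ) < κ / (4 * (A + 1)) by positivity), eventually_ge_atTop (4 * N1 + 4 * N2 + 16)]
    with x h1 h2 h2' h3 b hb0 hbx hb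
  obtain ⟨s, -, hsT, -, hsx, -, hs2, -⟩ := h1
  have hx0 : (0 : ℝ) < x := by exact_mod_cast (show 0 < x by omega)
  have hx16 : (16 : ℝ) ≤ x := by exact_mod_cast (show 16 ≤ x by omega)
  obtain ⟨q, hq⟩ : ∃ q : ℝ, q = √(x * E x) := ⟨_, rfl⟩
  have hE1 := hE.one_le x (by omega)
  have hE0 : 0 < E x := by linarith
  have hq0 : 0 < q := by rw [hq]; positivity
  have hqq : q ^ 2 = x * E x := by rw [hq, Real.sq_sqrt (by positivity)]
  rw [← hq] at h2 h2' hs2
  obtain ⟨B, hB⟩ : ∃ B : ℝ, B = b + E x := ⟨_, rfl⟩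
  have hB1 : 1 ≤ B := by linarith
  rw [← hB] at hbx ⊢
  -- the step `u`
  obtain ⟨p, hp⟩ : ∃ p : ℝ, p = √(x * B) := ⟨_, rfl⟩
  have hp0 : 0 < p := by rw [hp]; positivity
  have hpp : p ^ 2 = x * B := by rw [hp, Real.sq_sqrt (by positivity)]
  have hpx : p ≤ x / 4 := by
    rw [hp, Real.sqrt_le_left (by positivity)]
    have := mul_le_mul_of_nonneg_left hbx hx0.le
    have e : (x : ℝ) * (x / 16) = (x / 4) ^ 2 := by ring
    linarith
  have hp1 : 1 ≤ p := by
    rw [hp]
    apply Real.le_sqrt_of_sq_le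
    have : 1 * 1 ≤ (x : ℝ) * B := mul_le_mul (by linarith) hB1 (by norm_num) hx0.le
    linarith
  obtain ⟨u, hu⟩ : ∃ u : ℕ, u = ⌈p⌉₊ := ⟨_, rfl⟩
  have hu1 : p ≤ u := by rw [hu]; exact Nat.le_ceil p
  have hu2 : (u : ℝ) ≤ 2 * p := by
    have := (Nat.ceil_lt_add_one (show 0 ≤ p by linarith)).le
    rw [hu]
    linarith
  have hu3 : (u : ℝ) ≤ x / 4 + 1 := by
    have := (Nat.ceil_lt_add_one (show 0 ≤ p by linarith)).le
    rw [hu]
    linarith
  have hu0 : (0 : ℝ) < u := by linarith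
  have hs3 : (x : ℝ) - s ≤ 2 * δ * q := by linarith
  have hs4 : (x : ℝ) ≤ s + x / 40 := by
    have : 2 * δ * q ≤ 2 * (1 / 20) * (1 / 4 * x) := by gcongr
    linarith
  have hus : u ≤ s := by
    have : (u : ℝ) ≤ s := by linarith
    exact_mod_cast this
  obtain ⟨m, hm⟩ : ∃ m, s = m + u := ⟨s - u, by omega⟩
  have hmx : (x : ℝ) / 2 ≤ m := by
    have : (s : ℝ) = m + u := by rw [hm]; push_cast; ring
    linarith
  have hm0 : (0 : ℝ) < m := by linarith
  have hm1 : x ≤ 2 * m := by
    have : (x : ℝ) ≤ 2 * m := by linarith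
    exact_mod_cast this
  obtain ⟨t, ht⟩ : ∃ t, x = s + t := ⟨x - s, by omega⟩
  have ht0 : (0 : ℝ) ≤ t := Nat.cast_nonneg t
  have ht1 : (t : ℝ) ≤ 2 * δ * q := by
    have : (x : ℝ) = s + t := by rw [ht]; push_cast; ring
    linarith
  have hs0 : (0 : ℝ) < s := by linarith
  have hsm : (m : ℝ) ≤ s := by exact_mod_cast (show m ≤ s by omega)
  -- the inequalities
  have g1 := dn hD hN1 (show N1 + 1 ≤ m by omega) u
  rw [← hm] at g1
  have g2 := up hD hN1 (show N1 + 1 ≤ s by omega) t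
  rw [← ht] at g2
  have g3 := hb s hsT hsx (by
    have : 2 * (x : ℝ) ≤ 3 * s := by linarith
    exact_mod_cast this)
  have g4 := hN2 m (by omega)
  have g5 : E m ≤ E x := hE.mono (by omega)
  have g6 := hψ m s (by omega) (by omega)
  have g7 := hψ s x (by omega) hsx
  have hxs : (x : ℝ) = s + t := by rw [ht]; push_cast; ring
  have hsmu : (s : ℝ) = m + u := by rw [hm]; push_cast; ring
  have g8 : A * ((s : ℝ) - m) / m ≤ 2 * A * u / x := by
    rw [hsmu, div_le_div_iff₀ hm0 hx0]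
    have : A * u * x ≤ A * u * (2 * m) := by
      apply mul_le_mul_of_nonneg_left _ (by positivity)
      linarith
    have e : A * ((m : ℝ) + u - m) * x = A * u * x := by ring
    have e' : 2 * A * u * (m : ℝ) = A * u * (2 * m) := by ring
    rw [e, e']
    exact this
  have g9 : A * ((x : ℝ) - s) / s ≤ κ / 4 := by
    rw [div_le_iff₀ hs0, hxs]
    have e1 : A * t ≤ A * (2 * δ * q) := by gcongr
    have e2 : A * (2 * δ * q) ≤ A * (2 * (1 / 20) * (κ / (4 * (A + 1)) * x)) := by gcongr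
    have e3 : A * (2 * (1 / 20) * (κ / (4 * (A + 1)) * x)) = A / (A + 1) * (κ / 40 * x) := by
      field_simp
      ring
    have e4 : A / (A + 1) * (κ / 40 * x) ≤ 1 * (κ / 40 * x) := by
      have : A / (A + 1) ≤ 1 := by rw [div_le_one (by positivity)]; linarith
      gcongr
    have e5 : κ / 40 * x ≤ κ / 4 * s := by
      have : κ / 40 * x ≤ κ / 40 * (2 * s) := by
        apply mul_le_mul_of_nonneg_left _ (by positivity)
        linarith
      have h0 : 0 ≤ κ * s := by positivity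
      linarith
    have e6 : A * ((s : ℝ) + t - s) = A * t := by ring
    rw [e6]
    linarith
  -- the slope at `s`
  obtain ⟨σ, hσ⟩ : ∃ σ : ℝ, σ = U (s + 1) - U s := ⟨_, rfl⟩
  rw [← hσ] at g1 g2
  have k1 : -(B + 2 * A * u / x + 2 * D * (u : ℝ) ^ 2 / x) ≤ u * σ := by
    have e1 : D * (u : ℝ) ^ 2 / m ≤ 2 * D * (u : ℝ) ^ 2 / x := by
      rw [div_le_div_iff₀ hm0 hx0]
      have : D * (u : ℝ) ^ 2 * x ≤ D * (u : ℝ) ^ 2 * (2 * m) := by
        apply mul_le_mul_of_nonneg_left _ (by positivity)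
        linarith
      have e' : 2 * D * (u : ℝ) ^ 2 * m = D * (u : ℝ) ^ 2 * (2 * m) := by ring
      rw [e']
      exact this
    have e2 := (abs_le.1 g6).1
    linarith
  -- hence a lower bound for `t σ`
  have k2 : -((B + 2 * A * u / x + 2 * D * (u : ℝ) ^ 2 / x) * (2 * δ * q) / p) ≤ t * σ := by
    rcases le_or_gt 0 σ with h | h
    · have h1 : 0 ≤ t * σ := mul_nonneg ht0 h
      have h2 : 0 ≤ (B + 2 * A * u / x + 2 * D * (u : ℝ) ^ 2 / x) * (2 * δ * q) / p := by positivity
      linarith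
    · have h1 : (2 * δ * q) * σ ≤ t * σ := mul_le_mul_of_nonpos_right ht1 h.le
      have h2 : u * σ ≤ p * σ := mul_le_mul_of_nonpos_right hu1 h.le
      have h3 : -(B + 2 * A * u / x + 2 * D * (u : ℝ) ^ 2 / x) ≤ p * σ := k1.trans h2
      have h4 := mul_le_mul_of_nonneg_right h3 (show 0 ≤ 2 * δ * q / p by positivity)
      have e : p * σ * (2 * δ * q / p) = 2 * δ * q * σ := by field_simp
      rw [e] at h4
      have e' : -(B + 2 * A * u / x + 2 * D * (u : ℝ) ^ 2 / x) * (2 * δ * q / p) =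
        -((B + 2 * A * u / x + 2 * D * (u : ℝ) ^ 2 / x) * (2 * δ * q) / p) := by ring
      rw [e'] at h4
      linarith
  -- the size of the loss
  have k3 : B + 2 * A * u / x + 2 * D * (u : ℝ) ^ 2 / x ≤ 8 * (D + A + 1) * B := by
    have e1 : 2 * D * (u : ℝ) ^ 2 / x ≤ 8 * D * B := by
      rw [div_le_iff₀ hx0]
      have : (u : ℝ) ^ 2 ≤ (2 * p) ^ 2 := by gcongr
      calc 2 * D * (u : ℝ) ^ 2 ≤ 2 * D * (2 * p) ^ 2 := by gcongr
        _ = 8 * D * p ^ 2 := by ring
        _ = 8 * D * B * x := by rw [hpp]; ring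
    have e2 : 2 * A * u / x ≤ 2 * A * B := by
      rw [div_le_iff₀ hx0]
      have h1 : 1 * (x : ℝ) ≤ B * x := mul_le_mul_of_nonneg_right hB1 hx0.le
      have : (u : ℝ) ≤ B * x := by linarith
      calc 2 * A * u ≤ 2 * A * (B * x) := by gcongr
        _ = _ := by ring
    have : 0 ≤ A * B := by positivity
    have e3 : 8 * (D + A + 1) * B = 8 * D * B + 8 * (A * B) + 8 * B := by ring
    have e4 : 2 * A * B = 2 * (A * B) := by ring
    rw [e4] at e2
    rw [e3]
    linarith
  have k4 : q * B / p = √(E x * B) := by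
    rw [div_eq_iff hp0.ne', hp, ← Real.sqrt_mul (by positivity)]
    have e : E x * B * (x * B) = (x * E x) * B ^ 2 := by ring
    rw [e, Real.sqrt_mul (by positivity), Real.sqrt_sq (by linarith), hq]
  have k5 : (B + 2 * A * u / x + 2 * D * (u : ℝ) ^ 2 / x) * (2 * δ * q) / p ≤
      κ / 4 * √(E x * B) := by
    rw [← k4]
    calc _ ≤ (8 * (D + A + 1) * B) * (2 * δ * q) / p := by gcongr
      _ = (64 * (D + A + 1) * δ) / 4 * (q * B / p) := by ring
      _ ≤ κ / 4 * (q * B / p) := by gcongr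
  have k6 : D * (t : ℝ) ^ 2 / s ≤ κ / 4 * √(E x * B) := by
    have e0 : E x ≤ √(E x * B) := by
      apply Real.le_sqrt_of_sq_le
      rw [sq]
      apply mul_le_mul_of_nonneg_left _ hE0.le
      linarith
    rw [div_le_iff₀ hs0]
    have e1 : D * (t : ℝ) ^ 2 ≤ D * (2 * δ * q) ^ 2 := by gcongr
    have e2 : D * (2 * δ * q) ^ 2 = (D * δ) * δ * 4 * (x * E x) := by rw [← hqq]; ring
    have e3 : D * δ ≤ κ / 64 := by
      have : 0 ≤ A * δ := by positivity
      have e : 64 * (D + A + 1) * δ = 64 * (D * δ) + 64 * (A * δ) + 64 * δ := by ring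
      rw [e] at hδ2
      linarith
    have e4 : (D * δ) * δ * 4 * (x * E x) ≤ (κ / 64) * (1 / 20) * 4 * (x * E x) := by gcongr
    have e5 : (κ / 64) * (1 / 20) * 4 * (x * E x) ≤ κ / 4 * √(E x * B) * s := by
      have f1 : (x : ℝ) * E x ≤ (2 * s) * √(E x * B) := by
        apply mul_le_mul (by linarith) e0 hE0.le (by linarith)
      have f2 : 0 ≤ κ * (√(E x * B) * s) := by positivity
      have f3 := mul_le_mul_of_nonneg_left f1 hκ.le
      have f4 : κ * ((2 * s) * √(E x * B)) = 2 * (κ * (√(E x * B) * s)) := by ring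
      have f5 : (κ / 64) * (1 / 20) * 4 * (x * E x) = 1 / 320 * (κ * (x * E x)) := by ring
      have f6 : κ / 4 * √(E x * B) * s = 1 / 4 * (κ * (√(E x * B) * s)) := by ring
      rw [f4] at f3
      rw [f5, f6]
      linarith
    linarith
  have e7 := (abs_le.1 g7).2
  have hκ4 : 0 ≤ κ * √(E x * B) := by positivity
  linarith

/-- lower bounds along `T` -/
theorem dnT' (hD : 0 ≤ D) (hU : ∀ᶠ k : ℕ in atTop, 2 * U (k + 1) ≤ U k + U (k + 2) + D / k)
    (hE : Sl E) (hT : Gp E T) (hψ : Reg ψ)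
    (hlin : Tendsto (fun k : ℕ => (U k - ψ k) / k) atTop (𝓝 0))
    (hyp : ∀ τ : ℝ, 0 < τ → ∀ᶠ k : ℕ in atTop, k ∈ T →
      |(U (2 * k) - ψ (2 * k)) - 2 * (U k - ψ k)| ≤ τ * E k)
    (hup : ∀ ε : ℝ, 0 < ε → ∀ᶠ k : ℕ in atTop, U k - ψ k ≤ ε * E k) {ε : ℝ} (hε : 0 < ε)
    (hε1 : ε ≤ 1) :
    ∀ᶠ k : ℕ in atTop, k ∈ T → -(ε * E k) ≤ U k - ψ k := by
  have ht : Tendsto (fun k : ℕ => 2 * k) atTop atTop :=
    tendsto_atTop_mono (fun k => by simp only [id]; omega) tendsto_id
  have hup1 : ∀ᶠ k : ℕ in atTop, U k - ψ k ≤ E k := by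
    filter_upwards [hup 1 one_pos] with k hk
    linarith
  obtain ⟨K0, hK0⟩ := eventually_atTop.1 (((ht.eventually (lb' hD hU hE.toSc hT hψ hup1
    (show 0 < ε / 100 by positivity))).and (hyp (ε / 8) (by positivity))).and
    (hE.three.and (hE.small.eventually_lt_const (show (0 : ℝ) < 1 / 400 by norm_num))))
  filter_upwards [eventually_ge_atTop (K0 + 1)] with k hk hkT
  -- the claim with a linear term
  have claim : ∀ lam : ℝ, 0 < lam → lam ≤ 1 / 100 →
      -(ε * E k + lam * k + √(lam * (k * E k))) ≤ U k - ψ k := by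
    intro lam hlam hlam1
    obtain ⟨K1, hK1⟩ := eventually_atTop.1 (hlin.eventually_const_lt (show -lam < 0 by linarith))
    have base : ∀ k : ℕ, K1 ≤ k → K0 + 1 ≤ k →
        -(ε * E k + lam * k + √(lam * (k * E k))) ≤ U k - ψ k := by
      intro k h1 h2
      have hk0 : (0 : ℝ) < k := by exact_mod_cast (show 0 < k by omega)
      have h3 := hK1 k h1
      rw [lt_div_iff₀ hk0] at h3
      have h4 : 0 ≤ ε * E k := mul_nonneg hε.le (zero_le_one.trans (hE.one_le k (by omega)))
      have h5 : 0 ≤ √(lam * (k * E k)) := Real.sqrt_nonneg _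
      linarith
    have ind : ∀ n k : ℕ, K1 ≤ k + n → K0 + 1 ≤ k → k ∈ T →
        -(ε * E k + lam * k + √(lam * (k * E k))) ≤ U k - ψ k := by
      intro n
      induction n with
      | zero =>
        intro k h1 h2 _
        exact base k (by omega) h2
      | succ n ih =>
        intro k h1 h2 hkT
        rcases Nat.lt_or_ge k K1 with hlt | hge
        swap
        · exact base k hge h2
        have hk0 : (0 : ℝ) < k := by exact_mod_cast (show 0 < k by omega)
        obtain ⟨⟨g1, g2⟩, g3, g4⟩ := hK0 k (by omega)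
        have g2 := g2 hkT
        have hE1 := hE.one_le k (by omega)
        have hE2 : 1 ≤ E (2 * k) := hE.one_le (2 * k) (by omega)
        have hE3 : E (2 * k) ≤ 11 / 10 * E k := (hE.mono (by omega)).trans g3
        rw [div_lt_iff₀ hk0] at g4
        obtain ⟨w, hw⟩ : ∃ w : ℝ, w = √(lam * (k * E k)) := ⟨_, rfl⟩
        have hw0 : 0 ≤ w := by rw [hw]; exact Real.sqrt_nonneg _
        have hww : w ^ 2 = lam * (k * E k) := by rw [hw, Real.sq_sqrt (by positivity)]
        have hwk : w ≤ k / 100 := by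
          rw [hw, Real.sqrt_le_left (by positivity)]
          calc lam * (k * E k) ≤ 1 / 100 * (k * (1 / 400 * k)) := by gcongr
            _ ≤ ((k : ℝ) / 100) ^ 2 := by
              have : 0 < (k : ℝ) ^ 2 := by positivity
              nlinarith
        have hlk : lam * k ≤ 1 / 100 * k := by gcongr
        have hlk0 : 0 ≤ lam * k := by positivity
        have hεE : 0 ≤ ε * E k := by positivity
        have hεE1 : ε * E k ≤ E k := by
          have := mul_le_mul_of_nonneg_right hε1 (show 0 ≤ E k by linarith)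
          linarith
        rw [← hw]
        have g5 := g1 (11 / 10 * (ε * E k) + 2 * (lam * k) + 3 / 2 * w) (by positivity) (by
          push_cast
          linarith) (by
          intro s hs hs2 hs3
          have h6 := ih s (by omega) (by omega) hs
          have h7 : E s ≤ 11 / 10 * E k := (hE.mono (show s ≤ 3 * k by omega)).trans g3
          have h7' : 0 ≤ E s := zero_le_one.trans (hE.one_le s (by omega))
          have h8 : ε * E s ≤ ε * (11 / 10 * E k) := by gcongr
          have hs4 : (s : ℝ) ≤ 2 * k := by exact_mod_cast hs2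
          have h9 : lam * s ≤ lam * (2 * k) := by gcongr
          have h10 : √(lam * (s * E s)) ≤ 3 / 2 * w := by
            rw [Real.sqrt_le_left (by positivity), mul_pow, hww]
            calc lam * (s * E s) ≤ lam * (2 * k * (11 / 10 * E k)) := by gcongr
              _ = 22 / 10 * (lam * (k * E k)) := by ring
              _ ≤ (3 / 2) ^ 2 * (lam * (k * E k)) := by
                have : 0 ≤ lam * (k * E k) := by positivity
                nlinarith
          linarith)
        have g6 : √(E (2 * k) * (11 / 10 * (ε * E k) + 2 * (lam * k) + 3 / 2 * w + E (2 * k))) ≤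
            2 * (E k + w) := by
          rw [Real.sqrt_le_left (by positivity)]
          have e1 : 11 / 10 * (ε * E k) + 2 * (lam * k) + 3 / 2 * w + E (2 * k) ≤
              22 / 10 * E k + 2 * (lam * k) + 3 / 2 * w := by linarith
          calc E (2 * k) * (11 / 10 * (ε * E k) + 2 * (lam * k) + 3 / 2 * w + E (2 * k))
              ≤ (11 / 10 * E k) * (22 / 10 * E k + 2 * (lam * k) + 3 / 2 * w) := by gcongr
            _ = 242 / 100 * E k ^ 2 + 22 / 10 * (lam * (k * E k)) + 165 / 100 * (E k * w) := by ring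
            _ = 242 / 100 * E k ^ 2 + 22 / 10 * w ^ 2 + 165 / 100 * (E k * w) := by rw [hww]
            _ ≤ (2 * (E k + w)) ^ 2 := by
              have a1 : 0 ≤ E k * w := by positivity
              have a2 : 0 ≤ w ^ 2 := by positivity
              have a3 : 0 ≤ E k ^ 2 := by positivity
              have e : (2 * (E k + w)) ^ 2 = 4 * E k ^ 2 + 8 * (E k * w) + 4 * w ^ 2 := by ring
              rw [e]
              linarith
        have g7 : ε / 100 * √(E (2 * k) * (11 / 10 * (ε * E k) + 2 * (lam * k) + 3 / 2 * w +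
            E (2 * k))) ≤ 2 / 100 * (ε * E k) + 2 / 100 * w := by
          have a1 := mul_le_mul_of_nonneg_left g6 (show 0 ≤ ε / 100 by positivity)
          have a2 : ε * w ≤ 1 * w := mul_le_mul_of_nonneg_right hε1 hw0
          have e : ε / 100 * (2 * (E k + w)) = 2 / 100 * (ε * E k) + 2 / 100 * (ε * w) := by ring
          rw [e] at a1
          linarith
        have g8 : ε / 100 ≤ 1 / 100 * (ε * E k) := by
          have := mul_le_mul_of_nonneg_left hE1 hε.le
          linarith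
        have h12 := (abs_le.1 g2).2
        have e8 : ε / 8 * E k = 1 / 8 * (ε * E k) := by ring
        rw [e8] at h12
        linarith
    exact ind K1 k (by omega) hk hkT
  have hcont : Tendsto (fun lam : ℝ => -(ε * E k + lam * k + √(lam * (k * E k)))) (𝓝[>] 0)
      (𝓝 (-(ε * E k + 0 * k + √(0 * (k * E k))))) :=
    ((show Continuous fun lam : ℝ => -(ε * E k + lam * k + √(lam * (k * E k))) by
      fun_prop).tendsto 0).mono_left nhdsWithin_le_nhds
  have h := le_of_tendsto hcont (by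
    filter_upwards [Ioc_mem_nhdsGT (show (0 : ℝ) < 1 / 100 by norm_num)] with lam hlam
    exact claim lam hlam.1 hlam.2)
  simpa using h

/-- **the doubling relation along a sparse set determines a nearly convex sequence** -/
theorem main' (hD : 0 ≤ D) (hU : ∀ᶠ k : ℕ in atTop, 2 * U (k + 1) ≤ U k + U (k + 2) + D / k)
    (hUs : Tendsto (fun k : ℕ => U k / k) atTop (𝓝 0))
    (hE : Sl E) (hT : Gp E T) (hψ : Reg ψ)
    (hroot : Tendsto (fun k : ℕ => ψ k / √k) atTop (𝓝 0))
    (hyp : ∀ τ : ℝ, 0 < τ → ∀ᶠ k : ℕ in atTop, k ∈ T →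
      |(U (2 * k) - ψ (2 * k)) - 2 * (U k - ψ k)| ≤ τ * E k) {ε : ℝ} (hε : 0 < ε) :
    ∀ᶠ k : ℕ in atTop, |U k - ψ k| ≤ ε * E k := by
  have hlin : Tendsto (fun k : ℕ => (U k - ψ k) / k) atTop (𝓝 0) := by
    have h1 : Tendsto (fun k : ℕ => ψ k / k) atTop (𝓝 0) := by
      refine squeeze_zero_norm' ?_ (tendsto_zero_iff_norm_tendsto_zero.1 hroot)
      filter_upwards [eventually_ge_atTop 1] with k hk
      have hk1 : (1 : ℝ) ≤ k := by exact_mod_cast hk
      have hs : 0 < √(k : ℝ) := by positivity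
      rw [norm_div, norm_div, Real.norm_of_nonneg hs.le,
        Real.norm_of_nonneg (show (0 : ℝ) ≤ (k : ℝ) by linarith)]
      apply div_le_div_of_nonneg_left (norm_nonneg _) hs
      rw [Real.sqrt_le_left (by linarith)]
      nlinarith
    have h2 := hUs.sub h1
    rw [sub_zero] at h2
    refine h2.congr fun k => ?_
    rw [sub_div]
  have hup : ∀ ε : ℝ, 0 < ε → ∀ᶠ k : ℕ in atTop, U k - ψ k ≤ ε * E k := fun ε hε =>
    upAll hD hU hE hT hψ (fun ε hε => upT hD hU hE hT hψ hlin hyp hε) hε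
  have hdn : ∀ ε : ℝ, 0 < ε → ∀ᶠ k : ℕ in atTop, k ∈ T → -(ε * E k) ≤ U k - ψ k := by
    intro ε hε
    filter_upwards [dnT' hD hU hE hT hψ hlin hyp hup (ε := min ε 1) (by positivity)
      (min_le_right _ _), eventually_ge_atTop 1] with k h1 hk hkT
    have h2 := h1 hkT
    have h3 : min ε 1 * E k ≤ ε * E k :=
      mul_le_mul_of_nonneg_right (min_le_left _ _) (zero_le_one.trans (hE.one_le k hk))
    linarith
  obtain ⟨K0, hK0⟩ := eventually_atTop.1 ((hup (ε / 4) (by positivity)).and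
    (hdn (ε / 4) (by positivity)))
  filter_upwards [lb hD hU hE.toSc hT hψ (show 0 < ε / 4 by positivity), hup ε hε,
    eventually_ge_atTop (2 * K0 + 2), hE.three, small hE.toSc (show (0 : ℝ) < 1 by norm_num)]
    with x h1 h1' h2 h3 h4
  have hx0 : (0 : ℝ) < x := by exact_mod_cast (show 0 < x by omega)
  have hE1 := hE.one_le x (by omega)
  have near : ∀ s : ℕ, Near E x s → K0 ≤ s ∧ E s ≤ 11 / 10 * E x := by
    rintro s ⟨n1, n2⟩
    have h6 : s ≤ 3 * x := by
      have : (s : ℝ) ≤ 3 * x := by linarith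
      exact_mod_cast this
    have h7 : K0 ≤ s := by
      have : (x : ℝ) ≤ 2 * s := by linarith
      have : x ≤ 2 * s := by exact_mod_cast this
      omega
    exact ⟨h7, (hE.mono h6).trans h3⟩
  have h5 := h1 (ε / 4 * (11 / 10 * E x)) (ε / 4 * (11 / 10 * E x)) (by positivity)
    (by positivity) (by
    intro s hs hn
    obtain ⟨n1, n2⟩ := near s hn
    have h6 := (hK0 s n1).2 hs
    have h7 : ε / 4 * E s ≤ ε / 4 * (11 / 10 * E x) := by gcongr
    linarith) (by
    intro s hs hn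
    obtain ⟨n1, n2⟩ := near s hn
    have h6 := (hK0 s n1).1
    have h7 : ε / 4 * E s ≤ ε / 4 * (11 / 10 * E x) := by gcongr
    linarith)
  rw [abs_le]
  refine ⟨?_, h1'⟩
  have : 0 < ε * E x := by positivity
  linarith

end Pool.Agent.R956.K12
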