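import Pool.Agent.R956.K12

/-!
# The doubling relation for nearly logarithmically convex sequences: forms and exponents
-/

set_option autoImplicit false
set_option linter.unusedVariables false

namespace Pool.Agent.R956.K13

open Filter Topology
open Pool.Agent.R956.K11 (psi_root reg_psi)

variable {y : ℕ → ℝ} {T : Set ℕ} {D : ℝ}

/-- **forms** -/
theorem form (hD : 0 ≤ D) (hpos : ∀ᶠ k : ℕ in atTop, 0 < y k)
    (hU : ∀ᶠ k : ℕ in atTop,
      2 * Real.log (y (k + 1)) ≤ Real.log (y k) + Real.log (y (k + 2)) + D / k)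
    (hUs : Tendsto (fun k : ℕ => Real.log (y k) / k) atTop (𝓝 0))
    (hT : ∀ δ : ℝ, 0 < δ → ∀ᶠ n : ℕ in atTop, ∃ k ∈ T, n ≤ k ∧ (k : ℝ) ≤ n + δ * √(n : ℝ))
    {a B : ℝ} (hB : 0 < B)
    (h1 : Tendsto (fun k : ℕ => y (2 * k) / y k ^ 2 * (2 * k : ℝ) ^ a) (atTop ⊓ 𝓟 T) (𝓝 B)) :
    Tendsto (fun k : ℕ => y k / (2 * k : ℝ) ^ a) atTop (𝓝 (2 ^ a / B)) := by
  have ht : Tendsto (fun k : ℕ => 2 * k) atTop atTop :=
    tendsto_atTop_mono (fun k => by simp only [id]; omega) tendsto_id
  obtain ⟨β, hβ⟩ : ∃ β : ℝ, β = 2 * a * Real.log 2 - Real.log B := ⟨_, rfl⟩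
  have main : ∀ ε : ℝ, 0 < ε → ∀ᶠ k : ℕ in atTop,
      |Real.log (y k) - (a * Real.log k + β)| ≤ ε * 1 := fun ε hε =>
    K12.main' (U := fun k => Real.log (y k)) hD hU hUs K10.sl_one
    (T := T) (fun δ hδ => by
      filter_upwards [hT δ hδ] with k hk
      obtain ⟨j, hj1, hj2, hj3⟩ := hk
      exact ⟨j, hj1, hj2, by rw [mul_one]; exact hj3⟩) (reg_psi a β) (psi_root a β) (fun τ hτ => by
      have h2 : Tendsto (fun k : ℕ => Real.log (y (2 * k) / y k ^ 2 * (2 * k : ℝ) ^ a))
        (atTop ⊓ 𝓟 T) (𝓝 (Real.log B)) := (Real.continuousAt_log hB.ne').tendsto.comp h1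
      have h3 := Metric.tendsto_nhds.mp h2 τ hτ
      rw [eventually_inf_principal] at h3
      filter_upwards [h3, hpos, ht.eventually hpos, eventually_ge_atTop 1] with k h5 p1 p2 hk1 hkS
      have h7 := h5 hkS
      have hk0 : (0 : ℝ) < k := by exact_mod_cast hk1
      have hn0 : (0 : ℝ) < 2 * k := by positivity
      have hP : 0 < y (2 * k) / y k ^ 2 := by positivity
      rw [Real.dist_eq, Real.log_mul hP.ne' (Real.rpow_pos_of_pos hn0 _).ne',
        Real.log_rpow hn0, Real.log_div p2.ne' (pow_pos p1 2).ne', Real.log_pow,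
        Real.log_mul (by norm_num) hk0.ne'] at h7
      rw [mul_one]
      refine le_trans (le_of_eq ?_) h7.le
      congr 1
      rw [hβ]
      push_cast
      rw [Real.log_mul (by norm_num) hk0.ne']
      ring) hε
  have hlim : Tendsto (fun k : ℕ => Real.log (y k) - (a * Real.log k + β)) atTop (𝓝 0) := by
    rw [Metric.tendsto_nhds]
    intro ε hε
    filter_upwards [main (ε / 2) (by positivity)] with k hk
    rw [dist_zero_right, Real.norm_eq_abs]
    linarith
  have h2 := ((Real.continuous_exp.tendsto 0).comp hlim).mul_const (2 ^ a / B)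
  rw [Real.exp_zero, one_mul] at h2
  refine h2.congr' ?_
  filter_upwards [eventually_ge_atTop 1, hpos] with k hk hy
  have hk0 : (0 : ℝ) < k := by exact_mod_cast hk
  simp only [Function.comp_apply]
  rw [Real.exp_sub, Real.exp_add, Real.exp_log hy, mul_comm a, ← Real.rpow_def_of_pos hk0,
    hβ, Real.exp_sub, Real.exp_log hB, show 2 * a * Real.log 2 = Real.log 2 * (a + a) by ring,
    ← Real.rpow_def_of_pos (by norm_num), Real.rpow_add (by norm_num),
    Real.mul_rpow (by norm_num) hk0.le]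
  have h3 := Real.rpow_pos_of_pos (show (0 : ℝ) < 2 by norm_num) a
  have h4 := Real.rpow_pos_of_pos hk0 a
  field_simp

/-- **exponents** -/
theorem expo (hD : 0 ≤ D) (hpos : ∀ᶠ k : ℕ in atTop, 0 < y k)
    (hU : ∀ᶠ k : ℕ in atTop,
      2 * Real.log (y (k + 1)) ≤ Real.log (y k) + Real.log (y (k + 2)) + D / k)
    (hUs : Tendsto (fun k : ℕ => Real.log (y k) / k) atTop (𝓝 0))
    (hT : ∀ δ : ℝ, 0 < δ → ∀ᶠ n : ℕ in atTop, ∃ k ∈ T, n ≤ k ∧
      (k : ℝ) ≤ n + δ * √(n * Real.log n))
    {a : ℝ}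
    (h1 : Tendsto (fun k : ℕ => Real.log (y (2 * k) / y k ^ 2) / Real.log (2 * k : ℝ))
      (atTop ⊓ 𝓟 T) (𝓝 (-a))) :
    Tendsto (fun k : ℕ => Real.log (y k) / Real.log (2 * k : ℝ)) atTop (𝓝 a) := by
  have ht : Tendsto (fun k : ℕ => 2 * k) atTop atTop :=
    tendsto_atTop_mono (fun k => by simp only [id]; omega) tendsto_id
  have hlogt : Tendsto (fun k : ℕ => Real.log (k : ℝ)) atTop atTop :=
    Real.tendsto_log_atTop.comp tendsto_natCast_atTop_atTop
  have hl2 : 0 < Real.log 2 := Real.log_pos (by norm_num)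
  have hl2' := Real.log_two_lt_d9
  have main : ∀ ε : ℝ, 0 < ε → ∀ᶠ k : ℕ in atTop,
      |Real.log (y k) - (a * Real.log k + 0)| ≤ ε * (1 + Real.log k) := fun ε hε =>
    K12.main' (U := fun k => Real.log (y k)) hD hU hUs K10.sl_log
    (T := T) (fun δ hδ => by
      filter_upwards [hT δ hδ, eventually_ge_atTop 1] with k hk hk1
      obtain ⟨j, hj1, hj2, hj3⟩ := hk
      refine ⟨j, hj1, hj2, hj3.trans ?_⟩
      have : √((k : ℝ) * Real.log k) ≤ √(k * (1 + Real.log k)) := by
        refine Real.sqrt_le_sqrt (mul_le_mul_of_nonneg_left ?_ (Nat.cast_nonneg k))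
        linarith
      have := mul_le_mul_of_nonneg_left this hδ.le
      linarith) (reg_psi a 0) (psi_root a 0) (fun τ hτ => by
      have h3 := Metric.tendsto_nhds.mp h1 (τ / 4) (by positivity)
      rw [eventually_inf_principal] at h3
      filter_upwards [h3, hpos, ht.eventually hpos, eventually_ge_atTop 1,
        hlogt.eventually_ge_atTop (4 * |a| / τ + 1)] with k h5 p1 p2 hk1 hkl hkS
      have h7 := h5 hkS
      have hk0 : (0 : ℝ) < k := by exact_mod_cast hk1
      have hn0 : (0 : ℝ) < 2 * k := by positivity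
      have hlk : 1 ≤ Real.log k := by
        have : 0 ≤ 4 * |a| / τ := by positivity
        linarith
      have hlog : Real.log (2 * k : ℝ) = Real.log 2 + Real.log k :=
        Real.log_mul (by norm_num) hk0.ne'
      have hL : 0 < Real.log (2 * k : ℝ) := by rw [hlog]; linarith
      rw [Real.dist_eq] at h7
      have h8 : |Real.log (y (2 * k) / y k ^ 2) + a * Real.log (2 * k : ℝ)| ≤
          τ / 4 * Real.log (2 * k : ℝ) := by
        have e : Real.log (y (2 * k) / y k ^ 2) + a * Real.log (2 * k : ℝ) =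
            (Real.log (y (2 * k) / y k ^ 2) / Real.log (2 * k : ℝ) - -a) *
              Real.log (2 * k : ℝ) := by
          field_simp
          ring
        rw [e, abs_mul, abs_of_pos hL]
        exact mul_le_mul_of_nonneg_right h7.le hL.le
      have e : (Real.log (y (2 * k)) - (a * Real.log ((2 * k : ℕ) : ℝ) + 0)) -
          2 * (Real.log (y k) - (a * Real.log k + 0)) =
          (Real.log (y (2 * k) / y k ^ 2) + a * Real.log (2 * k : ℝ)) - 2 * (a * Real.log 2) := by
        rw [Real.log_div p2.ne' (pow_pos p1 2).ne', Real.log_pow]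
        push_cast
        rw [hlog]
        ring
      show |(Real.log (y (2 * k)) - (a * Real.log ((2 * k : ℕ) : ℝ) + 0)) -
          2 * (Real.log (y k) - (a * Real.log k + 0))| ≤ τ * (1 + Real.log k)
      rw [e]
      have h9 : |a * Real.log 2| ≤ |a| := by
        rw [abs_mul, abs_of_pos hl2]
        have := mul_le_mul_of_nonneg_left (show Real.log 2 ≤ 1 by linarith) (abs_nonneg a)
        linarith
      have h10 : 4 * |a| ≤ τ * Real.log k := by
        have h11 : 4 * |a| / τ ≤ Real.log k := by linarith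
        rw [div_le_iff₀ hτ] at h11
        linarith
      have h12 : τ / 4 * Real.log (2 * k : ℝ) ≤ τ / 4 * (1 + Real.log k) := by
        rw [hlog]
        apply mul_le_mul_of_nonneg_left _ (by positivity)
        linarith
      have h13 := abs_sub (Real.log (y (2 * k) / y k ^ 2) + a * Real.log (2 * k : ℝ))
        (2 * (a * Real.log 2))
      have h14 : |2 * (a * Real.log 2)| ≤ 2 * |a| := by
        rw [abs_mul, abs_of_pos (show (0 : ℝ) < 2 by norm_num)]
        linarith
      have h15 : 0 < τ * Real.log k := by positivity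
      linarith) hε
  rw [Metric.tendsto_nhds]
  intro ε hε
  filter_upwards [main (ε / 4) (by positivity), eventually_ge_atTop 1,
    hlogt.eventually_ge_atTop (4 * |a| / ε + 1)] with k h1 hk1 hkl
  have hk0 : (0 : ℝ) < k := by exact_mod_cast hk1
  have hlk : 1 ≤ Real.log k := by
    have : 0 ≤ 4 * |a| / ε := by positivity
    linarith
  have hlog : Real.log (2 * k : ℝ) = Real.log 2 + Real.log k :=
    Real.log_mul (by norm_num) hk0.ne'
  have hL : 0 < Real.log (2 * k : ℝ) := by rw [hlog]; linarith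
  rw [Real.dist_eq]
  have e : Real.log (y k) / Real.log (2 * k : ℝ) - a =
      ((Real.log (y k) - (a * Real.log k + 0)) - a * Real.log 2) / Real.log (2 * k : ℝ) := by
    rw [eq_div_iff hL.ne', sub_mul, div_mul_cancel₀ _ hL.ne', hlog]
    ring
  rw [e, abs_div, abs_of_pos hL, div_lt_iff₀ hL]
  have h9 : |a * Real.log 2| ≤ |a| := by
    rw [abs_mul, abs_of_pos hl2]
    have := mul_le_mul_of_nonneg_left (show Real.log 2 ≤ 1 by linarith) (abs_nonneg a)
    linarith
  have h10 : 4 * |a| + ε ≤ ε * Real.log k := by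
    have h11 : 4 * |a| / ε ≤ Real.log k - 1 := by linarith
    rw [div_le_iff₀ hε] at h11
    linarith
  have h13 := abs_sub (Real.log (y k) - (a * Real.log k + 0)) (a * Real.log 2)
  have h16 : ε * Real.log k ≤ ε * Real.log (2 * k : ℝ) := by
    apply mul_le_mul_of_nonneg_left _ hε.le
    rw [hlog]
    linarith
  have h17 : ε / 4 * (1 + Real.log k) ≤ ε / 2 * Real.log k := by nlinarith
  have h18 := abs_nonneg a
  linarith

end Pool.Agent.R956.K13
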