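import Pool.Agent.R956.K1

/-!
# Sequences with Kesten's inequality: asymptotic forms, bounds, exponents, ratios
-/

set_option autoImplicit false
set_option linter.unusedVariables false

namespace Pool.Agent.R956.K1

open Filter Topology

variable {y : ℕ → ℝ} {D : ℝ}

lemma log_form {k : ℕ} (hk : 1 ≤ k) (hy : 0 < y k) (a : ℝ) :
    Real.log (y k / (k : ℝ) ^ a) = Real.log (y k) - a * Real.log k := by
  have hk0 : (0 : ℝ) < k := by exact_mod_cast hk
  rw [Real.log_div hy.ne' (Real.rpow_pos_of_pos hk0 _).ne', Real.log_rpow hk0]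

/-- an asymptotic form on the logarithmic side -/
lemma Kc.log_of_form (K : Kc y D) {S : Set ℕ} {a A : ℝ} (hA : 0 < A)
    (h : Tendsto (fun k : ℕ => y k / (k : ℝ) ^ a) (atTop ⊓ 𝓟 S) (𝓝 A)) (τ : ℝ) (hτ : 0 < τ) :
    ∀ᶠ k : ℕ in atTop, k ∈ S → |Real.log (y k) - (a * Real.log k + Real.log A)| ≤ τ := by
  have h2 : Tendsto (fun k : ℕ => Real.log (y k / (k : ℝ) ^ a)) (atTop ⊓ 𝓟 S) (𝓝 (Real.log A)) :=
    (Real.continuousAt_log hA.ne').tendsto.comp h
  have h3 := Metric.tendsto_nhds.mp h2 τ hτ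
  rw [eventually_inf_principal] at h3
  filter_upwards [h3, K.pos, eventually_ge_atTop 1] with k h4 h5 h6 h7
  have h8 := h4 h7
  rw [Real.dist_eq, log_form h6 h5] at h8
  rw [show Real.log (y k) - (a * Real.log k + Real.log A) =
    Real.log (y k) - a * Real.log k - Real.log A by ring]
  exact h8.le

lemma Kc.form_of_log (K : Kc y D) {a A : ℝ} (hA : 0 < A)
    (h : ∀ ε : ℝ, 0 < ε → ∀ᶠ k : ℕ in atTop,
      |Real.log (y k) - (a * Real.log k + Real.log A)| ≤ ε) :
    Tendsto (fun k : ℕ => y k / (k : ℝ) ^ a) atTop (𝓝 A) := by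
  have h1 : Tendsto (fun k : ℕ => Real.log (y k) - (a * Real.log k + Real.log A)) atTop (𝓝 0) := by
    rw [Metric.tendsto_nhds]
    intro ε hε
    filter_upwards [h (ε / 2) (by positivity)] with k hk
    rw [dist_zero_right, Real.norm_eq_abs]
    linarith
  have h2 : Tendsto (fun k : ℕ => Real.exp (Real.log (y k) - (a * Real.log k + Real.log A)) * A)
      atTop (𝓝 (Real.exp 0 * A)) := ((Real.continuous_exp.tendsto 0).comp h1).mul_const A
  rw [Real.exp_zero, one_mul] at h2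
  refine h2.congr' ?_
  filter_upwards [K.pos, eventually_ge_atTop 1] with k h5 h6
  have hk0 : (0 : ℝ) < k := by exact_mod_cast h6
  have hp : 0 < (k : ℝ) ^ a := Real.rpow_pos_of_pos hk0 _
  rw [Real.exp_sub, Real.exp_add, Real.exp_log h5, Real.exp_log hA, mul_comm a,
    ← Real.rpow_def_of_pos hk0]
  field_simp

/-- **asymptotic form along gaps `o(√k)`** -/
theorem Kc.form (K : Kc y D) {S : Set ℕ}
    (hS : ∀ δ : ℝ, 0 < δ → ∀ᶠ n : ℕ in atTop, ∃ k ∈ S, n ≤ k ∧ (k : ℝ) ≤ n + δ * √(n : ℝ))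
    {a A : ℝ} (hA : 0 < A)
    (h : Tendsto (fun k : ℕ => y k / (k : ℝ) ^ a) (atTop ⊓ 𝓟 S) (𝓝 A)) :
    Tendsto (fun k : ℕ => y k / (k : ℝ) ^ a) atTop (𝓝 A) := by
  refine K.form_of_log hA fun ε hε => ?_
  have h1 := K.samp0 sc_one a (Real.log A) (S := S) (fun δ hδ => by
    simpa only [mul_one] using hS δ hδ) (fun τ hτ => by
    simpa only [mul_one] using K.log_of_form hA h τ hτ) ε hε
  simpa only [mul_one] using h1

/-- **two-sided bounds along gaps `O(√k)`** -/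
theorem Kc.bounds (K : Kc y D) {S : Set ℕ} {δ : ℝ} (hδ : 0 < δ)
    (hS : ∀ᶠ n : ℕ in atTop, ∃ k ∈ S, n ≤ k ∧ (k : ℝ) ≤ n + δ * √(n : ℝ))
    {a A B : ℝ} (hA : 0 < A)
    (h : ∀ᶠ k : ℕ in atTop, k ∈ S → A ≤ y k / (k : ℝ) ^ a ∧ y k / (k : ℝ) ^ a ≤ B) :
    ∃ A' B' : ℝ, 0 < A' ∧ 0 < B' ∧ ∀ᶠ k : ℕ in atTop,
      A' ≤ y k / (k : ℝ) ^ a ∧ y k / (k : ℝ) ^ a ≤ B' := by
  obtain ⟨τ, hτ⟩ : ∃ τ, τ = |Real.log A| + |Real.log B| + 1 := ⟨_, rfl⟩
  have hτ0 : 0 < τ := by rw [hτ]; positivity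
  have h1 := K.samp sc_one (S := S) (τ := τ) hτ0 hδ a 0 (by simpa only [mul_one] using hS) (by
    filter_upwards [h, K.pos, eventually_ge_atTop 1] with k g1 g2 g3 g4
    obtain ⟨g5, g6⟩ := g1 g4
    have hk0 : (0 : ℝ) < k := by exact_mod_cast g3
    have hp : 0 < y k / (k : ℝ) ^ a := div_pos g2 (Real.rpow_pos_of_pos hk0 _)
    rw [mul_one, add_zero, ← log_form g3 g2, abs_le]
    have l1 := Real.log_le_log hA g5
    have l2 := Real.log_le_log hp g6
    have a1 := neg_abs_le (Real.log A)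
    have a2 := le_abs_self (Real.log B)
    have a3 := abs_nonneg (Real.log A)
    have a4 := abs_nonneg (Real.log B)
    rw [hτ]
    constructor <;> linarith)
  obtain ⟨M, hM⟩ : ∃ M, M = 9 * τ + 384 * D * δ ^ 2 := ⟨_, rfl⟩
  refine ⟨Real.exp (-M), Real.exp M, Real.exp_pos _, Real.exp_pos _, ?_⟩
  filter_upwards [h1, K.pos, eventually_ge_atTop 1] with k g1 g2 g3
  have hk0 : (0 : ℝ) < k := by exact_mod_cast g3
  have hp : 0 < y k / (k : ℝ) ^ a := div_pos g2 (Real.rpow_pos_of_pos hk0 _)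
  rw [mul_one, add_zero, ← log_form g3 g2, ← hM, abs_le] at g1
  exact ⟨(Real.le_log_iff_exp_le hp).mp g1.1, (Real.log_le_iff_le_exp hp).mp g1.2⟩

lemma log_scale {k : ℕ} (hk : 3 ≤ k) : 1 ≤ Real.log k := by
  have hk' : (3 : ℝ) ≤ k := by exact_mod_cast hk
  rw [Real.le_log_iff_exp_le (by linarith)]
  have := Real.exp_one_lt_d9
  linarith

lemma Kc.expo_log (K : Kc y D) {S : Set ℕ} {a : ℝ}
    (h : Tendsto (fun k : ℕ => Real.log (y k) / Real.log k) (atTop ⊓ 𝓟 S) (𝓝 a)) (τ : ℝ)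
    (hτ : 0 < τ) : ∀ᶠ k : ℕ in atTop, k ∈ S →
      |Real.log (y k) - (a * Real.log k + 0)| ≤ τ * (1 + Real.log k) := by
  have h3 := Metric.tendsto_nhds.mp h τ hτ
  rw [eventually_inf_principal] at h3
  filter_upwards [h3, eventually_ge_atTop 3] with k g1 g3 g4
  have g5 := g1 g4
  have hl := log_scale g3
  rw [Real.dist_eq] at g5
  have e : Real.log (y k) - (a * Real.log k + 0) =
      (Real.log (y k) / Real.log k - a) * Real.log k := by
    field_simp
    ring
  rw [e, abs_mul, abs_of_pos (show 0 < Real.log (k : ℝ) by linarith)]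
  have : |Real.log (y k) / Real.log k - a| * Real.log k ≤ τ * Real.log k := by gcongr
  linarith

/-- **exponent along gaps `o(√(k log k))`** -/
theorem Kc.expo (K : Kc y D) {S : Set ℕ}
    (hS : ∀ δ : ℝ, 0 < δ → ∀ᶠ n : ℕ in atTop, ∃ k ∈ S, n ≤ k ∧
      (k : ℝ) ≤ n + δ * √(n * Real.log n)) {a : ℝ}
    (h : Tendsto (fun k : ℕ => Real.log (y k) / Real.log k) (atTop ⊓ 𝓟 S) (𝓝 a)) :
    Tendsto (fun k : ℕ => Real.log (y k) / Real.log k) atTop (𝓝 a) := by
  have h1 := K.samp0 sc_log a 0 (S := S) (fun δ hδ => by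
    filter_upwards [hS δ hδ, eventually_ge_atTop 1] with n hn hn1
    obtain ⟨k, k1, k2, k3⟩ := hn
    refine ⟨k, k1, k2, k3.trans ?_⟩
    have : √((n : ℝ) * Real.log n) ≤ √((n : ℝ) * (1 + Real.log n)) := by
      apply Real.sqrt_le_sqrt
      have : (0 : ℝ) ≤ n := Nat.cast_nonneg n
      nlinarith
    have := mul_le_mul_of_nonneg_left this hδ.le
    linarith) (fun τ hτ => K.expo_log h τ hτ)
  rw [Metric.tendsto_nhds]
  intro ε hε
  filter_upwards [h1 (ε / 4) (by positivity), eventually_ge_atTop 3] with k g1 g3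
  have hl := log_scale g3
  have hl0 : 0 < Real.log (k : ℝ) := by linarith
  rw [Real.dist_eq]
  have e : Real.log (y k) / Real.log k - a =
      (Real.log (y k) - (a * Real.log k + 0)) / Real.log k := by
    field_simp
    ring
  rw [e, abs_div, abs_of_pos hl0, div_lt_iff₀ hl0]
  refine lt_of_le_of_lt g1 ?_
  nlinarith

lemma exp_sub_one_le {d : ℝ} (h : |d| ≤ 1) : |Real.exp d - 1| ≤ 2 * |d| := by
  have := Real.abs_exp_sub_one_le h
  exact this

lemma Kc.ratio_of_incr (K : Kc y D) {E : ℕ → ℝ} (hE : Sc E)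
    (h : ∀ ε : ℝ, 0 < ε → ∀ᶠ n : ℕ in atTop,
      |Real.log (y (n + 1)) - Real.log (y n)| ≤ ε * √(E n / n)) (ε : ℝ) (hε : 0 < ε) :
    ∀ᶠ n : ℕ in atTop, |y (n + 1) / y n - 1| ≤ ε * √(E n / n) := by
  have h1 : ∀ᶠ k : ℕ in atTop, 0 < y (k + 1) := (tendsto_add_atTop_nat 1).eventually K.pos
  have h2 : ∀ᶠ n : ℕ in atTop, E n / n < (1 / (ε + 1)) ^ 2 :=
    hE.small.eventually_lt_const (by positivity)
  filter_upwards [h (ε / 2) (by positivity), K.pos, h1, h2, eventually_ge_atTop 1]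
    with n g1 p0 p1 g2 hn
  have hn0 : (0 : ℝ) < n := by exact_mod_cast hn
  have hE1 := hE.one_le n hn
  have hq : √(E n / n) < 1 / (ε + 1) := by
    rw [Real.sqrt_lt' (by positivity)]
    exact g2
  have hd : |Real.log (y (n + 1)) - Real.log (y n)| ≤ 1 := by
    refine g1.trans ?_
    have h3 : ε / 2 * √(E n / n) ≤ ε / 2 * (1 / (ε + 1)) := by gcongr
    refine h3.trans ?_
    rw [mul_one_div, div_le_one (by positivity)]
    linarith
  have e : y (n + 1) / y n = Real.exp (Real.log (y (n + 1)) - Real.log (y n)) := by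
    rw [Real.exp_sub, Real.exp_log p1, Real.exp_log p0]
  rw [e]
  refine (exp_sub_one_le hd).trans ?_
  linarith

/-- **the ratios, from an asymptotic form** -/
theorem Kc.ratio_form (K : Kc y D) {a A : ℝ} (hA : 0 < A)
    (h : Tendsto (fun k : ℕ => y k / (k : ℝ) ^ a) atTop (𝓝 A)) :
    Tendsto (fun k : ℕ => (y (k + 1) / y k - 1) * √(k : ℝ)) atTop (𝓝 0) := by
  have h1 := K.incr sc_one a (Real.log A) (fun τ hτ => by
    have := K.log_of_form (S := Set.univ) hA (by rwa [principal_univ, inf_top_eq]) τ hτ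
    simpa only [mul_one, Set.mem_univ, forall_const] using this)
  have h2 := K.ratio_of_incr sc_one h1
  rw [Metric.tendsto_nhds]
  intro ε hε
  filter_upwards [h2 (ε / 2) (by positivity), eventually_ge_atTop 1] with k hk hk1
  have hk0 : (0 : ℝ) < k := by exact_mod_cast hk1
  have hs : 0 < √(k : ℝ) := Real.sqrt_pos.mpr hk0
  rw [dist_zero_right, Real.norm_eq_abs, abs_mul, abs_of_pos hs]
  have e : √(1 / (k : ℝ)) * √(k : ℝ) = 1 := by
    rw [← Real.sqrt_mul (by positivity), one_div_mul_cancel hk0.ne', Real.sqrt_one]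
  calc |y (k + 1) / y k - 1| * √(k : ℝ) ≤ ε / 2 * √(1 / (k : ℝ)) * √(k : ℝ) := by gcongr
    _ = ε / 2 := by rw [mul_assoc, e, mul_one]
    _ < ε := by linarith

/-- **the ratios, from an exponent** -/
theorem Kc.ratio_expo (K : Kc y D) {a : ℝ}
    (h : Tendsto (fun k : ℕ => Real.log (y k) / Real.log k) atTop (𝓝 a)) :
    Tendsto (fun k : ℕ => (y (k + 1) / y k - 1) * √((k : ℝ) / Real.log k)) atTop (𝓝 0) := by
  have h1 := K.incr sc_log a 0 (fun τ hτ => by
    have := K.expo_log (S := Set.univ) (by rwa [principal_univ, inf_top_eq]) τ hτ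
    simpa only [Set.mem_univ, forall_const] using this)
  have h2 := K.ratio_of_incr sc_log h1
  rw [Metric.tendsto_nhds]
  intro ε hε
  filter_upwards [h2 (ε / 4) (by positivity), eventually_ge_atTop 3] with k hk hk1
  have hk0 : (0 : ℝ) < k := by exact_mod_cast (show 0 < k by omega)
  have hl := log_scale hk1
  have hl0 : 0 < Real.log (k : ℝ) := by linarith
  have hs : 0 < √((k : ℝ) / Real.log k) := Real.sqrt_pos.mpr (by positivity)
  rw [dist_zero_right, Real.norm_eq_abs, abs_mul, abs_of_pos hs]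
  have e : √((1 + Real.log k) / (k : ℝ)) * √((k : ℝ) / Real.log k) ≤ 2 := by
    rw [← Real.sqrt_mul (by positivity)]
    have e2 : (1 + Real.log k) / (k : ℝ) * ((k : ℝ) / Real.log k) = (1 + Real.log k) / Real.log k := by
      field_simp
    rw [e2, Real.sqrt_le_iff]
    refine ⟨by norm_num, ?_⟩
    rw [div_le_iff₀ hl0]
    linarith
  calc |y (k + 1) / y k - 1| * √((k : ℝ) / Real.log k) ≤
        ε / 4 * √((1 + Real.log k) / (k : ℝ)) * √((k : ℝ) / Real.log k) := by gcongr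
    _ = ε / 4 * (√((1 + Real.log k) / (k : ℝ)) * √((k : ℝ) / Real.log k)) := by ring
    _ ≤ ε / 4 * 2 := by gcongr
    _ < ε := by linarith

end Pool.Agent.R956.K1
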