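import Mathlib

/-!
# Submultiplicative sequences with slowly varying two-step ratios
-/

set_option autoImplicit false
set_option linter.unusedVariables false

namespace Pool.Agent.R956.Z2

open Filter Topology

/-- facts about the numbers of walks on `ℤ³` -/
structure Hy (c : ℕ → ℝ) (μ : ℝ) : Prop where
  mu : 0 < μ
  mu5 : μ ≤ 5
  pos : ∀ n, 0 < c n
  add : ∀ n m, c (n + m) ≤ c n * c m
  one : ∀ n, 1 ≤ n → c (n + 1) ≤ 5 * c n
  low : ∀ n, μ ^ n ≤ c n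
  up : ∀ a : ℝ, 1 / 3 < a → ∃ K : ℝ, 0 ≤ K ∧ ∀ n : ℕ, c n ≤ μ ^ n * Real.exp (K * (n : ℝ) ^ a)
  rates : ∀ ε : ℝ, 0 < ε → ∃ K : ℝ, ∀ᶠ n : ℕ in atTop,
    -(K * (n : ℝ) ^ (-(1 / 3 : ℝ) + ε)) ≤ c (n + 2) / c n - μ ^ 2 ∧
      c (n + 2) / c n - μ ^ 2 ≤ K * (n : ℝ) ^ (-(2 / 5 : ℝ) + ε)

/-- `log (c n / μ ^ n)` -/
noncomputable def y (c : ℕ → ℝ) (μ : ℝ) (n : ℕ) : ℝ := Real.log (c n / μ ^ n)

/-- the ratio `c (n + m) / (c n c m)` -/
noncomputable def P (c : ℕ → ℝ) (n m : ℕ) : ℝ := c (n + m) / (c n * c m)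

variable {c : ℕ → ℝ} {μ : ℝ}

/-- an eventual bound is a bound -/
lemma ev_all {f g : ℕ → ℝ} (hg : ∀ n, 1 ≤ n → 0 < g n) (h : ∃ K : ℝ, ∀ᶠ n in atTop, f n ≤ K * g n) :
    ∃ K : ℝ, 0 ≤ K ∧ ∀ n, 1 ≤ n → f n ≤ K * g n := by
  obtain ⟨K, hK⟩ := h
  obtain ⟨N, hN⟩ := eventually_atTop.mp hK
  have hS : 0 ≤ ∑ i ∈ Finset.range N, |f i| / |g i| :=
    Finset.sum_nonneg fun i _ => by positivity
  refine ⟨|K| + ∑ i ∈ Finset.range N, |f i| / |g i|, by positivity, fun n hn => ?_⟩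
  have hg0 := hg n hn
  rcases lt_or_ge n N with h | h
  · have h1 : |f n| / |g n| ≤ ∑ i ∈ Finset.range N, |f i| / |g i| :=
      Finset.single_le_sum (f := fun i => |f i| / |g i|) (fun i _ => by positivity)
        (Finset.mem_range.mpr h)
    have h2 : f n ≤ (|f n| / |g n|) * g n := by
      rw [abs_of_pos hg0, div_mul_cancel₀ _ hg0.ne']
      exact le_abs_self _
    refine h2.trans (mul_le_mul_of_nonneg_right ?_ hg0.le)
    have := abs_nonneg K
    linarith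
  · refine (hN n h).trans (mul_le_mul_of_nonneg_right ?_ hg0.le)
    have := le_abs_self K
    linarith

lemma y_eq (h : Hy c μ) (n : ℕ) : y c μ n = Real.log (c n) - n * Real.log μ := by
  have := h.pos n
  have := h.mu
  unfold y
  rw [Real.log_div (by positivity) (by positivity), Real.log_pow]

lemma y_nonneg (h : Hy c μ) (n : ℕ) : 0 ≤ y c μ n := by
  have h1 := h.low n
  have h2 : 0 < μ ^ n := pow_pos h.mu n
  exact Real.log_nonneg ((one_le_div h2).mpr h1)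

lemma y_up (h : Hy c μ) {a : ℝ} (ha : 1 / 3 < a) :
    ∃ K : ℝ, 0 ≤ K ∧ ∀ n : ℕ, y c μ n ≤ K * (n : ℝ) ^ a := by
  obtain ⟨K, hK0, hK⟩ := h.up a ha
  refine ⟨K, hK0, fun n => ?_⟩
  have h2 : 0 < μ ^ n := pow_pos h.mu n
  have h3 : c n / μ ^ n ≤ Real.exp (K * (n : ℝ) ^ a) := by
    rw [div_le_iff₀ h2, mul_comm]
    exact hK n
  have h4 : 0 < c n / μ ^ n := div_pos (h.pos n) h2
  unfold y
  rwa [Real.log_le_iff_le_exp h4]

lemma y_diff (h : Hy c μ) (n : ℕ) :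
    y c μ (n + 2) - y c μ n = Real.log ((c (n + 2) / c n) / μ ^ 2) := by
  have h1 := h.pos n
  have h2 := h.pos (n + 2)
  have h3 := h.mu
  rw [y_eq h, y_eq h, Real.log_div (by positivity) (by positivity),
    Real.log_div (by positivity) (by positivity), Real.log_pow]
  push_cast
  ring

lemma rpow_le_of {n : ℕ} (hn : 1 ≤ n) {a b : ℝ} (h : a ≤ b) : (n : ℝ) ^ a ≤ (n : ℝ) ^ b :=
  Real.rpow_le_rpow_of_exponent_le (by exact_mod_cast hn) h

/-- the two-step differences -/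
theorem y_two (h : Hy c μ) {ε : ℝ} (hε : 0 < ε) : ∃ K : ℝ, 0 ≤ K ∧ ∀ n : ℕ, 1 ≤ n →
    -(K * (n : ℝ) ^ (-(1 / 3 : ℝ) + ε)) ≤ y c μ (n + 2) - y c μ n ∧
      y c μ (n + 2) - y c μ n ≤ K * (n : ℝ) ^ (-(2 / 5 : ℝ) + ε) := by
  have hμ := h.mu
  obtain ⟨δ, hδ⟩ : ∃ δ, δ = min ε (1 / 6) := ⟨_, rfl⟩
  have hδ0 : 0 < δ := by rw [hδ]; positivity
  have hδε : δ ≤ ε := by rw [hδ]; exact min_le_left _ _
  have hδ6 : δ ≤ 1 / 6 := by rw [hδ]; exact min_le_right _ _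
  obtain ⟨K, hK⟩ := h.rates δ hδ0
  have hlo : ∃ K : ℝ, ∀ᶠ n : ℕ in atTop,
      -(y c μ (n + 2) - y c μ n) ≤ K * (n : ℝ) ^ (-(1 / 3 : ℝ) + ε) := by
    refine ⟨2 * (|K| / μ ^ 2), ?_⟩
    have t : Tendsto (fun n : ℕ => |K| / μ ^ 2 * (n : ℝ) ^ (-(1 / 3 : ℝ) + δ)) atTop (𝓝 0) := by
      have h1 := (tendsto_rpow_neg_atTop (show (0 : ℝ) < 1 / 3 - δ by linarith)).comp
        tendsto_natCast_atTop_atTop
      have h2 := h1.const_mul (|K| / μ ^ 2)
      rw [mul_zero] at h2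
      refine h2.congr fun n => ?_
      simp only [Function.comp_apply]
      congr 2
      ring
    filter_upwards [hK, eventually_ge_atTop 1,
      t.eventually_lt_const (show (0 : ℝ) < 1 / 2 by norm_num)] with n h1 hn h2
    rw [y_diff h]
    have p1 := h.pos n
    have p2 := h.pos (n + 2)
    obtain ⟨x, hx⟩ : ∃ x, x = (c (n + 2) / c n) / μ ^ 2 := ⟨_, rfl⟩
    rw [← hx]
    have hx0 : 0 < x := by rw [hx]; positivity
    have e1 : c (n + 2) / c n = x * μ ^ 2 := by rw [hx]; field_simp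
    obtain ⟨g, hg⟩ : ∃ g, g = |K| / μ ^ 2 * (n : ℝ) ^ (-(1 / 3 : ℝ) + δ) := ⟨_, rfl⟩
    rw [← hg] at h2
    have hg0 : 0 ≤ g := by rw [hg]; positivity
    have e2 : 1 - g ≤ x := by
      have h3 := h1.1
      rw [e1] at h3
      have h4 : K * (n : ℝ) ^ (-(1 / 3 : ℝ) + δ) ≤ g * μ ^ 2 := by
        rw [hg]
        have : |K| / μ ^ 2 * (n : ℝ) ^ (-(1 / 3 : ℝ) + δ) * μ ^ 2 =
            |K| * (n : ℝ) ^ (-(1 / 3 : ℝ) + δ) := by field_simp
        rw [this]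
        exact mul_le_mul_of_nonneg_right (le_abs_self K) (by positivity)
      have h5 : (1 - g) * μ ^ 2 ≤ x * μ ^ 2 := by linarith
      exact le_of_mul_le_mul_right h5 (by positivity)
    have h6 := Real.one_sub_inv_le_log_of_pos hx0
    have h7 : x⁻¹ ≤ 1 + 2 * g := by
      rw [inv_le_comm₀ hx0 (by positivity)]
      have : (1 + 2 * g)⁻¹ ≤ 1 - g := by
        rw [inv_le_iff_one_le_mul₀ (by positivity)]
        nlinarith
      linarith
    have h8 : (n : ℝ) ^ (-(1 / 3 : ℝ) + δ) ≤ (n : ℝ) ^ (-(1 / 3 : ℝ) + ε) :=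
      rpow_le_of hn (by linarith)
    have h9 : g ≤ |K| / μ ^ 2 * (n : ℝ) ^ (-(1 / 3 : ℝ) + ε) := by
      rw [hg]; gcongr
    linarith
  have hup : ∃ K : ℝ, ∀ᶠ n : ℕ in atTop,
      y c μ (n + 2) - y c μ n ≤ K * (n : ℝ) ^ (-(2 / 5 : ℝ) + ε) := by
    refine ⟨|K| / μ ^ 2, ?_⟩
    filter_upwards [hK, eventually_ge_atTop 1] with n h1 hn
    rw [y_diff h]
    have p1 := h.pos n
    have p2 := h.pos (n + 2)
    obtain ⟨x, hx⟩ : ∃ x, x = (c (n + 2) / c n) / μ ^ 2 := ⟨_, rfl⟩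
    rw [← hx]
    have hx0 : 0 < x := by rw [hx]; positivity
    have e1 : c (n + 2) / c n = x * μ ^ 2 := by rw [hx]; field_simp
    have h3 := h1.2
    rw [e1] at h3
    have h8 : (n : ℝ) ^ (-(2 / 5 : ℝ) + δ) ≤ (n : ℝ) ^ (-(2 / 5 : ℝ) + ε) :=
      rpow_le_of hn (by linarith)
    have h4 : K * (n : ℝ) ^ (-(2 / 5 : ℝ) + δ) ≤ |K| / μ ^ 2 * (n : ℝ) ^ (-(2 / 5 : ℝ) + ε) *
        μ ^ 2 := by
      have : |K| / μ ^ 2 * (n : ℝ) ^ (-(2 / 5 : ℝ) + ε) * μ ^ 2 =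
          |K| * (n : ℝ) ^ (-(2 / 5 : ℝ) + ε) := by field_simp
      rw [this]
      calc K * (n : ℝ) ^ (-(2 / 5 : ℝ) + δ) ≤ |K| * (n : ℝ) ^ (-(2 / 5 : ℝ) + δ) :=
            mul_le_mul_of_nonneg_right (le_abs_self K) (by positivity)
        _ ≤ _ := by gcongr
    have h5 : (x - 1) * μ ^ 2 ≤ |K| / μ ^ 2 * (n : ℝ) ^ (-(2 / 5 : ℝ) + ε) * μ ^ 2 := by
      linarith
    have h6 := le_of_mul_le_mul_right h5 (by positivity)
    have := Real.log_le_sub_one_of_pos hx0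
    linarith
  have hpos : ∀ β : ℝ, ∀ n : ℕ, 1 ≤ n → 0 < (n : ℝ) ^ β := fun β n hn => by
    have : (0 : ℝ) < n := by exact_mod_cast hn
    positivity
  obtain ⟨K1, k1, hK1⟩ := ev_all (hpos _) hlo
  obtain ⟨K2, k2, hK2⟩ := ev_all (hpos _) hup
  refine ⟨K1 + K2, by positivity, fun n hn => ⟨?_, ?_⟩⟩
  · have h1 := hK1 n hn
    have h2 : K1 * (n : ℝ) ^ (-(1 / 3 : ℝ) + ε) ≤ (K1 + K2) * (n : ℝ) ^ (-(1 / 3 : ℝ) + ε) := by
      gcongr; linarith
    linarith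
  · have h1 := hK2 n hn
    have h2 : K2 * (n : ℝ) ^ (-(2 / 5 : ℝ) + ε) ≤ (K1 + K2) * (n : ℝ) ^ (-(2 / 5 : ℝ) + ε) := by
      gcongr; linarith
    linarith

/-- one step up -/
lemma y_one (h : Hy c μ) {n : ℕ} (hn : 1 ≤ n) :
    y c μ (n + 1) ≤ y c μ n + Real.log (5 / μ) := by
  have h1 := h.one n hn
  have p1 := h.pos n
  have p2 := h.pos (n + 1)
  have hμ := h.mu
  rw [y_eq h, y_eq h, Real.log_div (by norm_num) (by positivity)]
  have h2 := Real.log_le_log p2 h1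
  rw [Real.log_mul (by norm_num) (by positivity)] at h2
  push_cast
  linarith

lemma log5_nonneg (h : Hy c μ) : 0 ≤ Real.log (5 / μ) :=
  Real.log_nonneg ((one_le_div h.mu).mpr h.mu5)

/-- the differences over even times -/
theorem y_even (h : Hy c μ) {ε : ℝ} (hε : 0 < ε) (hε3 : ε < 1 / 3) : ∃ K : ℝ, 0 ≤ K ∧
    ∀ n : ℕ, 1 ≤ n → ∀ j : ℕ,
    -(K * ((2 * j : ℝ) * (n : ℝ) ^ (-(1 / 3 : ℝ) + ε))) ≤ y c μ (n + 2 * j) - y c μ n ∧
      y c μ (n + 2 * j) - y c μ n ≤ K * ((2 * j : ℝ) * (n : ℝ) ^ (-(2 / 5 : ℝ) + ε)) := by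
  obtain ⟨K, hK0, hK⟩ := y_two h hε
  refine ⟨K, hK0, fun n hn j => ?_⟩
  have hn' : (0 : ℝ) < n := by exact_mod_cast hn
  induction j with
  | zero => simp
  | succ j ih =>
    have h1 := hK (n + 2 * j) (by omega)
    have e : n + 2 * (j + 1) = n + 2 * j + 2 := by ring
    have hle : (n : ℝ) ≤ ((n + 2 * j : ℕ) : ℝ) := by push_cast; linarith [Nat.cast_nonneg (α := ℝ) j]
    have g1 : ((n + 2 * j : ℕ) : ℝ) ^ (-(1 / 3 : ℝ) + ε) ≤ (n : ℝ) ^ (-(1 / 3 : ℝ) + ε) :=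
      Real.rpow_le_rpow_of_nonpos hn' hle (by linarith)
    have g2 : ((n + 2 * j : ℕ) : ℝ) ^ (-(2 / 5 : ℝ) + ε) ≤ (n : ℝ) ^ (-(2 / 5 : ℝ) + ε) :=
      Real.rpow_le_rpow_of_nonpos hn' hle (by linarith)
    have g3 := mul_le_mul_of_nonneg_left g1 hK0
    have g4 := mul_le_mul_of_nonneg_left g2 hK0
    have x1 : 0 ≤ K * (n : ℝ) ^ (-(1 / 3 : ℝ) + ε) := by positivity
    have x2 : 0 ≤ K * (n : ℝ) ^ (-(2 / 5 : ℝ) + ε) := by positivity
    rw [e]
    push_cast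
    constructor <;> nlinarith [ih.1, ih.2, h1.1, h1.2]

/-- the differences over odd times -/
theorem y_odd (h : Hy c μ) {ε : ℝ} (hε : 0 < ε) (hε3 : ε < 1 / 3) : ∃ K : ℝ, 0 ≤ K ∧
    ∀ n : ℕ, 1 ≤ n → ∀ j : ℕ,
    -(K * ((2 * j + 1 : ℝ) * (n : ℝ) ^ (-(1 / 3 : ℝ) + ε))) - Real.log (5 / μ) ≤
        y c μ (n + (2 * j + 1)) - y c μ n ∧
      y c μ (n + (2 * j + 1)) - y c μ n ≤
        K * ((2 * j + 1 : ℝ) * (n : ℝ) ^ (-(2 / 5 : ℝ) + ε)) + Real.log (5 / μ) := by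
  obtain ⟨K, hK0, hK⟩ := y_even h hε hε3
  refine ⟨2 * K, by positivity, fun n hn j => ?_⟩
  have x1 : 0 ≤ K * (n : ℝ) ^ (-(1 / 3 : ℝ) + ε) := by positivity
  have x2 : 0 ≤ K * (n : ℝ) ^ (-(2 / 5 : ℝ) + ε) := by positivity
  have hj : (0 : ℝ) ≤ j := Nat.cast_nonneg j
  constructor
  · have h1 := (hK n hn (j + 1)).1
    have h2 := y_one h (show 1 ≤ n + (2 * j + 1) by omega)
    rw [show n + (2 * j + 1) + 1 = n + 2 * (j + 1) by ring] at h2
    push_cast at h1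
    nlinarith
  · have h1 := (hK n hn j).2
    have h2 := y_one h (show 1 ≤ n + 2 * j by omega)
    rw [show n + 2 * j + 1 = n + (2 * j + 1) by ring] at h2
    nlinarith

/-- the differences -/
theorem y_all (h : Hy c μ) {ε : ℝ} (hε : 0 < ε) (hε3 : ε < 1 / 3) : ∃ K : ℝ, 0 ≤ K ∧
    ∀ n : ℕ, 1 ≤ n → ∀ m : ℕ,
    (Even m → -(K * ((m : ℝ) * (n : ℝ) ^ (-(1 / 3 : ℝ) + ε))) ≤ y c μ (n + m) - y c μ n ∧
      y c μ (n + m) - y c μ n ≤ K * ((m : ℝ) * (n : ℝ) ^ (-(2 / 5 : ℝ) + ε))) ∧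
    -(K * ((m : ℝ) * (n : ℝ) ^ (-(1 / 3 : ℝ) + ε))) - Real.log (5 / μ) ≤
        y c μ (n + m) - y c μ n ∧
      y c μ (n + m) - y c μ n ≤
        K * ((m : ℝ) * (n : ℝ) ^ (-(2 / 5 : ℝ) + ε)) + Real.log (5 / μ) := by
  obtain ⟨K1, k1, hK1⟩ := y_even h hε hε3
  obtain ⟨K2, k2, hK2⟩ := y_odd h hε hε3
  refine ⟨K1 + K2, by positivity, fun n hn m => ?_⟩
  have hl := log5_nonneg h
  have x1 : 0 ≤ (m : ℝ) * (n : ℝ) ^ (-(1 / 3 : ℝ) + ε) := by positivity
  have x2 : 0 ≤ (m : ℝ) * (n : ℝ) ^ (-(2 / 5 : ℝ) + ε) := by positivity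
  rcases Nat.even_or_odd' m with ⟨j, hj | hj⟩
  · have h1 := hK1 n hn j
    rw [← hj, show (2 * j : ℝ) = m by rw [hj]; push_cast; ring] at h1
    have key : -((K1 + K2) * ((m : ℝ) * (n : ℝ) ^ (-(1 / 3 : ℝ) + ε))) ≤ y c μ (n + m) - y c μ n ∧
        y c μ (n + m) - y c μ n ≤ (K1 + K2) * ((m : ℝ) * (n : ℝ) ^ (-(2 / 5 : ℝ) + ε)) := by
      constructor <;> nlinarith [h1.1, h1.2]
    exact ⟨fun _ => key, by linarith [key.1], by linarith [key.2]⟩
  · have h1 := hK2 n hn j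
    rw [← hj, show (2 * j + 1 : ℝ) = m by rw [hj]; push_cast; ring] at h1
    refine ⟨fun he => ?_, ?_, ?_⟩
    · rw [hj] at he
      exact absurd he (by simp)
    · nlinarith [h1.1]
    · nlinarith [h1.2]

lemma P_pos (h : Hy c μ) (n m : ℕ) : 0 < P c n m := by
  have := h.pos n
  have := h.pos m
  have := h.pos (n + m)
  unfold P
  positivity

lemma log_P (h : Hy c μ) (n m : ℕ) : Real.log (P c n m) = y c μ (n + m) - y c μ n - y c μ m := by
  have p1 := h.pos n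
  have p2 := h.pos m
  have p3 := h.pos (n + m)
  unfold P
  rw [y_eq h, y_eq h, y_eq h, Real.log_div (by positivity) (by positivity),
    Real.log_mul (by positivity) (by positivity)]
  push_cast
  ring

lemma P_comm (n m : ℕ) : P c n m = P c m n := by
  unfold P
  rw [Nat.add_comm, mul_comm]

lemma exp_le_P (h : Hy c μ) {n m : ℕ} {x : ℝ} (hx : x ≤ y c μ (n + m) - y c μ n - y c μ m) :
    Real.exp x ≤ P c n m := by
  rw [← log_P h] at hx
  rwa [← Real.le_log_iff_exp_le (P_pos h n m)]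

/-- the probability over the inverse of the normalised number of the shorter walks -/
lemma log_PQ (h : Hy c μ) (n m : ℕ) :
    Real.log (P c n m / (μ ^ m / c m)) = y c μ (n + m) - y c μ n := by
  have p2 := h.pos m
  have p3 := pow_pos h.mu m
  rw [Real.log_div (P_pos h n m).ne' (by positivity), log_P h,
    show y c μ m = Real.log (c m) - m * Real.log μ from y_eq h m,
    Real.log_div (by positivity) (by positivity), Real.log_pow]
  ring

/-- **the non-intersection probability of walks of different lengths** -/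
theorem unequal (h : Hy c μ) {ε : ℝ} (hε : 0 < ε) (hε3 : ε < 1 / 3) : ∃ K : ℝ, 0 ≤ K ∧
    ∀ n m : ℕ, 1 ≤ n →
      (Even m → Real.exp (-(K * ((m : ℝ) * (n : ℝ) ^ (-(1 / 3 : ℝ) + ε)))) ≤
          P c n m / (μ ^ m / c m) ∧
        P c n m / (μ ^ m / c m) ≤ Real.exp (K * ((m : ℝ) * (n : ℝ) ^ (-(2 / 5 : ℝ) + ε)))) ∧
      μ / 5 * Real.exp (-(K * ((m : ℝ) * (n : ℝ) ^ (-(1 / 3 : ℝ) + ε)))) ≤
          P c n m / (μ ^ m / c m) ∧
        P c n m / (μ ^ m / c m) ≤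
          5 / μ * Real.exp (K * ((m : ℝ) * (n : ℝ) ^ (-(2 / 5 : ℝ) + ε))) := by
  obtain ⟨K, hK0, hK⟩ := y_all h hε hε3
  refine ⟨K, hK0, fun n m hn => ?_⟩
  obtain ⟨h1, h2, h3⟩ := hK n hn m
  have hμ := h.mu
  have hp : 0 < P c n m / (μ ^ m / c m) := by
    have := P_pos h n m
    have := h.pos m
    positivity
  have e : Real.log (5 / μ) = -Real.log (μ / 5) := by
    rw [← Real.log_inv, inv_div]
  refine ⟨fun he => ⟨?_, ?_⟩, ?_, ?_⟩
  · rw [← Real.le_log_iff_exp_le hp, log_PQ h]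
    exact (h1 he).1
  · rw [← Real.log_le_iff_le_exp hp, log_PQ h]
    exact (h1 he).2
  · rw [← Real.log_le_log_iff (by positivity) hp, log_PQ h,
      Real.log_mul (by positivity) (Real.exp_pos _).ne', Real.log_exp]
    linarith
  · rw [← Real.log_le_log_iff hp (by positivity), log_PQ h,
      Real.log_mul (by positivity) (Real.exp_pos _).ne', Real.log_exp]
    linarith

/-- lower bounds which involve the length of the shorter walk only -/
theorem P_lower (h : Hy c μ) {ε : ℝ} (hε : 0 < ε) : ∃ K : ℝ, 0 ≤ K ∧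
    (∀ n m : ℕ, 1 ≤ n → 1 ≤ m →
      Real.exp (-(K * ((min n m : ℕ) : ℝ) ^ (1 / 2 + ε))) ≤ P c n m) ∧
    ∀ n m : ℕ, 1 ≤ m → m ^ 2 ≤ n → Real.exp (-(K * (m : ℝ) ^ (1 / 3 + ε))) ≤ P c n m := by
  obtain ⟨δ, hδ⟩ : ∃ δ, δ = min (ε / 2) (1 / 6) := ⟨_, rfl⟩
  have hδ0 : 0 < δ := by rw [hδ]; positivity
  have hδε : δ ≤ ε / 2 := by rw [hδ]; exact min_le_left _ _
  have hδ6 : δ ≤ 1 / 6 := by rw [hδ]; exact min_le_right _ _
  obtain ⟨K1, k1, hK1⟩ := y_all h hδ0 (by linarith)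
  obtain ⟨K2, k2, hK2⟩ := y_up h (show (1 : ℝ) / 3 < 1 / 3 + δ by linarith)
  have hL := log5_nonneg h
  obtain ⟨K, hK⟩ : ∃ K, K = K1 + 2 * K2 + Real.log (5 / μ) := ⟨_, rfl⟩
  have hK0 : 0 ≤ K := by rw [hK]; positivity
  refine ⟨K, hK0, ?_, ?_⟩
  · have main : ∀ n m : ℕ, 1 ≤ m → m ≤ n → Real.exp (-(K * (m : ℝ) ^ (1 / 2 + ε))) ≤ P c n m := by
      intro n m hm hmn
      have hm' : (1 : ℝ) ≤ m := by exact_mod_cast hm
      have hn' : (1 : ℝ) ≤ n := by exact_mod_cast hm.trans hmn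
      have hm0 : (0 : ℝ) < m := by linarith
      have hn0 : (0 : ℝ) < n := by linarith
      apply exp_le_P h
      have e1 : (1 : ℝ) ≤ (m : ℝ) ^ (1 / 2 + ε) := Real.one_le_rpow hm' (by linarith)
      have e2 : (m : ℝ) ^ (1 / 3 + δ) ≤ (m : ℝ) ^ (1 / 2 + ε) := rpow_le_of hm (by linarith)
      have y1 := hK2 m
      have y0 := y_nonneg h (n + m)
      have e4 : K2 * (m : ℝ) ^ (1 / 3 + δ) ≤ K2 * (m : ℝ) ^ (1 / 2 + ε) := by gcongr
      have e5 : Real.log (5 / μ) ≤ Real.log (5 / μ) * (m : ℝ) ^ (1 / 2 + ε) := by nlinarith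
      rcases le_total ((m : ℝ) ^ (3 / 2 : ℝ)) n with hc | hc
      · have g1 : (n : ℝ) ^ (-(1 / 3 : ℝ) + δ) ≤ (m : ℝ) ^ (-(1 / 2 : ℝ) + ε) := by
          calc (n : ℝ) ^ (-(1 / 3 : ℝ) + δ) ≤ ((m : ℝ) ^ (3 / 2 : ℝ)) ^ (-(1 / 3 : ℝ) + δ) :=
                Real.rpow_le_rpow_of_nonpos (by positivity) hc (by linarith)
            _ = (m : ℝ) ^ (3 / 2 * (-(1 / 3 : ℝ) + δ)) := by rw [← Real.rpow_mul hm0.le]
            _ ≤ _ := rpow_le_of hm (by linarith)
        have g2 : (m : ℝ) * (n : ℝ) ^ (-(1 / 3 : ℝ) + δ) ≤ (m : ℝ) ^ (1 / 2 + ε) := by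
          calc (m : ℝ) * (n : ℝ) ^ (-(1 / 3 : ℝ) + δ) ≤ m * (m : ℝ) ^ (-(1 / 2 : ℝ) + ε) := by
                gcongr
            _ = (m : ℝ) ^ (1 : ℝ) * (m : ℝ) ^ (-(1 / 2 : ℝ) + ε) := by rw [Real.rpow_one]
            _ = (m : ℝ) ^ (1 / 2 + ε) := by
              rw [← Real.rpow_add hm0]
              congr 1
              ring
        have g3 := (hK1 n (hm.trans hmn) m).2.1
        have g4 := mul_le_mul_of_nonneg_left g2 k1
        have g5 : 0 ≤ K2 * (m : ℝ) ^ (1 / 2 + ε) := by positivity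
        rw [hK]
        linarith
      · have g1 : (n : ℝ) ^ (1 / 3 + δ) ≤ (m : ℝ) ^ (1 / 2 + ε) := by
          calc (n : ℝ) ^ (1 / 3 + δ) ≤ ((m : ℝ) ^ (3 / 2 : ℝ)) ^ (1 / 3 + δ) := by gcongr
            _ = (m : ℝ) ^ (3 / 2 * (1 / 3 + δ)) := by rw [← Real.rpow_mul hm0.le]
            _ ≤ _ := rpow_le_of hm (by linarith)
        have g2 := mul_le_mul_of_nonneg_left g1 k2
        have y2 := hK2 n
        have g5 : 0 ≤ K1 * (m : ℝ) ^ (1 / 2 + ε) := by positivity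
        rw [hK]
        linarith
    intro n m hn hm
    rcases le_total m n with hmn | hmn
    · rw [min_eq_right hmn]; exact main n m hm hmn
    · rw [min_eq_left hmn, P_comm]; exact main m n hn hmn
  · intro n m hm hmn
    have hm' : (1 : ℝ) ≤ m := by exact_mod_cast hm
    have hm0 : (0 : ℝ) < m := by linarith
    have hn : 1 ≤ n := le_trans (Nat.one_le_iff_ne_zero.mpr (by positivity)) hmn
    have hmn' : (m : ℝ) ^ (2 : ℝ) ≤ n := by
      rw [show (2 : ℝ) = ((2 : ℕ) : ℝ) by norm_num, Real.rpow_natCast]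
      exact_mod_cast hmn
    apply exp_le_P h
    have e1 : (1 : ℝ) ≤ (m : ℝ) ^ (1 / 3 + ε) := Real.one_le_rpow hm' (by linarith)
    have e2 : (m : ℝ) ^ (1 / 3 + δ) ≤ (m : ℝ) ^ (1 / 3 + ε) := rpow_le_of hm (by linarith)
    have y1 := hK2 m
    have e4 : K2 * (m : ℝ) ^ (1 / 3 + δ) ≤ K2 * (m : ℝ) ^ (1 / 3 + ε) := by gcongr
    have e5 : Real.log (5 / μ) ≤ Real.log (5 / μ) * (m : ℝ) ^ (1 / 3 + ε) := by nlinarith
    have g1 : (n : ℝ) ^ (-(1 / 3 : ℝ) + δ) ≤ (m : ℝ) ^ (-(2 / 3 : ℝ) + ε) := by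
      calc (n : ℝ) ^ (-(1 / 3 : ℝ) + δ) ≤ ((m : ℝ) ^ (2 : ℝ)) ^ (-(1 / 3 : ℝ) + δ) :=
            Real.rpow_le_rpow_of_nonpos (by positivity) hmn' (by linarith)
        _ = (m : ℝ) ^ (2 * (-(1 / 3 : ℝ) + δ)) := by rw [← Real.rpow_mul hm0.le]
        _ ≤ _ := rpow_le_of hm (by linarith)
    have g2 : (m : ℝ) * (n : ℝ) ^ (-(1 / 3 : ℝ) + δ) ≤ (m : ℝ) ^ (1 / 3 + ε) := by
      calc (m : ℝ) * (n : ℝ) ^ (-(1 / 3 : ℝ) + δ) ≤ m * (m : ℝ) ^ (-(2 / 3 : ℝ) + ε) := by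
            gcongr
        _ = (m : ℝ) ^ (1 : ℝ) * (m : ℝ) ^ (-(2 / 3 : ℝ) + ε) := by rw [Real.rpow_one]
        _ = (m : ℝ) ^ (1 / 3 + ε) := by
          rw [← Real.rpow_add hm0]
          congr 1
          ring
    have g3 := (hK1 n hn m).2.1
    have g4 := mul_le_mul_of_nonneg_left g2 k1
    have g5 : 0 ≤ K2 * (m : ℝ) ^ (1 / 3 + ε) := by positivity
    rw [hK]
    linarith

/-! ## Equivalent forms -/

lemma tendsto_log_nat : Tendsto (fun n : ℕ => Real.log (n : ℝ)) atTop atTop :=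
  Real.tendsto_log_atTop.comp tendsto_natCast_atTop_atTop

/-- a bounded difference does not matter -/
lemma of_bounded {F : Filter ℕ} (hF : F ≤ atTop) {u v : ℕ → ℝ} {B : ℝ}
    (hB : ∀ᶠ n in F, |u n - v n| ≤ B) {α : ℝ}
    (hv : Tendsto (fun n => v n / Real.log n) F (𝓝 α)) :
    Tendsto (fun n => u n / Real.log n) F (𝓝 α) := by
  have h0 : Tendsto (fun n : ℕ => B / Real.log n) F (𝓝 0) :=
    (tendsto_const_nhds.div_atTop tendsto_log_nat).mono_left hF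
  have h1 : Tendsto (fun n => u n / Real.log n - v n / Real.log n) F (𝓝 0) := by
    rw [tendsto_zero_iff_abs_tendsto_zero]
    refine squeeze_zero' (Eventually.of_forall fun n => abs_nonneg _) ?_ h0
    filter_upwards [hB, hF (eventually_ge_atTop 3)] with n hn h3
    have h3' : (3 : ℝ) ≤ n := by exact_mod_cast h3
    have hl : 0 < Real.log n := Real.log_pos (by linarith)
    simp only [Function.comp_apply]
    rw [← sub_div, abs_div, abs_of_pos hl]
    gcongr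
  have h2 := h1.add hv
  rw [zero_add] at h2
  refine h2.congr fun n => ?_
  ring

/-- the doubling formula -/
theorem of_double {y : ℕ → ℝ} (hy : Tendsto (fun n : ℕ => y n / n) atTop (𝓝 0)) {α : ℝ}
    (h : Tendsto (fun n : ℕ => (y (2 * n) - 2 * y n) / Real.log n) atTop (𝓝 (-α))) :
    Tendsto (fun n : ℕ => y n / Real.log n) atTop (𝓝 α) := by
  rw [Metric.tendsto_nhds]
  intro η hη
  obtain ⟨δ, hδ⟩ : ∃ δ, δ = η / 2 := ⟨_, rfl⟩
  have hδ0 : 0 < δ := by rw [hδ]; positivity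
  have h1 := Metric.tendsto_nhds.mp h δ hδ0
  obtain ⟨N, hN⟩ := eventually_atTop.mp h1
  obtain ⟨B, hB⟩ : ∃ B, B = (δ + |α|) * Real.log 2 := ⟨_, rfl⟩
  have hl2 : 0 < Real.log 2 := Real.log_pos (by norm_num)
  have hB0 : 0 ≤ B := by rw [hB]; positivity
  obtain ⟨z, hz⟩ : ∃ z : ℕ → ℝ, ∀ n, z n = y n - α * Real.log n := ⟨_, fun _ => rfl⟩
  have step : ∀ n, N + 2 ≤ n → |z n| ≤ |z (2 * n)| / 2 + (δ * Real.log n + |α| * Real.log 2) / 2 := by
    intro n hn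
    have h2 := hN n (by omega)
    have hn' : (2 : ℝ) ≤ n := by exact_mod_cast (show 2 ≤ n by omega)
    have hl : 0 < Real.log n := Real.log_pos (by linarith)
    rw [Real.dist_eq] at h2
    have h3 : |(y (2 * n) - 2 * y n) + α * Real.log n| ≤ δ * Real.log n := by
      have e : (y (2 * n) - 2 * y n) + α * Real.log n =
          ((y (2 * n) - 2 * y n) / Real.log n - -α) * Real.log n := by field_simp; ring
      rw [e, abs_mul, abs_of_pos hl]
      gcongr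
    have h4 : z n = z (2 * n) / 2 - ((y (2 * n) - 2 * y n) + α * Real.log n) / 2 +
        α * Real.log 2 / 2 := by
      rw [hz, hz]
      push_cast
      rw [Real.log_mul (by norm_num) (by linarith)]
      ring
    have h5 : |α * Real.log 2| = |α| * Real.log 2 := by rw [abs_mul, abs_of_pos hl2]
    rw [h4]
    have a1 := abs_le.mp h3
    have a2 := abs_le.mp (le_of_eq h5)
    have a3 := neg_abs_le (z (2 * n))
    have a4 := le_abs_self (z (2 * n))
    rw [abs_le]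
    constructor <;> linarith [a1.1, a1.2, a2.1, a2.2]
  have iter : ∀ k : ℕ, ∀ n, N + 2 ≤ n →
      |z n| ≤ |z (2 ^ k * n)| / 2 ^ k + (δ * Real.log n + B) := by
    intro k
    induction k with
    | zero =>
      intro n hn
      have hn' : (2 : ℝ) ≤ n := by exact_mod_cast (show 2 ≤ n by omega)
      have hl : 0 < Real.log n := Real.log_pos (by linarith)
      simp only [pow_zero, one_mul, div_one]
      have : 0 ≤ δ * Real.log n + B := by positivity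
      linarith
    | succ k ih =>
      intro n hn
      have h2 := step n hn
      have h3 := ih (2 * n) (by omega)
      have hn' : (2 : ℝ) ≤ n := by exact_mod_cast (show 2 ≤ n by omega)
      have e1 : 2 ^ k * (2 * n) = 2 ^ (k + 1) * n := by ring
      have e2 : Real.log ((2 * n : ℕ) : ℝ) = Real.log 2 + Real.log n := by
        push_cast
        rw [Real.log_mul (by norm_num) (by linarith)]
      rw [e1, e2] at h3
      have e3 : |z (2 ^ (k + 1) * n)| / 2 ^ (k + 1) = |z (2 ^ (k + 1) * n)| / 2 ^ k / 2 := by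
        rw [div_div, ← pow_succ]
      rw [e3]
      have : B = δ * Real.log 2 + |α| * Real.log 2 := by rw [hB]; ring
      nlinarith
  have hzn : ∀ n : ℕ, 1 ≤ n → Tendsto (fun k : ℕ => |z (2 ^ k * n)| / 2 ^ k) atTop (𝓝 0) := by
    intro n hn
    have t1 : Tendsto (fun m : ℕ => z m / m) atTop (𝓝 0) := by
      have l1 : Tendsto (fun m : ℕ => Real.log m / m) atTop (𝓝 0) := by
        have := (Real.isLittleO_log_id_atTop.tendsto_div_nhds_zero).comp
          tendsto_natCast_atTop_atTop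
        exact this
      have l2 := hy.sub (l1.const_mul α)
      rw [mul_zero, sub_zero] at l2
      refine l2.congr fun m => ?_
      rw [hz]
      ring
    have t2 : Tendsto (fun k : ℕ => 2 ^ k * n) atTop atTop := by
      refine tendsto_atTop_mono (fun k => ?_) (tendsto_pow_atTop_atTop_of_one_lt (show 1 < 2 by norm_num))
      exact Nat.le_mul_of_pos_right _ hn
    have t3 := ((t1.comp t2).abs).mul_const (n : ℝ)
    simp only [abs_zero, zero_mul] at t3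
    refine t3.congr fun k => ?_
    have hn0 : (0 : ℝ) < n := by exact_mod_cast hn
    simp only [Function.comp_apply]
    rw [abs_div]
    push_cast
    rw [abs_of_pos (show (0 : ℝ) < 2 ^ k * n by positivity)]
    field_simp
  have bound : ∀ n, N + 2 ≤ n → |z n| ≤ δ * Real.log n + B := by
    intro n hn
    have t := (hzn n (by omega)).add_const (δ * Real.log n + B)
    rw [zero_add] at t
    exact ge_of_tendsto' t fun k => iter k n hn
  have hlarge := tendsto_log_nat.eventually_gt_atTop (B / δ)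
  filter_upwards [eventually_ge_atTop (N + 2), hlarge] with n hn hl
  have hn' : (2 : ℝ) ≤ n := by exact_mod_cast (show 2 ≤ n by omega)
  have hl0 : 0 < Real.log n := Real.log_pos (by linarith)
  have h2 := bound n hn
  rw [div_lt_iff₀ hδ0] at hl
  rw [Real.dist_eq]
  have e : y n / Real.log n - α = z n / Real.log n := by rw [hz]; field_simp
  rw [e, abs_div, abs_of_pos hl0, div_lt_iff₀ hl0]
  have : η = 2 * δ := by rw [hδ]; ring
  nlinarith

lemma log_two_mul_ratio : Tendsto (fun n : ℕ => Real.log ((2 * n : ℕ) : ℝ) / Real.log n) atTop (𝓝 1) := by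
  have h0 : Tendsto (fun n : ℕ => Real.log 2 / Real.log n) atTop (𝓝 0) :=
    tendsto_const_nhds.div_atTop tendsto_log_nat
  have h1 := h0.add_const 1
  rw [zero_add] at h1
  refine h1.congr' ?_
  filter_upwards [eventually_ge_atTop 2] with n hn
  have hn' : (2 : ℝ) ≤ n := by exact_mod_cast hn
  have hl0 : 0 < Real.log n := Real.log_pos (by linarith)
  push_cast
  rw [Real.log_mul (by norm_num) (by linarith)]
  field_simp

theorem to_double {y : ℕ → ℝ} {α : ℝ}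
    (h : Tendsto (fun n : ℕ => y n / Real.log n) atTop (𝓝 α)) :
    Tendsto (fun n : ℕ => (y (2 * n) - 2 * y n) / Real.log n) atTop (𝓝 (-α)) := by
  have t2 : Tendsto (fun n : ℕ => 2 * n) atTop atTop :=
    tendsto_atTop_mono (fun n => show n ≤ 2 * n by omega) tendsto_id
  have h1 := ((h.comp t2).mul log_two_mul_ratio).sub (h.const_mul 2)
  rw [mul_one, show α - 2 * α = -α by ring] at h1
  refine h1.congr' ?_
  filter_upwards [eventually_ge_atTop 2] with n hn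
  have hn' : (2 : ℝ) ≤ n := by exact_mod_cast hn
  have hl0 : 0 < Real.log n := Real.log_pos (by linarith)
  have hl1 : 0 < Real.log ((2 * n : ℕ) : ℝ) := Real.log_pos (by push_cast; linarith)
  simp only [Function.comp_apply]
  rw [div_mul_div_cancel₀ hl1.ne']
  ring

lemma y_small (h : Hy c μ) : Tendsto (fun n : ℕ => y c μ n / n) atTop (𝓝 0) := by
  obtain ⟨K, hK0, hK⟩ := y_up h (show (1 : ℝ) / 3 < 1 / 2 by norm_num)
  have t : Tendsto (fun n : ℕ => K * (n : ℝ) ^ (-(1 / 2 : ℝ))) atTop (𝓝 0) := by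
    have := ((tendsto_rpow_neg_atTop (show (0 : ℝ) < 1 / 2 by norm_num)).comp
      tendsto_natCast_atTop_atTop).const_mul K
    rwa [mul_zero] at this
  refine squeeze_zero' (Eventually.of_forall fun n => ?_) ?_ t
  · have := y_nonneg h n
    positivity
  · filter_upwards [eventually_ge_atTop 1] with n hn
    have hn0 : (0 : ℝ) < n := by exact_mod_cast hn
    rw [div_le_iff₀ hn0]
    refine (hK n).trans (le_of_eq ?_)
    rw [mul_assoc]
    congr 1
    nth_rw 3 [← Real.rpow_one (n : ℝ)]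
    rw [← Real.rpow_add hn0]
    norm_num

/-- first equivalence -/
theorem iff_double (h : Hy c μ) (α : ℝ) :
    Tendsto (fun n : ℕ => Real.log (P c n n) / Real.log n) atTop (𝓝 (-α)) ↔
      Tendsto (fun n : ℕ => y c μ n / Real.log n) atTop (𝓝 α) := by
  have e : ∀ n : ℕ, Real.log (P c n n) = y c μ (2 * n) - 2 * y c μ n := by
    intro n
    rw [log_P h, two_mul n]
    ring
  simp only [e]
  exact ⟨of_double (y_small h), to_double⟩

/-- the longer walk has length at least a power of the length of the shorter one -/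
lemma N_bound (h : Hy c μ) {N : ℕ → ℕ} {ε : ℝ} (hε : 0 < ε) (hε3 : ε < 1 / 3) {F : Filter ℕ}
    (hF : F ≤ atTop) (hN : ∀ᶠ m : ℕ in F, (m : ℝ) ≤ (N m : ℝ) ^ (1 / 3 - ε)) :
    ∃ B : ℝ, ∀ᶠ m in F, |Real.log (P c (N m) m) - -y c μ m| ≤ B := by
  obtain ⟨K, hK0, hK⟩ := y_all h hε hε3
  refine ⟨K + Real.log (5 / μ), ?_⟩
  filter_upwards [hN, hF (eventually_ge_atTop 1)] with m h1 h2
  have hm : (1 : ℝ) ≤ m := by exact_mod_cast h2
  have hN1 : 1 ≤ N m := by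
    by_contra hcon
    have : N m = 0 := by omega
    rw [this, Nat.cast_zero, Real.zero_rpow (by linarith)] at h1
    linarith
  have hN0 : (0 : ℝ) < N m := by exact_mod_cast hN1
  have g1 : (m : ℝ) * (N m : ℝ) ^ (-(1 / 3 : ℝ) + ε) ≤ 1 := by
    calc (m : ℝ) * (N m : ℝ) ^ (-(1 / 3 : ℝ) + ε) ≤
          (N m : ℝ) ^ (1 / 3 - ε) * (N m : ℝ) ^ (-(1 / 3 : ℝ) + ε) := by gcongr
      _ = 1 := by
        rw [← Real.rpow_add hN0, show 1 / 3 - ε + (-(1 / 3 : ℝ) + ε) = 0 by ring, Real.rpow_zero]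
  have g2 : (m : ℝ) * (N m : ℝ) ^ (-(2 / 5 : ℝ) + ε) ≤ 1 := by
    refine le_trans ?_ g1
    have := rpow_le_of hN1 (show -(2 / 5 : ℝ) + ε ≤ -(1 / 3 : ℝ) + ε by linarith)
    gcongr
  obtain ⟨-, h3, h4⟩ := hK (N m) hN1 m
  rw [log_P h]
  have g3 := mul_le_mul_of_nonneg_left g1 hK0
  have g4 := mul_le_mul_of_nonneg_left g2 hK0
  rw [abs_le]
  constructor <;> linarith

/-- second equivalence -/
theorem iff_unequal (h : Hy c μ) (α : ℝ) {N : ℕ → ℕ} {ε : ℝ} (hε : 0 < ε) (hε3 : ε < 1 / 3)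
    {F : Filter ℕ} (hF : F ≤ atTop) (hN : ∀ᶠ m : ℕ in F, (m : ℝ) ≤ (N m : ℝ) ^ (1 / 3 - ε)) :
    Tendsto (fun m : ℕ => Real.log (P c (N m) m) / Real.log m) F (𝓝 (-α)) ↔
      Tendsto (fun m : ℕ => y c μ m / Real.log m) F (𝓝 α) := by
  obtain ⟨B, hB⟩ := N_bound h hε hε3 hF hN
  constructor
  · intro h1
    have h2 : Tendsto (fun m : ℕ => -y c μ m / Real.log m) F (𝓝 (-α)) :=
      of_bounded hF (u := fun m => -y c μ m) (v := fun m => Real.log (P c (N m) m)) (B := B)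
        (by filter_upwards [hB] with m hm; rwa [abs_sub_comm]) h1
    have h3 := h2.neg
    rw [neg_neg] at h3
    refine h3.congr fun m => ?_
    rw [neg_div, neg_neg]
  · intro h1
    have h2 : Tendsto (fun m : ℕ => -y c μ m / Real.log m) F (𝓝 (-α)) := by
      refine h1.neg.congr fun m => ?_
      rw [neg_div]
    exact of_bounded hF (u := fun m => Real.log (P c (N m) m)) (v := fun m => -y c μ m) hB h2

/-- the set `S` meets `[n, n + n ^ (1/3 - ε)]` for all large `n` -/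
def Gaps (S : Set ℕ) (ε : ℝ) : Prop :=
  ∀ᶠ n : ℕ in atTop, ∃ m ∈ S, n ≤ m ∧ (m : ℝ) ≤ n + (n : ℝ) ^ (1 / 3 - ε)

/-- **from a sparse set of lengths to all lengths** -/
theorem of_sparse (h : Hy c μ) (α : ℝ) {ε : ℝ} (hε : 0 < ε) (hε3 : ε < 1 / 3) {S : Set ℕ}
    (hS : Gaps S ε)
    (h1 : Tendsto (fun m : ℕ => y c μ m / Real.log m) (atTop ⊓ 𝓟 S) (𝓝 α)) :
    Tendsto (fun n : ℕ => y c μ n / Real.log n) atTop (𝓝 α) := by
  obtain ⟨K, hK0, hK⟩ := y_all h hε hε3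
  obtain ⟨n0, hn0⟩ := eventually_atTop.mp hS
  have hex : ∀ n : ℕ, ∃ m : ℕ, n0 ≤ n → m ∈ S ∧ n ≤ m ∧ (m : ℝ) ≤ n + (n : ℝ) ^ (1 / 3 - ε) := by
    intro n
    by_cases hn : n0 ≤ n
    · obtain ⟨m, hm⟩ := hn0 n hn
      exact ⟨m, fun _ => hm⟩
    · exact ⟨0, fun h => absurd h hn⟩
  choose g hg using hex
  have tg1 : Tendsto g atTop atTop := by
    refine tendsto_atTop_mono' _ ?_ tendsto_id
    filter_upwards [eventually_ge_atTop n0] with n hn
    exact (hg n hn).2.1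
  have tg : Tendsto g atTop (atTop ⊓ 𝓟 S) := by
    rw [tendsto_inf]
    refine ⟨tg1, tendsto_principal.mpr ?_⟩
    filter_upwards [eventually_ge_atTop n0] with n hn
    exact (hg n hn).1
  have h2 := h1.comp tg
  -- `log (g n) / log n → 1`
  have hlog : ∀ᶠ n : ℕ in atTop, |Real.log (g n) - Real.log n| ≤ Real.log 2 := by
    filter_upwards [eventually_ge_atTop n0, eventually_ge_atTop 1] with n hn hn1
    obtain ⟨-, a1, a2⟩ := hg n hn
    have hn' : (1 : ℝ) ≤ n := by exact_mod_cast hn1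
    have b1 : (n : ℝ) ^ (1 / 3 - ε) ≤ n := by
      calc (n : ℝ) ^ (1 / 3 - ε) ≤ (n : ℝ) ^ (1 : ℝ) := rpow_le_of hn1 (by linarith)
        _ = n := Real.rpow_one _
    have b2 : (n : ℝ) ≤ g n := by exact_mod_cast a1
    have b3 : Real.log n ≤ Real.log (g n) := Real.log_le_log (by linarith) b2
    rw [abs_of_nonneg (by linarith)]
    have b4 : Real.log (g n) ≤ Real.log (2 * n) := Real.log_le_log (by linarith) (by linarith)
    rw [Real.log_mul (by norm_num) (by linarith)] at b4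
    linarith
  have hratio : Tendsto (fun n : ℕ => Real.log (g n) / Real.log n) atTop (𝓝 1) := by
    refine of_bounded le_rfl (u := fun n => Real.log (g n)) (v := fun n => Real.log n) hlog ?_
    refine tendsto_const_nhds.congr' ?_
    filter_upwards [eventually_ge_atTop 2] with n hn
    have hn' : (2 : ℝ) ≤ n := by exact_mod_cast hn
    have hl0 : 0 < Real.log n := Real.log_pos (by linarith)
    rw [div_self hl0.ne']
  have h3 : Tendsto (fun n : ℕ => y c μ (g n) / Real.log n) atTop (𝓝 α) := by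
    have h4 := h2.mul hratio
    rw [mul_one] at h4
    refine h4.congr' ?_
    filter_upwards [eventually_ge_atTop 2, eventually_ge_atTop n0] with n hn hn'
    have h5 := (hg n hn').2.1
    have h6 : (2 : ℝ) ≤ g n := by exact_mod_cast (show 2 ≤ g n by omega)
    have hl0 : 0 < Real.log (g n) := Real.log_pos (by linarith)
    simp only [Function.comp_apply]
    rw [div_mul_div_cancel₀ hl0.ne']
  refine of_bounded le_rfl (u := fun n => y c μ n) (v := fun n => y c μ (g n))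
    (B := K + Real.log (5 / μ)) ?_ h3
  filter_upwards [eventually_ge_atTop n0, eventually_ge_atTop 1] with n hn hn1
  obtain ⟨-, a1, a2⟩ := hg n hn
  have hn' : (0 : ℝ) < n := by exact_mod_cast hn1
  have b2 : (n : ℝ) ≤ g n := by exact_mod_cast a1
  have e1 : n + (g n - n) = g n := by omega
  have e2 : ((g n - n : ℕ) : ℝ) = (g n : ℝ) - n := by rw [Nat.cast_sub a1]
  obtain ⟨-, h7, h8⟩ := hK n hn1 (g n - n)
  rw [e1, e2] at h7 h8
  have g1 : ((g n : ℝ) - n) * (n : ℝ) ^ (-(1 / 3 : ℝ) + ε) ≤ 1 := by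
    calc ((g n : ℝ) - n) * (n : ℝ) ^ (-(1 / 3 : ℝ) + ε) ≤
          (n : ℝ) ^ (1 / 3 - ε) * (n : ℝ) ^ (-(1 / 3 : ℝ) + ε) := by gcongr; linarith
      _ = 1 := by
        rw [← Real.rpow_add hn', show 1 / 3 - ε + (-(1 / 3 : ℝ) + ε) = 0 by ring, Real.rpow_zero]
  have g2 : ((g n : ℝ) - n) * (n : ℝ) ^ (-(2 / 5 : ℝ) + ε) ≤ 1 := by
    refine le_trans ?_ g1
    have := rpow_le_of hn1 (show -(2 / 5 : ℝ) + ε ≤ -(1 / 3 : ℝ) + ε by linarith)
    have : 0 ≤ (g n : ℝ) - n := by linarith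
    gcongr
  have g3 := mul_le_mul_of_nonneg_left g1 hK0
  have g4 := mul_le_mul_of_nonneg_left g2 hK0
  rw [abs_le]
  constructor <;> linarith

end Pool.Agent.R956.Z2
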