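import Pool.Agent.R956.Z1
import Pool.Agent.R956.Z2

/-!
# The numbers of self-avoiding walks on `ℤ³` satisfy the hypotheses of `Z2`
-/

set_option autoImplicit false

namespace Pool.Agent.R956.Z3

open Filter Topology

theorem hy : Z2.Hy (fun n => (TH966.KO.c n : ℝ)) TH966.KO.μ where
  mu := by linarith [TH966.KO.mu_one]
  mu5 := TH966.KO.mu_le
  pos := TH966.KO.c_pos
  add n m := by
    have := TH966.KO.c_add n m
    exact_mod_cast this
  one n hn := by
    obtain ⟨k, rfl⟩ : ∃ k, n = k + 1 := ⟨n - 1, by omega⟩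
    exact_mod_cast Z1.c_step k
  low := TH966.KO.mu_pow
  up := TH966.KO.third
  rates := TH966.KO.rates

end Pool.Agent.R956.Z3
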