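import Pool.Agent.R956.K4
import Pool.Agent.R956.Z3

/-!
# Kesten's inequality on `ℤ³`
-/

set_option autoImplicit false
set_option linter.unusedVariables false

namespace Pool.Agent.R956.K5

open Filter Topology
open Pool.Agent.Y943.SL (Wk)
open Pool.Agent.R956.Z2

variable {c : ℕ → ℝ} {μ : ℝ}

lemma two_tend (h : Hy c μ) : Tendsto (fun n => c (n + 2) / c n) atTop (𝓝 (μ ^ 2)) := by
  obtain ⟨K, hK⟩ := h.rates (1 / 6) (by norm_num)
  have t1 : Tendsto (fun n : ℕ => μ ^ 2 - K * (n : ℝ) ^ (-(1 / 3 : ℝ) + 1 / 6)) atTop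
      (𝓝 (μ ^ 2)) := by
    have h1 := ((tendsto_rpow_neg_atTop (show (0 : ℝ) < 1 / 6 by norm_num)).comp
      tendsto_natCast_atTop_atTop).const_mul K
    have h2 := h1.const_sub (μ ^ 2)
    rw [mul_zero, sub_zero] at h2
    refine h2.congr fun n => ?_
    simp only [Function.comp_apply]
    norm_num
  have t2 : Tendsto (fun n : ℕ => μ ^ 2 + K * (n : ℝ) ^ (-(2 / 5 : ℝ) + 1 / 6)) atTop
      (𝓝 (μ ^ 2)) := by
    have h1 := ((tendsto_rpow_neg_atTop (show (0 : ℝ) < 7 / 30 by norm_num)).comp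
      tendsto_natCast_atTop_atTop).const_mul K
    have h2 := h1.const_add (μ ^ 2)
    rw [mul_zero, add_zero] at h2
    refine h2.congr fun n => ?_
    simp only [Function.comp_apply]
    norm_num
  refine tendsto_of_tendsto_of_tendsto_of_le_of_le' t1 t2 ?_ ?_
  · filter_upwards [hK] with n hn
    linarith [hn.1]
  · filter_upwards [hK] with n hn
    linarith [hn.2]

lemma r_two (h : Hy c μ) :
    Tendsto (fun n => c (n + 2) / μ ^ (n + 2) / (c n / μ ^ n)) atTop (𝓝 1) := by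
  have hμ := h.mu
  have h1 := (two_tend h).div_const (μ ^ 2)
  rw [div_self (by positivity)] at h1
  refine h1.congr fun n => ?_
  have := (h.pos n).ne'
  have := (pow_pos hμ n).ne'
  rw [pow_add]
  field_simp

/-- consecutive lengths -/
theorem step (h : Hy c μ) {ε : ℝ} (hε : 0 < ε) : ∀ᶠ n in atTop,
    c (n + 1) / μ ^ (n + 1) ≤ (5 / μ + ε) * (c n / μ ^ n) ∧
      c n / μ ^ n ≤ (5 / μ + ε) * (c (n + 1) / μ ^ (n + 1)) := by
  have hμ := h.mu
  refine X2.r_aux (r := fun n => c n / μ ^ n) (β := 5 / μ) (by positivity)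
    (fun n => div_pos (h.pos n) (pow_pos hμ n)) (r_two h) (fun n hn => ?_) hε
  have := h.one n hn
  rw [pow_succ, div_le_iff₀ (by positivity)]
  have e : 5 / μ * (c n / μ ^ n) * (μ ^ n * μ) = 5 * c n := by
    have := (pow_pos hμ n).ne'
    field_simp
  rw [e]
  exact this

theorem wk (h : Hy c μ) (hk : ∃ D : ℝ, 0 ≤ D ∧ ∀ s : ℕ, s ≤ 1 → ∃ k0 : ℕ,
    TH966.KS.Kes (fun k => c (2 * k + s) / μ ^ (2 * k + s)) D (1 / 2) k0) : Wk c μ where
  hμ := h.mu
  low := h.low
  kes := hk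
  par := by
    have hμ := h.mu
    have hp : ∀ n, 0 < c n / μ ^ n := fun n => div_pos (h.pos n) (pow_pos hμ n)
    have h1 : ∀ᶠ n : ℕ in atTop, |Real.log (c (n + 1) / μ ^ (n + 1)) - Real.log (c n / μ ^ n)| ≤
        Real.log (5 / μ + 1) * 1 := by
      filter_upwards [step h one_pos] with n hn
      have h2 := Real.log_le_log (hp (n + 1)) hn.1
      have h3 := Real.log_le_log (hp n) hn.2
      rw [Real.log_mul (by positivity) (hp _).ne'] at h2 h3
      rw [mul_one, abs_le]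
      constructor <;> linarith
    obtain ⟨B, hB0, hB⟩ := Z2.ev_all (g := fun _ => 1) (fun _ _ => one_pos) ⟨_, h1⟩
    exact ⟨B, fun n hn => by simpa using hB n hn⟩
  sub := y_small h

theorem wk3 : Wk (fun n => (TH966.KO.c n : ℝ)) TH966.KO.μ := by
  refine wk Z3.hy ?_
  obtain ⟨D, hD, h⟩ := TH966.KO.kes_ys
  exact ⟨D, hD, fun s _ => h (1 / 2) s⟩

end Pool.Agent.R956.K5
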