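import Pool.Agent.R956.K3

/-!
# Sequences whose increments have bounded variation on dyadic blocks
-/

set_option autoImplicit false
set_option linter.unusedVariables false

namespace Pool.Agent.R956.K6

open Filter Topology Finset
open scoped Classical
open Pool.Agent.Y943.SL (Wk)

/-- the absolute second difference -/
noncomputable def dd (F : ℕ → ℝ) (k : ℕ) : ℝ := |F (k + 2) - 2 * F (k + 1) + F k|

lemma dd_nonneg (F : ℕ → ℝ) (k : ℕ) : 0 ≤ dd F k := abs_nonneg _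

/-- the variation of the increments over dyadic blocks is bounded -/
def Bv (F : ℕ → ℝ) : Prop :=
  ∃ C : ℝ, 0 ≤ C ∧ ∀ᶠ N : ℕ in atTop, ∑ k ∈ Ico N (2 * N), dd F k ≤ C

lemma Bv.add {F G : ℕ → ℝ} (hF : Bv F) (hG : Bv G) : Bv (fun k => F k + G k) := by
  obtain ⟨C, hC, h1⟩ := hF
  obtain ⟨D, hD, h2⟩ := hG
  refine ⟨C + D, by positivity, ?_⟩
  filter_upwards [h1, h2] with N g1 g2
  refine le_trans ?_ (add_le_add g1 g2)
  rw [← sum_add_distrib]
  refine sum_le_sum fun k _ => ?_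
  unfold dd
  rw [show F (k + 2) + G (k + 2) - 2 * (F (k + 1) + G (k + 1)) + (F k + G k) =
    (F (k + 2) - 2 * F (k + 1) + F k) + (G (k + 2) - 2 * G (k + 1) + G k) by ring]
  exact abs_add_le _ _

lemma Bv.smul {F : ℕ → ℝ} (hF : Bv F) (t : ℝ) : Bv (fun k => t * F k) := by
  obtain ⟨C, hC, h1⟩ := hF
  refine ⟨|t| * C, by positivity, ?_⟩
  filter_upwards [h1] with N g1
  refine le_trans ?_ (mul_le_mul_of_nonneg_left g1 (abs_nonneg t))
  rw [mul_sum]
  refine sum_le_sum fun k _ => ?_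
  unfold dd
  rw [show t * F (k + 2) - 2 * (t * F (k + 1)) + t * F k =
    t * (F (k + 2) - 2 * F (k + 1) + F k) by ring, abs_mul]

lemma Bv.dil {F : ℕ → ℝ} (hF : Bv F) {s : ℕ} (hs : s ≤ 1) : Bv (fun k => F (2 * k + s)) := by
  obtain ⟨C, hC, h1⟩ := hF
  obtain ⟨N0, hN0⟩ := eventually_atTop.1 h1
  refine ⟨8 * C, by positivity, ?_⟩
  filter_upwards [eventually_ge_atTop (N0 + 4)] with N hN
  have g1 := hN0 (2 * N) (by omega)
  have g2 := hN0 (4 * N) (by omega)
  have key : ∀ k, dd (fun k => F (2 * k + s)) k ≤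
      dd F (2 * k + s + 2) + 2 * dd F (2 * k + s + 1) + dd F (2 * k + s) := by
    intro k
    unfold dd
    beta_reduce
    rw [show 2 * (k + 2) + s = 2 * k + s + 4 by ring, show 2 * (k + 1) + s = 2 * k + s + 2 by ring,
      show 2 * k + s + 2 + 2 = 2 * k + s + 4 by ring, show 2 * k + s + 2 + 1 = 2 * k + s + 3 by ring,
      show 2 * k + s + 1 + 2 = 2 * k + s + 3 by ring, show 2 * k + s + 1 + 1 = 2 * k + s + 2 by ring]
    obtain ⟨m, hm⟩ : ∃ m, m = 2 * k + s := ⟨_, rfl⟩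
    rw [← hm]
    have e : F (m + 4) - 2 * F (m + 2) + F m = (F (m + 4) - 2 * F (m + 3) + F (m + 2)) +
      (2 * (F (m + 3) - 2 * F (m + 2) + F (m + 1)) + (F (m + 2) - 2 * F (m + 1) + F m)) := by ring
    rw [e]
    have a1 := abs_add_le (F (m + 4) - 2 * F (m + 3) + F (m + 2))
      (2 * (F (m + 3) - 2 * F (m + 2) + F (m + 1)) + (F (m + 2) - 2 * F (m + 1) + F m))
    have a2 := abs_add_le (2 * (F (m + 3) - 2 * F (m + 2) + F (m + 1)))
      (F (m + 2) - 2 * F (m + 1) + F m)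
    rw [abs_mul, abs_of_pos (show (0 : ℝ) < 2 by norm_num)] at a2
    linarith
  have hall : ∑ m ∈ Ico (2 * N) (8 * N), dd F m ≤ 2 * C := by
    rw [← sum_Ico_consecutive _ (show 2 * N ≤ 4 * N by omega) (show 4 * N ≤ 8 * N by omega)]
    rw [show 2 * (2 * N) = 4 * N by ring] at g1
    rw [show 2 * (4 * N) = 8 * N by ring] at g2
    linarith
  have sub : ∀ i : ℕ, i ≤ 2 → ∑ k ∈ Ico N (2 * N), dd F (2 * k + s + i) ≤ 2 * C := by
    intro i hi
    refine le_trans ?_ hall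
    rw [← sum_image (f := fun m => dd F m) (g := fun k => 2 * k + s + i)
      (s := Ico N (2 * N)) (by intro x _ y _ h; simp only at h; omega)]
    refine sum_le_sum_of_subset_of_nonneg ?_ fun _ _ _ => dd_nonneg _ _
    intro m hm
    rw [mem_image] at hm
    obtain ⟨k, hk, rfl⟩ := hm
    rw [mem_Ico] at hk ⊢
    omega
  calc ∑ k ∈ Ico N (2 * N), dd (fun k => F (2 * k + s)) k ≤
        ∑ k ∈ Ico N (2 * N), (dd F (2 * k + s + 2) + 2 * dd F (2 * k + s + 1) + dd F (2 * k + s)) :=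
        sum_le_sum fun k _ => key k
    _ = ∑ k ∈ Ico N (2 * N), dd F (2 * k + s + 2) + 2 * ∑ k ∈ Ico N (2 * N), dd F (2 * k + s + 1) +
        ∑ k ∈ Ico N (2 * N), dd F (2 * k + s + 0) := by
        rw [sum_add_distrib, sum_add_distrib, mul_sum]
        rfl
    _ ≤ _ := by
        have := sub 0 (by norm_num)
        have := sub 1 (by norm_num)
        have := sub 2 (by norm_num)
        linarith

/-- a nearly convex sequence with bounded increments -/
lemma bv_of_conv {F : ℕ → ℝ} {D B : ℝ} (hD : 0 ≤ D)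
    (h1 : ∀ᶠ k : ℕ in atTop, 2 * F (k + 1) ≤ F k + F (k + 2) + D / k)
    (h2 : ∀ᶠ k : ℕ in atTop, |F (k + 1) - F k| ≤ B) : Bv F := by
  obtain ⟨N1, hN1⟩ := eventually_atTop.1 h1
  obtain ⟨N2, hN2⟩ := eventually_atTop.1 h2
  have hB : 0 ≤ B := (abs_nonneg _).trans (hN2 N2 le_rfl)
  refine ⟨2 * B + 2 * D, by positivity, ?_⟩
  filter_upwards [eventually_ge_atTop (N1 + N2 + 1)] with N hN
  have hN0 : (0 : ℝ) < N := by exact_mod_cast (show 0 < N by omega)
  have key : ∀ m, ∑ k ∈ Ico N (N + m), dd F k ≤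
      (F (N + m + 1) - F (N + m)) - (F (N + 1) - F N) + m * (2 * (D / N)) := by
    intro m
    induction m with
    | zero => simp
    | succ m ih =>
      rw [show N + (m + 1) = N + m + 1 by ring, sum_Ico_succ_top (by omega)]
      have g := hN1 (N + m) (by omega)
      have g2 : D / ((N + m : ℕ) : ℝ) ≤ D / N := by
        apply div_le_div_of_nonneg_left hD hN0
        push_cast
        have : (0 : ℝ) ≤ m := Nat.cast_nonneg m
        linarith
      have hDN : 0 ≤ D / (N : ℝ) := by positivity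
      have g3 : dd F (N + m) ≤ F (N + m + 2) - 2 * F (N + m + 1) + F (N + m) + 2 * (D / N) := by
        unfold dd
        rw [abs_le]
        constructor <;> linarith
      rw [show N + m + 1 + 1 = N + m + 2 by ring]
      push_cast
      linarith
  have h := key N
  rw [show N + N = 2 * N by ring] at h
  have a1 := (abs_le.mp (hN2 (2 * N) (by omega))).2
  have a2 := (abs_le.mp (hN2 N (by omega))).1
  have e : (N : ℝ) * (2 * (D / N)) = 2 * D := by field_simp
  rw [e] at h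
  linarith

/-- the numbers of walks along a parity class -/
theorem bv_wk {c : ℕ → ℝ} {μ : ℝ} (W : Wk c μ) {s : ℕ} (hs : s ≤ 1) :
    Bv (fun k => Real.log (c (2 * k + s) / μ ^ (2 * k + s))) := by
  obtain ⟨D, K⟩ := K3.kc W hs
  obtain ⟨B, hB⟩ := W.par
  refine bv_of_conv (D := D) (B := 2 * B) K.D0 ?_ ?_
  · filter_upwards [K.conv] with k hk
    exact hk
  · filter_upwards [eventually_ge_atTop 1] with k hk
    have h1 := hB (2 * k + s) (by omega)
    have h2 := hB (2 * k + s + 1) (by omega)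
    rw [show 2 * (k + 1) + s = 2 * k + s + 1 + 1 by ring]
    have := abs_sub_le (Real.log (c (2 * k + s + 1 + 1) / μ ^ (2 * k + s + 1 + 1)))
      (Real.log (c (2 * k + s + 1) / μ ^ (2 * k + s + 1)))
      (Real.log (c (2 * k + s) / μ ^ (2 * k + s)))
    linarith

/-- **one-sided maximal inequality** -/
theorem maxi (d : ℕ → ℝ) (hd : ∀ i, 0 ≤ d i) {l : ℝ} (hl : 0 < l) (M : ℕ) : ∀ m A : ℕ,
    M - A ≤ m → l * (((Ico A M).filter (fun n => ∃ j, 1 ≤ j ∧ n + j ≤ M ∧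
      l * j < ∑ i ∈ Ico n (n + j), d i)).card : ℝ) ≤ ∑ i ∈ Ico A M, d i := by
  intro m
  induction m with
  | zero =>
    intro A hA
    rw [Ico_eq_empty (by omega)]
    simp
  | succ m ih =>
    intro A hA
    rcases Nat.lt_or_ge A M with hAM | hAM
    · by_cases hb : ∃ j, 1 ≤ j ∧ A + j ≤ M ∧ l * j < ∑ i ∈ Ico A (A + j), d i
      · obtain ⟨j, hj1, hj2, hj3⟩ := hb
        have h1 := ih (A + j) (by omega)
        have h2 : (Ico A M).filter (fun n => ∃ j, 1 ≤ j ∧ n + j ≤ M ∧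
            l * j < ∑ i ∈ Ico n (n + j), d i) ⊆ Ico A (A + j) ∪
            (Ico (A + j) M).filter (fun n => ∃ j, 1 ≤ j ∧ n + j ≤ M ∧
            l * j < ∑ i ∈ Ico n (n + j), d i) := by
          intro n hn
          rw [mem_filter, mem_Ico] at hn
          rw [mem_union, mem_filter, mem_Ico, mem_Ico]
          rcases Nat.lt_or_ge n (A + j) with h | h
          · exact Or.inl ⟨hn.1.1, h⟩
          · exact Or.inr ⟨⟨h, hn.1.2⟩, hn.2⟩
        have h3 := (card_le_card h2).trans (card_union_le _ _)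
        rw [Nat.card_Ico, Nat.add_sub_cancel_left] at h3
        have h4 : (((Ico A M).filter (fun n => ∃ j, 1 ≤ j ∧ n + j ≤ M ∧
            l * j < ∑ i ∈ Ico n (n + j), d i)).card : ℝ) ≤ j + (((Ico (A + j) M).filter
            (fun n => ∃ j, 1 ≤ j ∧ n + j ≤ M ∧ l * j < ∑ i ∈ Ico n (n + j), d i)).card : ℝ) := by
          exact_mod_cast h3
        rw [← sum_Ico_consecutive _ (show A ≤ A + j by omega) hj2]
        have h5 := mul_le_mul_of_nonneg_left h4 hl.le
        rw [mul_add] at h5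
        linarith
      · have h1 := ih (A + 1) (by omega)
        have h2 : (Ico A M).filter (fun n => ∃ j, 1 ≤ j ∧ n + j ≤ M ∧
            l * j < ∑ i ∈ Ico n (n + j), d i) ⊆
            (Ico (A + 1) M).filter (fun n => ∃ j, 1 ≤ j ∧ n + j ≤ M ∧
            l * j < ∑ i ∈ Ico n (n + j), d i) := by
          intro n hn
          rw [mem_filter, mem_Ico] at hn ⊢
          refine ⟨⟨?_, hn.1.2⟩, hn.2⟩
          by_contra hc
          have : n = A := by omega
          subst this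
          exact hb hn.2
        have h3 : (((Ico A M).filter (fun n => ∃ j, 1 ≤ j ∧ n + j ≤ M ∧
            l * j < ∑ i ∈ Ico n (n + j), d i)).card : ℝ) ≤ (((Ico (A + 1) M).filter
            (fun n => ∃ j, 1 ≤ j ∧ n + j ≤ M ∧ l * j < ∑ i ∈ Ico n (n + j), d i)).card : ℝ) := by
          exact_mod_cast card_le_card h2
        have h4 := mul_le_mul_of_nonneg_left h3 hl.le
        have h5 : ∑ i ∈ Ico (A + 1) M, d i ≤ ∑ i ∈ Ico A M, d i :=
          sum_le_sum_of_subset_of_nonneg (Ico_subset_Ico_left (by omega)) fun _ _ _ => hd _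
        linarith
    · rw [Ico_eq_empty (by omega)]
      simp

lemma incr_le (F : ℕ → ℝ) (n i : ℕ) :
    |(F (n + i + 1) - F (n + i)) - (F (n + 1) - F n)| ≤ ∑ k ∈ Ico n (n + i), dd F k := by
  induction i with
  | zero => simp
  | succ i ih =>
    rw [show n + (i + 1) = n + i + 1 by ring, sum_Ico_succ_top (by omega)]
    have e : (F (n + i + 1 + 1) - F (n + i + 1)) - (F (n + 1) - F n) =
        ((F (n + i + 1) - F (n + i)) - (F (n + 1) - F n)) +
        (F (n + i + 2) - 2 * F (n + i + 1) + F (n + i)) := by ring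
    rw [e]
    have := abs_add_le ((F (n + i + 1) - F (n + i)) - (F (n + 1) - F n))
      (F (n + i + 2) - 2 * F (n + i + 1) + F (n + i))
    unfold dd at ih ⊢
    linarith

lemma lin_le (F : ℕ → ℝ) (n j : ℕ) :
    |F (n + j) - F n - j * (F (n + 1) - F n)| ≤ j * ∑ k ∈ Ico n (n + j), dd F k := by
  induction j with
  | zero => simp
  | succ j ih =>
    have h1 := incr_le F n j
    have h2 : ∑ k ∈ Ico n (n + j), dd F k ≤ ∑ k ∈ Ico n (n + (j + 1)), dd F k :=
      sum_le_sum_of_subset_of_nonneg (Ico_subset_Ico_right (by omega)) fun _ _ _ => dd_nonneg _ _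
    have e : F (n + (j + 1)) - F n - ((j + 1 : ℕ) : ℝ) * (F (n + 1) - F n) =
        (F (n + j) - F n - j * (F (n + 1) - F n)) +
        ((F (n + j + 1) - F (n + j)) - (F (n + 1) - F n)) := by
      push_cast
      rw [show n + (j + 1) = n + j + 1 by ring]
      ring
    rw [e]
    have h3 := abs_add_le (F (n + j) - F n - j * (F (n + 1) - F n))
      ((F (n + j + 1) - F (n + j)) - (F (n + 1) - F n))
    have h4 : (j : ℝ) * ∑ k ∈ Ico n (n + j), dd F k ≤ j * ∑ k ∈ Ico n (n + (j + 1)), dd F k :=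
      mul_le_mul_of_nonneg_left h2 (Nat.cast_nonneg j)
    push_cast
    linarith

/-- **local linearity for most lengths** -/
theorem Bv.lin {F : ℕ → ℝ} (hF : Bv F) : ∃ K : ℝ, 0 < K ∧ ∀ η : ℝ, 0 < η → ∀ᶠ N : ℕ in atTop,
    (((Ico N (2 * N)).filter (fun n => ∃ j : ℕ, j ≤ 2 * N ∧
      K / η * (j : ℝ) ^ 2 / N < |F (n + j) - F n - j * (F (n + 1) - F n)|)).card : ℝ) ≤ η * N := by
  obtain ⟨C, hC, h⟩ := hF
  obtain ⟨N0, hN0⟩ := eventually_atTop.1 h
  refine ⟨2 * C + 1, by positivity, fun η hη => ?_⟩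
  filter_upwards [eventually_ge_atTop (N0 + 1)] with N hN
  have hNp : (0 : ℝ) < N := by exact_mod_cast (show 0 < N by omega)
  obtain ⟨l, hl⟩ : ∃ l : ℝ, l = (2 * C + 1) / η / N := ⟨_, rfl⟩
  have hl0 : 0 < l := by rw [hl]; positivity
  have h1 := maxi (dd F) (dd_nonneg F) hl0 (4 * N) (4 * N) N (by omega)
  have h2 : ∑ i ∈ Ico N (4 * N), dd F i ≤ 2 * C := by
    rw [← sum_Ico_consecutive _ (show N ≤ 2 * N by omega) (show 2 * N ≤ 4 * N by omega)]
    have g1 := hN0 N (by omega)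
    have g2 := hN0 (2 * N) (by omega)
    rw [show 2 * (2 * N) = 4 * N by ring] at g2
    linarith
  have h3 : (Ico N (2 * N)).filter (fun n => ∃ j : ℕ, j ≤ 2 * N ∧
      (2 * C + 1) / η * (j : ℝ) ^ 2 / N < |F (n + j) - F n - j * (F (n + 1) - F n)|) ⊆
      (Ico N (4 * N)).filter (fun n => ∃ j, 1 ≤ j ∧ n + j ≤ 4 * N ∧
      l * j < ∑ i ∈ Ico n (n + j), dd F i) := by
    intro n hn
    rw [mem_filter, mem_Ico] at hn ⊢
    obtain ⟨⟨hn1, hn2⟩, j, hj1, hj2⟩ := hn
    refine ⟨⟨hn1, by omega⟩, j, ?_, by omega, ?_⟩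
    · by_contra hc
      have : j = 0 := by omega
      subst this
      simp at hj2
    · have h4 := hj2.trans_le (lin_le F n j)
      have hj0 : (0 : ℝ) < j := by
        rcases Nat.eq_zero_or_pos j with h0 | h0
        · subst h0
          simp at hj2
        · exact_mod_cast h0
      have e : (2 * C + 1) / η * (j : ℝ) ^ 2 / N = j * (l * j) := by
        rw [hl]
        ring
      rw [e] at h4
      exact lt_of_mul_lt_mul_left h4 hj0.le
  have h4 : (((Ico N (2 * N)).filter (fun n => ∃ j : ℕ, j ≤ 2 * N ∧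
      (2 * C + 1) / η * (j : ℝ) ^ 2 / N < |F (n + j) - F n - j * (F (n + 1) - F n)|)).card : ℝ) ≤
      (((Ico N (4 * N)).filter (fun n => ∃ j, 1 ≤ j ∧ n + j ≤ 4 * N ∧
      l * j < ∑ i ∈ Ico n (n + j), dd F i)).card : ℝ) := by
    exact_mod_cast card_le_card h3
  refine h4.trans ?_
  have h5 := h1.trans h2
  have e : η * N = (2 * C + 1) / l := by
    rw [hl]
    field_simp
  rw [e, le_div_iff₀ hl0]
  linarith

/-- a regular comparison function -/
def Reg (ψ : ℕ → ℝ) : Prop :=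
  ∃ A : ℝ, 0 ≤ A ∧ ∀ m n : ℕ, 1 ≤ m → m ≤ n → |ψ n - ψ m| ≤ A * ((n : ℝ) - m) / m

/-- a property that holds for most lengths in dyadic blocks -/
def Most (P : ℕ → Prop) : Prop :=
  ∀ η : ℝ, 0 < η → ∀ᶠ N : ℕ in atTop,
    (((Ico N (2 * N)).filter (fun n => ¬ P n)).card : ℝ) ≤ η * N

lemma Most.mono {P Q : ℕ → Prop} (h : Most P) (hPQ : ∀ᶠ n : ℕ in atTop, P n → Q n) : Most Q := by
  intro η hη
  obtain ⟨N0, hN0⟩ := eventually_atTop.1 hPQ
  filter_upwards [h η hη, eventually_ge_atTop N0] with N hN hN1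
  refine le_trans ?_ hN
  have : (Ico N (2 * N)).filter (fun n => ¬ Q n) ⊆ (Ico N (2 * N)).filter (fun n => ¬ P n) := by
    intro n hn
    rw [mem_filter, mem_Ico] at hn ⊢
    exact ⟨hn.1, fun hp => hn.2 (hN0 n (by omega) hp)⟩
  exact_mod_cast card_le_card this

lemma two_sqrt (y : ℝ) : 2 * √y = √(4 * y) := by
  rw [Real.sqrt_mul (by norm_num), show √(4 : ℝ) = 2 by
    rw [show (4 : ℝ) = 2 ^ 2 by norm_num]; exact Real.sqrt_sq (by norm_num)]

/-- elimination of the slope -/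
lemma elim {i j x P p q u v t1 t2 : ℝ} (hi0 : 0 ≤ i) (hix : i ≤ x) (hjx : 2 * x ≤ j) (hx : 0 < x)
    (ht1 : 0 ≤ t1) (ht2 : 0 ≤ t2) (b1 : |p - u| ≤ t1) (b2 : |q - v| ≤ t2)
    (eP : (j - i) * P = j * (p - u) - i * (q - v)) : |P| ≤ 2 * t1 + t2 := by
  have hj0 : 0 ≤ j := by linarith
  have hji0 : 0 < j - i := by linarith
  have b3 : |(j - i) * P| ≤ j * t1 + i * t2 := by
    rw [eP]
    have h1 := abs_sub (j * (p - u)) (i * (q - v))
    rw [abs_mul, abs_mul, abs_of_nonneg hj0, abs_of_nonneg hi0] at h1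
    have h2 : j * |p - u| ≤ j * t1 := by gcongr
    have h3 : i * |q - v| ≤ i * t2 := by gcongr
    linarith
  rw [abs_mul, abs_of_pos hji0] at b3
  have b4 : j * t1 + i * t2 ≤ (j - i) * (2 * t1 + t2) := by
    have h1 : j * t1 ≤ (j - i) * (2 * t1) := by nlinarith
    have h2 : i * t2 ≤ (j - i) * t2 := by
      apply mul_le_mul_of_nonneg_right _ ht2
      linarith
    linarith
  exact le_of_mul_le_mul_left (b3.trans b4) hji0

/-- **sparse lengths and almost all lengths** -/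
theorem Bv.sparse {F : ℕ → ℝ} (hF : Bv F) {E : ℕ → ℝ} (hE : K1.Sc E) {S : Set ℕ}
    (hS : ∀ δ : ℝ, 0 < δ → ∀ᶠ n : ℕ in atTop, ∃ k ∈ S, n ≤ k ∧ (k : ℝ) ≤ n + δ * √(n * E n))
    {ψ : ℕ → ℝ} (hψ : Reg ψ)
    (hy : ∀ τ : ℝ, 0 < τ → ∀ᶠ k : ℕ in atTop, k ∈ S → |F k - ψ k| ≤ τ * E k) {ε : ℝ}
    (hε : 0 < ε) : Most (fun n => |F n - ψ n| ≤ ε * E n) := by
  obtain ⟨K, hK, hlin⟩ := hF.lin
  obtain ⟨A, hA, hψ⟩ := hψ
  intro η hη
  obtain ⟨L, hL⟩ : ∃ L : ℝ, L = K / η := ⟨_, rfl⟩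
  have hL0 : 0 < L := by rw [hL]; positivity
  obtain ⟨δ, hδ⟩ : ∃ δ : ℝ, δ = √(ε / (108 * (L + 1))) := ⟨_, rfl⟩
  have hδ0 : 0 < δ := by rw [hδ]; exact Real.sqrt_pos.2 (by positivity)
  have hδ2 : δ ^ 2 = ε / (108 * (L + 1)) := by rw [hδ, Real.sq_sqrt (by positivity)]
  obtain ⟨τ, hτ⟩ : ∃ τ : ℝ, τ = ε / 18 := ⟨_, rfl⟩
  have hτ0 : 0 < τ := by rw [hτ]; positivity
  obtain ⟨N1, hN1⟩ := eventually_atTop.1 (hS δ hδ0)
  obtain ⟨N2, hN2⟩ := eventually_atTop.1 (hy τ hτ0)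
  have e1 : ∀ᶠ n : ℕ in atTop, E n / n < (min (1 / (5 * δ + 1)) (τ / (5 * (A + 1) * (δ + 1)))) ^ 2 :=
    hE.small.eventually_lt_const (by positivity)
  obtain ⟨N3, hN3⟩ := eventually_atTop.1 e1
  have e2 : ∀ᶠ n : ℕ in atTop, 1 / δ ^ 2 + 1 ≤ (n : ℝ) :=
    tendsto_natCast_atTop_atTop.eventually_ge_atTop _
  obtain ⟨N4, hN4⟩ := eventually_atTop.1 e2
  filter_upwards [hlin η hη, eventually_ge_atTop (N1 + N2 + N3 + N4 + 1)] with N g1 hN
  refine le_trans ?_ g1
  have hNp : (0 : ℝ) < N := by exact_mod_cast (show 0 < N by omega)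
  refine Nat.cast_le.2 (card_le_card ?_)
  intro k hk
  rw [mem_filter, mem_Ico] at hk ⊢
  refine ⟨hk.1, ?_⟩
  by_contra hcon
  push Not at hcon
  apply hk.2
  obtain ⟨⟨hk1, hk2⟩, -⟩ := hk
  have hk0 : (0 : ℝ) < k := by exact_mod_cast (show 0 < k by omega)
  have hE1 := hE.one_le k (by omega)
  have hE0 : 0 < E k := by linarith
  obtain ⟨x, hx⟩ : ∃ x : ℝ, x = δ * √(k * E k) := ⟨_, rfl⟩
  have hx2 : x ^ 2 = δ ^ 2 * (k * E k) := by
    rw [hx, mul_pow, Real.sq_sqrt (by positivity)]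
  have hx0 : 0 < x := by rw [hx]; positivity
  have hx1 : 1 ≤ x := by
    have h1 := hN4 k (by omega)
    have h2 : 1 ≤ x ^ 2 := by
      rw [hx2]
      have h3 : 1 / δ ^ 2 ≤ k := by linarith
      rw [div_le_iff₀ (by positivity)] at h3
      have : δ ^ 2 * k ≤ δ ^ 2 * (k * E k) := by
        have : (k : ℝ) ≤ k * E k := by nlinarith
        gcongr
      linarith
    nlinarith
  -- `x / k` is small
  have hxk : x ^ 2 = δ ^ 2 * (E k / k) * (k : ℝ) ^ 2 := by
    rw [hx2]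
    field_simp
  have hm := hN3 k (by omega)
  obtain ⟨m, hmd⟩ : ∃ m : ℝ, m = min (1 / (5 * δ + 1)) (τ / (5 * (A + 1) * (δ + 1))) := ⟨_, rfl⟩
  have hm0 : 0 < m := by rw [hmd]; positivity
  rw [← hmd] at hm
  have hxm : x ≤ δ * m * k := by
    have h1 : x ^ 2 ≤ (δ * m * k) ^ 2 := by
      rw [hxk, mul_pow, mul_pow]
      gcongr
    exact le_of_sq_le_sq h1 (by positivity)
  have hm1 : m ≤ 1 / (5 * δ + 1) := by rw [hmd]; exact min_le_left _ _
  have hm2 : m ≤ τ / (5 * (A + 1) * (δ + 1)) := by rw [hmd]; exact min_le_right _ _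
  have h5x : 5 * x ≤ k := by
    have h1 : δ * m ≤ δ * (1 / (5 * δ + 1)) := by gcongr
    have h2 : δ * (1 / (5 * δ + 1)) * 5 ≤ 1 := by
      rw [mul_one_div, div_mul_eq_mul_div, div_le_one (by positivity)]
      linarith
    have h3 : δ * m * k * 5 ≤ 1 * k := by
      have : δ * m * 5 ≤ 1 := by linarith
      nlinarith
    linarith
  have hAx : A * (5 * x) / k ≤ τ * E k := by
    rw [div_le_iff₀ hk0]
    have h1 : δ * m ≤ δ * (τ / (5 * (A + 1) * (δ + 1))) := by gcongr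
    have h2 : A * 5 * (δ * (τ / (5 * (A + 1) * (δ + 1)))) ≤ τ := by
      have e : A * 5 * (δ * (τ / (5 * (A + 1) * (δ + 1)))) = τ * ((A / (A + 1)) * (δ / (δ + 1))) := by
        field_simp
      rw [e]
      have a1 : A / (A + 1) ≤ 1 := by rw [div_le_one (by positivity)]; linarith
      have a2 : δ / (δ + 1) ≤ 1 := by rw [div_le_one (by positivity)]; linarith
      have a3 : (A / (A + 1)) * (δ / (δ + 1)) ≤ 1 :=
        mul_le_one₀ a1 (by positivity) a2
      nlinarith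
    calc A * (5 * x) ≤ A * (5 * (δ * m * k)) := by gcongr
      _ = A * 5 * (δ * m) * k := by ring
      _ ≤ A * 5 * (δ * (τ / (5 * (A + 1) * (δ + 1)))) * k := by gcongr
      _ ≤ τ * k := by gcongr
      _ ≤ τ * E k * k := by
        have : τ * k ≤ τ * k * E k := by
          have : 0 < τ * k := by positivity
          nlinarith
        linarith
  -- the two points of `S`
  obtain ⟨s1, hs1, hs1k, hs1x⟩ := hN1 k (by omega)
  rw [← hx] at hs1x
  obtain ⟨n2, hn2⟩ : ∃ n2 : ℕ, n2 = k + ⌈2 * x⌉₊ := ⟨_, rfl⟩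
  have hn2a : (k : ℝ) + 2 * x ≤ n2 := by
    rw [hn2]
    push_cast
    have := Nat.le_ceil (2 * x)
    linarith
  have hn2b : (n2 : ℝ) ≤ k + 2 * x + 1 := by
    rw [hn2]
    push_cast
    have := (Nat.ceil_lt_add_one (show 0 ≤ 2 * x by positivity)).le
    linarith
  have hn2c : n2 ≤ 2 * k := by
    have : (n2 : ℝ) ≤ 2 * k := by linarith
    exact_mod_cast this
  obtain ⟨s2, hs2, hs2k, hs2x⟩ := hN1 n2 (by omega)
  have hEn2 : E n2 ≤ 2 * E k := (hE.mono hn2c).trans (hE.two k (by omega))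
  have hs2y : (s2 : ℝ) ≤ k + 5 * x := by
    have h1 : √((n2 : ℝ) * E n2) ≤ 2 * √(k * E k) := by
      rw [two_sqrt]
      refine Real.sqrt_le_sqrt ?_
      have h2 : (n2 : ℝ) ≤ 2 * k := by exact_mod_cast hn2c
      have h3 : 0 ≤ E n2 := zero_le_one.trans (hE.one_le n2 (by omega))
      calc (n2 : ℝ) * E n2 ≤ (2 * k) * (2 * E k) := by gcongr
        _ = _ := by ring
    have h2 := mul_le_mul_of_nonneg_left h1 hδ0.le
    have h3 : δ * (2 * √(k * E k)) = 2 * x := by rw [hx]; ring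
    rw [h3] at h2
    linarith
  obtain ⟨i, hi⟩ : ∃ i, s1 = k + i := ⟨s1 - k, by omega⟩
  obtain ⟨j, hj⟩ : ∃ j, s2 = k + j := ⟨s2 - k, by omega⟩
  have hix : (i : ℝ) ≤ x := by
    have : ((k + i : ℕ) : ℝ) ≤ k + x := by rw [← hi]; exact hs1x
    push_cast at this
    linarith
  have hjx : (j : ℝ) ≤ 5 * x := by
    have : ((k + j : ℕ) : ℝ) ≤ k + 5 * x := by rw [← hj]; exact hs2y
    push_cast at this
    linarith
  have hjx2 : 2 * x ≤ j := by
    have h1 : (n2 : ℝ) ≤ s2 := by exact_mod_cast hs2k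
    have : (k : ℝ) + 2 * x ≤ ((k + j : ℕ) : ℝ) := by rw [← hj]; linarith
    push_cast at this
    linarith
  have hjN : j ≤ 2 * N := by
    have h1 : (j : ℝ) ≤ 2 * N := by
      have : (k : ℝ) ≤ 2 * N := by exact_mod_cast hk2.le
      linarith
    exact_mod_cast h1
  have hiN : i ≤ 2 * N := by
    have h1 : (i : ℝ) ≤ j := by linarith
    have : i ≤ j := by exact_mod_cast h1
    omega
  have q1 := hcon i hiN
  have q2 := hcon j hjN
  rw [← hi] at q1
  rw [← hj] at q2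
  have hkN : (k : ℝ) ≤ 2 * N := by exact_mod_cast hk2.le
  have xN : x ^ 2 / N ≤ 2 * δ ^ 2 * E k := by
    rw [div_le_iff₀ hNp, hx2]
    calc δ ^ 2 * (k * E k) ≤ δ ^ 2 * ((2 * N) * E k) := by gcongr
      _ = _ := by ring
  have r1 : |F s1 - F k - i * (F (k + 1) - F k)| ≤ 2 * L * δ ^ 2 * E k := by
    refine q1.trans ?_
    rw [← hL]
    calc L * (i : ℝ) ^ 2 / N ≤ L * x ^ 2 / N := by gcongr
      _ = L * (x ^ 2 / N) := by ring
      _ ≤ L * (2 * δ ^ 2 * E k) := by gcongr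
      _ = _ := by ring
  have r2 : |F s2 - F k - j * (F (k + 1) - F k)| ≤ 50 * L * δ ^ 2 * E k := by
    refine q2.trans ?_
    rw [← hL]
    calc L * (j : ℝ) ^ 2 / N ≤ L * (5 * x) ^ 2 / N := by gcongr
      _ = 25 * L * (x ^ 2 / N) := by ring
      _ ≤ 25 * L * (2 * δ ^ 2 * E k) := by gcongr
      _ = _ := by ring
  -- the values at `s1` and `s2`
  have cmp : ∀ s : ℕ, s ∈ S → k ≤ s → (s : ℝ) ≤ k + 5 * x → |F s - ψ k| ≤ 3 * τ * E k := by
    intro s hs hks hsx
    have h1 := hN2 s (by omega) hs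
    have h2 := hψ k s (by omega) hks
    have hs2 : s ≤ 2 * k := by
      have : (s : ℝ) ≤ 2 * k := by linarith
      exact_mod_cast this
    have h3 : E s ≤ 2 * E k := (hE.mono hs2).trans (hE.two k (by omega))
    have h4 : A * ((s : ℝ) - k) / k ≤ τ * E k := by
      refine le_trans ?_ hAx
      apply div_le_div_of_nonneg_right _ hk0.le
      apply mul_le_mul_of_nonneg_left _ hA
      linarith
    have h5 : τ * E s ≤ τ * (2 * E k) := by gcongr
    have := abs_sub_le (F s) (ψ s) (ψ k)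
    linarith
  have c1 := cmp s1 hs1 hs1k (by linarith)
  have c2 := cmp s2 hs2 (by omega) hs2y
  clear q1 q2 hcon hψ hN1 hN2 hN3 hN4 hlin cmp g1 e1 e2 hS hy
  have hbig : 9 * τ + 54 * L * δ ^ 2 ≤ ε := by
    rw [hδ2, hτ]
    have : 54 * L * (ε / (108 * (L + 1))) ≤ ε / 2 := by
      rw [mul_div_assoc', div_le_div_iff₀ (by positivity) (by norm_num)]
      nlinarith
    linarith
  have b1 : |(F s1 - ψ k) - (F s1 - F k - i * (F (k + 1) - F k))| ≤
      3 * τ * E k + 2 * L * δ ^ 2 * E k := (abs_sub _ _).trans (add_le_add c1 r1)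
  have b2 : |(F s2 - ψ k) - (F s2 - F k - j * (F (k + 1) - F k))| ≤
      3 * τ * E k + 50 * L * δ ^ 2 * E k := (abs_sub _ _).trans (add_le_add c2 r2)
  have h := elim (P := F k - ψ k) (Nat.cast_nonneg i) hix hjx2 hx0 (by positivity) (by positivity)
    b1 b2 (by ring)
  refine h.trans ?_
  calc 2 * (3 * τ * E k + 2 * L * δ ^ 2 * E k) + (3 * τ * E k + 50 * L * δ ^ 2 * E k) =
      (9 * τ + 54 * L * δ ^ 2) * E k := by ring
    _ ≤ ε * E k := by gcongr

end Pool.Agent.R956.K6
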