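import Pool.Agent.R956.K3

/-!
# Pairs of sequences with Kesten's inequality: the numbers of walks and weighted numbers
-/

set_option autoImplicit false
set_option linter.unusedVariables false

namespace Pool.Agent.R956.M1

open Filter Topology
open Pool.Agent.Y943.SL (Wk)

variable {c w : ℕ → ℝ} {μ : ℝ}

/-! ### making a weighted sequence a sequence of type `Wk` -/

/-- the sequence `w`, replaced by `c` at the first two places -/
noncomputable def fx (c w : ℕ → ℝ) (n : ℕ) : ℝ := if n < 2 then c n else w n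

lemma fx_eq (c w : ℕ → ℝ) {n : ℕ} (hn : 2 ≤ n) : fx c w n = w n := by
  unfold fx
  rw [if_neg (by omega)]

lemma fx_ev (c w : ℕ → ℝ) : ∀ᶠ n : ℕ in atTop, fx c w n = w n := by
  filter_upwards [eventually_ge_atTop 2] with n hn
  exact fx_eq c w hn

/-- what is needed about the weighted sequence -/
structure Hw (c w : ℕ → ℝ) (μ : ℝ) : Prop where
  ge : ∀ n, 2 ≤ n → c n ≤ w n
  le : ∃ B : ℝ, 0 < B ∧ ∀ n, 2 ≤ n → w n ≤ B * ((n : ℝ) + 5) ^ 3 * c n
  kes : ∃ D : ℝ, 0 ≤ D ∧ ∀ᶠ n : ℕ in atTop, w (n + 2) ^ 2 ≤ w n * w (n + 4) * (1 + D / n)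
  step : ∃ B : ℝ, 0 < B ∧ ∀ᶠ n : ℕ in atTop, w (n + 1) ≤ B * w n
  two : ∃ b : ℝ, 0 < b ∧ ∀ᶠ n : ℕ in atTop, b * w n ≤ w (n + 2)

lemma log_poly : Tendsto (fun n : ℕ => Real.log ((n : ℝ) + 5) / n) atTop (𝓝 0) := by
  have h := (Real.isLittleO_log_id_atTop.tendsto_div_nhds_zero).comp
    (tendsto_natCast_atTop_atTop.comp (tendsto_add_atTop_nat 5))
  have h2 : Tendsto (fun n : ℕ => (1 : ℝ) + 5 / (n : ℝ)) atTop (𝓝 (1 + 0)) :=
    (tendsto_const_div_atTop_nhds_zero_nat (5 : ℝ)).const_add 1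
  have h3 := h.mul h2
  rw [zero_mul] at h3
  refine h3.congr' ?_
  filter_upwards [eventually_gt_atTop 0] with n hn
  have : (n : ℝ) ≠ 0 := by exact_mod_cast (show n ≠ 0 by omega)
  simp only [Function.comp_apply, id]
  push_cast
  have h5 : (n : ℝ) + 5 ≠ 0 := by positivity
  field_simp

theorem wk_fx (C : Wk c μ) (H : Hw c w μ) : Wk (fx c w) μ := by
  have hμ := C.hμ
  have low : ∀ n, μ ^ n ≤ fx c w n := by
    intro n
    unfold fx
    split_ifs with h
    · exact C.low n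
    · exact (C.low n).trans (H.ge n (by omega))
  have hpos : ∀ n, 0 < fx c w n := fun n => lt_of_lt_of_le (pow_pos hμ n) (low n)
  refine ⟨hμ, low, ?_, ?_, ?_⟩
  · obtain ⟨D, hD, h⟩ := H.kes
    obtain ⟨N, hN⟩ := eventually_atTop.1 h
    refine ⟨D, hD, fun s hs => ⟨N + 2, fun k hk _ => ?_⟩⟩
    have h1 := hN (2 * k + s) (by omega)
    have hk0 : (0 : ℝ) < k := by exact_mod_cast (show 0 < k by omega)
    have hp0 := hpos (2 * k + s)
    have hp4 := hpos (2 * (k + 2) + s)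
    rw [fx_eq c w (show 2 ≤ 2 * k + s by omega)] at hp0
    rw [fx_eq c w (show 2 ≤ 2 * (k + 2) + s by omega)] at hp4
    beta_reduce
    rw [fx_eq c w (show 2 ≤ 2 * k + s by omega), fx_eq c w (show 2 ≤ 2 * (k + 1) + s by omega),
      fx_eq c w (show 2 ≤ 2 * (k + 2) + s by omega)]
    rw [show 2 * k + s + 2 = 2 * (k + 1) + s by ring,
      show 2 * k + s + 4 = 2 * (k + 2) + s by ring] at h1
    have hg : (1 + D / ((2 * k + s : ℕ) : ℝ)) ≤ 1 + D / k := by
      have : D / ((2 * k + s : ℕ) : ℝ) ≤ D / k := by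
        apply div_le_div_of_nonneg_left hD hk0
        push_cast
        have : (0 : ℝ) ≤ s := Nat.cast_nonneg s
        linarith
      linarith
    have h4 : w (2 * (k + 1) + s) ^ 2 ≤ w (2 * k + s) * w (2 * (k + 2) + s) * (1 + D / k) :=
      h1.trans (mul_le_mul_of_nonneg_left hg (mul_nonneg hp0.le hp4.le))
    have e3 : μ ^ (2 * k + s) * μ ^ (2 * (k + 2) + s) = (μ ^ (2 * (k + 1) + s)) ^ 2 := by
      rw [← pow_add, ← pow_mul]
      congr 1
      ring
    rw [div_pow, div_mul_div_comm, e3, div_mul_eq_mul_div]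
    exact div_le_div_of_nonneg_right h4 (by positivity)
  · obtain ⟨B, hB, h1⟩ := H.step
    obtain ⟨b, hb, h2⟩ := H.two
    obtain ⟨N1, hN1⟩ := eventually_atTop.1 h1
    obtain ⟨N2, hN2⟩ := eventually_atTop.1 h2
    have hBμ : 0 < B / μ := by positivity
    obtain ⟨E, hE⟩ : ∃ E : ℝ, E = |Real.log (B / μ)| + |Real.log (B * μ / b)| := ⟨_, rfl⟩
    have ev : ∀ n, N1 + N2 + 2 ≤ n → |Real.log (fx c w (n + 1) / μ ^ (n + 1)) -
        Real.log (fx c w n / μ ^ n)| ≤ E := by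
      intro n hn
      have g1 := hN1 n (by omega)
      have g2 := hN2 n (by omega)
      have g3 := hN1 (n + 1) (by omega)
      rw [← fx_eq c w (show 2 ≤ n + 1 by omega), ← fx_eq c w (show 2 ≤ n by omega)] at g1
      rw [← fx_eq c w (show 2 ≤ n + 2 by omega), ← fx_eq c w (show 2 ≤ n by omega)] at g2
      rw [← fx_eq c w (show 2 ≤ n + 1 + 1 by omega), ← fx_eq c w (show 2 ≤ n + 1 by omega)] at g3
      have p0 := hpos n
      have p1 := hpos (n + 1)
      have l1 := Real.log_le_log p1 g1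
      rw [Real.log_mul hB.ne' p0.ne'] at l1
      have g4 : b * fx c w n ≤ B * fx c w (n + 1) := g2.trans g3
      have l2 := Real.log_le_log (by positivity) g4
      rw [Real.log_mul hB.ne' p1.ne', Real.log_mul hb.ne' p0.ne'] at l2
      rw [Real.log_div p1.ne' (pow_pos hμ _).ne', Real.log_div p0.ne' (pow_pos hμ _).ne',
        Real.log_pow, Real.log_pow]
      have a1 := le_abs_self (Real.log (B / μ))
      have a2 := le_abs_self (Real.log (B * μ / b))
      have a3 := abs_nonneg (Real.log (B / μ))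
      have a4 := abs_nonneg (Real.log (B * μ / b))
      rw [Real.log_div hB.ne' hμ.ne'] at a1 a3
      rw [Real.log_div (by positivity) hb.ne', Real.log_mul hB.ne' hμ.ne'] at a2 a4
      rw [hE, abs_le]
      rw [Real.log_div hB.ne' hμ.ne', Real.log_div (by positivity) hb.ne',
        Real.log_mul hB.ne' hμ.ne']
      push_cast
      constructor <;> linarith
    refine ⟨E + ∑ n ∈ Finset.range (N1 + N2 + 2), |Real.log (fx c w (n + 1) / μ ^ (n + 1)) -
        Real.log (fx c w n / μ ^ n)|, fun n _ => ?_⟩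
    have hE0 : 0 ≤ E := by rw [hE]; positivity
    rcases Nat.lt_or_ge n (N1 + N2 + 2) with h | h
    · have := Finset.single_le_sum (f := fun n => |Real.log (fx c w (n + 1) / μ ^ (n + 1)) -
        Real.log (fx c w n / μ ^ n)|) (fun _ _ => abs_nonneg _) (Finset.mem_range.2 h)
      linarith
    · have h1 := ev n h
      have : 0 ≤ ∑ n ∈ Finset.range (N1 + N2 + 2), |Real.log (fx c w (n + 1) / μ ^ (n + 1)) -
        Real.log (fx c w n / μ ^ n)| := Finset.sum_nonneg fun _ _ => abs_nonneg _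
      linarith
  · obtain ⟨B, hB, hle⟩ := H.le
    have h1 := C.sub
    have h2 := (tendsto_const_div_atTop_nhds_zero_nat (|Real.log B|)).add
      ((log_poly.const_mul 3).add h1)
    rw [mul_zero, add_zero, add_zero] at h2
    refine squeeze_zero' ?_ ?_ h2
    · filter_upwards with n
      refine div_nonneg (Real.log_nonneg ?_) (Nat.cast_nonneg n)
      rw [one_le_div (pow_pos hμ n)]
      exact low n
    · filter_upwards [eventually_ge_atTop 2] with n hn
      have hn0 : (0 : ℝ) < n := by exact_mod_cast (show 0 < n by omega)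
      have g1 := hle n hn
      have p0 := hpos n
      rw [fx_eq c w hn] at p0 ⊢
      have pc := C.pos n
      have l1 : Real.log (w n / μ ^ n) ≤ Real.log B + 3 * Real.log ((n : ℝ) + 5) +
          Real.log (c n / μ ^ n) := by
        have e : B * ((n : ℝ) + 5) ^ 3 * c n / μ ^ n = B * ((n : ℝ) + 5) ^ 3 * (c n / μ ^ n) := by
          ring
        have l2 := Real.log_le_log (div_pos p0 (pow_pos hμ n))
          (div_le_div_of_nonneg_right g1 (pow_pos hμ n).le)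
        rw [e, Real.log_mul (by positivity) pc.ne', Real.log_mul hB.ne' (by positivity),
          Real.log_pow] at l2
        push_cast at l2
        exact l2
      have l3 := le_abs_self (Real.log B)
      have e : |Real.log B| / (n : ℝ) + (3 * (Real.log ((n : ℝ) + 5) / n) +
          Real.log (c n / μ ^ n) / n) =
          (|Real.log B| + 3 * Real.log ((n : ℝ) + 5) + Real.log (c n / μ ^ n)) / n := by ring
      rw [e]
      exact div_le_div_of_nonneg_right (by linarith) hn0.le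

/-! ### pairs -/

lemma cW (C : Wk c μ) (W : Wk w μ) (n : ℕ) : 0 < w n / c n := div_pos (W.cpos n) (C.cpos n)

lemma prod_eq (C : Wk c μ) (W : Wk w μ) (a b : ℝ) {n : ℕ} (hn : 1 ≤ n) :
    w n / μ ^ n / (n : ℝ) ^ (a + b) = c n / μ ^ n / (n : ℝ) ^ a * (w n / c n / (n : ℝ) ^ b) := by
  have hn0 : (0 : ℝ) < n := by exact_mod_cast hn
  have h1 := (C.cpos n).ne'
  have h2 := Real.rpow_pos_of_pos hn0 a
  have h3 := Real.rpow_pos_of_pos hn0 b
  rw [Real.rpow_add hn0]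
  field_simp

lemma ev_inf {P : ℕ → Prop} {S : Set ℕ} (h : ∀ᶠ n : ℕ in atTop, P n) :
    ∀ᶠ n : ℕ in atTop ⊓ 𝓟 S, P n := h.filter_mono inf_le_left

/-- the ratios of the quotients -/
lemma quot (C : Wk c μ) (W : Wk w μ) (n : ℕ) :
    w (n + 2) / c (n + 2) / (w n / c n) - 1 =
      ((w (n + 2) / w n - μ ^ 2) - (c (n + 2) / c n - μ ^ 2)) / (c (n + 2) / c n) := by
  have h1 := (C.cpos n).ne'
  have h2 := (C.cpos (n + 2)).ne'
  have h3 := (W.cpos n).ne'
  have h4 := (W.cpos (n + 2)).ne'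
  field_simp
  ring

/-- **forms** -/
theorem pair_form (C : Wk c μ) (W : Wk w μ) {p : ℕ} (hp : p ≤ 1) {S : Set ℕ}
    (hpar : ∀ m ∈ S, m % 2 = p)
    (hS : ∀ δ : ℝ, 0 < δ → ∀ᶠ n : ℕ in atTop, ∃ m ∈ S, n ≤ m ∧ (m : ℝ) ≤ n + δ * √(n : ℝ))
    {a b A B : ℝ} (hA : 0 < A) (hB : 0 < B)
    (h1 : Tendsto (fun n : ℕ => c n / μ ^ n / (n : ℝ) ^ a) (atTop ⊓ 𝓟 S) (𝓝 A))
    (h2 : Tendsto (fun n : ℕ => w n / c n / (n : ℝ) ^ b) (atTop ⊓ 𝓟 S) (𝓝 B)) :
    Tendsto (fun n : ℕ => c n / μ ^ n / (n : ℝ) ^ a) (atTop ⊓ 𝓟 {n | n % 2 = p}) (𝓝 A) ∧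
    Tendsto (fun n : ℕ => w n / c n / (n : ℝ) ^ b) (atTop ⊓ 𝓟 {n | n % 2 = p}) (𝓝 B) ∧
    Tendsto (fun n : ℕ => (w (n + 2) / c (n + 2) / (w n / c n) - 1) * √(n : ℝ))
      (atTop ⊓ 𝓟 {n | n % 2 = p}) (𝓝 0) := by
  have g1 := K3.form_one C hp hpar hS hA h1
  have h3 : Tendsto (fun n : ℕ => w n / μ ^ n / (n : ℝ) ^ (a + b)) (atTop ⊓ 𝓟 S) (𝓝 (A * B)) := by
    refine (h1.mul h2).congr' ?_
    filter_upwards [ev_inf (eventually_ge_atTop 1)] with n hn
    exact (prod_eq C W a b hn).symm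
  have g3 := K3.form_one W hp hpar hS (mul_pos hA hB) h3
  have hμ := C.hμ
  refine ⟨g1, ?_, ?_⟩
  · have h4 := g3.div g1 hA.ne'
    rw [mul_div_cancel_left₀ _ hA.ne'] at h4
    refine h4.congr' ?_
    filter_upwards [ev_inf (eventually_ge_atTop 1)] with n hn
    have hn0 : (0 : ℝ) < n := by exact_mod_cast hn
    show w n / μ ^ n / (n : ℝ) ^ (a + b) / (c n / μ ^ n / (n : ℝ) ^ a) = _
    rw [prod_eq C W a b hn, mul_div_cancel_left₀]
    have := C.pos n
    have := Real.rpow_pos_of_pos hn0 a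
    positivity
  · have r1 := K3.ratio_form C hp hA g1
    have r2 := K3.ratio_form W hp (mul_pos hA hB) g3
    have r3 : Tendsto (fun n : ℕ => c (n + 2) / c n - μ ^ 2) (atTop ⊓ 𝓟 {n | n % 2 = p}) (𝓝 0) := by
      refine squeeze_zero_norm' ?_ (tendsto_zero_iff_norm_tendsto_zero.mp r1)
      filter_upwards [ev_inf (eventually_ge_atTop 1)] with n hn
      have hs : (1 : ℝ) ≤ √(n : ℝ) := by
        rw [Real.one_le_sqrt]
        exact_mod_cast hn
      rw [norm_mul, Real.norm_of_nonneg (Real.sqrt_nonneg _)]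
      exact le_mul_of_one_le_right (norm_nonneg _) hs
    have r4 := r3.add_const (μ ^ 2)
    simp only [sub_add_cancel, zero_add] at r4
    have r5 := (r2.sub r1).div r4 (by positivity)
    rw [sub_zero, zero_div] at r5
    refine r5.congr fun n => ?_
    show ((w (n + 2) / w n - μ ^ 2) * √(n : ℝ) - (c (n + 2) / c n - μ ^ 2) * √(n : ℝ)) /
      (c (n + 2) / c n) = _
    rw [quot C W n]
    ring

/-- **exponents** -/
theorem pair_expo (C : Wk c μ) (W : Wk w μ) {S : Set ℕ}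
    (hS : ∀ δ : ℝ, 0 < δ → ∀ᶠ n : ℕ in atTop, ∃ m ∈ S, n ≤ m ∧
      (m : ℝ) ≤ n + δ * √(n * Real.log n)) {a b : ℝ}
    (h1 : Tendsto (fun n : ℕ => Real.log (c n / μ ^ n) / Real.log n) (atTop ⊓ 𝓟 S) (𝓝 a))
    (h2 : Tendsto (fun n : ℕ => Real.log (w n / c n) / Real.log n) (atTop ⊓ 𝓟 S) (𝓝 b)) :
    Tendsto (fun n : ℕ => Real.log (c n / μ ^ n) / Real.log n) atTop (𝓝 a) ∧
    Tendsto (fun n : ℕ => Real.log (w n / c n) / Real.log n) atTop (𝓝 b) ∧
    Tendsto (fun n : ℕ => (w (n + 2) / c (n + 2) / (w n / c n) - 1) * √((n : ℝ) / Real.log n))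
      atTop (𝓝 0) := by
  have e : ∀ n : ℕ, Real.log (w n / μ ^ n) = Real.log (c n / μ ^ n) + Real.log (w n / c n) := by
    intro n
    rw [← Real.log_mul (C.pos n).ne' (cW C W n).ne']
    congr 1
    have := (C.cpos n).ne'
    field_simp
  have hμ := C.hμ
  have g1 := C.expo S hS a h1
  have h3 : Tendsto (fun n : ℕ => Real.log (w n / μ ^ n) / Real.log n) (atTop ⊓ 𝓟 S)
      (𝓝 (a + b)) := by
    refine (h1.add h2).congr fun n => ?_
    rw [e, add_div]
  have g3 := W.expo S hS (a + b) h3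
  refine ⟨g1, ?_, ?_⟩
  · have h4 := g3.sub g1
    rw [add_sub_cancel_left] at h4
    refine h4.congr fun n => ?_
    rw [e, add_div, add_sub_cancel_left]
  · have r1 := K3.ratio_expo C g1
    have r2 := K3.ratio_expo W g3
    have r3 : Tendsto (fun n : ℕ => c (n + 2) / c n - μ ^ 2) atTop (𝓝 0) := by
      refine squeeze_zero_norm' ?_ (tendsto_zero_iff_norm_tendsto_zero.mp r1)
      filter_upwards [eventually_ge_atTop 3] with n hn
      have hl := K1.log_scale hn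
      have hs : (1 : ℝ) ≤ √((n : ℝ) / Real.log n) := by
        rw [Real.one_le_sqrt, one_le_div (by linarith)]
        have hn0 : (0 : ℝ) < n := by exact_mod_cast (show 0 < n by omega)
        have := Real.log_le_sub_one_of_pos hn0
        linarith
      rw [norm_mul, Real.norm_of_nonneg (Real.sqrt_nonneg _)]
      exact le_mul_of_one_le_right (norm_nonneg _) hs
    have r4 := r3.add_const (μ ^ 2)
    simp only [sub_add_cancel, zero_add] at r4
    have r5 := (r2.sub r1).div r4 (by positivity)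
    rw [sub_zero, zero_div] at r5
    refine r5.congr fun n => ?_
    show ((w (n + 2) / w n - μ ^ 2) * √((n : ℝ) / Real.log n) -
      (c (n + 2) / c n - μ ^ 2) * √((n : ℝ) / Real.log n)) / (c (n + 2) / c n) = _
    rw [quot C W n]
    ring

/-- **two-sided bounds** -/
theorem pair_bounds (C : Wk c μ) (W : Wk w μ) {S : Set ℕ} {δ : ℝ} (hδ : 0 < δ)
    (hS : ∀ᶠ n : ℕ in atTop, ∃ m ∈ S, n ≤ m ∧ (m : ℝ) ≤ n + δ * √(n : ℝ)) {a b A A' B B' : ℝ}
    (hA : 0 < A) (hB : 0 < B)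
    (h1 : ∀ᶠ n : ℕ in atTop, n ∈ S → A ≤ c n / μ ^ n / (n : ℝ) ^ a ∧
      c n / μ ^ n / (n : ℝ) ^ a ≤ A')
    (h2 : ∀ᶠ n : ℕ in atTop, n ∈ S → B ≤ w n / c n / (n : ℝ) ^ b ∧ w n / c n / (n : ℝ) ^ b ≤ B') :
    (∃ E E' : ℝ, 0 < E ∧ 0 < E' ∧ ∀ᶠ n : ℕ in atTop,
      E ≤ c n / μ ^ n / (n : ℝ) ^ a ∧ c n / μ ^ n / (n : ℝ) ^ a ≤ E') ∧
    ∃ F F' : ℝ, 0 < F ∧ 0 < F' ∧ ∀ᶠ n : ℕ in atTop,
      F ≤ w n / c n / (n : ℝ) ^ b ∧ w n / c n / (n : ℝ) ^ b ≤ F' := by
  have g1 := K3.bounds C hδ hS hA h1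
  refine ⟨g1, ?_⟩
  obtain ⟨E, E', hE, hE', g1⟩ := g1
  obtain ⟨G, G', hG, hG', g2⟩ := K3.bounds W hδ hS (a := a + b) (A := A * B) (B := A' * B')
    (mul_pos hA hB) (by
      filter_upwards [h1, h2, eventually_ge_atTop 1] with n k1 k2 hn hnS
      obtain ⟨a1, a2⟩ := k1 hnS
      obtain ⟨b1, b2⟩ := k2 hnS
      rw [prod_eq C W a b hn]
      exact ⟨mul_le_mul a1 b1 hB.le (hA.le.trans a1), mul_le_mul a2 b2 (hB.le.trans b1)
        ((hA.le.trans a1).trans a2)⟩)
  refine ⟨G / E', G' / E, by positivity, by positivity, ?_⟩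
  filter_upwards [g1, g2, eventually_ge_atTop 1] with n k1 k2 hn
  rw [prod_eq C W a b hn] at k2
  obtain ⟨a1, a2⟩ := k1
  obtain ⟨b1, b2⟩ := k2
  obtain ⟨x, hx⟩ : ∃ x, x = c n / μ ^ n / (n : ℝ) ^ a := ⟨_, rfl⟩
  obtain ⟨y, hy⟩ : ∃ y, y = w n / c n / (n : ℝ) ^ b := ⟨_, rfl⟩
  rw [← hx] at a1 a2 b1 b2
  rw [← hy] at b1 b2 ⊢
  have hx0 : 0 < x := lt_of_lt_of_le hE a1
  have hy0 : 0 < y := by
    have : 0 < x * y := lt_of_lt_of_le hG b1
    exact (pos_iff_pos_of_mul_pos this).mp hx0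
  constructor
  · rw [div_le_iff₀ hE']
    nlinarith
  · rw [le_div_iff₀ hE]
    nlinarith

/-- the quotient, when `w` is replaced by `fx c w` -/
lemma quot_ev (c w : ℕ → ℝ) : ∀ᶠ n : ℕ in atTop, fx c w n / c n = w n / c n := by
  filter_upwards [fx_ev c w] with n hn
  rw [hn]

end Pool.Agent.R956.M1
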