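import Pool.Agent.R956.K6
import Pool.Agent.R956.M1

/-!
# Almost all lengths: forms and exponents along sparse sets, local linearity
-/

set_option autoImplicit false
set_option linter.unusedVariables false

namespace Pool.Agent.R956.K7

open Filter Topology Finset
open scoped Classical
open Pool.Agent.Y943.SL (Wk)
open Pool.Agent.R956.K6

/-- the numbers with the property `P` have density zero -/
def Rare (P : ℕ → Prop) : Prop :=
  Tendsto (fun N : ℕ => ({n : ℕ | n < N ∧ P n}.ncard : ℝ) / N) atTop (𝓝 0)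

lemma fin_lt (N : ℕ) (P : ℕ → Prop) : {n : ℕ | n < N ∧ P n}.Finite :=
  (Set.finite_lt_nat N).subset fun _ h => h.1

lemma Rare.mono {P Q : ℕ → Prop} (hQ : Rare Q) (h : ∀ᶠ n : ℕ in atTop, P n → Q n) : Rare P := by
  obtain ⟨N0, hN0⟩ := eventually_atTop.1 h
  have h1 : Tendsto (fun N : ℕ => (N0 : ℝ) / N + ({n : ℕ | n < N ∧ Q n}.ncard : ℝ) / N) atTop
      (𝓝 (0 + 0)) := (tendsto_const_div_atTop_nhds_zero_nat _).add hQ
  rw [add_zero] at h1
  refine squeeze_zero (fun N => by positivity) (fun N => ?_) h1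
  rw [← add_div]
  apply div_le_div_of_nonneg_right _ (Nat.cast_nonneg N)
  have h2 : {n : ℕ | n < N ∧ P n} ⊆ {n : ℕ | n < N0} ∪ {n : ℕ | n < N ∧ Q n} := by
    intro n hn
    rcases Nat.lt_or_ge n N0 with h | h
    · exact Or.inl h
    · exact Or.inr ⟨hn.1, hN0 n h hn.2⟩
  have h3 : ({n : ℕ | n < N0} : Set ℕ).ncard = N0 := by
    rw [show ({n : ℕ | n < N0} : Set ℕ) = ((Finset.range N0 : Finset ℕ) : Set ℕ) by ext; simp,
      Set.ncard_coe_finset, card_range]
  have h4 := (Set.ncard_le_ncard h2 ((Set.finite_lt_nat N0).union (fin_lt N Q))).trans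
    (Set.ncard_union_le _ _)
  rw [h3] at h4
  exact_mod_cast h4

lemma Rare.or {P Q : ℕ → Prop} (hP : Rare P) (hQ : Rare Q) : Rare (fun n => P n ∨ Q n) := by
  have h1 := hP.add hQ
  rw [add_zero] at h1
  refine squeeze_zero (fun N => by positivity) (fun N => ?_) h1
  rw [← add_div]
  apply div_le_div_of_nonneg_right _ (Nat.cast_nonneg N)
  have h2 : {n : ℕ | n < N ∧ (P n ∨ Q n)} ⊆ {n : ℕ | n < N ∧ P n} ∪ {n : ℕ | n < N ∧ Q n} := by
    rintro n ⟨h, h' | h'⟩
    · exact Or.inl ⟨h, h'⟩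
    · exact Or.inr ⟨h, h'⟩
  have h4 := (Set.ncard_le_ncard h2 ((fin_lt N P).union (fin_lt N Q))).trans
    (Set.ncard_union_le _ _)
  exact_mod_cast h4

/-- from dyadic blocks to density -/
theorem Most.rare {P : ℕ → Prop} (h : Most P) {s : ℕ} (hs : s ≤ 1) :
    Rare (fun n => n % 2 = s ∧ ¬ P (n / 2)) := by
  have key : ∀ η : ℝ, 0 < η → ∃ N0 : ℕ, ∀ N : ℕ,
      (((range N).filter (fun n => ¬ P n)).card : ℝ) ≤ N0 + 2 * η * N := by
    intro η hη
    obtain ⟨N0, hN0⟩ := eventually_atTop.1 (h η hη)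
    refine ⟨2 * N0 + 3, fun N => ?_⟩
    induction N using Nat.strong_induction_on with
    | _ N ih =>
      rcases Nat.lt_or_ge N (2 * N0 + 4) with hN | hN
      · have h1 : ((range N).filter (fun n => ¬ P n)).card ≤ N :=
          (card_filter_le _ _).trans (by rw [card_range])
        have h2 : (((range N).filter (fun n => ¬ P n)).card : ℝ) ≤ (2 * N0 + 3 : ℕ) := by
          exact_mod_cast h1.trans (by omega)
        have : 0 ≤ 2 * η * (N : ℝ) := by positivity
        linarith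
      · obtain ⟨m, hm⟩ : ∃ m, m = (N + 1) / 2 := ⟨_, rfl⟩
        have h1 := ih m (by omega)
        have h2 := hN0 m (by omega)
        have h3 : (range N).filter (fun n => ¬ P n) ⊆ (range m).filter (fun n => ¬ P n) ∪
            (Ico m (2 * m)).filter (fun n => ¬ P n) := by
          intro n hn
          rw [mem_filter, mem_range] at hn
          rw [mem_union, mem_filter, mem_filter, mem_range, mem_Ico]
          rcases Nat.lt_or_ge n m with h | h
          · exact Or.inl ⟨h, hn.2⟩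
          · exact Or.inr ⟨⟨h, by omega⟩, hn.2⟩
        have h4 := (card_le_card h3).trans (card_union_le _ _)
        have h5 : (((range N).filter (fun n => ¬ P n)).card : ℝ) ≤
            (((range m).filter (fun n => ¬ P n)).card : ℝ) +
            (((Ico m (2 * m)).filter (fun n => ¬ P n)).card : ℝ) := by exact_mod_cast h4
        have h6 : 3 * (m : ℝ) ≤ 2 * N := by exact_mod_cast (show 3 * m ≤ 2 * N by omega)
        nlinarith
  unfold Rare
  rw [Metric.tendsto_atTop]
  intro ε hε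
  obtain ⟨N0, hN0⟩ := key (ε / 8) (by positivity)
  obtain ⟨N1, hN1⟩ := eventually_atTop.1
    ((tendsto_const_div_atTop_nhds_zero_nat (N0 : ℝ)).eventually_lt_const
      (show (0 : ℝ) < ε / 4 by positivity))
  refine ⟨N1 + 1, fun N hN => ?_⟩
  have hNp : (0 : ℝ) < N := by exact_mod_cast (show 0 < N by omega)
  have h1 : {n : ℕ | n < N ∧ n % 2 = s ∧ ¬ P (n / 2)} ⊆
      ((((range N).filter (fun n => ¬ P n)).image (fun k => 2 * k + s) : Finset ℕ) : Set ℕ) := by
    rintro n ⟨h1, h2, h3⟩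
    rw [Finset.mem_coe, mem_image]
    exact ⟨n / 2, mem_filter.2 ⟨mem_range.2 (by omega), h3⟩, by omega⟩
  have h2 := Set.ncard_le_ncard h1 (Finset.finite_toSet _)
  rw [Set.ncard_coe_finset] at h2
  have h3 := h2.trans card_image_le
  have h4 : ({n : ℕ | n < N ∧ n % 2 = s ∧ ¬ P (n / 2)}.ncard : ℝ) ≤ N0 + 2 * (ε / 8) * N := by
    refine le_trans ?_ (hN0 N)
    exact_mod_cast h3
  rw [dist_zero_right, Real.norm_of_nonneg (by positivity), div_lt_iff₀ hNp]
  have h5 := hN1 N (by omega)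
  rw [div_lt_iff₀ hNp] at h5
  nlinarith

/-- the comparison functions are regular -/
lemma reg_log (b B : ℝ) (s : ℕ) :
    Reg (fun k => b * Real.log ((2 * k + s : ℕ) : ℝ) + B) :=
  ⟨|b|, abs_nonneg b, fun m n hm hmn => Pool.Agent.Y943.SL.log_len_diff b B s m n hm hmn⟩

lemma exp_close {B ε : ℝ} (hB : 0 < B) (hε : 0 < ε) : ∃ δ : ℝ, 0 < δ ∧ ∀ x : ℝ, 0 < x →
    |Real.log x - Real.log B| ≤ δ → |x - B| ≤ ε := by
  have h1 : Tendsto (fun t : ℝ => Real.exp t * B) (𝓝 0) (𝓝 (Real.exp 0 * B)) :=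
    (Real.continuous_exp.tendsto 0).mul_const B
  rw [Real.exp_zero, one_mul] at h1
  obtain ⟨δ, hδ, h2⟩ := Metric.tendsto_nhds_nhds.1 h1 ε hε
  refine ⟨δ / 2, by positivity, fun x hx h => ?_⟩
  have h3 := h2 (x := Real.log x - Real.log B) (by
    rw [dist_zero_right, Real.norm_eq_abs]; linarith)
  rw [Real.exp_sub, Real.exp_log hx, Real.exp_log hB, div_mul_cancel₀ _ hB.ne', Real.dist_eq] at h3
  exact h3.le

/-- **forms** -/
theorem form {M : ℕ → ℝ} (hM : ∀ᶠ n : ℕ in atTop, 0 < M n) {s : ℕ} (hs : s ≤ 1)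
    (h : Bv (fun k => Real.log (M (2 * k + s)))) {S : Set ℕ} (hpar : ∀ m ∈ S, m % 2 = s)
    (hS : ∀ δ : ℝ, 0 < δ → ∀ᶠ n : ℕ in atTop, ∃ m ∈ S, n ≤ m ∧ (m : ℝ) ≤ n + δ * √(n : ℝ))
    {b B : ℝ} (hB : 0 < B)
    (h1 : Tendsto (fun n : ℕ => M n / (n : ℝ) ^ b) (atTop ⊓ 𝓟 S) (𝓝 B)) {ε : ℝ} (hε : 0 < ε) :
    Rare (fun n => n % 2 = s ∧ ε < |M n / (n : ℝ) ^ b - B|) := by
  obtain ⟨δ0, hδ0, hδ⟩ := exp_close hB hε
  have ht : Tendsto (fun k : ℕ => 2 * k + s) atTop atTop :=
    tendsto_atTop_mono (fun k => by simp only [id]; omega) tendsto_id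
  have hm := Bv.sparse h K1.sc_one (S := {k | 2 * k + s ∈ S}) (fun δ hδ => by
    filter_upwards [ht.eventually (hS δ hδ), eventually_ge_atTop 1] with k hk hk1
    obtain ⟨m, hmS, hm2, hm3⟩ := hk
    have hmp := hpar m hmS
    obtain ⟨j, hj⟩ : ∃ j, m = 2 * j + s := ⟨m / 2, by omega⟩
    subst hj
    refine ⟨j, hmS, by omega, ?_⟩
    have h5 : √((2 * k + s : ℕ) : ℝ) ≤ 2 * √(k : ℝ) := by
      rw [two_sqrt]
      refine Real.sqrt_le_sqrt ?_
      exact_mod_cast (show 2 * k + s ≤ 4 * k by omega)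
    have h6 := mul_le_mul_of_nonneg_left h5 hδ.le
    rw [mul_one]
    push_cast at hm3 h6 ⊢
    linarith) (reg_log b (Real.log B) s) (fun τ hτ => by
    have h2 : Tendsto (fun n : ℕ => Real.log (M n / (n : ℝ) ^ b)) (atTop ⊓ 𝓟 S)
      (𝓝 (Real.log B)) := (Real.continuousAt_log hB.ne').tendsto.comp h1
    have h3 := Metric.tendsto_nhds.mp h2 τ hτ
    rw [eventually_inf_principal] at h3
    filter_upwards [ht.eventually (h3.and hM), eventually_ge_atTop 1] with k h4 hk1 hkS
    obtain ⟨h5, h6⟩ := h4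
    have h7 := h5 hkS
    have hn0 : (0 : ℝ) < ((2 * k + s : ℕ) : ℝ) := by exact_mod_cast (show 0 < 2 * k + s by omega)
    rw [Real.dist_eq, Real.log_div h6.ne' (Real.rpow_pos_of_pos hn0 _).ne',
      Real.log_rpow hn0] at h7
    rw [mul_one, show Real.log (M (2 * k + s)) - (b * Real.log ((2 * k + s : ℕ) : ℝ) + Real.log B) =
      Real.log (M (2 * k + s)) - b * Real.log ((2 * k + s : ℕ) : ℝ) - Real.log B by ring]
    exact h7.le) (ε := δ0) hδ0
  refine (Most.rare hm hs).mono ?_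
  filter_upwards [hM, eventually_ge_atTop 1] with n hn hn1
  rintro ⟨h2, h3⟩
  refine ⟨h2, fun h4 => ?_⟩
  have hn0 : (0 : ℝ) < n := by exact_mod_cast hn1
  rw [mul_one, show 2 * (n / 2) + s = n by omega] at h4
  have h5 := hδ (M n / (n : ℝ) ^ b) (div_pos hn (Real.rpow_pos_of_pos hn0 _)) (by
    rw [Real.log_div hn.ne' (Real.rpow_pos_of_pos hn0 _).ne', Real.log_rpow hn0]
    rwa [show Real.log (M n) - b * Real.log n - Real.log B =
      Real.log (M n) - (b * Real.log n + Real.log B) by ring])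
  linarith

/-- **exponents** -/
theorem expo {M : ℕ → ℝ}
    (h : ∀ s : ℕ, s ≤ 1 → Bv (fun k => Real.log (M (2 * k + s)))) {B0 : ℝ}
    (hst : ∀ᶠ n : ℕ in atTop, |Real.log (M (n + 1)) - Real.log (M n)| ≤ B0) {S : Set ℕ}
    (hS : ∀ δ : ℝ, 0 < δ → ∀ᶠ n : ℕ in atTop, ∃ m ∈ S, n ≤ m ∧
      (m : ℝ) ≤ n + δ * √(n * Real.log n)) {b : ℝ}
    (h1 : Tendsto (fun n : ℕ => Real.log (M n) / Real.log n) (atTop ⊓ 𝓟 S) (𝓝 b)) {ε : ℝ}
    (hε : 0 < ε) : Rare (fun n => ε < |Real.log (M n) / Real.log n - b|) := by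
  have key : ∀ s : ℕ, s ≤ 1 → Rare (fun n => n % 2 = s ∧ ε < |Real.log (M n) / Real.log n - b|) := by
    intro s hs
    have ht : Tendsto (fun k : ℕ => 2 * k) atTop atTop :=
      tendsto_atTop_mono (fun k => by simp only [id]; omega) tendsto_id
    have hb0 : 0 ≤ B0 := by
      obtain ⟨n, hn⟩ := hst.exists
      exact (abs_nonneg _).trans hn
    have hm := Bv.sparse (h s hs) K1.sc_log (S := {k | ∃ m ∈ S, m / 2 = k}) (fun δ hδ => by
      filter_upwards [ht.eventually (hS δ hδ), eventually_ge_atTop 3] with k hk hk1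
      obtain ⟨m, hmS, hm2, hm3⟩ := hk
      refine ⟨m / 2, ⟨m, hmS, rfl⟩, by omega, ?_⟩
      have h4 : ((m / 2 : ℕ) : ℝ) ≤ (m : ℝ) / 2 := Nat.cast_div_le
      have hk0 : (0 : ℝ) < k := by exact_mod_cast (show 0 < k by omega)
      have hl := K1.log_scale hk1
      have h5 : √(((2 * k : ℕ) : ℝ) * Real.log ((2 * k : ℕ) : ℝ)) ≤ 2 * √(k * (1 + Real.log k)) := by
        rw [two_sqrt]
        refine Real.sqrt_le_sqrt ?_
        push_cast
        rw [Real.log_mul (by norm_num) hk0.ne']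
        have := Real.log_two_lt_d9
        nlinarith
      have h6 := mul_le_mul_of_nonneg_left h5 hδ.le
      push_cast at hm3 h6
      linarith) (ψ := fun k => b * Real.log k + 0) ⟨|b|, abs_nonneg b, fun m n hm hmn =>
        K1.psi_diff b 0 hm hmn⟩ (fun τ hτ => by
      have h3 := Metric.tendsto_nhds.mp h1 (τ / 4) (by positivity)
      rw [eventually_inf_principal] at h3
      obtain ⟨N1, hN1⟩ := eventually_atTop.1 h3
      obtain ⟨N2, hN2⟩ := eventually_atTop.1 hst
      have hlog : ∀ᶠ k : ℕ in atTop, (B0 + |b| * 2) / (τ / 2) ≤ Real.log k :=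
        (Real.tendsto_log_atTop.comp tendsto_natCast_atTop_atTop).eventually_ge_atTop _
      filter_upwards [eventually_ge_atTop (N1 + N2 + 3), hlog] with k hk hkl hkS
      obtain ⟨m, hmS, hmk⟩ := hkS
      have hk0 : (0 : ℝ) < k := by exact_mod_cast (show 0 < k by omega)
      have hm0 : (0 : ℝ) < m := by exact_mod_cast (show 0 < m by omega)
      have hl := K1.log_scale (show 3 ≤ k by omega)
      have hkm : (k : ℝ) ≤ m := by exact_mod_cast (show k ≤ m by omega)
      have hm3 : (m : ℝ) ≤ 3 * k := by exact_mod_cast (show m ≤ 3 * k by omega)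
      have hl1 : Real.log k ≤ Real.log m := Real.log_le_log hk0 hkm
      have hl2 : Real.log m ≤ Real.log k + 2 := by
        have h4 := Real.log_le_log hm0 hm3
        rw [Real.log_mul (by norm_num) hk0.ne'] at h4
        have h5 : Real.log 3 ≤ 2 := by
          rw [Real.log_le_iff_le_exp (by norm_num)]
          have := Real.add_one_le_exp (2 : ℝ)
          linarith
        linarith
      have h4 := hN1 m (by omega) hmS
      rw [Real.dist_eq] at h4
      have h5 : |Real.log (M m) - b * Real.log m| ≤ τ / 4 * Real.log m := by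
        have e : Real.log (M m) - b * Real.log m =
            (Real.log (M m) / Real.log m - b) * Real.log m := by
          have : Real.log (m : ℝ) ≠ 0 := by linarith
          field_simp
        rw [e, abs_mul, abs_of_pos (show 0 < Real.log (m : ℝ) by linarith)]
        exact mul_le_mul_of_nonneg_right h4.le (by linarith)
      have h6 : |Real.log (M (2 * k + s)) - Real.log (M m)| ≤ B0 := by
        rcases (show m = 2 * k + s ∨ (m = 2 * k ∧ s = 1) ∨ (m = 2 * k + 1 ∧ s = 0) by omega) with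
          h | ⟨h, h'⟩ | ⟨h, h'⟩
        · rw [h, sub_self, abs_zero]
          exact hb0
        · rw [h, h']
          exact hN2 (2 * k) (by omega)
        · rw [h, h', abs_sub_comm]
          exact hN2 (2 * k) (by omega)
      have h7 : |b * Real.log m - b * Real.log k| ≤ |b| * 2 := by
        rw [← mul_sub, abs_mul]
        refine mul_le_mul_of_nonneg_left ?_ (abs_nonneg b)
        rw [abs_le]
        constructor <;> linarith
      have h8 := abs_sub_le (Real.log (M (2 * k + s))) (Real.log (M m)) (b * Real.log k + 0)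
      have h9 := abs_sub_le (Real.log (M m)) (b * Real.log m) (b * Real.log k + 0)
      rw [add_zero] at h8 h9 ⊢
      have h10 : τ / 4 * Real.log m ≤ τ / 4 * (Real.log k + 2) := by gcongr
      rw [div_le_iff₀ (by positivity)] at hkl
      nlinarith) (ε := ε / 4) (by positivity)
    refine (Most.rare hm hs).mono ?_
    filter_upwards [eventually_ge_atTop 6, (Real.tendsto_log_atTop.comp
      tendsto_natCast_atTop_atTop).eventually_ge_atTop (4 * |b| / ε + 2)] with n hn1 hnl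
    rintro ⟨h2, h3⟩
    refine ⟨h2, fun h4 => ?_⟩
    rw [add_zero, show 2 * (n / 2) + s = n by omega] at h4
    obtain ⟨k, hk⟩ : ∃ k, k = n / 2 := ⟨_, rfl⟩
    rw [← hk] at h4
    have hk0 : (0 : ℝ) < k := by exact_mod_cast (show 0 < k by omega)
    have hn0 : (0 : ℝ) < n := by exact_mod_cast (show 0 < n by omega)
    have hl := K1.log_scale (show 3 ≤ k by omega)
    have hkn : (k : ℝ) ≤ n := by exact_mod_cast (show k ≤ n by omega)
    have hn3 : (n : ℝ) ≤ 3 * k := by exact_mod_cast (show n ≤ 3 * k by omega)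
    have hl1 : Real.log k ≤ Real.log n := Real.log_le_log hk0 hkn
    have hl2 : Real.log n ≤ Real.log k + 2 := by
      have h4 := Real.log_le_log hn0 hn3
      rw [Real.log_mul (by norm_num) hk0.ne'] at h4
      have h5 : Real.log 3 ≤ 2 := by
        rw [Real.log_le_iff_le_exp (by norm_num)]
        have := Real.add_one_le_exp (2 : ℝ)
        linarith
      linarith
    simp only [Function.comp_apply] at hnl
    have hln : 0 < Real.log (n : ℝ) := by linarith
    have e : Real.log (M n) / Real.log n - b = (Real.log (M n) - b * Real.log n) / Real.log n := by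
      field_simp
    rw [e, abs_div, abs_of_pos hln, lt_div_iff₀ hln] at h3
    have h7 : |b * Real.log k - b * Real.log n| ≤ |b| * 2 := by
      rw [← mul_sub, abs_mul]
      refine mul_le_mul_of_nonneg_left ?_ (abs_nonneg b)
      rw [abs_le]
      constructor <;> linarith
    have h8 := abs_sub_le (Real.log (M n)) (b * Real.log k) (b * Real.log n)
    have h9 : 4 * |b| + 2 * ε ≤ ε * Real.log n := by
      have := mul_le_mul_of_nonneg_left hnl hε.le
      have e2 : ε * (4 * |b| / ε + 2) = 4 * |b| + 2 * ε := by field_simp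
      rwa [e2] at this
    nlinarith
  refine ((key 0 (by norm_num)).or (key 1 le_rfl)).mono (Eventually.of_forall fun n hn => ?_)
  rcases Nat.mod_two_eq_zero_or_one n with h | h
  · exact Or.inl ⟨h, hn⟩
  · exact Or.inr ⟨h, hn⟩

/-- local geometric behaviour at most lengths -/
def Lin (M : ℕ → ℝ) : Prop :=
  ∃ K : ℝ, 0 < K ∧ ∀ η : ℝ, 0 < η → ∀ᶠ N : ℕ in atTop,
    ({n : ℕ | N ≤ n ∧ n < 2 * N ∧ ∃ j : ℕ, 2 * j ≤ N ∧ K / η * (j : ℝ) ^ 2 / N <
      |Real.log (M (n + 2 * j) / M n) - j * Real.log (M (n + 2) / M n)|}.ncard : ℝ) ≤ η * N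

theorem lin {M : ℕ → ℝ} (hM : ∀ᶠ n : ℕ in atTop, 0 < M n)
    (h : ∀ s : ℕ, s ≤ 1 → Bv (fun k => Real.log (M (2 * k + s)))) : Lin M := by
  obtain ⟨K0, hK0, h0⟩ := (h 0 (by norm_num)).lin
  obtain ⟨K1, hK1, h1⟩ := (h 1 le_rfl).lin
  obtain ⟨K, hK⟩ : ∃ K, K = K0 + K1 := ⟨_, rfl⟩
  have hKp : 0 < K := by rw [hK]; positivity
  refine ⟨9 * K, by positivity, fun η hη => ?_⟩
  obtain ⟨A0, hA0⟩ := eventually_atTop.1 (h0 (η / 3) (by positivity))
  obtain ⟨A1, hA1⟩ := eventually_atTop.1 (h1 (η / 3) (by positivity))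
  obtain ⟨A2, hA2⟩ := eventually_atTop.1 hM
  -- the bad sets
  obtain ⟨bad, hbad⟩ : ∃ bad : ℕ → ℕ → Finset ℕ, bad = fun s N => (Ico N (2 * N)).filter
      (fun n => ∃ j : ℕ, j ≤ 2 * N ∧ (K / (η / 3)) * (j : ℝ) ^ 2 / N <
        |Real.log (M (2 * (n + j) + s)) - Real.log (M (2 * n + s)) -
          j * (Real.log (M (2 * (n + 1) + s)) - Real.log (M (2 * n + s)))|) := ⟨_, rfl⟩
  have hb : ∀ s, s ≤ 1 → ∀ N, A0 + A1 + 1 ≤ N → ((bad s N).card : ℝ) ≤ η / 3 * N := by
    intro s hs N hN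
    rcases (show s = 0 ∨ s = 1 by omega) with h | h
    · subst h
      refine le_trans ?_ (hA0 N (by omega))
      refine Nat.cast_le.2 (card_le_card ?_)
      rw [hbad]
      intro n hn
      rw [mem_filter] at hn ⊢
      obtain ⟨g1, j, g2, g3⟩ := hn
      refine ⟨g1, j, g2, lt_of_le_of_lt ?_ g3⟩
      have : K0 ≤ K := by rw [hK]; linarith
      gcongr
    · subst h
      refine le_trans ?_ (hA1 N (by omega))
      refine Nat.cast_le.2 (card_le_card ?_)
      rw [hbad]
      intro n hn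
      rw [mem_filter] at hn ⊢
      obtain ⟨g1, j, g2, g3⟩ := hn
      refine ⟨g1, j, g2, lt_of_le_of_lt ?_ g3⟩
      have : K1 ≤ K := by rw [hK]; linarith
      gcongr
  filter_upwards [eventually_ge_atTop (2 * (A0 + A1 + A2) + 10)] with N hN
  obtain ⟨m, hm⟩ : ∃ m, m = N / 2 := ⟨_, rfl⟩
  have hNp : (0 : ℝ) < N := by exact_mod_cast (show 0 < N by omega)
  have hmp : (0 : ℝ) < m := by exact_mod_cast (show 0 < m by omega)
  have hsub : {n : ℕ | N ≤ n ∧ n < 2 * N ∧ ∃ j : ℕ, 2 * j ≤ N ∧ 9 * K / η * (j : ℝ) ^ 2 / N <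
      |Real.log (M (n + 2 * j) / M n) - j * Real.log (M (n + 2) / M n)|} ⊆
      ((((bad 0 m ∪ bad 0 (2 * m)).image (fun k => 2 * k + 0)) ∪
        ((bad 1 m ∪ bad 1 (2 * m)).image (fun k => 2 * k + 1)) : Finset ℕ) : Set ℕ) := by
    rintro n ⟨g1, g2, j, g3, g4⟩
    obtain ⟨k, s, hs, rfl⟩ : ∃ k s, s ≤ 1 ∧ n = 2 * k + s := ⟨n / 2, n % 2, by omega, by omega⟩
    have p0 := hA2 (2 * k + s) (by omega)
    have p1 := hA2 (2 * k + s + 2 * j) (by omega)
    have p2 := hA2 (2 * k + s + 2) (by omega)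
    rw [Real.log_div p1.ne' p0.ne', Real.log_div p2.ne' p0.ne',
      show 2 * k + s + 2 * j = 2 * (k + j) + s by ring,
      show 2 * k + s + 2 = 2 * (k + 1) + s by ring] at g4
    have hmem : ∀ Nb : ℕ, m ≤ Nb → Nb ≤ k → k < 2 * Nb → k ∈ bad s Nb := by
      intro Nb hb1 hb2 hb3
      rw [hbad]
      simp only [mem_filter, mem_Ico]
      refine ⟨⟨hb2, hb3⟩, j, by omega, lt_of_le_of_lt ?_ g4⟩
      have hNb : (0 : ℝ) < Nb := by exact_mod_cast (show 0 < Nb by omega)
      rw [div_le_div_iff₀ hNb hNp]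
      have h3 : (N : ℝ) ≤ 3 * Nb := by exact_mod_cast (show N ≤ 3 * Nb by omega)
      have e : K / (η / 3) * (j : ℝ) ^ 2 * N = 3 * K / η * (j : ℝ) ^ 2 * N := by field_simp
      rw [e]
      calc 3 * K / η * (j : ℝ) ^ 2 * N ≤ 3 * K / η * (j : ℝ) ^ 2 * (3 * Nb) := by gcongr
        _ = _ := by ring
    have hk : k ∈ bad s m ∪ bad s (2 * m) := by
      rw [mem_union]
      rcases Nat.lt_or_ge k (2 * m) with h | h
      · exact Or.inl (hmem m le_rfl (by omega) h)
      · exact Or.inr (hmem (2 * m) (by omega) h (by omega))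
    rw [Finset.mem_coe, mem_union, mem_image, mem_image]
    rcases (show s = 0 ∨ s = 1 by omega) with h | h
    · subst h
      exact Or.inl ⟨k, hk, rfl⟩
    · subst h
      exact Or.inr ⟨k, hk, rfl⟩
  have h2 := Set.ncard_le_ncard hsub (Finset.finite_toSet _)
  rw [Set.ncard_coe_finset] at h2
  have h3 : (((bad 0 m ∪ bad 0 (2 * m)).image (fun k => 2 * k + 0)) ∪
        ((bad 1 m ∪ bad 1 (2 * m)).image (fun k => 2 * k + 1)) : Finset ℕ).card ≤
      ((bad 0 m).card + (bad 0 (2 * m)).card) + ((bad 1 m).card + (bad 1 (2 * m)).card) :=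
    (card_union_le _ _).trans (add_le_add (card_image_le.trans (card_union_le _ _))
      (card_image_le.trans (card_union_le _ _)))
  have h4 := h2.trans h3
  have h5 : ({n : ℕ | N ≤ n ∧ n < 2 * N ∧ ∃ j : ℕ, 2 * j ≤ N ∧ 9 * K / η * (j : ℝ) ^ 2 / N <
      |Real.log (M (n + 2 * j) / M n) - j * Real.log (M (n + 2) / M n)|}.ncard : ℝ) ≤
      (((bad 0 m).card : ℝ) + (bad 0 (2 * m)).card) + ((bad 1 m).card + (bad 1 (2 * m)).card) := by
    exact_mod_cast h4
  refine h5.trans ?_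
  have b1 := hb 0 (by norm_num) m (by omega)
  have b2 := hb 0 (by norm_num) (2 * m) (by omega)
  have b3 := hb 1 le_rfl m (by omega)
  have b4 := hb 1 le_rfl (2 * m) (by omega)
  push_cast at b2 b4
  have hmN : 2 * (m : ℝ) ≤ N := by exact_mod_cast (show 2 * m ≤ N by omega)
  nlinarith

end Pool.Agent.R956.K7
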