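import Pool.Agent.R956.K7

/-!
# Means of weights and non-intersection probabilities at almost all lengths
-/

set_option autoImplicit false
set_option linter.unusedVariables false

namespace Pool.Agent.R956.K8

open Filter Topology Finset
open Pool.Agent.Y943.SL (Wk)
open Pool.Agent.R956.K6 Pool.Agent.R956.K7 Pool.Agent.R956.M1

lemma bvc {F G : ℕ → ℝ} (hF : Bv F) (h : ∀ᶠ k : ℕ in atTop, F k = G k) : Bv G := by
  obtain ⟨C, hC, h1⟩ := hF
  obtain ⟨N0, hN0⟩ := eventually_atTop.1 h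
  refine ⟨C, hC, ?_⟩
  filter_upwards [h1, eventually_ge_atTop N0] with N g1 g2
  refine le_trans (le_of_eq (sum_congr rfl fun k hk => ?_)) g1
  rw [mem_Ico] at hk
  unfold dd
  rw [hN0 k (by omega), hN0 (k + 1) (by omega), hN0 (k + 2) (by omega)]

variable {c w M : ℕ → ℝ} {μ : ℝ}

lemma tl (s : ℕ) : Tendsto (fun k : ℕ => 2 * k + s) atTop atTop :=
  tendsto_atTop_mono (fun k => by simp only [id]; omega) tendsto_id

lemma log_q (C : Wk c μ) (W : Wk w μ) (n : ℕ) :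
    Real.log (w n / c n) = Real.log (w n / μ ^ n) + (-1) * Real.log (c n / μ ^ n) := by
  have h1 := (pow_pos C.hμ n).ne'
  rw [Real.log_div (W.cpos n).ne' (C.cpos n).ne', Real.log_div (W.cpos n).ne' h1,
    Real.log_div (C.cpos n).ne' h1]
  ring

/-! ### quotients -/

theorem bv_q (C : Wk c μ) (W : Wk w μ) (hM : ∀ᶠ n : ℕ in atTop, M n = w n / c n) {s : ℕ}
    (hs : s ≤ 1) : Bv (fun k => Real.log (M (2 * k + s))) := by
  refine bvc ((bv_wk W hs).add ((bv_wk C hs).smul (-1))) ?_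
  filter_upwards [(tl s).eventually hM] with k hk
  rw [hk, log_q C W]

theorem pos_q (C : Wk c μ) (W : Wk w μ) (hM : ∀ᶠ n : ℕ in atTop, M n = w n / c n) :
    ∀ᶠ n : ℕ in atTop, 0 < M n := by
  filter_upwards [hM] with n hn
  rw [hn]
  exact cW C W n

theorem st_q (C : Wk c μ) (W : Wk w μ) (hM : ∀ᶠ n : ℕ in atTop, M n = w n / c n) :
    ∃ B0 : ℝ, ∀ᶠ n : ℕ in atTop, |Real.log (M (n + 1)) - Real.log (M n)| ≤ B0 := by
  obtain ⟨B1, h1⟩ := C.par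
  obtain ⟨B2, h2⟩ := W.par
  refine ⟨B1 + B2, ?_⟩
  filter_upwards [hM, (tendsto_add_atTop_nat 1).eventually hM, eventually_ge_atTop 1]
    with n g1 g2 hn
  rw [g1, g2, log_q C W, log_q C W]
  have k1 := h1 n hn
  have k2 := h2 n hn
  rw [abs_le] at k1 k2 ⊢
  constructor <;> linarith [k1.1, k1.2, k2.1, k2.2]

/-! ### non-intersection probabilities -/

lemma log_P (C : Wk c μ) (n : ℕ) : Real.log (c (2 * n) / c n ^ 2) =
    Real.log (c (2 * n) / μ ^ (2 * n)) + (-2) * Real.log (c n / μ ^ n) := by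
  have h1 := (pow_pos C.hμ n).ne'
  have h2 := (pow_pos C.hμ (2 * n)).ne'
  rw [Real.log_div (C.cpos _).ne' (pow_pos (C.cpos n) 2).ne', Real.log_div (C.cpos _).ne' h2,
    Real.log_div (C.cpos n).ne' h1, Real.log_pow, Real.log_pow, Real.log_pow]
  push_cast
  ring

theorem bv_P (C : Wk c μ) {s : ℕ} (hs : s ≤ 1) :
    Bv (fun k => Real.log (c (2 * (2 * k + s)) / c (2 * k + s) ^ 2)) := by
  have h0 := bv_wk C (show 0 ≤ 1 by norm_num)
  have h1 := h0.dil hs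
  refine bvc (h1.add ((bv_wk C hs).smul (-2))) (Eventually.of_forall fun k => ?_)
  rw [log_P C]
  rfl

theorem st_P (C : Wk c μ) : ∃ B0 : ℝ, ∀ᶠ n : ℕ in atTop,
    |Real.log (c (2 * (n + 1)) / c (n + 1) ^ 2) - Real.log (c (2 * n) / c n ^ 2)| ≤ B0 := by
  obtain ⟨B, h⟩ := C.par
  refine ⟨4 * B, ?_⟩
  filter_upwards [eventually_ge_atTop 1] with n hn
  have k1 := h n hn
  have k2 := h (2 * n) (by omega)
  have k3 := h (2 * n + 1) (by omega)
  rw [log_P C, log_P C, show 2 * (n + 1) = 2 * n + 1 + 1 by ring]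
  rw [abs_le] at k1 k2 k3 ⊢
  constructor <;> linarith [k1.1, k1.2, k2.1, k2.2, k3.1, k3.2]

/-! ### numbers of walks -/

theorem bv_c (C : Wk c μ) {s : ℕ} (hs : s ≤ 1) : Bv (fun k => Real.log (c (2 * k + s))) := by
  obtain ⟨B, hB, h⟩ := bv_wk C hs
  refine ⟨B, hB, ?_⟩
  filter_upwards [h] with N hN
  refine le_trans (le_of_eq (sum_congr rfl fun k hk => ?_)) hN
  have e : ∀ n : ℕ, Real.log (c n / μ ^ n) = Real.log (c n) - n * Real.log μ := fun n => by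
    rw [Real.log_div (C.cpos n).ne' (pow_pos C.hμ n).ne', Real.log_pow]
  unfold dd
  beta_reduce
  rw [e, e, e]
  push_cast
  congr 1
  ring

/-! ### joint statements -/

/-- joint forms -/
theorem joint_form (C : Wk c μ) (W : Wk w μ) (hM : ∀ᶠ n : ℕ in atTop, M n = w n / c n) {p : ℕ}
    (hp : p ≤ 1) {S : Set ℕ} (hpar : ∀ m ∈ S, m % 2 = p)
    (hS : ∀ δ : ℝ, 0 < δ → ∀ᶠ n : ℕ in atTop, ∃ m ∈ S, n ≤ m ∧ (m : ℝ) ≤ n + δ * √(n : ℝ))
    {a b A B : ℝ} (hA : 0 < A) (hB : 0 < B)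
    (h1 : Tendsto (fun n : ℕ => c n / μ ^ n / (n : ℝ) ^ a) (atTop ⊓ 𝓟 S) (𝓝 A))
    (h2 : Tendsto (fun n : ℕ => M n / (n : ℝ) ^ b) (atTop ⊓ 𝓟 S) (𝓝 B)) :
    Tendsto (fun n : ℕ => c n / μ ^ n / (n : ℝ) ^ a) (atTop ⊓ 𝓟 {n | n % 2 = p}) (𝓝 A) ∧
    Tendsto (fun n : ℕ => M n / (n : ℝ) ^ b) (atTop ⊓ 𝓟 {n | n % 2 = p}) (𝓝 B) ∧
    Tendsto (fun n : ℕ => (M (n + 2) / M n - 1) * √(n : ℝ))
      (atTop ⊓ 𝓟 {n | n % 2 = p}) (𝓝 0) := by
  have hM2 : ∀ᶠ n : ℕ in atTop, M (n + 2) = w (n + 2) / c (n + 2) :=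
    (tendsto_add_atTop_nat 2).eventually hM
  obtain ⟨g1, g2, g3⟩ := pair_form C W hp hpar hS hA hB h1 (h2.congr' (by
    filter_upwards [ev_inf hM] with n hn
    rw [hn]))
  refine ⟨g1, g2.congr' ?_, g3.congr' ?_⟩
  · filter_upwards [ev_inf hM] with n hn
    rw [hn]
  · filter_upwards [ev_inf hM, ev_inf hM2] with n hn hn2
    rw [hn, hn2]

/-- joint exponents -/
theorem joint_expo (C : Wk c μ) (W : Wk w μ) (hM : ∀ᶠ n : ℕ in atTop, M n = w n / c n) {S : Set ℕ}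
    (hS : ∀ δ : ℝ, 0 < δ → ∀ᶠ n : ℕ in atTop, ∃ m ∈ S, n ≤ m ∧
      (m : ℝ) ≤ n + δ * √(n * Real.log n)) {a b : ℝ}
    (h1 : Tendsto (fun n : ℕ => Real.log (c n / μ ^ n) / Real.log n) (atTop ⊓ 𝓟 S) (𝓝 a))
    (h2 : Tendsto (fun n : ℕ => Real.log (M n) / Real.log n) (atTop ⊓ 𝓟 S) (𝓝 b)) :
    Tendsto (fun n : ℕ => Real.log (c n / μ ^ n) / Real.log n) atTop (𝓝 a) ∧
    Tendsto (fun n : ℕ => Real.log (M n) / Real.log n) atTop (𝓝 b) ∧
    Tendsto (fun n : ℕ => (M (n + 2) / M n - 1) * √((n : ℝ) / Real.log n)) atTop (𝓝 0) := by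
  have hM2 : ∀ᶠ n : ℕ in atTop, M (n + 2) = w (n + 2) / c (n + 2) :=
    (tendsto_add_atTop_nat 2).eventually hM
  obtain ⟨g1, g2, g3⟩ := pair_expo C W hS h1 (h2.congr' (by
    filter_upwards [ev_inf hM] with n hn
    rw [hn]))
  refine ⟨g1, g2.congr' ?_, g3.congr' ?_⟩
  · filter_upwards [hM] with n hn
    rw [hn]
  · filter_upwards [hM, hM2] with n hn hn2
    rw [hn, hn2]

end Pool.Agent.R956.K8
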