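import Pool.Agent.R956.K8

/-!
# The variation of the logarithmic increments over dyadic blocks, all lengths
-/

set_option autoImplicit false
set_option linter.unusedVariables false

namespace Pool.Agent.R956.K9

open Filter Topology Finset
open Pool.Agent.R956.K6 Pool.Agent.R956.K7

/-- the second logarithmic differences have bounded sums over dyadic blocks -/
theorem tv {M : ℕ → ℝ} (hM : ∀ᶠ n : ℕ in atTop, 0 < M n)
    (h : ∀ s : ℕ, s ≤ 1 → Bv (fun k => Real.log (M (2 * k + s)))) : ∃ K : ℝ, 0 ≤ K ∧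
    ∀ᶠ N : ℕ in atTop, ∑ n ∈ Ico N (2 * N), |Real.log (M (n + 4) * M n / M (n + 2) ^ 2)| ≤ K := by
  obtain ⟨C0, hC0, h0⟩ := h 0 (by norm_num)
  obtain ⟨C1, hC1, h1⟩ := h 1 le_rfl
  obtain ⟨A0, hA0⟩ := eventually_atTop.1 h0
  obtain ⟨A1, hA1⟩ := eventually_atTop.1 h1
  obtain ⟨A2, hA2⟩ := eventually_atTop.1 hM
  refine ⟨2 * C0 + 2 * C1, by positivity, ?_⟩
  filter_upwards [eventually_ge_atTop (2 * (A0 + A1 + A2) + 10)] with N hN
  obtain ⟨m, hm⟩ : ∃ m, m = N / 2 := ⟨_, rfl⟩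
  obtain ⟨G, hG⟩ : ∃ G : ℕ → ℝ, G = fun n => |Real.log (M (n + 4) * M n / M (n + 2) ^ 2)| :=
    ⟨_, rfl⟩
  have hG0 : ∀ n, 0 ≤ G n := fun n => by rw [hG]; exact abs_nonneg _
  have e : ∀ s k : ℕ, A2 ≤ k → G (2 * k + s) = dd (fun k => Real.log (M (2 * k + s))) k := by
    intro s k hk
    have p0 := hA2 (2 * k + s) (by omega)
    have p2 := hA2 (2 * k + s + 2) (by omega)
    have p4 := hA2 (2 * k + s + 4) (by omega)
    rw [hG]
    unfold dd
    beta_reduce
    rw [Real.log_div (by positivity) (by positivity), Real.log_mul p4.ne' p0.ne', Real.log_pow,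
      show 2 * (k + 2) + s = 2 * k + s + 4 by ring, show 2 * (k + 1) + s = 2 * k + s + 2 by ring]
    congr 1
    push_cast
    ring
  have hsub : Ico N (2 * N) ⊆ ((Ico m (4 * m)).image (fun k => 2 * k + 0)) ∪
      ((Ico m (4 * m)).image (fun k => 2 * k + 1)) := by
    intro n hn
    rw [mem_Ico] at hn
    rw [mem_union, mem_image, mem_image]
    rcases Nat.mod_two_eq_zero_or_one n with h | h
    · exact Or.inl ⟨n / 2, mem_Ico.2 ⟨by omega, by omega⟩, by omega⟩
    · exact Or.inr ⟨n / 2, mem_Ico.2 ⟨by omega, by omega⟩, by omega⟩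
  have part : ∀ s : ℕ, ∑ n ∈ (Ico m (4 * m)).image (fun k => 2 * k + s), G n ≤
      ∑ k ∈ Ico m (2 * m), dd (fun k => Real.log (M (2 * k + s))) k +
      ∑ k ∈ Ico (2 * m) (2 * (2 * m)), dd (fun k => Real.log (M (2 * k + s))) k := by
    intro s
    rw [sum_image (by intro x _ y _ h; simp only at h; omega),
      show 2 * (2 * m) = 4 * m by ring,
      sum_Ico_consecutive _ (show m ≤ 2 * m by omega) (show 2 * m ≤ 4 * m by omega)]
    refine le_of_eq (sum_congr rfl fun k hk => ?_)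
    rw [mem_Ico] at hk
    exact e s k (by omega)
  have h2 : ∑ n ∈ Ico N (2 * N), G n ≤
      ∑ n ∈ (Ico m (4 * m)).image (fun k => 2 * k + 0), G n +
      ∑ n ∈ (Ico m (4 * m)).image (fun k => 2 * k + 1), G n := by
    refine (sum_le_sum_of_subset_of_nonneg hsub fun _ _ _ => hG0 _).trans ?_
    rw [← sum_union_inter]
    have : 0 ≤ ∑ n ∈ (Ico m (4 * m)).image (fun k => 2 * k + 0) ∩
        (Ico m (4 * m)).image (fun k => 2 * k + 1), G n := sum_nonneg fun _ _ => hG0 _
    linarith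
  have e0 := part 0
  have e1 := part 1
  have a1 := hA0 m (by omega)
  have a2 := hA0 (2 * m) (by omega)
  have a3 := hA1 m (by omega)
  have a4 := hA1 (2 * m) (by omega)
  rw [hG] at h2 e0 e1
  linarith

end Pool.Agent.R956.K9
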