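import Pool.Agent.Y981.SW.Sq

/-!
# Insertions of bumps in a window of times: counting
-/

set_option autoImplicit false
set_option linter.unusedVariables false

namespace Pool.Agent.R956

open Pool.Agent.H976R2 Finset
open Pool.Agent.H976R2.Dir
open scoped Classical

noncomputable section

/-- admissible insertions at the letters number `a, ..., |w| - r - 1` -/
def admJ (a r : ℕ) (w : List Dir) : Finset (ℕ × Dir) :=
  (adm w).filter (fun p => a ≤ p.1 ∧ p.1 + r < w.length)

/-- bumps formed by letters with numbers in `a, ..., |w| - r - 1` -/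
def bumpsJ (a r : ℕ) (w : List Dir) : Finset ℕ :=
  (bumps w).filter (fun i => a ≤ i ∧ i + 2 + r < w.length)

/-- number of admissible insertions in the window -/
def AJ (a r : ℕ) (w : List Dir) : ℕ := (admJ a r w).card

/-- number of bumps in the window -/
def BJ (a r : ℕ) (w : List Dir) : ℕ := (bumpsJ a r w).card

/-- length of the window -/
def LJ (a r n : ℕ) : ℝ := (n : ℝ) - a - r

/-- truncated number of bumps in the window -/
def TJ (a r : ℕ) (w : List Dir) : ℝ := max (BJ a r w : ℝ) (LJ a r w.length / 2000)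

/-- the ratio -/
def RJ (a r : ℕ) (w : List Dir) : ℝ := (AJ a r w : ℝ) / TJ a r w

/-- words with few bumps in the window -/
def fewJ (a r n : ℕ) : Finset (List Dir) :=
  (SW n).filter (fun w => (BJ a r w : ℝ) < LJ a r n / 2000)

lemma mem_admJ {a r : ℕ} {w : List Dir} {p : ℕ × Dir} :
    p ∈ admJ a r w ↔ p ∈ adm w ∧ a ≤ p.1 ∧ p.1 + r < w.length := by
  unfold admJ; rw [mem_filter]

lemma mem_bumpsJ {a r : ℕ} {w : List Dir} {i : ℕ} :
    i ∈ bumpsJ a r w ↔ i ∈ bumps w ∧ a ≤ i ∧ i + 2 + r < w.length := by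
  unfold bumpsJ; rw [mem_filter]

/-- double counting of bumps in the window -/
theorem sum_insJ (a r n : ℕ) (G : List Dir → List Dir → ℝ) :
    ∑ w ∈ SW n, ∑ p ∈ admJ a r w, G w (ins w p.1 p.2) =
      ∑ w' ∈ SW (n + 2), ∑ i ∈ bumpsJ a r w', G (del w' i) w' := by
  rw [Finset.sum_sigma', Finset.sum_sigma']
  refine Finset.sum_nbij' (fun x => ⟨ins x.1 x.2.1 x.2.2, x.2.1⟩)
    (fun y => ⟨del y.1 y.2, (y.2, lt y.1 y.2)⟩) ?_ ?_ ?_ ?_ ?_
  · rintro ⟨w, i, e⟩ h
    simp only [mem_sigma] at h ⊢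
    obtain ⟨h1, h2⟩ := h
    obtain ⟨h2, ha, hr⟩ := mem_admJ.mp h2
    simp only at ha hr
    obtain ⟨hlen, hsaw⟩ := mem_SW.mp h1
    obtain ⟨hi, hp, hs⟩ := mem_adm.mp h2
    refine ⟨mem_SW.mpr ⟨by rw [length_ins e hi, hlen], hs⟩, mem_bumpsJ.mpr
      ⟨mem_bumps.mpr ⟨?_, ?_, ?_⟩, ha, ?_⟩⟩
    · rw [length_ins e hi]; omega
    · rw [lt_ins_2 hi, lt_ins_0 hi]
    · rw [lt_ins_0 hi, lt_ins_1 hi]; exact hp
    · rw [length_ins e hi]; omega
  · rintro ⟨w, i⟩ h
    simp only [mem_sigma] at h ⊢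
    obtain ⟨h1, h2⟩ := h
    obtain ⟨h2, ha, hr⟩ := mem_bumpsJ.mp h2
    obtain ⟨hlen, hsaw⟩ := mem_SW.mp h1
    obtain ⟨hi, ho, hp⟩ := mem_bumps.mp h2
    have hd : Saw (del w i) := by
      unfold del
      have := split3 hi
      rw [ho] at this
      rw [this] at hsaw
      exact saw_delete hsaw
    refine ⟨mem_SW.mpr ⟨by rw [length_del hi, hlen]; omega, hd⟩, mem_admJ.mpr
      ⟨mem_adm.mpr ⟨?_, ?_, ?_⟩, ha, ?_⟩⟩
    · rw [length_del hi]; omega
    · rw [lt_del hi]; exact hp
    · rw [ins_del hi ho]; exact hsaw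
    · simp only; rw [length_del hi]; omega
  · rintro ⟨w, i, e⟩ h
    simp only [mem_sigma] at h
    obtain ⟨h1, h2⟩ := h
    obtain ⟨hi, hp, hs⟩ := mem_adm.mp (mem_admJ.mp h2).1
    simp only [del_ins hi, lt_ins_0 hi]
  · rintro ⟨w, i⟩ h
    simp only [mem_sigma] at h
    obtain ⟨h1, h2⟩ := h
    obtain ⟨hi, ho, hp⟩ := mem_bumps.mp (mem_bumpsJ.mp h2).1
    simp only [ins_del hi ho]
  · rintro ⟨w, i, e⟩ h
    simp only [mem_sigma] at h
    obtain ⟨h1, h2⟩ := h
    obtain ⟨hi, hp, hs⟩ := mem_adm.mp (mem_admJ.mp h2).1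
    simp only [del_ins hi]

lemma AJ_le {a r : ℕ} {w : List Dir} (h : a + r ≤ w.length) :
    (AJ a r w : ℝ) ≤ 2 * LJ a r w.length := by
  have h1 : AJ a r w ≤ 2 * (w.length - r - a) := by
    unfold AJ
    calc (admJ a r w).card
        ≤ ((Ico a (w.length - r)).sigma
            (fun i => (univ : Finset Dir).filter (fun e => perp e (lt w i)))).card := by
          refine Finset.card_le_card_of_injOn (fun p => ⟨p.1, p.2⟩) ?_ ?_
          · rintro ⟨i, e⟩ hp
            rw [mem_coe] at hp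
            obtain ⟨h2, ha, hr⟩ := mem_admJ.mp hp
            obtain ⟨hi, hpp, hs⟩ := mem_adm.mp h2
            simp only at ha hr
            simp only [coe_sigma, Set.mem_sigma_iff, mem_coe, mem_Ico, mem_filter, mem_univ,
              true_and]
            exact ⟨by omega, hpp⟩
          · intro p _ q _ h
            simp only [Sigma.mk.injEq, heq_eq_eq] at h
            exact Prod.ext h.1 h.2
      _ = ∑ i ∈ Ico a (w.length - r),
            ((univ : Finset Dir).filter (fun e => perp e (lt w i))).card := by rw [card_sigma]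
      _ ≤ ∑ i ∈ Ico a (w.length - r), 2 := Finset.sum_le_sum (fun i _ => perp_card _)
      _ = 2 * (w.length - r - a) := by simp [mul_comm]
  have h2 : ((w.length - r - a : ℕ) : ℝ) = LJ a r w.length := by
    unfold LJ
    rw [Nat.cast_sub (by omega), Nat.cast_sub (by omega)]
    ring
  calc (AJ a r w : ℝ) ≤ ((2 * (w.length - r - a) : ℕ) : ℝ) := by exact_mod_cast h1
    _ = 2 * LJ a r w.length := by rw [Nat.cast_mul, h2]; norm_num

theorem BJ_ins {a r : ℕ} {w : List Dir} {i : ℕ} (e : Dir) (ha : a ≤ i) (hr : i + r < w.length) :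
    |((BJ a r (ins w i e) : ℤ) - (BJ a r w : ℤ))| ≤ 5 := by
  have hi : i < w.length := by omega
  have hlen := Lip.ins_length w i e hi
  have h1 : (bumpsJ a r w).card ≤ (bumpsJ a r (ins w i e)).card + 3 := by
    rw [← card_filter_add_card_filter_not (s := bumpsJ a r w) (fun j => j ∈ Icc (i - 2) i)]
    have a1 : ((bumpsJ a r w).filter (fun j => j ∈ Icc (i - 2) i)).card ≤ 3 := by
      calc _ ≤ (Icc (i - 2) i).card := card_le_card (fun j hj => (mem_filter.mp hj).2)
        _ ≤ 3 := by rw [Nat.card_Icc]; omega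
    have a2 : ((bumpsJ a r w).filter (fun j => ¬ j ∈ Icc (i - 2) i)).card ≤
        (bumpsJ a r (ins w i e)).card := by
      apply card_le_card_of_injOn (fun j => if j < i then j else j + 2)
      · intro j hj
        rw [mem_coe, mem_filter, mem_Icc, mem_bumpsJ] at hj
        obtain ⟨⟨hj1, hj3, hj4⟩, hj2⟩ := hj
        simp only [mem_coe]
        split_ifs with h
        · rw [mem_bumpsJ, Lip.bumps_lt w i j e hi (by omega), hlen]
          exact ⟨hj1, hj3, by omega⟩
        · rw [mem_bumpsJ, Lip.bumps_gt w i j e hi (by omega), hlen]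
          exact ⟨hj1, by omega, by omega⟩
      · intro j hj j' hj' hjj
        simp only at hjj
        split_ifs at hjj <;> omega
    omega
  have h2 : (bumpsJ a r (ins w i e)).card ≤ (bumpsJ a r w).card + 5 := by
    rw [← card_filter_add_card_filter_not (s := bumpsJ a r (ins w i e))
      (fun j => j ∈ Icc (i - 2) (i + 2))]
    have a1 : ((bumpsJ a r (ins w i e)).filter (fun j => j ∈ Icc (i - 2) (i + 2))).card ≤ 5 := by
      calc _ ≤ (Icc (i - 2) (i + 2)).card := card_le_card (fun j hj => (mem_filter.mp hj).2)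
        _ ≤ 5 := by rw [Nat.card_Icc]; omega
    have a2 : ((bumpsJ a r (ins w i e)).filter (fun j => ¬ j ∈ Icc (i - 2) (i + 2))).card ≤
        (bumpsJ a r w).card := by
      apply card_le_card_of_injOn (fun j => if j < i then j else j - 2)
      · intro j hj
        rw [mem_coe, mem_filter, mem_Icc, mem_bumpsJ, hlen] at hj
        obtain ⟨⟨hj1, hj3, hj4⟩, hj2⟩ := hj
        simp only [mem_coe]
        split_ifs with h
        · rw [Lip.bumps_lt w i j e hi (by omega)] at hj1
          exact mem_bumpsJ.mpr ⟨hj1, hj3, by omega⟩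
        · obtain ⟨k, rfl⟩ : ∃ k, j = k + 2 := ⟨j - 2, by omega⟩
          rw [Lip.bumps_gt w i k e hi (by omega)] at hj1
          simp only [Nat.add_sub_cancel]
          exact mem_bumpsJ.mpr ⟨hj1, by omega, by omega⟩
      · intro j hj j' hj' hjj
        rw [mem_coe, mem_filter, mem_Icc] at hj hj'
        simp only at hjj
        split_ifs at hjj <;> omega
    omega
  unfold BJ
  rw [abs_le]
  constructor <;> omega

theorem AJ_ins {a r : ℕ} {w : List Dir} (hw : Saw w) {i : ℕ} {e : Dir} (h : (i, e) ∈ adm w)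
    (ha : a ≤ i) (hr : i + r < w.length) :
    |((AJ a r (ins w i e) : ℤ) - (AJ a r w : ℤ))| ≤ 40 := by
  have h0 := h
  unfold adm at h0
  rw [mem_filter, mem_product, mem_range] at h0
  have hi : i < w.length := h0.1.1
  have hw' : Saw (ins w i e) := h0.2.2
  have hlen := Lip.ins_length w i e hi
  have h4 : (univ : Finset Dir).card = 4 := rfl
  -- upper bound
  have u1 : (admJ a r (ins w i e)).card ≤ (admJ a r w).card + 12 := by
    rw [← card_filter_add_card_filter_not (s := admJ a r (ins w i e))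
      (fun p => p.1 ∈ Icc i (i + 2))]
    have a1 : ((admJ a r (ins w i e)).filter (fun p => p.1 ∈ Icc i (i + 2))).card ≤ 12 := by
      calc _ ≤ ((Icc i (i + 2)) ×ˢ (univ : Finset Dir)).card :=
            card_le_card (fun p hp => mem_product.mpr ⟨(mem_filter.mp hp).2, mem_univ _⟩)
        _ = 12 := by rw [card_product, Nat.card_Icc, h4]; omega
    have a2 : ((admJ a r (ins w i e)).filter (fun p => ¬ p.1 ∈ Icc i (i + 2))).card ≤
        (admJ a r w).card := by
      apply card_le_card_of_injOn (fun p => (if p.1 < i then p.1 else p.1 - 2, p.2))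
      · rintro ⟨j, f⟩ hp
        rw [mem_coe, mem_filter, mem_Icc, mem_admJ, hlen] at hp
        obtain ⟨⟨hp1, hp3, hp4⟩, hp2⟩ := hp
        simp only at hp2 hp3 hp4
        simp only [mem_coe]
        split_ifs with hj
        · have : Lip.sh i j = j := by unfold Lip.sh; rw [if_pos hj]
          rw [← this] at hp1
          exact mem_admJ.mpr ⟨((Lip.mem_adm_sh hw i e hi hw' j (by omega) f).mp hp1).1, hp3,
            by simp only; omega⟩
        · obtain ⟨k, rfl⟩ : ∃ k, j = k + 2 := ⟨j - 2, by omega⟩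
          have : Lip.sh i k = k + 2 := by unfold Lip.sh; rw [if_neg (by omega)]
          rw [← this] at hp1
          have h5 := ((Lip.mem_adm_sh hw i e hi hw' k (by omega) f).mp hp1).1
          simp only [Nat.add_sub_cancel]
          exact mem_admJ.mpr ⟨h5, by simp only; omega, by simp only; omega⟩
      · rintro ⟨j, f⟩ hp ⟨k, g⟩ hq hpq
        rw [mem_coe, mem_filter, mem_Icc] at hp hq
        simp only [Prod.mk.injEq] at hpq hp hq ⊢
        refine ⟨?_, hpq.2⟩
        have := hpq.1
        split_ifs at this <;> omega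
    omega
  -- lower bound
  have u2 : (admJ a r w).card ≤ (admJ a r (ins w i e)).card + 20 := by
    set v1 := Lip.PP w i + Lip.dv e with hv1
    set v2 := Lip.PP w i + Lip.dv e + Lip.dv (lt w i) with hv2
    have hsub : admJ a r w ⊆ (((adm w).filter (fun p => p.1 = i)) ∪
        ((adm w).filter (fun p => Lip.PP w (p.1 + 0) + Lip.dv p.2 = v1)) ∪
        ((adm w).filter (fun p => Lip.PP w (p.1 + 0) + Lip.dv p.2 = v2)) ∪
        ((adm w).filter (fun p => Lip.PP w (p.1 + 1) + Lip.dv p.2 = v1)) ∪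
        ((adm w).filter (fun p => Lip.PP w (p.1 + 1) + Lip.dv p.2 = v2))) ∪
        ((admJ a r w).filter (fun p => (Lip.sh i p.1, p.2) ∈ adm (ins w i e))) := by
      rintro ⟨j, f⟩ hpJ
      have hp := (mem_admJ.mp hpJ).1
      have hjl : j < w.length := by
        have := hp
        rw [Lip.mem_adm hw] at this
        exact this.1
      by_contra hcon
      simp only [mem_union, mem_filter, not_or, hp, hpJ, true_and, add_zero] at hcon
      obtain ⟨⟨⟨⟨⟨c1, c2⟩, c3⟩, c4⟩, c5⟩, c6⟩ := hcon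
      rw [Lip.PP_succ w j hjl] at c4 c5
      apply c6
      rw [Lip.mem_adm_sh hw i e hi hw' j c1 f]
      refine ⟨hp, ⟨c2, c3⟩, ?_, ?_⟩
      · intro h'; apply c4; rw [hv1, ← h']; abel
      · intro h'; apply c5; rw [hv2, ← h']; abel
    have hlt : ∀ p ∈ adm w, p.1 < w.length := by
      rintro ⟨j, f⟩ hp
      rw [Lip.mem_adm hw] at hp
      exact hp.1
    have b1 : ((adm w).filter (fun p => p.1 = i)).card ≤ 4 := by
      rw [← h4]
      apply card_le_card_of_injOn (fun p => p.2) (fun p _ => mem_univ _)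
      rintro ⟨j, f⟩ hp ⟨k, g⟩ hq hpq
      rw [mem_coe, mem_filter] at hp hq
      simp only at hp hq hpq
      rw [hp.2, hq.2, hpq]
    have b2 : ((adm w).filter (fun p => Lip.PP w (p.1 + 0) + Lip.dv p.2 = v1)).card ≤ 4 :=
      Lip.card_pos_le hw v1 (fun _ _ => v1) _ 0 (by omega)
        (fun p hp => ⟨hlt p (mem_filter.mp hp).1, (mem_filter.mp hp).2⟩)
    have b3 : ((adm w).filter (fun p => Lip.PP w (p.1 + 0) + Lip.dv p.2 = v2)).card ≤ 4 :=
      Lip.card_pos_le hw v2 (fun _ _ => v2) _ 0 (by omega)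
        (fun p hp => ⟨hlt p (mem_filter.mp hp).1, (mem_filter.mp hp).2⟩)
    have b4 : ((adm w).filter (fun p => Lip.PP w (p.1 + 1) + Lip.dv p.2 = v1)).card ≤ 4 :=
      Lip.card_pos_le hw v1 (fun _ _ => v1) _ 1 (by omega)
        (fun p hp => ⟨hlt p (mem_filter.mp hp).1, (mem_filter.mp hp).2⟩)
    have b5 : ((adm w).filter (fun p => Lip.PP w (p.1 + 1) + Lip.dv p.2 = v2)).card ≤ 4 :=
      Lip.card_pos_le hw v2 (fun _ _ => v2) _ 1 (by omega)
        (fun p hp => ⟨hlt p (mem_filter.mp hp).1, (mem_filter.mp hp).2⟩)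
    have b6 : ((admJ a r w).filter (fun p => (Lip.sh i p.1, p.2) ∈ adm (ins w i e))).card ≤
        (admJ a r (ins w i e)).card := by
      apply card_le_card_of_injOn (fun p => (Lip.sh i p.1, p.2))
      · intro p hp
        rw [mem_coe, mem_filter, mem_admJ] at hp
        rw [mem_coe, mem_admJ, hlen]
        obtain ⟨⟨q1, q2, q3⟩, q4⟩ := hp
        refine ⟨q4, ?_, ?_⟩
        · simp only; unfold Lip.sh; split_ifs <;> omega
        · simp only; unfold Lip.sh; split_ifs <;> omega
      · rintro ⟨j, f⟩ hp ⟨k, g⟩ hq hpq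
        simp only [Prod.mk.injEq] at hpq ⊢
        exact ⟨Lip.sh_inj i hpq.1, hpq.2⟩
    have hc := card_le_card hsub
    have c1 := card_union_le (((adm w).filter (fun p => p.1 = i)) ∪
        ((adm w).filter (fun p => Lip.PP w (p.1 + 0) + Lip.dv p.2 = v1)) ∪
        ((adm w).filter (fun p => Lip.PP w (p.1 + 0) + Lip.dv p.2 = v2)) ∪
        ((adm w).filter (fun p => Lip.PP w (p.1 + 1) + Lip.dv p.2 = v1)) ∪
        ((adm w).filter (fun p => Lip.PP w (p.1 + 1) + Lip.dv p.2 = v2)))
        ((admJ a r w).filter (fun p => (Lip.sh i p.1, p.2) ∈ adm (ins w i e)))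
    have c2 := card_union_le (((adm w).filter (fun p => p.1 = i)) ∪
        ((adm w).filter (fun p => Lip.PP w (p.1 + 0) + Lip.dv p.2 = v1)) ∪
        ((adm w).filter (fun p => Lip.PP w (p.1 + 0) + Lip.dv p.2 = v2)) ∪
        ((adm w).filter (fun p => Lip.PP w (p.1 + 1) + Lip.dv p.2 = v1)))
        ((adm w).filter (fun p => Lip.PP w (p.1 + 1) + Lip.dv p.2 = v2))
    have c3 := card_union_le (((adm w).filter (fun p => p.1 = i)) ∪
        ((adm w).filter (fun p => Lip.PP w (p.1 + 0) + Lip.dv p.2 = v1)) ∪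
        ((adm w).filter (fun p => Lip.PP w (p.1 + 0) + Lip.dv p.2 = v2)))
        ((adm w).filter (fun p => Lip.PP w (p.1 + 1) + Lip.dv p.2 = v1))
    have c4 := card_union_le (((adm w).filter (fun p => p.1 = i)) ∪
        ((adm w).filter (fun p => Lip.PP w (p.1 + 0) + Lip.dv p.2 = v1)))
        ((adm w).filter (fun p => Lip.PP w (p.1 + 0) + Lip.dv p.2 = v2))
    have c5 := card_union_le ((adm w).filter (fun p => p.1 = i))
        ((adm w).filter (fun p => Lip.PP w (p.1 + 0) + Lip.dv p.2 = v1))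
    omega
  unfold AJ
  rw [abs_le]
  constructor <;> omega

end

end Pool.Agent.R956
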