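import Pool.Agent.R956.L1
import Pool.Agent.H739K.BND

/-!
# Words with few bumps in a window are rare
-/

set_option autoImplicit false
set_option linter.unusedVariables false

namespace Pool.Agent.R956

open Pool.Agent.H976R2 Finset
open Pool.Agent.H976R2.Dir
open scoped Classical

noncomputable section

lemma saw_mid {u v x : List Dir} (h : Saw (u ++ v ++ x)) : Saw v := by
  intro a b c habc hb
  exact h (u ++ a) b (c ++ x) (by rw [habc]; simp) hb

lemma saw_left {u v : List Dir} (h : Saw (u ++ v)) : Saw u := by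
  intro a b c habc hb
  exact h a b (c ++ v) (by rw [habc]; simp) hb

lemma saw_right {u v : List Dir} (h : Saw (u ++ v)) : Saw v := by
  intro a b c habc hb
  exact h (u ++ a) b c (by rw [habc]; simp) hb

lemma split_word (w : List Dir) (a l : ℕ) : w = w.take a ++ (w.drop a).take l ++ w.drop (a + l) := by
  rw [List.append_assoc, ← List.drop_drop, List.take_append_drop, List.take_append_drop]

lemma bc_mid_le {a r : ℕ} {w : List Dir} (h : a + r ≤ w.length) :
    bc ((w.drop a).take (w.length - a - r)) ≤ BJ a r w := by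
  unfold bc BJ
  refine Finset.card_le_card_of_injOn (fun j => a + j) ?_ ?_
  · intro j hj
    rw [mem_coe] at hj
    obtain ⟨h1, h2, h3⟩ := H976R2.mem_bumps.mp hj
    have hl : ((w.drop a).take (w.length - a - r)).length = w.length - a - r := by
      rw [List.length_take, List.length_drop]; omega
    rw [hl] at h1
    have e : ∀ i, i < w.length - a - r → lt ((w.drop a).take (w.length - a - r)) i = lt w (a + i) := by
      intro i hi
      unfold lt
      rw [List.getD_eq_getElem?_getD, List.getD_eq_getElem?_getD, List.getElem?_take_of_lt hi,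
        List.getElem?_drop]
    rw [e _ h1, e _ (by omega)] at h2
    rw [e _ (by omega), e _ (by omega)] at h3
    simp only [mem_coe]
    rw [mem_bumpsJ, H976R2.mem_bumps]
    refine ⟨⟨by omega, ?_, ?_⟩, by omega, by omega⟩
    · rw [show a + j + 2 = a + (j + 2) by ring]; exact h2
    · rw [show a + j + 1 = a + (j + 1) by ring]; exact h3
  · intro j _ j' _ h
    simpa using h

lemma fewJ_card {a r n : ℕ} (h : a + r ≤ n) :
    (fewJ a r n).card ≤ (SW a).card * ((few (n - a - r)).card * (SW r).card) := by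
  rw [← Finset.card_product, ← Finset.card_product]
  refine Finset.card_le_card_of_injOn
    (fun w => (w.take a, (w.drop a).take (n - a - r), w.drop (a + (n - a - r)))) ?_ ?_
  · intro w hw
    rw [mem_coe] at hw
    unfold fewJ at hw
    rw [mem_filter] at hw
    obtain ⟨hw, hf⟩ := hw
    obtain ⟨hl, hs⟩ := mem_SW.mp hw
    have hsp := split_word w a (n - a - r)
    rw [hsp] at hs
    rw [mem_coe, mem_product, mem_product]
    refine ⟨mem_SW.mpr ⟨?_, saw_left (saw_left hs)⟩, ?_, mem_SW.mpr ⟨?_, saw_right hs⟩⟩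
    · rw [List.length_take]; omega
    · unfold few
      rw [mem_filter]
      refine ⟨mem_SW.mpr ⟨?_, saw_mid hs⟩, ?_⟩
      · rw [List.length_take, List.length_drop]; omega
      · have h1 := bc_mid_le (a := a) (r := r) (w := w) (by omega)
        rw [hl] at h1
        have h2 : ((n - a - r : ℕ) : ℝ) = LJ a r n := by
          unfold LJ
          rw [Nat.cast_sub (by omega), Nat.cast_sub (by omega)]
        rw [h2]
        refine lt_of_le_of_lt ?_ hf
        exact_mod_cast h1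
    · rw [List.length_drop]; omega
  · intro w _ w' _ h
    simp only [Prod.mk.injEq] at h
    rw [split_word w a (n - a - r), split_word w' a (n - a - r), h.1, h.2.1, h.2.2]

lemma card_SW_upper : ∃ K : ℝ, 0 ≤ K ∧ ∀ m n : ℕ, 2 ≤ n → m ≤ n →
    ((SW m).card : ℝ) ≤ 4 * (H981.mu ^ m * Real.exp (K * Real.log n ^ 2)) := by
  obtain ⟨K, hK, h⟩ := Pool.Agent.TH508.LT.sq_upper2
  refine ⟨K, hK, fun m n hn hmn => ?_⟩
  have hmu1 : 1 ≤ H981.mu := H981.one_le_mu
  have hp : (1 : ℝ) ≤ H981.mu ^ m := one_le_pow₀ hmu1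
  have hlogn : 0 ≤ Real.log (n : ℝ) := Real.log_natCast_nonneg n
  have hexp : 1 ≤ Real.exp (K * Real.log n ^ 2) := Real.one_le_exp (by positivity)
  rcases Nat.lt_or_ge m 2 with hm | hm
  · have h1 : ((SW m).card : ℝ) ≤ 4 := by
      have h2 : (SW m).card ≤ 4 := by
        have h3 : (SW m).card ≤ (univ : Finset (Fin m → Dir)).card := by
          refine Finset.card_le_card_of_injOn (fun w => fun i => lt w i) (fun _ _ => mem_univ _) ?_
          intro w hw w' hw' h
          rw [mem_coe] at hw hw'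
          have l1 := (mem_SW.mp hw).1
          have l2 := (mem_SW.mp hw').1
          apply List.ext_getElem (by rw [l1, l2])
          intro i h1 h2
          have := congrFun h ⟨i, by omega⟩
          simp only at this
          rw [lt_eq h1, lt_eq h2] at this
          exact this
        refine h3.trans ?_
        have h4 : (univ : Finset Dir).card = 4 := rfl
        rw [card_univ, Fintype.card_fun, Fintype.card_fin]
        have h5 : Fintype.card Dir = 4 := rfl
        rw [h5]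
        calc 4 ^ m ≤ 4 ^ 1 := Nat.pow_le_pow_right (by norm_num) (by omega)
          _ = 4 := by norm_num
      exact_mod_cast h2
    nlinarith [mul_le_mul hp hexp zero_le_one (by linarith)]
  · have h1 := h m hm
    rw [← Pool.Agent.H739K.SWR.card_eq_cr'] at h1
    have hlog : Real.log (m : ℝ) ≤ Real.log n := by
      apply Real.log_le_log
      · exact_mod_cast (by omega : 0 < m)
      · exact_mod_cast hmn
    have hlogm : 0 ≤ Real.log (m : ℝ) := Real.log_natCast_nonneg m
    calc ((SW m).card : ℝ) ≤ H981.mu ^ m * Real.exp (K * Real.log m ^ 2) := h1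
      _ ≤ H981.mu ^ m * Real.exp (K * Real.log n ^ 2) := by gcongr
      _ ≤ 4 * (H981.mu ^ m * Real.exp (K * Real.log n ^ 2)) := by
          have : 0 ≤ H981.mu ^ m * Real.exp (K * Real.log n ^ 2) := by positivity
          linarith

lemma log_add_two {n : ℕ} (hn : 2 ≤ n) : Real.log ((n + 2 : ℕ) : ℝ) ≤ 2 * Real.log n := by
  have hn' : (2 : ℝ) ≤ n := by exact_mod_cast hn
  have h1 : ((n + 2 : ℕ) : ℝ) ≤ (n : ℝ) ^ 2 := by push_cast; nlinarith
  calc Real.log ((n + 2 : ℕ) : ℝ) ≤ Real.log ((n : ℝ) ^ 2) :=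
        Real.log_le_log (by positivity) h1
    _ = 2 * Real.log n := by rw [Real.log_pow]; norm_num

/-- words with few bumps in the window are negligible -/
theorem fewJ_small : ∃ A D : ℝ, 0 < A ∧ 0 < D ∧ ∀ a r n : ℕ, 2 ≤ n → A * Real.log n ^ 2 ≤ LJ a r n →
    ((fewJ a r (n + 2)).card : ℝ) ≤ D / LJ a r n * ((SW n).card : ℝ) := by
  obtain ⟨C, hC, h1⟩ := Few.few_card
  obtain ⟨K, hK, h2⟩ := card_SW_upper
  refine ⟨20000 * K + 1, 240000 * C, by positivity, by positivity,
    fun a r n hn hL => ?_⟩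
  have hn' : (2 : ℝ) ≤ n := by exact_mod_cast hn
  have hmu1 : 1 ≤ H981.mu := H981.one_le_mu
  have hmu0 : 0 < H981.mu := H981.mu_pos
  have hmu := Pool.Agent.H739K.BNDx.mu_ge
  have hlogn : 0 < Real.log (n : ℝ) := Real.log_pos (by linarith)
  have hLpos : 0 < LJ a r n := lt_of_lt_of_le (by positivity) hL
  have har : a + r ≤ n := by
    unfold LJ at hLpos
    have : (a : ℝ) + r < n := by linarith
    have : a + r < n := by exact_mod_cast this
    omega
  obtain ⟨l, hl⟩ : ∃ l : ℕ, l = n - a - r := ⟨_, rfl⟩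
  have hlL : (l : ℝ) = LJ a r n := by
    rw [hl]; unfold LJ
    rw [Nat.cast_sub (by omega), Nat.cast_sub (by omega)]
  have hl2 : n + 2 - a - r = l + 2 := by omega
  have hnal : n = a + l + r := by omega
  have g1 := fewJ_card (a := a) (r := r) (n := n + 2) (by omega)
  rw [hl2] at g1
  have g2 : ((fewJ a r (n + 2)).card : ℝ) ≤
      ((SW a).card : ℝ) * (((few (l + 2)).card : ℝ) * ((SW r).card : ℝ)) := by exact_mod_cast g1
  have ga := h2 a (n + 2) (by omega) (by omega)
  have gr := h2 r (n + 2) (by omega) (by omega)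
  have gf := h1 (l + 2)
  have gn : H981.mu ^ n ≤ ((SW n).card : ℝ) := by
    rw [Pool.Agent.H739K.SWR.card_eq_cr']; exact H981.mu_pow_le n
  set E := Real.exp (K * Real.log ((n + 2 : ℕ) : ℝ) ^ 2) with hE
  have hEp : 0 < E := Real.exp_pos _
  have hE1 : E ≤ Real.exp (4 * K * Real.log n ^ 2) := by
    rw [hE]
    apply Real.exp_le_exp.mpr
    have h3 := log_add_two hn
    have h4 : 0 ≤ Real.log ((n + 2 : ℕ) : ℝ) := Real.log_natCast_nonneg _
    have h5 : Real.log ((n + 2 : ℕ) : ℝ) ^ 2 ≤ (2 * Real.log n) ^ 2 := pow_le_pow_left₀ h4 h3 2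
    nlinarith
  -- (2.428)^l ≤ mu^l exp(-0.0008 l)
  have hq : (2.428 : ℝ) ^ l ≤ H981.mu ^ l * Real.exp (-(0.0008 * l)) := by
    have h3 : (2.428 : ℝ) ≤ H981.mu * Real.exp (-0.0008) := by
      have h4 := Real.add_one_le_exp (-0.0008 : ℝ)
      have h5 : (2.428 : ℝ) ≤ 2.43 * (-0.0008 + 1) := by norm_num
      have h6 : (0 : ℝ) ≤ -0.0008 + 1 := by norm_num
      calc (2.428 : ℝ) ≤ 2.43 * (-0.0008 + 1) := h5
        _ ≤ H981.mu * Real.exp (-0.0008) := by gcongr
    calc (2.428 : ℝ) ^ l ≤ (H981.mu * Real.exp (-0.0008)) ^ l :=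
          pow_le_pow_left₀ (by norm_num) h3 l
      _ = H981.mu ^ l * Real.exp (-(0.0008 * l)) := by
          rw [mul_pow, ← Real.exp_nat_mul]; ring_nf
  have hsmall : E * E * Real.exp (-(0.0008 * l)) ≤ 2500 / LJ a r n := by
    have h3 : E * E ≤ Real.exp (8 * K * Real.log n ^ 2) := by
      calc E * E ≤ Real.exp (4 * K * Real.log n ^ 2) * Real.exp (4 * K * Real.log n ^ 2) := by gcongr
        _ = _ := by rw [← Real.exp_add]; ring_nf
    have h4 : 8 * K * Real.log n ^ 2 ≤ 0.0004 * l := by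
      rw [hlL]
      have : 0 ≤ K * Real.log n ^ 2 := by positivity
      nlinarith
    have h5 : Real.exp (-(0.0004 * l)) ≤ 2500 / LJ a r n := by
      rw [← hlL] at hLpos ⊢
      rw [Real.exp_neg, ← one_div, div_le_div_iff₀ (Real.exp_pos _) hLpos, one_mul]
      have := Real.add_one_le_exp (0.0004 * (l : ℝ))
      linarith
    calc E * E * Real.exp (-(0.0008 * l))
        ≤ Real.exp (0.0004 * l) * Real.exp (-(0.0008 * l)) := by
          gcongr
          exact h3.trans (Real.exp_le_exp.mpr h4)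
      _ = Real.exp (-(0.0004 * l)) := by rw [← Real.exp_add]; ring_nf
      _ ≤ _ := h5
  have gf' : ((few (l + 2)).card : ℝ) ≤ 6 * C * (2.428 : ℝ) ^ l := by
    refine gf.trans ?_
    have h3 : (0 : ℝ) ≤ C * (2.428 : ℝ) ^ l := by positivity
    have h4 : C * (2.428 : ℝ) ^ (l + 2) = (C * (2.428 : ℝ) ^ l) * 2.428 ^ 2 := by
      rw [pow_add]; ring
    rw [h4]
    have h5 : (2.428 : ℝ) ^ 2 ≤ 6 := by norm_num
    nlinarith
  obtain ⟨Q, hQ⟩ : ∃ Q : ℝ, Q = (2.428 : ℝ) ^ l := ⟨_, rfl⟩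
  have hQ0 : 0 ≤ Q := by rw [hQ]; positivity
  rw [← hQ] at hq gf'
  obtain ⟨x, hx⟩ : ∃ x : ℝ, x = ((fewJ a r (n + 2)).card : ℝ) := ⟨_, rfl⟩
  obtain ⟨y, hy⟩ : ∃ y : ℝ, y = ((SW n).card : ℝ) := ⟨_, rfl⟩
  obtain ⟨xa, hxa⟩ : ∃ y : ℝ, y = ((SW a).card : ℝ) := ⟨_, rfl⟩
  obtain ⟨xr, hxr⟩ : ∃ y : ℝ, y = ((SW r).card : ℝ) := ⟨_, rfl⟩
  obtain ⟨xf, hxf⟩ : ∃ y : ℝ, y = ((few (l + 2)).card : ℝ) := ⟨_, rfl⟩
  have hy0 : 0 ≤ y := by rw [hy]; exact Nat.cast_nonneg _
  have hxa0 : 0 ≤ xa := by rw [hxa]; exact Nat.cast_nonneg _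
  have hxr0 : 0 ≤ xr := by rw [hxr]; exact Nat.cast_nonneg _
  have hxf0 : 0 ≤ xf := by rw [hxf]; exact Nat.cast_nonneg _
  obtain ⟨m, hm⟩ : ∃ m : ℝ, m = H981.mu := ⟨_, rfl⟩
  obtain ⟨X, hX⟩ : ∃ X : ℝ, X = Real.exp (-(0.0008 * l)) := ⟨_, rfl⟩
  obtain ⟨L, hLL⟩ : ∃ L : ℝ, L = LJ a r n := ⟨_, rfl⟩
  obtain ⟨E', hE'⟩ : ∃ E' : ℝ, E' = E := ⟨_, rfl⟩
  have hX0 : 0 < X := by rw [hX]; exact Real.exp_pos _
  rw [← hx, ← hxa, ← hxr, ← hxf] at g2
  rw [← hxa, ← hm, ← hE'] at ga
  rw [← hxr, ← hm, ← hE'] at gr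
  rw [← hxf] at gf'
  rw [← hy, ← hm] at gn
  rw [← hm, ← hX] at hq
  rw [← hE', ← hX, ← hLL] at hsmall
  rw [← hE'] at hEp
  rw [← hm] at hmu0
  rw [← hx, ← hy, ← hLL]
  rw [← hLL] at hLpos
  clear hE1 hE hx hy hxa hxr hxf hm hX hLL hE' hL
  calc x ≤ (4 * (m ^ a * E')) * ((6 * C * Q) * (4 * (m ^ r * E'))) := by
        refine g2.trans ?_
        gcongr
    _ = 96 * C * (m ^ a * m ^ r) * (E' * E') * Q := by
        ring
    _ ≤ 96 * C * (m ^ a * m ^ r) * (E' * E') * (m ^ l * X) := by gcongr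
    _ = 96 * C * m ^ n * (E' * E' * X) := by
        rw [hnal]; rw [pow_add, pow_add]; ring
    _ ≤ 96 * C * y * (2500 / L) := by gcongr
    _ = 240000 * C / L * y := by ring

end

end Pool.Agent.R956
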