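import Pool.Agent.R956.L2

/-!
# Moments of the ratio of a window
-/

set_option autoImplicit false
set_option linter.unusedVariables false

namespace Pool.Agent.R956

open Pool.Agent.H976R2 Finset
open Pool.Agent.H976R2.Dir
open scoped Classical

noncomputable section

variable {a r : ℕ}

lemma LJ_add (a r n : ℕ) : LJ a r (n + 2) = LJ a r n + 2 := by
  unfold LJ; push_cast; ring

lemma LJ_ins {w : List Dir} {i : ℕ} (e : Dir) (hi : i < w.length) :
    LJ a r (ins w i e).length = LJ a r w.length + 2 := by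
  rw [length_ins e hi, LJ_add]

lemma TJ_ge (w : List Dir) : LJ a r w.length / 2000 ≤ TJ a r w := le_max_right _ _
lemma BJ_le_TJ (w : List Dir) : (BJ a r w : ℝ) ≤ TJ a r w := le_max_left _ _

lemma TJ_pos {w : List Dir} (h : 1 ≤ LJ a r w.length) : 0 < TJ a r w := by
  have h1 := TJ_ge (a := a) (r := r) w
  linarith

lemma inv_TJ_le {w : List Dir} (h : 1 ≤ LJ a r w.length) :
    1 / TJ a r w ≤ 2000 / LJ a r w.length := by
  have h1 := TJ_ge (a := a) (r := r) w
  rw [div_le_div_iff₀ (TJ_pos h) (by linarith)]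
  linarith

lemma le_of_LJ {n : ℕ} (h : 1 ≤ LJ a r n) : a + r ≤ n := by
  unfold LJ at h
  have : (a : ℝ) + r ≤ n := by linarith
  exact_mod_cast this

lemma RJ_nonneg {w : List Dir} (h : 1 ≤ LJ a r w.length) : 0 ≤ RJ a r w := by
  unfold RJ
  have := TJ_pos h
  positivity

lemma RJ_le {w : List Dir} (h : 1 ≤ LJ a r w.length) : RJ a r w ≤ 4000 := by
  unfold RJ
  rw [div_le_iff₀ (TJ_pos h)]
  have h1 := AJ_le (a := a) (r := r) (w := w) (le_of_LJ h)
  have h2 := TJ_ge (a := a) (r := r) w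
  linarith

lemma TJ_ins {w : List Dir} {i : ℕ} (e : Dir) (ha : a ≤ i) (hr : i + r < w.length) :
    |TJ a r (ins w i e) - TJ a r w| ≤ 5 := by
  have hi : i < w.length := by omega
  unfold TJ
  rw [LJ_ins e hi]
  have h := BJ_ins (w := w) e ha hr
  have h' : |((BJ a r (ins w i e) : ℝ) - (BJ a r w : ℝ))| ≤ 5 := by exact_mod_cast h
  refine (abs_max_sub_max_le_max _ _ _ _).trans (max_le h' ?_)
  have : (LJ a r w.length + 2) / 2000 - LJ a r w.length / 2000 = 1 / 1000 := by ring
  rw [this]; norm_num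

lemma inv_TJ_ins {w : List Dir} (h : 1 ≤ LJ a r w.length) {i : ℕ} (e : Dir) (ha : a ≤ i)
    (hr : i + r < w.length) :
    |1 / TJ a r (ins w i e) - 1 / TJ a r w| ≤ 20000000 / (LJ a r w.length) ^ 2 := by
  have hi : i < w.length := by omega
  have hL := LJ_ins (a := a) (r := r) e hi
  have h' : 1 ≤ LJ a r (ins w i e).length := by rw [hL]; linarith
  have p1 := TJ_pos h
  have p2 := TJ_pos h'
  have e1 : 1 / TJ a r (ins w i e) - 1 / TJ a r w =
      (TJ a r w - TJ a r (ins w i e)) * (1 / TJ a r (ins w i e)) * (1 / TJ a r w) := by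
    field_simp
  rw [e1, abs_mul, abs_mul, abs_of_pos (show 0 < 1 / TJ a r (ins w i e) by positivity),
    abs_of_pos (show 0 < 1 / TJ a r w by positivity), abs_sub_comm]
  have h3 := TJ_ins (a := a) (r := r) (w := w) e ha hr
  have h4 := inv_TJ_le h
  have h5 : 1 / TJ a r (ins w i e) ≤ 2000 / LJ a r w.length := by
    refine (inv_TJ_le h').trans ?_
    rw [hL]
    gcongr
    linarith
  calc |TJ a r (ins w i e) - TJ a r w| * (1 / TJ a r (ins w i e)) * (1 / TJ a r w)
      ≤ 5 * (2000 / LJ a r w.length) * (2000 / LJ a r w.length) := by gcongr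
    _ = 20000000 / (LJ a r w.length) ^ 2 := by field_simp; norm_num

lemma RJ_ins {w : List Dir} (hL : 1 ≤ LJ a r w.length) (hw : Saw w) {i : ℕ} {e : Dir}
    (h : (i, e) ∈ admJ a r w) :
    |RJ a r (ins w i e) - RJ a r w| ≤ 50000000 / LJ a r w.length := by
  obtain ⟨h0, ha, hr⟩ := mem_admJ.mp h
  simp only at ha hr
  have hi : i < w.length := by omega
  have hL2 := LJ_ins (a := a) (r := r) e hi
  have hL' : 1 ≤ LJ a r (ins w i e).length := by rw [hL2]; linarith
  have p1 := TJ_pos hL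
  have p2 := TJ_pos hL'
  have e1 : RJ a r (ins w i e) - RJ a r w =
      ((AJ a r (ins w i e) : ℝ) - AJ a r w) * (1 / TJ a r (ins w i e)) +
      (AJ a r w : ℝ) * (1 / TJ a r (ins w i e) - 1 / TJ a r w) := by
    unfold RJ; ring
  have h3 : |((AJ a r (ins w i e) : ℝ) - AJ a r w)| ≤ 40 := by
    exact_mod_cast AJ_ins hw h0 ha hr
  have h4 := inv_TJ_ins hL e ha hr
  have h5 : 1 / TJ a r (ins w i e) ≤ 2000 / LJ a r w.length := by
    refine (inv_TJ_le hL').trans ?_
    rw [hL2]
    gcongr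
    linarith
  have h6 := AJ_le (a := a) (r := r) (w := w) (le_of_LJ hL)
  rw [e1]
  have hLp : 0 < LJ a r w.length := by linarith
  calc |((AJ a r (ins w i e) : ℝ) - AJ a r w) * (1 / TJ a r (ins w i e)) +
      (AJ a r w : ℝ) * (1 / TJ a r (ins w i e) - 1 / TJ a r w)|
      ≤ |((AJ a r (ins w i e) : ℝ) - AJ a r w)| * (1 / TJ a r (ins w i e)) +
        (AJ a r w : ℝ) * |1 / TJ a r (ins w i e) - 1 / TJ a r w| := by
        refine (abs_add_le _ _).trans ?_
        rw [abs_mul, abs_mul, abs_of_pos (show 0 < 1 / TJ a r (ins w i e) by positivity),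
          abs_of_nonneg (show (0 : ℝ) ≤ AJ a r w by positivity)]
    _ ≤ 40 * (2000 / LJ a r w.length) +
        2 * LJ a r w.length * (20000000 / (LJ a r w.length) ^ 2) := by
        gcongr
    _ ≤ 50000000 / LJ a r w.length := by
        rw [show 40 * (2000 / LJ a r w.length) +
          2 * LJ a r w.length * (20000000 / (LJ a r w.length) ^ 2)
          = 40080000 / LJ a r w.length by field_simp; norm_num]
        gcongr
        norm_num

/-- the transfer lemma for a window -/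
theorem transferJ (n : ℕ) (hn : 1 ≤ LJ a r n) (F F' Δ : List Dir → ℝ)
    (hΔ0 : ∀ w ∈ SW n, 0 ≤ Δ w)
    (hΔ : ∀ w ∈ SW n, ∀ p ∈ admJ a r w, |F' (ins w p.1 p.2) - F w| ≤ Δ w) :
    |∑ w' ∈ SW (n + 2), F' w' - ∑ w ∈ SW n, F w * RJ a r w| ≤
      ∑ w ∈ SW n, (4000 * Δ w + 50000000 / LJ a r n * |F w|) +
      ∑ w' ∈ fewJ a r (n + 2), |F' w'| := by
  have hLp : 0 < LJ a r n := by linarith
  -- the part with many bumps
  have e1 : ∑ w' ∈ SW (n + 2), F' w' * ((BJ a r w' : ℝ) / TJ a r w') =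
      ∑ w ∈ SW n, ∑ p ∈ admJ a r w, F' (ins w p.1 p.2) * (1 / TJ a r (ins w p.1 p.2)) := by
    rw [sum_insJ a r n (fun _ w' => F' w' * (1 / TJ a r w'))]
    refine Finset.sum_congr rfl (fun w' _ => ?_)
    rw [Finset.sum_const, nsmul_eq_mul]
    unfold BJ; ring
  have e2 : ∑ w ∈ SW n, F w * RJ a r w =
      ∑ w ∈ SW n, ∑ p ∈ admJ a r w, F w * (1 / TJ a r w) := by
    refine Finset.sum_congr rfl (fun w _ => ?_)
    rw [Finset.sum_const, nsmul_eq_mul]
    unfold RJ AJ; ring
  have h1 : |∑ w' ∈ SW (n + 2), F' w' * ((BJ a r w' : ℝ) / TJ a r w') -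
      ∑ w ∈ SW n, F w * RJ a r w| ≤
      ∑ w ∈ SW n, (4000 * Δ w + 50000000 / LJ a r n * |F w|) := by
    rw [e1, e2, ← Finset.sum_sub_distrib]
    refine (Finset.abs_sum_le_sum_abs _ _).trans (Finset.sum_le_sum (fun w hw => ?_))
    obtain ⟨hlen, hsaw⟩ := mem_SW.mp hw
    have hLw : 1 ≤ LJ a r w.length := by rw [hlen]; exact hn
    rw [← Finset.sum_sub_distrib]
    refine (Finset.abs_sum_le_sum_abs _ _).trans ?_
    have hD := hΔ0 w hw
    calc ∑ p ∈ admJ a r w, |F' (ins w p.1 p.2) * (1 / TJ a r (ins w p.1 p.2)) -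
          F w * (1 / TJ a r w)|
        ≤ ∑ p ∈ admJ a r w, (Δ w * (2000 / LJ a r n) +
            |F w| * (20000000 / (LJ a r n) ^ 2)) := by
          refine Finset.sum_le_sum (fun p hp => ?_)
          obtain ⟨i, e⟩ := p
          obtain ⟨h0, ha, hr⟩ := mem_admJ.mp hp
          simp only at ha hr
          have hi : i < w.length := by omega
          have hL2 := LJ_ins (a := a) (r := r) e hi
          have hl' : 1 ≤ LJ a r (ins w i e).length := by rw [hL2]; linarith
          have p2 := TJ_pos hl'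
          have h3 := hΔ w hw (i, e) hp
          have h4 := inv_TJ_ins hLw e ha hr
          have h5 : 1 / TJ a r (ins w i e) ≤ 2000 / LJ a r n := by
            refine (inv_TJ_le hl').trans ?_
            rw [hL2, hlen]
            gcongr
            linarith
          rw [hlen] at h4
          simp only at h3 ⊢
          have e3 : F' (ins w i e) * (1 / TJ a r (ins w i e)) - F w * (1 / TJ a r w) =
              (F' (ins w i e) - F w) * (1 / TJ a r (ins w i e)) +
              F w * (1 / TJ a r (ins w i e) - 1 / TJ a r w) := by ring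
          rw [e3]
          refine (abs_add_le _ _).trans ?_
          rw [abs_mul, abs_mul, abs_of_pos (show 0 < 1 / TJ a r (ins w i e) by positivity)]
          gcongr
      _ = (AJ a r w : ℝ) * (Δ w * (2000 / LJ a r n) +
            |F w| * (20000000 / (LJ a r n) ^ 2)) := by
          rw [Finset.sum_const, nsmul_eq_mul]; rfl
      _ ≤ (2 * LJ a r n) * (Δ w * (2000 / LJ a r n) +
            |F w| * (20000000 / (LJ a r n) ^ 2)) := by
          have h6 := AJ_le (a := a) (r := r) (w := w) (le_of_LJ hLw)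
          rw [hlen] at h6
          have : 0 ≤ Δ w * (2000 / LJ a r n) + |F w| * (20000000 / (LJ a r n) ^ 2) := by
            positivity
          exact mul_le_mul_of_nonneg_right h6 this
      _ = 4000 * Δ w + 40000000 / LJ a r n * |F w| := by field_simp; ring
      _ ≤ 4000 * Δ w + 50000000 / LJ a r n * |F w| := by gcongr; norm_num
  -- the part with few bumps
  have h2 : |∑ w' ∈ SW (n + 2), F' w' -
      ∑ w' ∈ SW (n + 2), F' w' * ((BJ a r w' : ℝ) / TJ a r w')| ≤
      ∑ w' ∈ fewJ a r (n + 2), |F' w'| := by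
    rw [← Finset.sum_sub_distrib]
    refine (Finset.abs_sum_le_sum_abs _ _).trans ?_
    unfold fewJ
    rw [Finset.sum_filter]
    refine Finset.sum_le_sum (fun w' hw' => ?_)
    obtain ⟨hlen, hsaw⟩ := mem_SW.mp hw'
    have hL' : 1 ≤ LJ a r w'.length := by rw [hlen, LJ_add]; linarith
    have p2 := TJ_pos hL'
    split_ifs with hc
    · have e3 : F' w' - F' w' * ((BJ a r w' : ℝ) / TJ a r w') =
          F' w' * (1 - (BJ a r w' : ℝ) / TJ a r w') := by ring
      rw [e3, abs_mul]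
      have h3 : (BJ a r w' : ℝ) / TJ a r w' ≤ 1 := by
        rw [div_le_one p2]; exact BJ_le_TJ w'
      have h4 : 0 ≤ (BJ a r w' : ℝ) / TJ a r w' := by positivity
      have h5 : |1 - (BJ a r w' : ℝ) / TJ a r w'| ≤ 1 := by rw [abs_le]; constructor <;> linarith
      calc |F' w'| * |1 - (BJ a r w' : ℝ) / TJ a r w'| ≤ |F' w'| * 1 := by gcongr
        _ = |F' w'| := mul_one _
    · push Not at hc
      have h3 : TJ a r w' = BJ a r w' := by
        unfold TJ; rw [hlen]; exact max_eq_left hc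
      rw [h3]
      have h4 : (0 : ℝ) < BJ a r w' := by rw [← h3]; exact p2
      rw [div_self h4.ne', mul_one, sub_self, abs_zero]
  calc |∑ w' ∈ SW (n + 2), F' w' - ∑ w ∈ SW n, F w * RJ a r w|
      ≤ |∑ w' ∈ SW (n + 2), F' w' - ∑ w' ∈ SW (n + 2), F' w' * ((BJ a r w' : ℝ) / TJ a r w')| +
        |∑ w' ∈ SW (n + 2), F' w' * ((BJ a r w' : ℝ) / TJ a r w') -
          ∑ w ∈ SW n, F w * RJ a r w| :=
        abs_sub_le _ _ _
    _ ≤ _ := by linarith

/-- mean square deviation of the ratio of the window -/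
def SJ (a r n : ℕ) : ℝ := EE n (fun w => (RJ a r w - rh n) ^ 2)

lemma SJ_nonneg (a r n : ℕ) : 0 ≤ SJ a r n := by
  unfold SJ EE
  exact div_nonneg (Finset.sum_nonneg (fun w _ => sq_nonneg _)) (SW_card_pos n).le

theorem momJ : ∃ A D : ℝ, 0 < A ∧ 0 < D ∧ ∀ a r n : ℕ, 2 ≤ n →
    A * Real.log n ^ 2 ≤ LJ a r n → 1 ≤ LJ a r n →
    |cN (n + 2) - ∑ w ∈ SW n, RJ a r w| ≤ D / LJ a r n * cN n ∧
    |∑ w ∈ SW (n + 2), RJ a r w - ∑ w ∈ SW n, RJ a r w ^ 2| ≤ D / LJ a r n * cN n := by
  obtain ⟨A, D, hA, hD, hfew⟩ := fewJ_small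
  refine ⟨A, 4000 * D + 8000 * 50000000, hA, by positivity, fun a r n hn hLA hL => ?_⟩
  have hLp : 0 < LJ a r n := by linarith
  have hc := cN_pos n
  have hf := hfew a r n hn hLA
  have hcard : ((SW n).card : ℝ) = cN n := rfl
  rw [hcard] at hf
  constructor
  · have h := transferJ (a := a) (r := r) n hL (fun _ => 1) (fun _ => 1) (fun _ => 0)
      (fun _ _ => le_rfl) (fun w hw p hp => by simp)
    simp only [one_mul] at h
    have e1 : ∑ w' ∈ SW (n + 2), (1 : ℝ) = cN (n + 2) := by simp [cN]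
    rw [e1] at h
    refine h.trans ?_
    have e2 : ∑ w ∈ SW n, (4000 * (0 : ℝ) + 50000000 / LJ a r n * |(1 : ℝ)|) =
        50000000 / LJ a r n * cN n := by
      simp [cN]; ring
    have e3 : ∑ w' ∈ fewJ a r (n + 2), |(1 : ℝ)| = ((fewJ a r (n + 2)).card : ℝ) := by simp
    rw [e2, e3]
    calc 50000000 / LJ a r n * cN n + ((fewJ a r (n + 2)).card : ℝ)
        ≤ 50000000 / LJ a r n * cN n + D / LJ a r n * cN n := by gcongr
      _ = (D + 50000000) / LJ a r n * cN n := by ring
      _ ≤ _ := by gcongr <;> linarith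
  · have h := transferJ (a := a) (r := r) n hL (fun w => RJ a r w) (fun w => RJ a r w)
      (fun w => 50000000 / LJ a r n) (fun w hw => by positivity) (by
      rintro w hw ⟨i, e⟩ hp
      have hlen := (mem_SW.mp hw).1
      have := RJ_ins (a := a) (r := r) (w := w) (by rw [hlen]; exact hL) (mem_SW.mp hw).2 hp
      rw [hlen] at this
      exact this)
    have e0 : ∑ w ∈ SW n, RJ a r w * RJ a r w = ∑ w ∈ SW n, RJ a r w ^ 2 :=
      Finset.sum_congr rfl (fun w _ => by ring)
    rw [e0] at h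
    refine h.trans ?_
    have h1 : ∑ w ∈ SW n, (4000 * (50000000 / LJ a r n) + 50000000 / LJ a r n * |RJ a r w|) ≤
        8000 * (50000000 / LJ a r n) * cN n := by
      have e3 : 8000 * (50000000 / LJ a r n) * cN n =
          ∑ w ∈ SW n, 8000 * (50000000 / LJ a r n) := by
        rw [Finset.sum_const, nsmul_eq_mul]; unfold cN; ring
      rw [e3]
      refine Finset.sum_le_sum (fun w hw => ?_)
      have hlen := (mem_SW.mp hw).1
      have hLw : 1 ≤ LJ a r w.length := by rw [hlen]; exact hL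
      rw [abs_of_nonneg (RJ_nonneg hLw)]
      have hR := RJ_le hLw
      calc 4000 * (50000000 / LJ a r n) + 50000000 / LJ a r n * RJ a r w
          ≤ 4000 * (50000000 / LJ a r n) + 50000000 / LJ a r n * 4000 := by gcongr
        _ = 8000 * (50000000 / LJ a r n) := by ring
    have h2 : ∑ w' ∈ fewJ a r (n + 2), |RJ a r w'| ≤ 4000 * (D / LJ a r n) * cN n := by
      calc ∑ w' ∈ fewJ a r (n + 2), |RJ a r w'| ≤ ∑ w' ∈ fewJ a r (n + 2), (4000 : ℝ) := by
            refine Finset.sum_le_sum (fun w' hw' => ?_)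
            have hw'' : w' ∈ SW (n + 2) := (Finset.mem_filter.mp hw').1
            have hLw : 1 ≤ LJ a r w'.length := by
              rw [(mem_SW.mp hw'').1, LJ_add]; linarith
            rw [abs_of_nonneg (RJ_nonneg hLw)]
            exact RJ_le hLw
        _ = 4000 * ((fewJ a r (n + 2)).card : ℝ) := by
            rw [Finset.sum_const, nsmul_eq_mul]; ring
        _ ≤ 4000 * (D / LJ a r n * cN n) := by gcongr
        _ = _ := by ring
    calc _ ≤ 8000 * (50000000 / LJ a r n) * cN n + 4000 * (D / LJ a r n) * cN n :=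
          add_le_add h1 h2
      _ = (4000 * D + 8000 * 50000000) / LJ a r n * cN n := by ring

theorem SJ_le : ∃ A D : ℝ, 0 < A ∧ 0 < D ∧ ∀ a r n : ℕ, 2 ≤ n →
    A * Real.log n ^ 2 ≤ LJ a r n → 1 ≤ LJ a r n →
    SJ a r n ≤ rh n * (rh (n + 2) - rh n) + D * (1 + rh n) / LJ a r n := by
  obtain ⟨A, D1, hA, hD1, h⟩ := momJ
  refine ⟨16 * A, 4 * D1, by positivity, by positivity, fun a r n hn hLA hL => ?_⟩
  have hLp : 0 < LJ a r n := by linarith
  have hlog : 0 ≤ Real.log (n : ℝ) ^ 2 := sq_nonneg _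
  obtain ⟨g1, g2⟩ := h a r n hn (by nlinarith) hL
  have hLA2 : A * Real.log ((n + 2 : ℕ) : ℝ) ^ 2 ≤ LJ a r (n + 2) := by
    have h3 := log_add_two hn
    have h4 : 0 ≤ Real.log ((n + 2 : ℕ) : ℝ) := Real.log_natCast_nonneg _
    have h5 : Real.log ((n + 2 : ℕ) : ℝ) ^ 2 ≤ (2 * Real.log n) ^ 2 := pow_le_pow_left₀ h4 h3 2
    rw [LJ_add]
    nlinarith
  obtain ⟨g3, -⟩ := h a r (n + 2) (by omega) hLA2 (by rw [LJ_add]; linarith)
  have hc := cN_pos n
  have hc2 := cN_pos (n + 2)
  have hr := rh_pos n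
  have e1 : cN (n + 2) = rh n * cN n := by unfold rh; field_simp
  have e2 : cN (n + 4) = rh n * rh (n + 2) * cN n := by
    unfold rh
    rw [show n + 2 + 2 = n + 4 by ring]
    field_simp
  have e3 : SJ a r n * cN n =
      ∑ w ∈ SW n, RJ a r w ^ 2 - 2 * rh n * ∑ w ∈ SW n, RJ a r w + rh n ^ 2 * cN n := by
    unfold SJ EE cN
    rw [div_mul_cancel₀ _ (SW_card_pos n).ne']
    have : ∀ w : List Dir, (RJ a r w - rh n) ^ 2 =
        RJ a r w ^ 2 - 2 * rh n * RJ a r w + rh n ^ 2 := fun w => by ring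
    simp only [this]
    rw [Finset.sum_add_distrib, Finset.sum_sub_distrib, ← Finset.mul_sum]
    simp
    ring
  rw [show n + 2 + 2 = n + 4 by ring] at g3
  have k1 := (abs_le.mp g1).2
  have k2 := (abs_le.mp g2).1
  have k3 := (abs_le.mp g3).1
  have k6 : D1 / LJ a r (n + 2) * cN (n + 2) ≤ D1 / LJ a r n * (rh n * cN n) := by
    rw [← e1]
    gcongr
    rw [LJ_add]; linarith
  have k5 : SJ a r n * cN n ≤
      (rh n * (rh (n + 2) - rh n) + 4 * D1 * (1 + rh n) / LJ a r n) * cN n := by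
    rw [e3]
    have a1 : ∑ w ∈ SW n, RJ a r w ^ 2 ≤ rh n * rh (n + 2) * cN n + D1 / LJ a r n * cN n +
        D1 / LJ a r n * (rh n * cN n) := by
      rw [← e2]; linarith
    have a2 : rh n * cN n - D1 / LJ a r n * cN n ≤ ∑ w ∈ SW n, RJ a r w := by
      rw [← e1]; linarith
    have a3 : 2 * rh n * (rh n * cN n - D1 / LJ a r n * cN n) ≤
        2 * rh n * ∑ w ∈ SW n, RJ a r w := by
      gcongr
    have a4 : (rh n * (rh (n + 2) - rh n) + 4 * D1 * (1 + rh n) / LJ a r n) * cN n =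
        rh n * rh (n + 2) * cN n - rh n ^ 2 * cN n + D1 / LJ a r n * cN n +
        D1 / LJ a r n * (rh n * cN n) + 2 * rh n * (D1 / LJ a r n) * cN n
        + (3 * D1 + D1 * rh n) / LJ a r n * cN n := by ring
    rw [a4]
    have a5 : 0 ≤ (3 * D1 + D1 * rh n) / LJ a r n * cN n := by positivity
    nlinarith
  exact le_of_mul_le_mul_right k5 hc

end

end Pool.Agent.R956
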