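import Pool.Agent.R956.K11
import Pool.Agent.R956.G2
import Pool.Agent.Y943.SL.Lat

/-!
# Weighted numbers of self-avoiding walks on `ℤ²`: the three sizes
-/

set_option autoImplicit false
set_option linter.unusedVariables false

namespace Pool.Agent.R956.M3

open Filter Topology
open Pool.Agent.Y943.SL (Wk)
open Pool.Agent.R956.M1

/-- weighted sequences with comparable means -/
theorem hw_of {c w u : ℕ → ℝ} {μ : ℝ} (C : Wk c μ) (hw : ∀ n, w n = u n * c n)
    (ge : ∀ n, 2 ≤ n → 1 ≤ u n) (le : ∃ B : ℝ, 0 < B ∧ ∀ n, 2 ≤ n → u n ≤ B * ((n : ℝ) + 5) ^ 3)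
    (one : ∃ B : ℝ, 0 < B ∧ ∀ᶠ n : ℕ in atTop, u (n + 1) ≤ B * u n ∧ u n ≤ B * u (n + 1))
    (kes : ∃ D : ℝ, 0 ≤ D ∧ ∀ᶠ n : ℕ in atTop,
      w (n + 2) ^ 2 ≤ w n * w (n + 4) + D / n * w n ^ 2) : Hw c w μ := by
  have hμ := C.hμ
  obtain ⟨B0, hpar⟩ := C.par
  obtain ⟨B, hB, hone⟩ := one
  obtain ⟨E, hE⟩ : ∃ E : ℝ, E = Real.exp B0 := ⟨_, rfl⟩
  have hE0 : 0 < E := by rw [hE]; exact Real.exp_pos _
  have hc : ∀ n, 1 ≤ n → c (n + 1) ≤ E * μ * c n ∧ μ * c n ≤ E * c (n + 1) := by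
    intro n hn
    have h1 := hpar n hn
    rw [abs_le] at h1
    have p0 := C.pos n
    have p1 := C.pos (n + 1)
    have q0 := pow_pos hμ n
    have q1 := pow_pos hμ (n + 1)
    constructor
    · have h2 : c (n + 1) / μ ^ (n + 1) ≤ E * (c n / μ ^ n) := by
        rw [← Real.log_le_log_iff p1 (by positivity), Real.log_mul hE0.ne' p0.ne', hE,
          Real.log_exp]
        linarith
      rw [div_le_iff₀ q1, pow_succ] at h2
      calc c (n + 1) ≤ E * (c n / μ ^ n) * (μ ^ n * μ) := h2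
        _ = _ := by field_simp
    · have h2 : c n / μ ^ n ≤ E * (c (n + 1) / μ ^ (n + 1)) := by
        rw [← Real.log_le_log_iff p0 (by positivity), Real.log_mul hE0.ne' p1.ne', hE,
          Real.log_exp]
        linarith
      rw [div_le_iff₀ q0, pow_succ] at h2
      calc μ * c n ≤ μ * (E * (c (n + 1) / (μ ^ n * μ)) * μ ^ n) := by gcongr
        _ = _ := by field_simp
  have hupos : ∀ n, 2 ≤ n → 0 < u n := fun n hn => by linarith [ge n hn]
  have two1 : ∀ᶠ n : ℕ in atTop, μ * w n ≤ E * B * w (n + 1) := by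
    filter_upwards [hone, eventually_ge_atTop 2] with n h1 hn
    have h2 := (hc n (by omega)).2
    have h3 := hupos n hn
    have h4 := hupos (n + 1) (by omega)
    have h5 := C.cpos (n + 1)
    have h6 := C.cpos n
    rw [hw, hw]
    calc μ * (u n * c n) = u n * (μ * c n) := by ring
      _ ≤ u n * (E * c (n + 1)) := by gcongr
      _ ≤ (B * u (n + 1)) * (E * c (n + 1)) := by gcongr; exact h1.2
      _ = _ := by ring
  have two : ∀ᶠ n : ℕ in atTop, (μ / (E * B)) ^ 2 * w n ≤ w (n + 2) := by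
    filter_upwards [two1, (tendsto_add_atTop_nat 1).eventually two1] with n h1 h2
    rw [show n + 1 + 1 = n + 2 by ring] at h2
    have hEB : 0 < E * B := by positivity
    have h3 : μ * (μ * w n) ≤ E * B * (E * B * w (n + 2)) :=
      calc μ * (μ * w n) ≤ μ * (E * B * w (n + 1)) := by gcongr
        _ = E * B * (μ * w (n + 1)) := by ring
        _ ≤ E * B * (E * B * w (n + 2)) := by gcongr
    rw [div_pow, div_mul_eq_mul_div, div_le_iff₀ (by positivity)]
    linarith
  refine ⟨fun n hn => ?_, ?_, ?_, ?_, ⟨_, by positivity, two⟩⟩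
  · rw [hw]
    exact le_mul_of_one_le_left (C.cpos n).le (ge n hn)
  · obtain ⟨A, hA, h⟩ := le
    refine ⟨A, hA, fun n hn => ?_⟩
    rw [hw]
    exact mul_le_mul_of_nonneg_right (h n hn) (C.cpos n).le
  · obtain ⟨D, hD, h⟩ := kes
    obtain ⟨b, hb⟩ : ∃ b : ℝ, b = (μ / (E * B)) ^ 2 := ⟨_, rfl⟩
    have hb0 : 0 < b := by rw [hb]; positivity
    rw [← hb] at two
    refine ⟨D / b ^ 2, by positivity, ?_⟩
    filter_upwards [h, two, (tendsto_add_atTop_nat 2).eventually two, eventually_ge_atTop 2]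
      with n h1 h2 h3 hn
    rw [show n + 2 + 2 = n + 4 by ring] at h3
    have hn0 : (0 : ℝ) < n := by exact_mod_cast (show 0 < n by omega)
    have hw0 : 0 < w n := by
      rw [hw]
      exact mul_pos (hupos n hn) (C.cpos n)
    have h4 : b ^ 2 * w n ≤ w (n + 4) := by
      calc b ^ 2 * w n = b * (b * w n) := by ring
        _ ≤ b * w (n + 2) := by gcongr
        _ ≤ _ := h3
    refine h1.trans ?_
    have h5 : D / n * w n ^ 2 ≤ w n * w (n + 4) * (D / b ^ 2 / n) := by
      have h6 : D / n * w n ^ 2 = w n * (b ^ 2 * w n) * (D / b ^ 2 / n) := by field_simp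
      rw [h6]
      gcongr
    linarith
  · refine ⟨B * (E * μ), by positivity, ?_⟩
    filter_upwards [hone, eventually_ge_atTop 2] with n h1 hn
    have h2 := (hc n (by omega)).1
    have h3 := hupos n hn
    have h4 := hupos (n + 1) (by omega)
    have h5 := C.cpos (n + 1)
    have h6 := C.cpos n
    rw [hw, hw]
    calc u (n + 1) * c (n + 1) ≤ (B * u n) * (E * μ * c n) := by
          gcongr
          exact h1.1
      _ = _ := by ring

open Pool.Agent.H976R2 (SW mem_SW SW_card_pos cN EE ncard_saw mom)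
open Pool.Agent.H739K (NiceW)
open Pool.Agent.R956.D2 Pool.Agent.R956
open Pool.Agent.Results.MP_eab347_pr.SizeRatioLogTwo (Size wt)
open Pool.Agent.R956.G2 (U)

lemma ncard_eq (n : ℕ) : ((Set.ncard {f : Fin (n + 1) → ℤ × ℤ |
    f 0 = 0 ∧ Function.Injective f ∧
    ∀ i : Fin n, (fun p q : ℤ × ℤ => |p.1 - q.1| + |p.2 - q.2| = 1) (f i.castSucc)
      (f i.succ)} : ℕ) : ℝ) = cN n := by
  have h : {f : Fin (n + 1) → ℤ × ℤ | f 0 = 0 ∧ Function.Injective f ∧
      ∀ i : Fin n, (fun p q : ℤ × ℤ => |p.1 - q.1| + |p.2 - q.2| = 1) (f i.castSucc)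
        (f i.succ)} = {ω | Pool.Agent.H976R2.IsSAW n ω} := by
    ext f
    constructor
    · rintro ⟨h0, hi, hs⟩
      refine ⟨h0, fun i => ?_, hi⟩
      have := hs i
      simp only at this
      rw [abs_sub_comm, abs_sub_comm (f i.succ).2]
      exact this
    · rintro ⟨h0, hs, hi⟩
      refine ⟨h0, hi, fun i => ?_⟩
      have := hs i
      rw [abs_sub_comm, abs_sub_comm (f i.succ).2] at this
      exact this
  rw [h, ncard_saw]
  rfl

theorem wk2 : Wk cN H981.mu := by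
  obtain ⟨h1, h2⟩ := Pool.Agent.Y943.SL.wk_sq _ (fun n => rfl) _ rfl
  simp only [ncard_eq] at h1 h2
  have h3 := tendsto_nhds_unique h2 root_tendsto
  rwa [h3] at h1

lemma nice (X : Size) (m : ℕ) (hm : 2 ≤ m) : NiceW 128 m (wt X) := by
  cases X with
  | endToEnd => exact Pool.Agent.TH508.LT.WD.nice_sq m hm
  | gyration => exact Pool.Agent.TH508.LT.WD.nice_fg m hm
  | monomer => exact Pool.Agent.TH508.LT.WD.nice_fm m hm

lemma mom_eq (X : Size) (n : ℕ) : mom (wt X) n = U X n * cN n := by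
  have hc := SW_card_pos n
  unfold U EE mom cN
  rw [div_mul_cancel₀ _ hc.ne']

theorem hw (X : Size) : Hw cN (mom (wt X)) H981.mu := by
  have hmu := mu_ge'
  refine hw_of wk2 (mom_eq X) (fun n hn => ?_) ⟨100, by norm_num, fun n hn => ?_⟩
    ⟨9 / H981.mu ^ 2 + 1, by positivity, G2.U_one X one_pos⟩ ?_
  · unfold U EE
    rw [one_le_div (SW_card_pos n), show ((SW n).card : ℝ) = ∑ w ∈ SW n, (1 : ℝ) by simp]
    refine Finset.sum_le_sum fun w hw => ?_
    obtain ⟨hl, hs⟩ := mem_SW.mp hw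
    exact (nice X n hn).one_le w (by omega) (by omega) hs
  · unfold U EE
    rw [div_le_iff₀ (SW_card_pos n),
      show 100 * ((n : ℝ) + 5) ^ 3 * ((SW n).card : ℝ) = ∑ w ∈ SW n, 100 * ((n : ℝ) + 5) ^ 3 by
      rw [Finset.sum_const, nsmul_eq_mul]; ring]
    refine Finset.sum_le_sum fun w hw => ?_
    obtain ⟨hl, hs⟩ := mem_SW.mp hw
    exact (nice X n hn).le w (by omega) (by omega) hs
  · obtain ⟨D, hD, h⟩ := Pool.Agent.H739K.SWR.ratio 128 (by norm_num)
    refine ⟨D, hD, ?_⟩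
    filter_upwards [eventually_ge_atTop 2] with n hn
    exact h n _ hn (nice X n hn)

theorem wkX (X : Size) : Wk (fx cN (mom (wt X))) H981.mu := wk_fx wk2 (hw X)

theorem U_eq (X : Size) : ∀ᶠ n : ℕ in atTop, U X n = fx cN (mom (wt X)) n / cN n := by
  filter_upwards [fx_ev cN (mom (wt X))] with n hn
  have hc : cN n ≠ 0 := (SW_card_pos n).ne'
  rw [hn, mom_eq, mul_div_cancel_right₀ _ hc]

end Pool.Agent.R956.M3
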