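import Pool.Agent.R956.L4

/-!
# Comparison of walks with `n` and `n + 1` steps
-/

set_option autoImplicit false
set_option linter.unusedVariables false

namespace Pool.Agent.R956

open Pool.Agent.H976R2 Finset
open Pool.Agent.H976R2.Dir
open Pool.Agent.Y981.SW (r3 r3_nonneg r3_le_one r3_tendsto rate_rh log_window eps_sum mu_pos')
open scoped Classical

noncomputable section

/-- the functional is a function of the first `a` letters -/
def Init (a : ℕ) (G : List Dir → ℝ) : Prop := ∀ w : List Dir, G w = G (w.take a)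

lemma Init.blind {a : ℕ} {G : List Dir → ℝ} (h : Init a G) : Blind a 0 G := by
  intro w i e ha hr
  rw [h, h w]
  congr 1
  unfold ins
  rw [List.take_append_of_le_length (by rw [List.length_take]; omega),
    List.take_take, min_eq_left ha]

lemma last_opp {u : List Dir} {d : Dir} (h : Saw (u ++ [d] ++ [opp d])) : False := by
  apply h u ([d] ++ [opp d]) [] (by rw [List.append_nil, List.append_assoc])
    (List.cons_ne_nil _ _)
  constructor
  · cases d <;> simp [wX, opp, dx]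
  · cases d <;> simp [wY, opp, dy]

/-- at most three extensions by one step -/
lemma ext_card {u : List Dir} (hu : u ≠ []) :
    ((univ : Finset Dir).filter (fun d => Saw (u ++ [d]))).card ≤ 3 := by
  obtain ⟨v, d, rfl⟩ : ∃ v d, u = v ++ [d] := ⟨u.dropLast, u.getLast hu,
    (List.dropLast_append_getLast hu).symm⟩
  have h1 : (univ : Finset Dir).filter (fun e => Saw (v ++ [d] ++ [e])) ⊆ univ.erase (opp d) := by
    intro e he
    rw [mem_erase]
    refine ⟨fun h => ?_, mem_univ _⟩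
    rw [h] at he
    exact last_opp (mem_filter.mp he).2
  refine (card_le_card h1).trans ?_
  rw [card_erase_of_mem (mem_univ _)]
  have h4 : (univ : Finset Dir).card = 4 := rfl
  omega

theorem sum_ext {n a : ℕ} (hn : 1 ≤ n) (ha : a ≤ n) {G : List Dir → ℝ} (h0 : ∀ w, 0 ≤ G w)
    (hG : Init a G) : ∑ w ∈ SW (n + 1), G w ≤ 3 * ∑ w ∈ SW n, G w := by
  have h1 : ∑ w ∈ SW (n + 1), G w ≤
      ∑ u ∈ SW n, ∑ d ∈ (univ : Finset Dir).filter (fun d => Saw (u ++ [d])), G u := by
    rw [Finset.sum_sigma']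
    have h2 : ∑ w ∈ SW (n + 1), G w =
        ∑ x ∈ (SW (n + 1)).image (fun w => (⟨w.take n, lt w n⟩ : (_ : List Dir) × Dir)), G x.1 := by
      rw [Finset.sum_image]
      · refine Finset.sum_congr rfl (fun w hw => ?_)
        simp only
        rw [hG, hG (w.take n), List.take_take, min_eq_left ha]
      · intro w hw w' hw' h
        rw [mem_coe] at hw hw'
        have l1 := (mem_SW.mp hw).1
        have l2 := (mem_SW.mp hw').1
        simp only [Sigma.mk.injEq, heq_eq_eq] at h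
        have e : ∀ v : List Dir, v.length = n + 1 → v = v.take n ++ [lt v n] := by
          intro v hv
          have h3 : v.take (n + 1) = v.take n ++ [lt v n] := by
            rw [List.take_succ_eq_append_getElem (by omega), lt_eq (by omega)]
          rw [← h3, List.take_of_length_le (by omega)]
        rw [e w l1, e w' l2, h.1, h.2]
    rw [h2]
    refine Finset.sum_le_sum_of_subset_of_nonneg ?_ (fun _ _ _ => h0 _)
    intro x hx
    rw [mem_image] at hx
    obtain ⟨w, hw, rfl⟩ := hx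
    obtain ⟨hl, hs⟩ := mem_SW.mp hw
    have h3 : w = w.take n ++ [lt w n] := by
      have h3 : w.take (n + 1) = w.take n ++ [lt w n] := by
        rw [List.take_succ_eq_append_getElem (by omega), lt_eq (by omega)]
      rw [← h3, List.take_of_length_le (by omega)]
    rw [h3] at hs
    rw [mem_sigma, mem_filter]
    refine ⟨mem_SW.mpr ⟨?_, hs.left⟩, mem_univ _, hs⟩
    rw [List.length_take]; omega
  refine h1.trans ?_
  rw [Finset.mul_sum]
  refine Finset.sum_le_sum (fun u hu => ?_)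
  rw [Finset.sum_const, nsmul_eq_mul]
  have hu1 : u ≠ [] := by
    intro h
    have := (mem_SW.mp hu).1
    rw [h] at this
    simp at this
    omega
  have h3 : ((((univ : Finset Dir).filter (fun d => Saw (u ++ [d]))).card : ℕ) : ℝ) ≤ 3 := by
    exact_mod_cast ext_card hu1
  exact mul_le_mul_of_nonneg_right h3 (h0 u)

/-- the law of the initial part of the `(n+1)`-step walk has a bounded density -/
theorem EE_ext {n a : ℕ} (hn : 1 ≤ n) (ha : a ≤ n) {G : List Dir → ℝ} (h0 : ∀ w, 0 ≤ G w)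
    (hG : Init a G) : EE (n + 1) G ≤ 3 * cN n / cN (n + 1) * EE n G := by
  have h := sum_ext hn ha h0 hG
  have c1 := cN_pos n
  have c2 := cN_pos (n + 1)
  unfold EE
  have e1 : ((SW (n + 1)).card : ℝ) = cN (n + 1) := rfl
  have e2 : ((SW n).card : ℝ) = cN n := rfl
  rw [e1, e2, div_le_iff₀ c2]
  calc ∑ w ∈ SW (n + 1), G w ≤ 3 * ∑ w ∈ SW n, G w := h
    _ = _ := by field_simp

/-- elementary inequality -/
lemma alg {A B t x y : ℝ} (hA : 1 ≤ A) (hB : 1 ≤ B) (ht : t ^ 2 = A * B) (ht0 : 0 ≤ t)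
    (hx : x ≤ 1) (hy : 0 ≤ y)
    (h1 : x ≤ B * y) (h2 : 1 - y ≤ A * (1 - x)) : x - y ≤ (t - 1) / (t + 1) := by
  have ht1 : 1 ≤ t := by nlinarith
  rw [le_div_iff₀ (by linarith)]
  obtain ⟨D, hD⟩ : ∃ D, D = x - y := ⟨_, rfl⟩
  rw [← hD]
  have hyx : y = x - D := by linarith
  subst hyx
  have k1 : B * D ≤ (B - 1) * x := by linarith
  have k2 : D ≤ (A - 1) * (1 - x) := by linarith
  have k3 : D * (A * B - 1) ≤ (A - 1) * (B - 1) := by
    have m1 := mul_le_mul_of_nonneg_left k1 (show 0 ≤ A - 1 by linarith)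
    have m2 := mul_le_mul_of_nonneg_left k2 (show 0 ≤ B - 1 by linarith)
    nlinarith
  have k4 : 2 * t ≤ A + B := by
    nlinarith [sq_nonneg (A - B), sq_nonneg (A + B - 2 * t)]
  have k5 : D * (t ^ 2 - 1) ≤ (t - 1) ^ 2 := by
    rw [ht]
    nlinarith
  rcases eq_or_lt_of_le ht1 with h | h
  · have hAB : A * B = 1 := by rw [← ht, ← h]; norm_num
    have hA1 : A = 1 := by nlinarith
    rw [hA1] at k2
    rw [← h]
    nlinarith
  · have h' : 0 < t - 1 := by linarith
    have : (t - 1) * (D * (t + 1)) ≤ (t - 1) * (t - 1) := by nlinarith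
    exact le_of_mul_le_mul_left this h'

lemma cN_succ_le {n : ℕ} (hn : 1 ≤ n) : cN (n + 1) ≤ 3 * cN n := by
  have h := sum_ext (a := 0) hn (Nat.zero_le _) (G := fun _ => 1) (fun _ => zero_le_one)
    (fun _ => rfl)
  simpa [cN] using h

/-- the square root of `9 c_n / c_{n+2}` -/
def tt (n : ℕ) : ℝ := 3 / Real.sqrt (rh n)

/-- the bound for one step -/
def dl (t : ℝ) : ℝ := (t - 1) / (t + 1)

lemma dl_lip {s t : ℝ} (hs : 0 ≤ s) (ht : 0 ≤ t) : dl t ≤ dl s + 2 * |t - s| := by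
  unfold dl
  have e : (t - 1) / (t + 1) - (s - 1) / (s + 1) = 2 * (t - s) * (1 / ((t + 1) * (s + 1))) := by
    field_simp; ring
  have h1 : 1 / ((t + 1) * (s + 1)) ≤ 1 := by
    rw [div_le_one (by positivity)]; nlinarith
  have h2 : 0 ≤ 1 / ((t + 1) * (s + 1)) := by positivity
  have h3 : 2 * (t - s) * (1 / ((t + 1) * (s + 1))) ≤ 2 * |t - s| := by
    have h4 : t - s ≤ |t - s| := le_abs_self _
    have h5 := abs_nonneg (t - s)
    calc 2 * (t - s) * (1 / ((t + 1) * (s + 1))) ≤ 2 * |t - s| * (1 / ((t + 1) * (s + 1))) := by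
          gcongr
      _ ≤ 2 * |t - s| * 1 := by gcongr
      _ = _ := mul_one _
  linarith

/-- the comparison for given errors -/
theorem compare {n a : ℕ} (hn : 1 ≤ n) (ha : a ≤ n) {G : List Dir → ℝ}
    (h0 : ∀ w, 0 ≤ G w) (h1 : ∀ w, G w ≤ 1) (hG : Init a G) {ε : ℝ}
    (hε : |EE (n + 2) G - EE n G| ≤ ε) : |EE (n + 1) G - EE n G| ≤ dl (tt n) + ε := by
  have c0 := cN_pos n
  have c1 := cN_pos (n + 1)
  have c2 := cN_pos (n + 2)
  have hG' : Init a (fun w => 1 - G w) := fun w => by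
    show 1 - G w = 1 - G (w.take a)
    rw [hG w]
  have hE : ∀ m, EE m (fun w => 1 - G w) = 1 - EE m G := by
    intro m
    unfold EE
    have := SW_card_pos m
    rw [Finset.sum_sub_distrib]
    simp only [Finset.sum_const, nsmul_eq_mul, mul_one]
    field_simp
  have hE0 : ∀ m, 0 ≤ EE m G := fun m => by
    unfold EE
    exact div_nonneg (Finset.sum_nonneg fun w _ => h0 w) (SW_card_pos m).le
  have hE1 : ∀ m, EE m G ≤ 1 := fun m => by
    have h2 : 0 ≤ EE m (fun w => 1 - G w) := by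
      unfold EE
      exact div_nonneg (Finset.sum_nonneg fun w _ => by have := h1 w; linarith)
        (SW_card_pos m).le
    rw [hE] at h2
    linarith
  obtain ⟨A, hA⟩ : ∃ A, A = 3 * cN n / cN (n + 1) := ⟨_, rfl⟩
  obtain ⟨B, hB⟩ : ∃ B, B = 3 * cN (n + 1) / cN (n + 2) := ⟨_, rfl⟩
  have g1 := EE_ext hn ha h0 hG
  have g2 := EE_ext hn ha (G := fun w => 1 - G w) (fun w => by have := h1 w; linarith) hG'
  have g3 := EE_ext (n := n + 1) (by omega) (by omega) h0 hG
  have g4 := EE_ext (n := n + 1) (by omega) (by omega) (G := fun w => 1 - G w)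
    (fun w => by have := h1 w; linarith) hG'
  rw [hE, hE] at g2 g4
  rw [← hA] at g1 g2
  rw [show n + 1 + 1 = n + 2 by ring, ← hB] at g3 g4
  have hA1 : 1 ≤ A := by
    rw [hA, le_div_iff₀ c1, one_mul]; exact cN_succ_le hn
  have hB1 : 1 ≤ B := by
    rw [hB, le_div_iff₀ c2, one_mul]; exact cN_succ_le (n := n + 1) (by omega)
  have hr := rh_pos n
  have ht : tt n ^ 2 = A * B := by
    unfold tt
    rw [div_pow, Real.sq_sqrt hr.le, hA, hB]
    unfold rh
    field_simp
  have ht0 : 0 ≤ tt n := by unfold tt; positivity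
  obtain ⟨x, hx⟩ : ∃ x, x = EE n G := ⟨_, rfl⟩
  obtain ⟨y, hy⟩ : ∃ y, y = EE (n + 1) G := ⟨_, rfl⟩
  obtain ⟨z, hz⟩ : ∃ z, z = EE (n + 2) G := ⟨_, rfl⟩
  have hx0 := hE0 n
  have hx1 := hE1 n
  have hy0 := hE0 (n + 1)
  have hy1 := hE1 (n + 1)
  rw [← hx, ← hz] at hε
  rw [← hx] at hx0 hx1
  rw [← hy] at hy0 hy1
  rw [← hx, ← hy] at g1 g2 ⊢
  rw [← hy, ← hz] at g3 g4
  obtain ⟨e1, e2⟩ := abs_le.mp hε
  have hε0 : 0 ≤ ε := (abs_nonneg _).trans hε
  unfold dl
  rw [abs_le]
  constructor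
  · -- `x - ε - y ≤ δ`
    have := alg (x := x - ε) (y := y) hA1 hB1 ht ht0 (by linarith) hy0 (by linarith) (by
      have : A * (1 - x) ≤ A * (1 - (x - ε)) := by gcongr; linarith
      linarith)
    linarith
  · have := alg (A := B) (B := A) (x := y) (y := x + ε) hB1 hA1 (by rw [ht]; ring) ht0
      (by linarith) (by linarith) (by
      have : A * x ≤ A * (x + ε) := by gcongr; linarith
      linarith) (by linarith)
    linarith

lemma rh_le_nine {n : ℕ} (hn : 1 ≤ n) : rh n ≤ 9 := by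
  have h1 := cN_succ_le hn
  have h2 := cN_succ_le (n := n + 1) (by omega)
  unfold rh
  rw [div_le_iff₀ (cN_pos n)]
  rw [show n + 1 + 1 = n + 2 by ring] at h2
  linarith

lemma mu_le_three : H981.mu ≤ 3 := by
  obtain ⟨C2, hC2, hr⟩ := rate_rh
  have hmu0 : 0 < H981.mu := mu_pos'
  have h1 : (1 : ℝ) ≤ 9 / H981.mu ^ 2 := by
    have hlim : Filter.Tendsto (fun n : ℕ => 1 - C2 * r3 n) Filter.atTop (nhds (1 - C2 * 0)) :=
      tendsto_const_nhds.sub (r3_tendsto.const_mul C2)
    rw [mul_zero, sub_zero] at hlim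
    refine le_of_tendsto hlim ?_
    filter_upwards [Filter.eventually_ge_atTop 3] with n hn
    have h2 := (abs_le.mp (hr n hn)).1
    have h3 : rh n / H981.mu ^ 2 ≤ 9 / H981.mu ^ 2 := by
      gcongr
      exact rh_le_nine (by omega)
    linarith
  rw [le_div_iff₀ (by positivity)] at h1
  nlinarith

lemma r3_le_one' (n : ℕ) : r3 n ≤ 1 := by
  unfold r3
  rw [Real.sqrt_le_one]
  rcases Nat.eq_zero_or_pos n with h | h
  · subst h; simp
  have hn : (0 : ℝ) < n := by exact_mod_cast h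
  rw [div_le_one hn]
  obtain ⟨y, hy⟩ : ∃ y, y = Real.sqrt (Real.sqrt n) := ⟨_, rfl⟩
  have hy0 : 0 < y := by rw [hy]; positivity
  have hy2 : y ^ 2 = Real.sqrt n := by rw [hy]; exact Real.sq_sqrt (by positivity)
  have hy4 : y ^ 4 = n := by
    have : y ^ 4 = (y ^ 2) ^ 2 := by ring
    rw [this, hy2]; exact Real.sq_sqrt hn.le
  have h1 : Real.log n = 4 * Real.log y := by
    rw [← hy4, Real.log_pow]; norm_num
  have h2 : Real.log y ≤ y - 1 := Real.log_le_sub_one_of_pos hy0
  have h3 : Real.log n ≤ y ^ 2 := by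
    rw [h1]; nlinarith [sq_nonneg (y - 2)]
  have h4 : 0 ≤ Real.log (n : ℝ) := Real.log_natCast_nonneg n
  calc Real.log n ^ 2 ≤ (y ^ 2) ^ 2 := pow_le_pow_left₀ h4 h3 2
    _ = n := by rw [← hy4]; ring

lemma mu_ge' : (2.43 : ℝ) ≤ H981.mu := Pool.Agent.H739K.BNDx.mu_ge

lemma rh_tendsto : Filter.Tendsto rh Filter.atTop (nhds (H981.mu ^ 2)) := by
  obtain ⟨C2, hC2, hr⟩ := rate_rh
  have hmu0 : 0 < H981.mu := mu_pos'
  have h1 : Filter.Tendsto (fun n => rh n / H981.mu ^ 2 - 1) Filter.atTop (nhds 0) := by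
    have hlim : Filter.Tendsto (fun n : ℕ => C2 * r3 n) Filter.atTop (nhds 0) := by
      have := r3_tendsto.const_mul C2
      simpa using this
    refine squeeze_zero_norm' ?_ hlim
    filter_upwards [Filter.eventually_ge_atTop 3] with n hn
    rw [Real.norm_eq_abs]
    exact hr n hn
  have h2 := (h1.add_const 1).mul_const (H981.mu ^ 2)
  rw [zero_add, one_mul] at h2
  refine h2.congr fun n => ?_
  field_simp
  ring

lemma root_tendsto : Filter.Tendsto (fun n : ℕ => cN n ^ (1 / (n : ℝ))) Filter.atTop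
    (nhds H981.mu) := by
  refine H981.tendsto_root.congr fun n => ?_
  unfold cN
  rw [Pool.Agent.H739K.SWR.card_eq_cr']

/-- lower comparison -/
theorem lower : ∃ C : ℝ, 0 < C ∧ ∀ n a : ℕ, 2 ≤ n → C * Real.log n ^ 2 ≤ (n : ℝ) - a →
    ∀ G : List Dir → ℝ, (∀ w, 0 ≤ G w) → (∀ w, G w ≤ 1) → Init a G →
    EE n G ≤ 3 * cN (n + 1) / cN (n + 2) * EE (n + 1) G +
      C * (Real.sqrt (r3 n) + 1 / Real.sqrt ((n : ℝ) - a)) := by
  obtain ⟨C1, hC1, hJ⟩ := all_J
  refine ⟨C1, hC1, fun n a hn hL G h0 h1 hG => ?_⟩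
  have hlog : 0 ≤ Real.log (n : ℝ) ^ 2 := sq_nonneg _
  have ha : a ≤ n := by
    have h2 : 0 ≤ C1 * Real.log n ^ 2 := by positivity
    have : (a : ℝ) ≤ n := by linarith
    exact_mod_cast this
  have h2 := hJ n 1 a 0 hn le_rfl (by
    unfold LJ
    push_cast
    linarith) G (fun w => by rw [abs_le]; constructor <;> linarith [h0 w, h1 w]) hG.blind
  rw [mul_one, Nat.cast_one, one_mul] at h2
  have eL : LJ a 0 n = (n : ℝ) - a := by unfold LJ; push_cast; ring
  rw [eL] at h2
  have h3 := EE_ext (n := n + 1) (by omega) (by omega) h0 hG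
  rw [show n + 1 + 1 = n + 2 by ring] at h3
  have h4 := (abs_le.mp h2).1
  linarith

/-- **comparison of the walks with `n` and `n + 1` steps** -/
theorem parity : ∃ C : ℝ, 0 < C ∧ ∀ n a : ℕ, 2 ≤ n → C * Real.log n ^ 2 ≤ (n : ℝ) - a →
    ∀ G : List Dir → ℝ, (∀ w, 0 ≤ G w) → (∀ w, G w ≤ 1) → Init a G →
    |EE (n + 1) G - EE n G| ≤ (3 - H981.mu) / (3 + H981.mu) +
      C * (Real.sqrt (r3 n) + 1 / Real.sqrt ((n : ℝ) - a)) := by
  obtain ⟨C1, hC1, hJ⟩ := all_J
  obtain ⟨C2, hC2, hr⟩ := rate_rh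
  have hmu0 : 0 < H981.mu := mu_pos'
  have hmu1 : 1 ≤ H981.mu := H981.one_le_mu
  have hmu3 : 0 ≤ dl (3 / H981.mu) := by
    -- `μ ≤ 3`
    have h1 : H981.mu ≤ 3 := mu_le_three
    unfold dl
    have : 1 ≤ 3 / H981.mu := by rw [le_div_iff₀ hmu0]; linarith
    apply div_nonneg <;> linarith
  have hdl : dl (3 / H981.mu) = (3 - H981.mu) / (3 + H981.mu) := by
    unfold dl; field_simp
  refine ⟨C1 + 12 * C2 + 10, by positivity, fun n a hn hL G h0 h1 hG => ?_⟩
  have hn' : (2 : ℝ) ≤ n := by exact_mod_cast hn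
  have hlog : 0 ≤ Real.log (n : ℝ) ^ 2 := sq_nonneg _
  have ha : a ≤ n := by
    have h2 : 0 ≤ (C1 + 12 * C2 + 10) * Real.log n ^ 2 := by positivity
    have : (a : ℝ) ≤ n := by linarith
    exact_mod_cast this
  have h2 := hJ n 1 a 0 hn le_rfl (by
    unfold LJ
    push_cast
    nlinarith) G (fun w => by rw [abs_le]; constructor <;> linarith [h0 w, h1 w]) hG.blind
  rw [mul_one, Nat.cast_one, one_mul] at h2
  have eL : LJ a 0 n = (n : ℝ) - a := by unfold LJ; push_cast; ring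
  rw [eL] at h2
  have h3 := compare (by omega) ha h0 h1 hG h2
  have hr0 := r3_nonneg n
  have hs0 := Real.sqrt_nonneg (r3 n)
  have hq0 : 0 ≤ 1 / Real.sqrt ((n : ℝ) - a) := by positivity
  have hrs : r3 n ≤ Real.sqrt (r3 n) := by
    apply Real.le_sqrt_of_sq_le
    have := r3_le_one' n
    nlinarith
  rw [← hdl]
  have htriv : |EE (n + 1) G - EE n G| ≤ 1 := by
    have k0 : ∀ m, 0 ≤ EE m G := fun m => by
      unfold EE
      exact div_nonneg (Finset.sum_nonneg fun w _ => h0 w) (SW_card_pos m).le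
    have k1 : ∀ m, EE m G ≤ 1 := fun m => by
      unfold EE
      rw [div_le_one (SW_card_pos m)]
      calc ∑ w ∈ SW m, G w ≤ ∑ w ∈ SW m, (1 : ℝ) := Finset.sum_le_sum fun w _ => h1 w
        _ = _ := by simp
    rw [abs_le]
    constructor <;> linarith [k0 n, k1 n, k0 (n + 1), k1 (n + 1)]
  rcases Nat.lt_or_ge n 3 with hn3 | hn3
  · -- `n = 2`
    have hn2 : n = 2 := by omega
    have h4 : (1 / 100 : ℝ) ≤ r3 n := by
      rw [hn2]
      unfold r3
      apply Real.le_sqrt_of_sq_le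
      have := Real.log_two_gt_d9
      push_cast
      nlinarith
    have h5 : (1 / 10 : ℝ) ≤ Real.sqrt (r3 n) := by
      apply Real.le_sqrt_of_sq_le
      linarith
    have h6 : 0 ≤ (C1 + 12 * C2) * (Real.sqrt (r3 n) + 1 / Real.sqrt ((n : ℝ) - a)) := by
      positivity
    nlinarith
  rcases le_or_gt (C2 * r3 n) (1 / 2) with hc | hc
  · have h4 : |tt n - 3 / H981.mu| ≤ 6 * (C2 * r3 n) := by
      obtain ⟨y, hy⟩ : ∃ y, y = Real.sqrt (rh n) / H981.mu := ⟨_, rfl⟩
      have hrp := rh_pos n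
      have hsp : 0 < Real.sqrt (rh n) := Real.sqrt_pos.mpr hrp
      have hy0 : 0 < y := by rw [hy]; positivity
      have hy2 : y ^ 2 = rh n / H981.mu ^ 2 := by
        rw [hy, div_pow, Real.sq_sqrt hrp.le]
      have h5 := hr n hn3
      rw [← hy2] at h5
      have h6 := abs_le.mp h5
      have hyl : 1 / 2 ≤ y := by nlinarith
      have h7 : |1 - y| ≤ C2 * r3 n := by
        refine le_trans ?_ h5
        have e : y ^ 2 - 1 = -((1 - y) * (1 + y)) := by ring
        rw [e, abs_neg, abs_mul]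
        have : 1 ≤ |1 + y| := by rw [abs_of_pos (by linarith)]; linarith
        exact le_mul_of_one_le_right (abs_nonneg _) this
      have h8 : tt n - 3 / H981.mu = 3 / H981.mu * ((1 - y) * (1 / y)) := by
        unfold tt
        rw [hy]
        field_simp
      rw [h8, abs_mul, abs_mul, abs_of_pos (show 0 < 3 / H981.mu by positivity),
        abs_of_pos (show 0 < 1 / y by positivity)]
      have h9 : 3 / H981.mu ≤ 3 := by rw [div_le_iff₀ hmu0]; linarith
      have h10 : 1 / y ≤ 2 := by rw [div_le_iff₀ hy0]; linarith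
      have h11 : 0 ≤ C2 * r3 n := by positivity
      calc 3 / H981.mu * (|1 - y| * (1 / y)) ≤ 3 * (C2 * r3 n * 2) := by gcongr
        _ = _ := by ring
    have h5 := dl_lip (s := 3 / H981.mu) (t := tt n) (by positivity)
      (by unfold tt; positivity)
    have h6 : C2 * r3 n ≤ C2 * Real.sqrt (r3 n) := by gcongr
    have h7 : 0 ≤ C2 * (1 / Real.sqrt ((n : ℝ) - a)) := by positivity
    nlinarith
  · have h4 := htriv
    have h6 : C2 * r3 n ≤ C2 * Real.sqrt (r3 n) := by gcongr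
    have h7 : 0 ≤ C2 * (1 / Real.sqrt ((n : ℝ) - a)) := by positivity
    nlinarith

end

end Pool.Agent.R956
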