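import Pool.Agent.R956.T1
import Pool.Agent.Y981.SW.Sq

/-!
# Laws of functionals of the rescaled walk: tightness
-/

set_option autoImplicit false
set_option linter.unusedVariables false

namespace Pool.Agent.R956

open Pool.Agent.H976R2 MeasureTheory Filter Topology Set
open scoped ENNReal NNReal BoundedContinuousFunction

noncomputable section

variable {E : Type*} [TopologicalSpace E] [MeasurableSpace E] [BorelSpace E]

/-- the law of `Φ (X_n)`, as a measure -/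
def lawM (Φ : C(unitInterval, ℂ) → E) (n : ℕ) : Measure E :=
  ((SW n).card : ℝ≥0∞)⁻¹ • ∑ w ∈ SW n, Measure.dirac (Φ (Xs (sd n) w))

lemma card_ne (n : ℕ) : (SW n).card ≠ 0 := by
  have := SW_card_pos n
  intro h
  rw [h] at this
  simp at this

instance isProb (Φ : C(unitInterval, ℂ) → E) (n : ℕ) : IsProbabilityMeasure (lawM Φ n) := by
  refine ⟨?_⟩
  unfold lawM
  rw [Measure.smul_apply, Measure.finsetSum_apply]
  simp only [measure_univ, Finset.sum_const, nsmul_eq_mul, mul_one, smul_eq_mul]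
  exact ENNReal.inv_mul_cancel (by exact_mod_cast card_ne n) (ENNReal.natCast_ne_top _)

/-- the law of `Φ (X_n)` -/
def law (Φ : C(unitInterval, ℂ) → E) (n : ℕ) : ProbabilityMeasure E := ⟨lawM Φ n, isProb Φ n⟩

theorem integral_law (Φ : C(unitInterval, ℂ) → E) (n : ℕ) {f : E → ℝ}
    (hf : StronglyMeasurable f) :
    ∫ x, f x ∂(law Φ n : Measure E) = EE n (fun w => f (Φ (Xs (sd n) w))) := by
  have hint : ∀ a : E, Integrable f (Measure.dirac a) := by
    intro a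
    refine ⟨hf.aestronglyMeasurable, ?_⟩
    unfold HasFiniteIntegral
    rw [lintegral_dirac' _ hf.enorm]
    exact enorm_lt_top
  show ∫ x, f x ∂(lawM Φ n) = _
  unfold lawM EE
  rw [integral_smul_measure, integral_finsetSum_measure (fun w _ => hint _)]
  simp only [integral_dirac' _ _ hf, smul_eq_mul, ENNReal.toReal_inv, ENNReal.toReal_natCast]
  rw [inv_mul_eq_div]

lemma norm_Xs_le {s : ℝ} (hs : 0 < s) (w : List Dir) :
    ‖Xs s w‖ ≤ (Real.sqrt (mxsq w) + 1) / s := by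
  have hR : (0 : ℝ) ≤ Real.sqrt (mxsq w) + 1 := by positivity
  rw [ContinuousMap.norm_le _ (by positivity)]
  intro t
  show ‖((s⁻¹ : ℝ) : ℂ) * ZZ w ((w.length : ℝ) * (t : ℝ))‖ ≤ _
  have ht0 : (0 : ℝ) ≤ (t : ℝ) := t.2.1
  have ht1 : (t : ℝ) ≤ 1 := t.2.2
  have hn : (0 : ℝ) ≤ w.length := Nat.cast_nonneg _
  have h4 : ‖ZZ w ((w.length : ℝ) * (t : ℝ))‖ ≤ Real.sqrt (mxsq w) + 1 := by
    refine Geo.KGeo.norm_ZZ w _ (mul_nonneg hn ht0) ?_
    calc (w.length : ℝ) * (t : ℝ) ≤ w.length * 1 := mul_le_mul_of_nonneg_left ht1 hn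
      _ = _ := mul_one _
  rw [norm_mul, Complex.norm_real, Real.norm_eq_abs, abs_of_pos (inv_pos.mpr hs), div_eq_inv_mul]
  exact mul_le_mul_of_nonneg_left h4 (inv_pos.mpr hs).le

lemma mxsq_nonneg (w : List Dir) : 0 ≤ mxsq w := by
  unfold mxsq
  have h : H976R2.sq (w.take 0) ≤ (Finset.range (w.length + 1)).sup' ⟨0, by simp⟩
      (fun k => H976R2.sq (w.take k)) := Finset.le_sup' (fun k => H976R2.sq (w.take k)) (by simp)
  have h0 : 0 ≤ H976R2.sq (w.take 0) := by unfold H976R2.sq; positivity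
  linarith

lemma sum_norm_sq {n : ℕ} (hn : 1 ≤ n) :
    ∑ w ∈ SW n, ‖Xs (sd n) w‖ ^ 2 ≤ 10549506 * ((SW n).card : ℝ) := by
  have hs := sd_pos hn
  have hc := SW_card_pos n
  have hmsd : (1 : ℝ) ≤ EE n H976R2.sq := by
    unfold EE
    rw [le_div_iff₀ hc, one_mul]
    exact card_le_mom good_sq hn
  have hsd2 : sd n ^ 2 = EE n H976R2.sq := by
    unfold sd; rw [Real.sq_sqrt]; linarith
  have h1 : ∀ w ∈ SW n, ‖Xs (sd n) w‖ ^ 2 ≤ 2 * (mxsq w + 1) / EE n H976R2.sq := by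
    intro w _
    have h2 := norm_Xs_le hs w
    have h3 := mxsq_nonneg w
    have h4 := Real.sq_sqrt h3
    calc ‖Xs (sd n) w‖ ^ 2 ≤ ((Real.sqrt (mxsq w) + 1) / sd n) ^ 2 :=
          pow_le_pow_left₀ (norm_nonneg _) h2 2
      _ = (Real.sqrt (mxsq w) + 1) ^ 2 / EE n H976R2.sq := by rw [div_pow, hsd2]
      _ ≤ 2 * (mxsq w + 1) / EE n H976R2.sq := by
          gcongr
          nlinarith [sq_nonneg (Real.sqrt (mxsq w) - 1)]
  refine (Finset.sum_le_sum h1).trans ?_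
  rw [← Finset.sum_div, div_le_iff₀ (by linarith), ← Finset.mul_sum, Finset.sum_add_distrib]
  have h5 := Pool.Agent.Y981.SW.max_le' hn
  have h6 : ∑ w ∈ SW n, H976R2.sq w = EE n H976R2.sq * ((SW n).card : ℝ) := by
    unfold EE; rw [div_mul_cancel₀ _ hc.ne']
  rw [h6] at h5
  simp only [Finset.sum_const, nsmul_eq_mul, mul_one]
  have h7 : ((SW n).card : ℝ) ≤ EE n H976R2.sq * ((SW n).card : ℝ) := le_mul_of_one_le_left hc.le hmsd
  nlinarith

lemma card_large {n : ℕ} {R : ℝ} (hR : 0 < R) :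
    (((SW n).filter (fun w => R < ‖Xs (sd n) w‖)).card : ℝ) ≤
      10549506 / R ^ 2 * ((SW n).card : ℝ) := by
  classical
  rcases Nat.eq_zero_or_pos n with hn | hn
  · subst hn
    have h1 : (SW 0).filter (fun w => R < ‖Xs (sd 0) w‖) = ∅ := by
      rw [Finset.filter_eq_empty_iff]
      intro w hw
      have hl := (mem_SW.mp hw).1
      have h2 : w = [] := List.length_eq_zero_iff.mp hl
      have h3 : Xs (sd 0) w = 0 := by
        ext t
        rw [h2]
        show ((sd 0)⁻¹ : ℝ) * ZZ [] _ = 0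
        unfold ZZ
        simp
      rw [h3, norm_zero]
      exact not_lt.mpr hR.le
    rw [h1]
    simp only [Finset.card_empty, Nat.cast_zero]
    positivity
  · have h := sum_norm_sq (n := n) hn
    rw [div_mul_eq_mul_div, le_div_iff₀ (by positivity)]
    refine le_trans ?_ h
    calc (((SW n).filter (fun w => R < ‖Xs (sd n) w‖)).card : ℝ) * R ^ 2
        = ∑ w ∈ (SW n).filter (fun w => R < ‖Xs (sd n) w‖), R ^ 2 := by
          rw [Finset.sum_const, nsmul_eq_mul]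
      _ ≤ ∑ w ∈ (SW n).filter (fun w => R < ‖Xs (sd n) w‖), ‖Xs (sd n) w‖ ^ 2 := by
          refine Finset.sum_le_sum fun w hw => ?_
          have := (Finset.mem_filter.mp hw).2
          gcongr
      _ ≤ ∑ w ∈ SW n, ‖Xs (sd n) w‖ ^ 2 :=
          Finset.sum_le_sum_of_subset_of_nonneg (Finset.filter_subset _ _)
            (fun _ _ _ => sq_nonneg _)

lemma lawM_compl_le (Φ : C(unitInterval, ℂ) → E) {K : Set E} (hK : MeasurableSet K) {R : ℝ}
    (hR : 0 < R) (h : ∀ x, ‖x‖ ≤ R → Φ x ∈ K) (n : ℕ) :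
    lawM Φ n Kᶜ ≤ ENNReal.ofReal (10549506 / R ^ 2) := by
  classical
  unfold lawM
  rw [Measure.smul_apply, Measure.finsetSum_apply, smul_eq_mul]
  have h1 : ∀ w ∈ SW n, Measure.dirac (Φ (Xs (sd n) w)) Kᶜ ≤
      if R < ‖Xs (sd n) w‖ then (1 : ℝ≥0∞) else 0 := by
    intro w _
    rw [Measure.dirac_apply' _ hK.compl]
    split_ifs with h2
    · exact indicator_le_self' (fun _ _ => zero_le) _ |>.trans (by simp)
    · have h3 : Φ (Xs (sd n) w) ∈ K := h _ (not_lt.mp h2)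
      rw [indicator_of_notMem]
      simpa using h3
  have h2 : ∑ w ∈ SW n, Measure.dirac (Φ (Xs (sd n) w)) Kᶜ ≤
      (((SW n).filter (fun w => R < ‖Xs (sd n) w‖)).card : ℝ≥0∞) := by
    refine (Finset.sum_le_sum h1).trans ?_
    rw [Finset.sum_ite]
    simp
  have h3 := card_large (n := n) hR
  have hc := SW_card_pos n
  have h4 : (((SW n).filter (fun w => R < ‖Xs (sd n) w‖)).card : ℝ≥0∞) ≤
      ENNReal.ofReal (10549506 / R ^ 2) * ((SW n).card : ℝ≥0∞) := by
    have e1 : (((SW n).filter (fun w => R < ‖Xs (sd n) w‖)).card : ℝ≥0∞) =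
        ENNReal.ofReal (((SW n).filter (fun w => R < ‖Xs (sd n) w‖)).card : ℝ) := by
      rw [ENNReal.ofReal_natCast]
    have e2 : ((SW n).card : ℝ≥0∞) = ENNReal.ofReal ((SW n).card : ℝ) := by
      rw [ENNReal.ofReal_natCast]
    rw [e1, e2, ← ENNReal.ofReal_mul (by positivity)]
    exact ENNReal.ofReal_le_ofReal h3
  calc ((SW n).card : ℝ≥0∞)⁻¹ * ∑ w ∈ SW n, Measure.dirac (Φ (Xs (sd n) w)) Kᶜ
      ≤ ((SW n).card : ℝ≥0∞)⁻¹ * (ENNReal.ofReal (10549506 / R ^ 2) * ((SW n).card : ℝ≥0∞)) := by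
        gcongr
        exact h2.trans h4
    _ = ENNReal.ofReal (10549506 / R ^ 2) := by
        rw [mul_comm, mul_assoc, ENNReal.mul_inv_cancel (by exact_mod_cast card_ne n)
          (ENNReal.natCast_ne_top _), mul_one]

theorem tight [T2Space E] (Φ : C(unitInterval, ℂ) → E)
    (hΦ : ∀ R : ℝ, IsCompact (closure (Φ '' Metric.closedBall 0 R))) (φ : ℕ → ℕ) :
    IsCompact (closure (range fun j => law Φ (φ j))) := by
  apply isCompact_closure_of_isTightMeasureSet
  rw [isTightMeasureSet_iff_exists_isCompact_measure_compl_le]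
  intro ε hε
  obtain ⟨δ, hδ0, hδ⟩ := ENNReal.lt_iff_exists_nnreal_btwn.mp hε
  have hδ0' : (0 : ℝ) < δ := by exact_mod_cast hδ0
  obtain ⟨R, hR⟩ : ∃ R : ℝ, R = Real.sqrt (10549506 / δ) := ⟨_, rfl⟩
  have hR0 : 0 < R := by rw [hR]; positivity
  have hR2 : 10549506 / R ^ 2 = δ := by
    rw [hR, Real.sq_sqrt (by positivity)]
    field_simp
  refine ⟨closure (Φ '' Metric.closedBall 0 R), hΦ R, ?_⟩
  rintro μ ⟨ν, ⟨j, rfl⟩, rfl⟩
  show lawM Φ (φ j) _ ≤ ε
  refine (lawM_compl_le Φ (hΦ R).measurableSet hR0 (fun x hx => subset_closure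
    ⟨x, by simpa using hx, rfl⟩) (φ j)).trans ?_
  rw [hR2]
  have : ENNReal.ofReal (δ : ℝ) = (δ : ℝ≥0∞) := by simp
  rw [this]
  exact hδ.le

end

end Pool.Agent.R956
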