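import Pool.Agent.R956.T2

/-!
# Limit laws of functionals of the rescaled walk
-/

set_option autoImplicit false
set_option linter.unusedVariables false

namespace Pool.Agent.R956

open Pool.Agent.H976R2 MeasureTheory Filter Topology Set
open Pool.Agent.Y981.SW (r3 r3_nonneg r3_tendsto merge_all)
open scoped ENNReal NNReal BoundedContinuousFunction

noncomputable section

/-- bounded uniformly continuous functions are uniform limits of Lipschitz functions -/
theorem lip_approx {X : Type*} [MetricSpace X] [Nonempty X] (g : X → ℝ) (hb : ∀ x, |g x| ≤ 1)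
    (hu : UniformContinuous g) {ε : ℝ} (hε : 0 < ε) : ∃ (L : ℝ) (h : X → ℝ), 1 ≤ L ∧
      (∀ x y, |h x - h y| ≤ L * dist x y) ∧ (∀ x, |h x| ≤ 1) ∧ ∀ x, |h x - g x| ≤ ε := by
  obtain ⟨δ, hδ, hg⟩ := Metric.uniformContinuous_iff.mp hu ε hε
  obtain ⟨L, hL⟩ : ∃ L, L = max 1 (2 / δ) := ⟨_, rfl⟩
  have hL1 : 1 ≤ L := by rw [hL]; exact le_max_left _ _
  have hL2 : 2 ≤ L * δ := by
    have : 2 / δ ≤ L := by rw [hL]; exact le_max_right _ _
    rwa [div_le_iff₀ hδ] at this
  have hlow : ∀ x y, -1 ≤ g y + L * dist x y := by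
    intro x y
    have h1 := (abs_le.mp (hb y)).1
    have h2 : 0 ≤ L * dist x y := by positivity
    linarith
  have hbdd : ∀ x, BddBelow (range fun y => g y + L * dist x y) := by
    intro x
    refine ⟨-1, ?_⟩
    rintro _ ⟨y, rfl⟩
    exact hlow x y
  refine ⟨L, fun x => ⨅ y, (g y + L * dist x y), hL1, ?_, ?_, ?_⟩
  · have key : ∀ x y, (⨅ z, (g z + L * dist x z)) ≤ (⨅ z, (g z + L * dist y z)) + L * dist x y := by
      intro x y
      rw [← sub_le_iff_le_add]
      refine le_ciInf fun z => ?_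
      have h1 := ciInf_le (hbdd x) z
      have h2 : dist x z ≤ dist x y + dist y z := dist_triangle _ _ _
      have h3 : L * dist x z ≤ L * (dist x y + dist y z) := by gcongr
      linarith
    intro x y
    rw [abs_le]
    have h1 := key x y
    have h2 := key y x
    rw [dist_comm y x] at h2
    constructor <;> linarith
  · intro x
    rw [abs_le]
    constructor
    · exact le_ciInf fun y => hlow x y
    · refine (ciInf_le (hbdd x) x).trans ?_
      simp only [dist_self, mul_zero, add_zero]
      exact (abs_le.mp (hb x)).2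
  · intro x
    have h1 : (⨅ y, (g y + L * dist x y)) ≤ g x := by
      refine (ciInf_le (hbdd x) x).trans ?_
      simp
    have h2 : g x - ε ≤ ⨅ y, (g y + L * dist x y) := by
      refine le_ciInf fun y => ?_
      rcases lt_or_ge (dist x y) δ with h | h
      · have h3 := hg h
        rw [Real.dist_eq] at h3
        have h4 := (abs_lt.mp h3).2
        have h5 : 0 ≤ L * dist x y := by positivity
        linarith
      · have h3 : 2 ≤ L * dist x y := by
          refine hL2.trans ?_
          gcongr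
        have h4 := (abs_le.mp (hb y)).1
        have h5 := (abs_le.mp (hb x)).2
        linarith
    rw [abs_le]
    constructor <;> linarith

lemma EE_sub_abs_le {n : ℕ} {F G : List Dir → ℝ} {c : ℝ} (h : ∀ w, |F w - G w| ≤ c) :
    |EE n F - EE n G| ≤ c := by
  have hc := SW_card_pos n
  unfold EE
  rw [← sub_div, ← Finset.sum_sub_distrib, abs_div, abs_of_pos hc, div_le_iff₀ hc]
  refine (Finset.abs_sum_le_sum_abs _ _).trans ?_
  calc ∑ w ∈ SW n, |F w - G w| ≤ ∑ w ∈ SW n, c := Finset.sum_le_sum fun w _ => h w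
    _ = c * ((SW n).card : ℝ) := by rw [Finset.sum_const, nsmul_eq_mul, mul_comm]

/-- merging for uniformly continuous functions -/
theorem merge_uc (g : C(unitInterval, ℂ) → ℝ) (hb : ∀ x, |g x| ≤ 1) (hu : UniformContinuous g) :
    Tendsto (fun n => EE (n + 2) (fun w => g (Xs (sd (n + 2)) w)) -
      EE n (fun w => g (Xs (sd n) w))) atTop (𝓝 0) := by
  obtain ⟨C, hC, hm⟩ := merge_all
  rw [Metric.tendsto_atTop]
  intro ε hε
  obtain ⟨L, h, hL1, hL, hh, hap⟩ := lip_approx g hb hu (show 0 < ε / 4 by positivity)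
  have hLp : 0 < L := by linarith
  have hlim : Tendsto (fun n : ℕ => L * (C * Real.sqrt (r3 n))) atTop (𝓝 0) := by
    have h1 := (r3_tendsto.sqrt.const_mul C).const_mul L
    simpa using h1
  obtain ⟨N, hN⟩ := Filter.eventually_atTop.mp
    (hlim.eventually (gt_mem_nhds (show (0 : ℝ) < ε / 4 by positivity)))
  refine ⟨max N 2, fun n hn => ?_⟩
  have hn2 : 2 ≤ n := (le_max_right _ _).trans hn
  have hnN := hN n ((le_max_left _ _).trans hn)
  rw [Real.dist_eq, sub_zero]
  have h1 := hm n 1 hn2 (fun x => h x / L) (fun x => by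
      rw [abs_div, abs_of_pos hLp, div_le_one hLp]
      exact (hh x).trans hL1) (by
      apply LipschitzWith.of_dist_le_mul
      intro x y
      rw [Real.dist_eq, NNReal.coe_one, one_mul, ← sub_div, abs_div, abs_of_pos hLp,
        div_le_iff₀ hLp, mul_comm]
      exact hL x y)
  simp only [mul_one, Nat.cast_one, one_mul] at h1
  have h2 : |EE (n + 2) (fun w => h (Xs (sd (n + 2)) w)) - EE n (fun w => h (Xs (sd n) w))| ≤
      L * (C * Real.sqrt (r3 n)) := by
    have e : ∀ m : ℕ, EE m (fun w => h (Xs (sd m) w) / L) =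
        EE m (fun w => h (Xs (sd m) w)) / L := by
      intro m
      unfold EE
      rw [← Finset.sum_div, div_right_comm]
    rw [e, e, ← sub_div, abs_div, abs_of_pos hLp, div_le_iff₀ hLp] at h1
    linarith
  have h3 : |EE (n + 2) (fun w => g (Xs (sd (n + 2)) w)) -
      EE (n + 2) (fun w => h (Xs (sd (n + 2)) w))| ≤ ε / 4 :=
    EE_sub_abs_le fun w => by rw [abs_sub_comm]; exact hap _
  have h4 : |EE n (fun w => g (Xs (sd n) w)) - EE n (fun w => h (Xs (sd n) w))| ≤ ε / 4 :=
    EE_sub_abs_le fun w => by rw [abs_sub_comm]; exact hap _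
  have h5 := abs_le.mp (h2.trans hnN.le)
  have h6 := abs_le.mp h3
  have h7 := abs_le.mp h4
  rw [abs_lt]
  constructor <;> linarith

variable {E : Type*} [UniformSpace E] [(uniformity E).IsCountablyGenerated] [T0Space E]
  [SecondCountableTopology E] [MeasurableSpace E] [BorelSpace E]

/-- merging of the laws along subsequences -/
theorem merge_law (Φ : C(unitInterval, ℂ) → E) (hu : UniformContinuous Φ) (p : ℕ) (ψ : ℕ → ℕ)
    (ν : ProbabilityMeasure E) (hψ : StrictMono ψ)
    (h : Tendsto ((fun j => law Φ (2 * j + p)) ∘ ψ) atTop (𝓝 ν)) :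
    Tendsto (fun n => law Φ (2 * (ψ n + 1) + p)) atTop (𝓝 ν) := by
  letI : MetricSpace E := UniformSpace.metricSpace E
  rw [tendsto_iff_forall_lipschitz_integral_tendsto] at h ⊢
  rintro f ⟨B, hB⟩ ⟨L, hL⟩
  have h1 := h f ⟨B, hB⟩ ⟨L, hL⟩
  have hsm : StronglyMeasurable f := hL.continuous.stronglyMeasurable
  simp only [Function.comp_apply, integral_law Φ _ hsm] at h1 ⊢
  -- normalise the function
  obtain ⟨M, hM⟩ : ∃ M, M = |f (Φ 0)| + |B| + 1 := ⟨_, rfl⟩
  have hMp : 0 < M := by rw [hM]; positivity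
  have hfM : ∀ x, |f x| ≤ M := by
    intro x
    have h2 := hB x (Φ 0)
    rw [Real.dist_eq] at h2
    have h3 : |f x| ≤ |f x - f (Φ 0)| + |f (Φ 0)| := by
      have := abs_add_le (f x - f (Φ 0)) (f (Φ 0))
      simpa using this
    have h4 := le_abs_self B
    rw [hM]; linarith
  have hg := merge_uc (fun x => f (Φ x) / M) (fun x => by
      rw [abs_div, abs_of_pos hMp, div_le_one hMp]; exact hfM _)
    (by
      have e : (fun x => f (Φ x) / M) = (fun y : ℝ => M⁻¹ * y) ∘ (f ∘ Φ) := by
        funext x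
        simp only [Function.comp_apply]
        rw [div_eq_inv_mul]
      rw [e]
      exact (Real.uniformContinuous_const_mul (x := M⁻¹)).comp (hL.uniformContinuous.comp hu))
  have e : ∀ m : ℕ, EE m (fun w => f (Φ (Xs (sd m) w)) / M) =
      EE m (fun w => f (Φ (Xs (sd m) w))) / M := by
    intro m
    unfold EE
    rw [← Finset.sum_div, div_right_comm]
  simp only [e, ← sub_div] at hg
  have hg2 := hg.mul_const M
  simp only [div_mul_cancel₀ _ hMp.ne', zero_mul] at hg2
  have hsub : Tendsto (fun n => 2 * ψ n + p) atTop atTop := by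
    refine tendsto_atTop_mono (fun n => ?_) hψ.tendsto_atTop
    omega
  have hg3 := hg2.comp hsub
  have hsum := hg3.add h1
  rw [zero_add] at hsum
  refine hsum.congr fun n => ?_
  simp only [Function.comp_apply]
  have e2 : 2 * (ψ n + 1) + p = 2 * ψ n + p + 2 := by ring
  rw [e2]
  ring

/-- **the structure of the set of limit laws** -/
theorem limit_laws (Φ : C(unitInterval, ℂ) → E) (hu : UniformContinuous Φ)
    (hc : ∀ R : ℝ, IsCompact (closure (Φ '' Metric.closedBall 0 R))) (p : ℕ) :
    (Lim (fun j => law Φ (2 * j + p))).Nonempty ∧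
    IsCompact (Lim (fun j => law Φ (2 * j + p))) ∧
    IsPreconnected (Lim (fun j => law Φ (2 * j + p))) ∧
    (∀ φ : ℕ → ℕ, StrictMono φ → ∃ ν ∈ Lim (fun j => law Φ (2 * j + p)), ∃ ψ : ℕ → ℕ,
      StrictMono ψ ∧ Tendsto (fun j => law Φ (2 * φ (ψ j) + p)) atTop (𝓝 ν)) ∧
    ((∃ ν, Lim (fun j => law Φ (2 * j + p)) = {ν} ∧
        Tendsto (fun j => law Φ (2 * j + p)) atTop (𝓝 ν)) ∨
      ¬ (Lim (fun j => law Φ (2 * j + p))).Countable) := by
  haveI : TopologicalSpace.MetrizableSpace (ProbabilityMeasure E) := by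
    letI : MetricSpace E := UniformSpace.metricSpace E
    infer_instance
  have hcomp := tight Φ hc (fun j => 2 * j + p)
  obtain ⟨x, hx, -⟩ := exists_lim hcomp (φ := id) strictMono_id
  have hpre := lim_preconnected hcomp (fun ψ ν h1 h2 => merge_law Φ hu p ψ ν h1 h2)
  refine ⟨⟨x, hx⟩, hcomp.of_isClosed_subset (lim_closed _) (lim_subset _), hpre, ?_, ?_⟩
  · intro φ hφ
    obtain ⟨ν, h1, ψ, h2, h3⟩ := exists_lim hcomp hφ
    exact ⟨ν, h1, ψ, h2, h3⟩
  · by_cases h : ∀ y ∈ Lim (fun j => law Φ (2 * j + p)), y = x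
    · left
      have h1 : Lim (fun j => law Φ (2 * j + p)) ⊆ {x} := fun y hy => by
        rw [mem_singleton_iff]; exact h y hy
      exact ⟨x, subset_antisymm h1 (by simpa using hx), tendsto_of_lim_subsingleton hcomp h1⟩
    · right
      push Not at h
      obtain ⟨y, hy, hne⟩ := h
      letI : MetricSpace (ProbabilityMeasure E) :=
        TopologicalSpace.metrizableSpaceMetric (ProbabilityMeasure E)
      exact uncountable_of_connected hpre hx hy hne.symm

end

end Pool.Agent.R956
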