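import Pool.Agent.TH966.KO.Rates

/-!
# Self-avoiding walks on `ℤ³`: one more step gives at most five times as many walks
-/

set_option autoImplicit false

namespace Pool.Agent.R956.Z1

open Finset Filter Topology KN
open scoped Classical

theorem c_step (n : ℕ) : TH966.KO.c (n + 1 + 1) ≤ 5 * TH966.KO.c (n + 1) := by
  unfold TH966.KO.c
  rw [TH966.KO.BR.c_eq, TH966.KO.BR.c_eq]
  have h1 : (W (n + 1 + 1)).filter SAW ⊆ ((W (n + 1)).filter SAW).biUnion (fun u =>
      ((univ : Finset Dir).erase (neg (u.headD .xp))).image (fun d => d :: u)) := by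
    intro w hw
    rw [mem_filter, mem_W] at hw
    obtain ⟨h1, h2⟩ := hw
    have h3 := TH966.KO.nb_of_saw h2
    match w, h1, h2, h3 with
    | x :: y :: l, h1, h2, h3 =>
      rw [mem_biUnion]
      unfold KN.FIVE.NB at h3
      rw [List.isChain_cons_cons] at h3
      refine ⟨y :: l, ?_, ?_⟩
      · rw [mem_filter, mem_W]
        refine ⟨by simpa using h1, ?_⟩
        unfold SAW at h2 ⊢
        rw [path] at h2
        exact (List.nodup_cons.mp h2).2
      · rw [mem_image]
        exact ⟨x, mem_erase.2 ⟨h3.1, mem_univ _⟩, rfl⟩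
  have h2 : ∀ u ∈ (W (n + 1)).filter SAW, (((univ : Finset Dir).erase (neg (u.headD .xp))).image
      (fun d => d :: u)).card ≤ 5 := by
    intro u _
    refine card_image_le.trans ?_
    rw [card_erase_of_mem (mem_univ _), card_univ]
    exact le_of_eq (by rfl)
  have h3 := (card_le_card h1).trans (card_biUnion_le_card_mul _ _ _ h2)
  omega

end Pool.Agent.R956.Z1
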