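import Pool.Agent.R956.Z2

/-!
# Submultiplicative sequences with slowly varying two-step ratios: amplitudes
-/

set_option autoImplicit false
set_option linter.unusedVariables false

namespace Pool.Agent.R956.Z4

open Filter Topology Pool.Agent.R956.Z2

variable {c : ℕ → ℝ} {μ : ℝ}

/-- the basic doubling inequality -/
lemma dbl {z : ℕ → ℝ} (hz : Tendsto (fun k : ℕ => z k / 2 ^ k) atTop (𝓝 0))
    (h : ∀ k, 2 * z k ≤ z (k + 1)) : z 0 ≤ 0 := by
  have h1 : ∀ k : ℕ, z 0 ≤ z k / 2 ^ k := by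
    intro k
    induction k with
    | zero => simp
    | succ k ih =>
      refine ih.trans ?_
      rw [div_le_div_iff₀ (by positivity) (by positivity), pow_succ]
      have := h k
      nlinarith [pow_pos (show (0 : ℝ) < 2 by norm_num) k]
  exact ge_of_tendsto' hz h1

lemma small_pow (h : Hy c μ) (a b : ℝ) {n : ℕ} (hn : 1 ≤ n) :
    Tendsto (fun k : ℕ => (y c μ (2 ^ k * n) - a * Real.log ((2 ^ k * n : ℕ) : ℝ) - b) / 2 ^ k) atTop
      (𝓝 0) := by
  have t0 : Tendsto (fun m : ℕ => (y c μ m - a * Real.log m - b) / m) atTop (𝓝 0) := by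
    have l1 : Tendsto (fun m : ℕ => Real.log m / m) atTop (𝓝 0) :=
      (Real.isLittleO_log_id_atTop.tendsto_div_nhds_zero).comp tendsto_natCast_atTop_atTop
    have l3 : Tendsto (fun m : ℕ => b / (m : ℝ)) atTop (𝓝 0) :=
      tendsto_const_nhds.div_atTop tendsto_natCast_atTop_atTop
    have l2 := ((y_small h).sub (l1.const_mul a)).sub l3
    rw [mul_zero, sub_zero, sub_zero] at l2
    refine l2.congr fun m => ?_
    ring
  have t2 : Tendsto (fun k : ℕ => 2 ^ k * n) atTop atTop := by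
    refine tendsto_atTop_mono (fun k => ?_)
      (tendsto_pow_atTop_atTop_of_one_lt (show 1 < 2 by norm_num))
    exact Nat.le_mul_of_pos_right _ hn
  have t3 := (t0.comp t2).mul_const (n : ℝ)
  rw [zero_mul] at t3
  refine t3.congr fun k => ?_
  have hn0 : (0 : ℝ) < n := by exact_mod_cast hn
  simp only [Function.comp_apply]
  push_cast
  field_simp

/-- `c n / (μ^n n^a)` -/
noncomputable def R (c : ℕ → ℝ) (μ a : ℝ) (n : ℕ) : ℝ := c n / (μ ^ n * (n : ℝ) ^ a)

lemma R_pos (h : Hy c μ) (a : ℝ) {n : ℕ} (hn : 1 ≤ n) : 0 < R c μ a n := by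
  have h1 : (0 : ℝ) < n := by exact_mod_cast hn
  have := h.pos n
  have := h.mu
  unfold R
  positivity

lemma log_R (h : Hy c μ) (a : ℝ) {n : ℕ} (hn : 1 ≤ n) :
    Real.log (R c μ a n) = y c μ n - a * Real.log n := by
  have h1 : (0 : ℝ) < n := by exact_mod_cast hn
  have := h.pos n
  have := h.mu
  unfold R
  rw [y_eq h, Real.log_div (by positivity) (by positivity),
    Real.log_mul (by positivity) (by positivity), Real.log_rpow h1, Real.log_pow]
  ring

/-- **explicit bounds for the number of walks from bounds for the non-intersection probability** -/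
theorem explicit (h : Hy c μ) {a : ℝ} {n : ℕ} (hn : 1 ≤ n) {b : ℝ} (hb : 0 < b) :
    ((∀ k : ℕ, b * ((2 ^ k * n : ℕ) : ℝ) ^ (-a) ≤ P c (2 ^ k * n) (2 ^ k * n)) →
      R c μ a n ≤ 2 ^ a / b) ∧
    ((∀ k : ℕ, P c (2 ^ k * n) (2 ^ k * n) ≤ b * ((2 ^ k * n : ℕ) : ℝ) ^ (-a)) →
      2 ^ a / b ≤ R c μ a n) := by
  have hpos : ∀ k : ℕ, (0 : ℝ) < ((2 ^ k * n : ℕ) : ℝ) := fun k => by
    have : 1 ≤ 2 ^ k * n := Nat.one_le_iff_ne_zero.mpr (by positivity)
    exact_mod_cast this
  have elog : ∀ k : ℕ, Real.log (b * ((2 ^ k * n : ℕ) : ℝ) ^ (-a)) =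
      Real.log b - a * Real.log ((2 ^ k * n : ℕ) : ℝ) := by
    intro k
    have := hpos k
    rw [Real.log_mul hb.ne' (by positivity), Real.log_rpow this]
    ring
  have eP : ∀ k : ℕ, Real.log (P c (2 ^ k * n) (2 ^ k * n)) =
      y c μ (2 ^ (k + 1) * n) - 2 * y c μ (2 ^ k * n) := by
    intro k
    rw [log_P h, show 2 ^ (k + 1) * n = 2 ^ k * n + 2 ^ k * n by ring]
    ring
  have estep : ∀ k : ℕ, Real.log ((2 ^ (k + 1) * n : ℕ) : ℝ) =
      Real.log 2 + Real.log ((2 ^ k * n : ℕ) : ℝ) := by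
    intro k
    rw [← Real.log_mul (by norm_num) (hpos k).ne']
    congr 1
    push_cast
    ring
  have eR : Real.log (2 ^ a / b) = a * Real.log 2 - Real.log b := by
    rw [Real.log_div (by positivity) hb.ne', Real.log_rpow (by norm_num)]
  have hR := R_pos h a hn
  constructor
  · intro h1
    have h2 := dbl (z := fun k => y c μ (2 ^ k * n) - a * Real.log ((2 ^ k * n : ℕ) : ℝ) -
      (a * Real.log 2 - Real.log b)) (small_pow h a _ hn) (fun k => by
        have h3 := Real.log_le_log (mul_pos hb (Real.rpow_pos_of_pos (hpos k) _)) (h1 k)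
        rw [elog, eP] at h3
        have h4 := estep k
        rw [h4]
        linarith)
    rw [← Real.log_le_log_iff hR (by positivity), log_R h a hn, eR]
    simp only [pow_zero, one_mul] at h2
    linarith
  · intro h1
    have h2 := dbl (z := fun k => -(y c μ (2 ^ k * n) - a * Real.log ((2 ^ k * n : ℕ) : ℝ) -
      (a * Real.log 2 - Real.log b))) (by
        have := (small_pow h a (a * Real.log 2 - Real.log b) hn).neg
        rw [neg_zero] at this
        refine this.congr fun k => ?_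
        ring) (fun k => by
        have h3 := Real.log_le_log (P_pos h _ _) (h1 k)
        rw [elog, eP] at h3
        have h4 := estep k
        rw [h4]
        linarith)
    rw [← Real.log_le_log_iff (by positivity) hR, log_R h a hn, eR]
    simp only [pow_zero, one_mul] at h2
    linarith

/-- **the asymptotic form in terms of the non-intersection probability** -/
theorem iff_amp (h : Hy c μ) (a : ℝ) {A : ℝ} (hA : 0 < A) :
    Tendsto (fun n : ℕ => R c μ a n) atTop (𝓝 A) ↔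
      Tendsto (fun n : ℕ => P c n n * (n : ℝ) ^ a) atTop (𝓝 (2 ^ a / A)) := by
  constructor
  · intro h1
    have t2 : Tendsto (fun n : ℕ => 2 * n) atTop atTop :=
      tendsto_atTop_mono (fun n => show n ≤ 2 * n by omega) tendsto_id
    have h2 := ((h1.comp t2).mul_const ((2 : ℝ) ^ a)).div (h1.pow 2) (by positivity)
    have e : A * 2 ^ a / A ^ 2 = 2 ^ a / A := by field_simp
    rw [e] at h2
    refine h2.congr' ?_
    filter_upwards [eventually_ge_atTop 1] with n hn
    have hn0 : (0 : ℝ) < n := by exact_mod_cast hn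
    have p1 := h.pos n
    have p2 := h.mu
    have p3 : (0 : ℝ) < (n : ℝ) ^ a := by positivity
    have p4 : (0 : ℝ) < (2 : ℝ) ^ a := by positivity
    simp only [Function.comp_apply, Pi.div_apply]
    unfold R P
    push_cast
    rw [Real.mul_rpow (by norm_num) hn0.le, ← two_mul, pow_mul]
    have p5 : (0 : ℝ) < μ ^ n := by positivity
    rw [show (μ ^ 2) ^ n = μ ^ n * μ ^ n by rw [← pow_mul, mul_comm, pow_mul]; ring]
    field_simp
  · intro h1
    have hB : 0 < 2 ^ a / A := by positivity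
    rw [Metric.tendsto_nhds]
    intro η hη
    -- choose bounds close to `B`
    obtain ⟨B, hB'⟩ : ∃ B, B = 2 ^ a / A := ⟨_, rfl⟩
    rw [← hB'] at h1 hB
    have hcont : Tendsto (fun b : ℝ => 2 ^ a / b) (𝓝 B) (𝓝 A) := by
      have h2 : 2 ^ a / B = A := by rw [hB']; field_simp
      have h3 : ContinuousAt (fun b : ℝ => 2 ^ a / b) B := by
        apply ContinuousAt.div continuousAt_const continuousAt_id hB.ne'
      have h4 := h3.tendsto
      rwa [h2] at h4
    obtain ⟨δ, hδ, hδB⟩ := Metric.mem_nhds_iff.mp (hcont (Metric.ball_mem_nhds A hη))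
    obtain ⟨ρ, hρ⟩ : ∃ ρ, ρ = min (δ / 2) (B / 2) := ⟨_, rfl⟩
    have hρ0 : 0 < ρ := by rw [hρ]; positivity
    have hρδ : ρ < δ := by rw [hρ]; exact (min_le_left _ _).trans_lt (by linarith)
    have hρB : ρ < B := by rw [hρ]; exact (min_le_right _ _).trans_lt (by linarith)
    have m1 : 2 ^ a / (B - ρ) ∈ Metric.ball A η := by
      apply hδB
      rw [Metric.mem_ball, Real.dist_eq, abs_lt]
      constructor <;> linarith
    have m2 : 2 ^ a / (B + ρ) ∈ Metric.ball A η := by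
      apply hδB
      rw [Metric.mem_ball, Real.dist_eq, abs_lt]
      constructor <;> linarith
    rw [Metric.mem_ball, Real.dist_eq, abs_lt] at m1 m2
    obtain ⟨N, hN⟩ := eventually_atTop.mp (Metric.tendsto_nhds.mp h1 ρ hρ0)
    filter_upwards [eventually_ge_atTop (N + 1)] with n hn
    have hk : ∀ k : ℕ, N ≤ 2 ^ k * n ∧ 1 ≤ 2 ^ k * n := by
      intro k
      have : n ≤ 2 ^ k * n := Nat.le_mul_of_pos_left _ (by positivity)
      constructor <;> omega
    have key : ∀ k : ℕ, (B - ρ) * ((2 ^ k * n : ℕ) : ℝ) ^ (-a) ≤ P c (2 ^ k * n) (2 ^ k * n) ∧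
        P c (2 ^ k * n) (2 ^ k * n) ≤ (B + ρ) * ((2 ^ k * n : ℕ) : ℝ) ^ (-a) := by
      intro k
      have h4 := hN _ (hk k).1
      have h5 : (0 : ℝ) < ((2 ^ k * n : ℕ) : ℝ) := by exact_mod_cast (hk k).2
      have h6 : (0 : ℝ) < ((2 ^ k * n : ℕ) : ℝ) ^ a := by positivity
      rw [Real.dist_eq, abs_lt] at h4
      rw [Real.rpow_neg h5.le, ← div_eq_mul_inv, ← div_eq_mul_inv, div_le_iff₀ h6, le_div_iff₀ h6]
      constructor <;> linarith
    have g1 := (explicit h (a := a) (show 1 ≤ n by omega) (show 0 < B - ρ by linarith)).1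
      fun k => (key k).1
    have g2 := (explicit h (a := a) (show 1 ≤ n by omega) (show 0 < B + ρ by linarith)).2
      fun k => (key k).2
    rw [Real.dist_eq, abs_lt]
    constructor <;> linarith [m1.1, m1.2, m2.1, m2.2]

/-- the probability that the concatenation of walks of `n`, `m` and `m` steps is self-avoiding -/
noncomputable def T (c : ℕ → ℝ) (n m : ℕ) : ℝ := c (n + 2 * m) / (c n * c m ^ 2)

lemma log_T (h : Hy c μ) (n m : ℕ) :
    Real.log (T c n m) = y c μ (n + 2 * m) - y c μ n - 2 * y c μ m := by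
  have p1 := h.pos n
  have p2 := h.pos m
  have p3 := h.pos (n + 2 * m)
  unfold T
  rw [y_eq h, y_eq h, y_eq h, Real.log_div (by positivity) (by positivity),
    Real.log_mul (by positivity) (by positivity), Real.log_pow]
  push_cast
  ring

/-- the window in which the numbers of walks of one parity do not vary -/
lemma slow (h : Hy c μ) {ε : ℝ} (hε : 0 < ε) (hε3 : ε < 1 / 3) {F : Filter ℕ} {n m : ℕ → ℕ}
    (hn : Tendsto n F atTop)
    (hm : ∀ᶠ k in F, (m k : ℝ) ≤ 2 * (n k : ℝ) ^ (1 / 3 - ε)) (he : ∀ᶠ k in F, Even (m k)) :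
    Tendsto (fun k => y c μ (n k + m k) - y c μ (n k)) F (𝓝 0) := by
  obtain ⟨K, hK0, hK⟩ := y_all h (show 0 < ε / 2 by linarith) (by linarith)
  have t : Tendsto (fun k => 2 * K * (n k : ℝ) ^ (-(ε / 2))) F (𝓝 0) := by
    have := ((tendsto_rpow_neg_atTop (show 0 < ε / 2 by linarith)).comp
      (tendsto_natCast_atTop_atTop.comp hn)).const_mul (2 * K)
    rwa [mul_zero] at this
  rw [tendsto_zero_iff_abs_tendsto_zero]
  refine squeeze_zero' (Eventually.of_forall fun k => abs_nonneg _) ?_ t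
  filter_upwards [hm, he, hn.eventually_ge_atTop 1] with k h1 h2 h3
  have hn0 : (0 : ℝ) < n k := by exact_mod_cast h3
  have g1 : (m k : ℝ) * (n k : ℝ) ^ (-(1 / 3 : ℝ) + ε / 2) ≤ 2 * (n k : ℝ) ^ (-(ε / 2)) := by
    calc (m k : ℝ) * (n k : ℝ) ^ (-(1 / 3 : ℝ) + ε / 2) ≤
          2 * (n k : ℝ) ^ (1 / 3 - ε) * (n k : ℝ) ^ (-(1 / 3 : ℝ) + ε / 2) := by gcongr
      _ = 2 * ((n k : ℝ) ^ (1 / 3 - ε) * (n k : ℝ) ^ (-(1 / 3 : ℝ) + ε / 2)) := by ring
      _ = _ := by
        rw [← Real.rpow_add hn0]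
        congr 2
        ring
  have g2 : (m k : ℝ) * (n k : ℝ) ^ (-(2 / 5 : ℝ) + ε / 2) ≤ 2 * (n k : ℝ) ^ (-(ε / 2)) := by
    refine le_trans ?_ g1
    have := rpow_le_of h3 (show -(2 / 5 : ℝ) + ε / 2 ≤ -(1 / 3 : ℝ) + ε / 2 by linarith)
    gcongr
  obtain ⟨h4, h5⟩ := (hK (n k) h3 (m k)).1 h2
  have g3 := mul_le_mul_of_nonneg_left g1 hK0
  have g4 := mul_le_mul_of_nonneg_left g2 hK0
  simp only [Function.comp_apply]
  rw [abs_le]
  constructor <;> linarith

/-- **three walks** -/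
theorem T_tendsto (h : Hy c μ) {ε : ℝ} (hε : 0 < ε) (hε3 : ε < 1 / 3) {N : ℕ → ℕ}
    (hN : ∀ᶠ m : ℕ in atTop, (m : ℝ) ≤ (N m : ℝ) ^ (1 / 3 - ε)) :
    Tendsto (fun m : ℕ => T c (N m) m * (c m / μ ^ m) ^ 2) atTop (𝓝 1) := by
  have hNt : Tendsto N atTop atTop := by
    refine tendsto_atTop_mono' _ ?_ tendsto_id
    filter_upwards [hN, eventually_ge_atTop 1] with m h1 h2
    have hm : (1 : ℝ) ≤ m := by exact_mod_cast h2
    have hN1 : 1 ≤ N m := by
      by_contra hcon
      have : N m = 0 := by omega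
      rw [this, Nat.cast_zero, Real.zero_rpow (by linarith)] at h1
      linarith
    have h3 : (N m : ℝ) ^ (1 / 3 - ε) ≤ N m := by
      calc (N m : ℝ) ^ (1 / 3 - ε) ≤ (N m : ℝ) ^ (1 : ℝ) := rpow_le_of hN1 (by linarith)
        _ = N m := Real.rpow_one _
    have : (m : ℝ) ≤ N m := h1.trans h3
    exact_mod_cast this
  have h1 := slow h hε hε3 (F := atTop) (n := N) (m := fun m => 2 * m) hNt
    (by filter_upwards [hN] with m hm; push_cast; linarith)
    (Eventually.of_forall fun m => even_two_mul m)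
  have h2 := (Real.continuous_exp.tendsto 0).comp h1
  rw [Real.exp_zero] at h2
  refine h2.congr fun m => ?_
  have p1 := h.pos (N m)
  have p2 := h.pos m
  have p3 := h.pos (N m + 2 * m)
  have p4 := h.mu
  simp only [Function.comp_apply]
  have p5 : 0 < T c (N m) m * (c m / μ ^ m) ^ 2 := by unfold T; positivity
  rw [← Real.exp_log p5, Real.log_mul (by unfold T; positivity) (by positivity), log_T h,
    Real.log_pow]
  congr 1
  unfold y
  push_cast
  ring

lemma R_sq (h : Hy c μ) (a : ℝ) (n : ℕ) {m : ℕ} (hm : 1 ≤ m) :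
    T c n m * (m : ℝ) ^ (2 * a) * R c μ a m ^ 2 = T c n m * (c m / μ ^ m) ^ 2 := by
  have p1 := h.pos n
  have p2 := h.pos m
  have p4 := h.mu
  have hm0 : (0 : ℝ) < m := by exact_mod_cast hm
  have e : (m : ℝ) ^ (2 * a) = ((m : ℝ) ^ a) ^ 2 := by
    rw [mul_comm 2 a, Real.rpow_mul hm0.le]
    norm_num
  have p5 : (0 : ℝ) < (m : ℝ) ^ a := by positivity
  rw [e]
  unfold R
  field_simp

/-- **the asymptotic form in terms of walks of different lengths** -/
theorem iff_T (h : Hy c μ) (a : ℝ) {A : ℝ} (hA : 0 < A) {ε : ℝ} (hε : 0 < ε) (hε3 : ε < 1 / 3)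
    {N : ℕ → ℕ} (hN : ∀ᶠ m : ℕ in atTop, (m : ℝ) ≤ (N m : ℝ) ^ (1 / 3 - ε)) :
    Tendsto (fun n : ℕ => R c μ a n) atTop (𝓝 A) ↔
      Tendsto (fun m : ℕ => T c (N m) m * (m : ℝ) ^ (2 * a)) atTop (𝓝 (1 / A ^ 2)) := by
  have h0 := T_tendsto h hε hε3 hN
  have hTpos : ∀ n m, 0 < T c n m := fun n m => by
    have := h.pos n
    have := h.pos m
    have := h.pos (n + 2 * m)
    unfold T
    positivity
  constructor
  · intro h1
    have h2 := h0.div (h1.pow 2) (by positivity)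
    refine h2.congr' ?_
    filter_upwards [eventually_ge_atTop 1] with m hm
    have hR := R_pos h a hm
    simp only [Pi.div_apply]
    rw [← R_sq h a (N m) hm]
    field_simp
  · intro h1
    have h2 := h0.div h1 (by positivity)
    have h3 : Tendsto (fun m : ℕ => R c μ a m ^ 2) atTop (𝓝 (1 / (1 / A ^ 2))) := by
      refine h2.congr' ?_
      filter_upwards [eventually_ge_atTop 1] with m hm
      have hm0 : (0 : ℝ) < m := by exact_mod_cast hm
      have h4 := hTpos (N m) m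
      have h5 : (0 : ℝ) < (m : ℝ) ^ (2 * a) := by positivity
      simp only [Pi.div_apply]
      rw [← R_sq h a (N m) hm]
      field_simp
    have h4 := (Real.continuous_sqrt.tendsto _).comp h3
    have e : Real.sqrt (1 / (1 / A ^ 2)) = A := by
      rw [one_div_one_div, Real.sqrt_sq hA.le]
    rw [e] at h4
    refine h4.congr' ?_
    filter_upwards [eventually_ge_atTop 1] with m hm
    simp only [Function.comp_apply]
    exact Real.sqrt_sq (R_pos h a hm).le

/-- the set `S` meets `[n, n + n ^ (1/3 - ε)]` for all large `n`: choice of the elements -/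
lemma choose_gap {ε : ℝ} (hε : 0 < ε) {S : Set ℕ}
    (hS : ∀ᶠ n : ℕ in atTop, ∃ m ∈ S, n ≤ m ∧ (m : ℝ) ≤ n + (n : ℝ) ^ (1 / 3 - ε)) :
    ∃ g : ℕ → ℕ, (∀ᶠ n in atTop, g n ∈ S ∧ n ≤ g n ∧ (g n : ℝ) ≤ n + (n : ℝ) ^ (1 / 3 - ε)) ∧
      Tendsto g atTop (atTop ⊓ 𝓟 S) ∧
      Tendsto (fun n : ℕ => Real.log (g n) - Real.log n) atTop (𝓝 0) := by
  obtain ⟨n0, hn0⟩ := eventually_atTop.mp hS
  have hex : ∀ n : ℕ, ∃ m : ℕ, n0 ≤ n → m ∈ S ∧ n ≤ m ∧ (m : ℝ) ≤ n + (n : ℝ) ^ (1 / 3 - ε) := by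
    intro n
    by_cases hn : n0 ≤ n
    · obtain ⟨m, hm⟩ := hn0 n hn
      exact ⟨m, fun _ => hm⟩
    · exact ⟨0, fun h => absurd h hn⟩
  choose g hg using hex
  have hev : ∀ᶠ n in atTop, g n ∈ S ∧ n ≤ g n ∧ (g n : ℝ) ≤ n + (n : ℝ) ^ (1 / 3 - ε) := by
    filter_upwards [eventually_ge_atTop n0] with n hn
    exact hg n hn
  refine ⟨g, hev, ?_, ?_⟩
  · rw [tendsto_inf]
    refine ⟨tendsto_atTop_mono' _ (by filter_upwards [hev] with n hn; exact hn.2.1) tendsto_id,
      tendsto_principal.mpr ?_⟩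
    filter_upwards [hev] with n hn
    exact hn.1
  · have t : Tendsto (fun n : ℕ => (n : ℝ) ^ (-(2 / 3 + ε))) atTop (𝓝 0) :=
      (tendsto_rpow_neg_atTop (show 0 < 2 / 3 + ε by linarith)).comp tendsto_natCast_atTop_atTop
    refine squeeze_zero' ?_ ?_ t
    · filter_upwards [hev, eventually_ge_atTop 1] with n hn h1
      have hn0 : (0 : ℝ) < n := by exact_mod_cast h1
      have h2 : (n : ℝ) ≤ g n := by exact_mod_cast hn.2.1
      have := Real.log_le_log hn0 h2
      linarith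
    · filter_upwards [hev, eventually_ge_atTop 1] with n hn h1
      have hn0 : (0 : ℝ) < n := by exact_mod_cast h1
      have h2 : (n : ℝ) ≤ g n := by exact_mod_cast hn.2.1
      rw [← Real.log_div (by linarith) hn0.ne']
      have h3 := Real.log_le_sub_one_of_pos (show (0 : ℝ) < g n / n by
        have : (0 : ℝ) < g n := by linarith
        positivity)
      have h4 : (g n : ℝ) / n - 1 ≤ (n : ℝ) ^ (1 / 3 - ε) / n := by
        rw [div_sub_one hn0.ne']
        have := hn.2.2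
        gcongr
        linarith
      have h5 : (n : ℝ) ^ (1 / 3 - ε) / n = (n : ℝ) ^ (-(2 / 3 + ε)) := by
        rw [div_eq_mul_inv, ← Real.rpow_neg_one, ← Real.rpow_add hn0]
        congr 1
        ring
      linarith

/-- **sparse sets of lengths of one parity** -/
theorem sparse_same (h : Hy c μ) (a : ℝ) {A : ℝ} (hA : 0 < A) {ε : ℝ} (hε : 0 < ε)
    (hε3 : ε < 1 / 3) {S : Set ℕ} (p : ℕ) (hp : ∀ m ∈ S, m % 2 = p)
    (hS : ∀ᶠ n : ℕ in atTop, ∃ m ∈ S, n ≤ m ∧ (m : ℝ) ≤ n + (n : ℝ) ^ (1 / 3 - ε))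
    (h1 : Tendsto (fun n : ℕ => R c μ a n) (atTop ⊓ 𝓟 S) (𝓝 A)) :
    Tendsto (fun n : ℕ => R c μ a n) (atTop ⊓ 𝓟 {n | n % 2 = p}) (𝓝 A) := by
  obtain ⟨g, hg, tg, tl⟩ := choose_gap hε hS
  obtain ⟨F, hF⟩ : ∃ F, F = (atTop : Filter ℕ) ⊓ 𝓟 {n | n % 2 = p} := ⟨_, rfl⟩
  rw [← hF]
  have hFle : F ≤ atTop := by rw [hF]; exact inf_le_left
  have hFp : ∀ᶠ n in F, n % 2 = p := by
    rw [hF]
    exact mem_inf_of_right (mem_principal_self _)
  have h2 := (h1.comp tg).mono_left hFle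
  have h3 := (Real.continuousAt_log hA.ne').tendsto.comp h2
  have hgF := hg.filter_mono hFle
  have h4 := slow h hε hε3 (F := F) (n := fun n => n) (m := fun n => g n - n)
    (tendsto_id.mono_left hFle)
    (by
      filter_upwards [hgF, hFle (eventually_ge_atTop 1)] with n hn hn1
      rw [Nat.cast_sub hn.2.1]
      have hn0 : (0 : ℝ) < n := by exact_mod_cast hn1
      have : 0 < (n : ℝ) ^ (1 / 3 - ε) := by positivity
      linarith [hn.2.2])
    (by
      filter_upwards [hgF, hFp] with n hn hn2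
      have := hp _ hn.1
      rw [Nat.even_iff]
      omega)
  have h5 := ((h3.sub h4).add ((tl.mono_left hFle).const_mul a))
  rw [mul_zero, sub_zero, add_zero] at h5
  have h6 := (Real.continuous_exp.tendsto _).comp h5
  rw [Real.exp_log hA] at h6
  refine h6.congr' ?_
  filter_upwards [hgF, hFle (eventually_ge_atTop 1)] with n hn hn1
  have hg1 : 1 ≤ g n := hn1.trans hn.2.1
  simp only [Function.comp_apply]
  rw [← Real.exp_log (R_pos h a hn1), log_R h a hg1, log_R h a hn1,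
    show n + (g n - n) = g n by have := hn.2.1; omega]
  congr 1
  ring

/-- **sparse sets of lengths**: bounds for all lengths -/
theorem sparse_all (h : Hy c μ) (a : ℝ) {A : ℝ} (hA : 0 < A) {ε : ℝ} (hε : 0 < ε)
    (hε3 : ε < 1 / 3) {S : Set ℕ}
    (hS : ∀ᶠ n : ℕ in atTop, ∃ m ∈ S, n ≤ m ∧ (m : ℝ) ≤ n + (n : ℝ) ^ (1 / 3 - ε))
    (h1 : Tendsto (fun n : ℕ => R c μ a n) (atTop ⊓ 𝓟 S) (𝓝 A)) {δ : ℝ} (hδ : 0 < δ) :
    ∀ᶠ n : ℕ in atTop, A / (5 / μ + δ) ≤ R c μ a n ∧ R c μ a n ≤ (5 / μ + δ) * A := by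
  obtain ⟨g, hg, tg, tl⟩ := choose_gap hε hS
  have hμ := h.mu
  have h3 := (Real.continuousAt_log hA.ne').tendsto.comp (h1.comp tg)
  obtain ⟨η, hη⟩ : ∃ η, η = Real.log (5 / μ + δ) - Real.log (5 / μ) := ⟨_, rfl⟩
  have hη0 : 0 < η := by
    rw [hη]
    have := Real.log_lt_log (show 0 < 5 / μ by positivity) (show 5 / μ < 5 / μ + δ by linarith)
    linarith
  obtain ⟨K, hK0, hK⟩ := y_all h (show 0 < ε / 2 by linarith) (by linarith)
  have t : Tendsto (fun n : ℕ => K * (n : ℝ) ^ (-(ε / 2))) atTop (𝓝 0) := by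
    have := ((tendsto_rpow_neg_atTop (show 0 < ε / 2 by linarith)).comp
      tendsto_natCast_atTop_atTop).const_mul K
    rwa [mul_zero] at this
  have t2 := tl.const_mul a
  rw [mul_zero] at t2
  filter_upwards [hg, eventually_ge_atTop 1, Metric.tendsto_nhds.mp h3 (η / 3) (by positivity),
    t.eventually_lt_const (show 0 < η / 3 by positivity),
    Metric.tendsto_nhds.mp t2 (η / 3) (by positivity)] with n hn hn1 b1 b2 b3
  have hn0 : (0 : ℝ) < n := by exact_mod_cast hn1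
  have hg1 : 1 ≤ g n := hn1.trans hn.2.1
  have e1 : n + (g n - n) = g n := by have := hn.2.1; omega
  have e2 : ((g n - n : ℕ) : ℝ) = (g n : ℝ) - n := by rw [Nat.cast_sub hn.2.1]
  have b4 : (n : ℝ) ≤ g n := by exact_mod_cast hn.2.1
  obtain ⟨-, c1, c2⟩ := hK n hn1 (g n - n)
  rw [e1, e2] at c1 c2
  have g1 : ((g n : ℝ) - n) * (n : ℝ) ^ (-(1 / 3 : ℝ) + ε / 2) ≤ (n : ℝ) ^ (-(ε / 2)) := by
    calc ((g n : ℝ) - n) * (n : ℝ) ^ (-(1 / 3 : ℝ) + ε / 2) ≤
          (n : ℝ) ^ (1 / 3 - ε) * (n : ℝ) ^ (-(1 / 3 : ℝ) + ε / 2) := by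
            gcongr; linarith [hn.2.2]
      _ = _ := by
        rw [← Real.rpow_add hn0]
        congr 1
        ring
  have g2 : ((g n : ℝ) - n) * (n : ℝ) ^ (-(2 / 5 : ℝ) + ε / 2) ≤ (n : ℝ) ^ (-(ε / 2)) := by
    refine le_trans ?_ g1
    have := rpow_le_of hn1 (show -(2 / 5 : ℝ) + ε / 2 ≤ -(1 / 3 : ℝ) + ε / 2 by linarith)
    have : 0 ≤ (g n : ℝ) - n := by linarith
    gcongr
  have g3 := mul_le_mul_of_nonneg_left g1 hK0
  have g4 := mul_le_mul_of_nonneg_left g2 hK0
  rw [Real.dist_eq] at b1 b3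
  simp only [Function.comp_apply] at b1
  rw [log_R h a hg1] at b1
  rw [sub_zero] at b3
  obtain ⟨d1, d2⟩ := abs_lt.mp b1
  obtain ⟨d3, d4⟩ := abs_lt.mp b3
  have hR := R_pos h a hn1
  have hL : 0 < 5 / μ + δ := by positivity
  constructor
  · rw [← Real.log_le_log_iff (by positivity) hR, Real.log_div hA.ne' hL.ne', log_R h a hn1]
    linarith
  · rw [← Real.log_le_log_iff hR (by positivity), Real.log_mul hL.ne' hA.ne', log_R h a hn1]
    linarith

end Pool.Agent.R956.Z4
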